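import Mathlib

/-!
Partial summation: bounds for Dirichlet series from bounds for partial sums.
-/

set_option autoImplicit false

open Finset Real

namespace Pool.Agent.H22

/-- bound for the partial sums of `g` -/
def PB (g : ℕ → ℂ) (M η : ℝ) (j : ℕ) : Prop :=
  ∀ N : ℕ, 1 ≤ N → ‖∑ k ∈ Finset.Icc 1 N, g k‖ ≤ M * (N : ℝ) ^ (1 - η) * (Real.log N) ^ j

theorem sum_rpow_neg_half (N : ℕ) : ∑ m ∈ Finset.Icc 1 N, (m : ℝ) ^ (-(1 / 2) : ℝ) ≤ 2 * (N : ℝ) ^ (1 / 2 : ℝ) := by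
  induction N with
  | zero => simp
  | succ N ih =>
    rw [Finset.sum_Icc_succ_top (by omega)]
    have h0 : (0 : ℝ) ≤ N := Nat.cast_nonneg N
    have h1 : (0 : ℝ) < ((N + 1 : ℕ) : ℝ) := by positivity
    set a := (N : ℝ) ^ (1 / 2 : ℝ) with ha
    set b := ((N + 1 : ℕ) : ℝ) ^ (1 / 2 : ℝ) with hb
    have ha0 : 0 ≤ a := by positivity
    have hb0 : 0 < b := by positivity
    have ha2 : a * a = N := by
      rw [ha, ← Real.rpow_add_of_nonneg h0 (by norm_num) (by norm_num)]; norm_num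
    have hb2 : b * b = ((N + 1 : ℕ) : ℝ) := by
      rw [hb, ← Real.rpow_add h1]; norm_num
    have hinv : ((N + 1 : ℕ) : ℝ) ^ (-(1 / 2) : ℝ) = 1 / b := by
      rw [Real.rpow_neg h1.le]; exact (one_div _).symm
    rw [hinv]
    push_cast at hb2
    have h3 : 1 / b ≤ 2 * b - 2 * a := by
      rw [div_le_iff₀ hb0]
      nlinarith [sq_nonneg (b - a)]
    linarith

theorem sum_rpow_div (N : ℕ) (η : ℝ) (hη : η ≤ 1 / 2) :
    ∑ m ∈ Finset.Icc 1 N, (m : ℝ) ^ (1 - η) / m ≤ 2 * (N : ℝ) ^ (1 - η) := by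
  rcases Nat.eq_zero_or_pos N with rfl | hN
  · simp; positivity
  have hNr : (0 : ℝ) < N := by exact_mod_cast hN
  have h1 : ∀ m ∈ Finset.Icc 1 N, (m : ℝ) ^ (1 - η) / m ≤
      ((N : ℝ) ^ (1 - η) * (N : ℝ) ^ (-(1 / 2) : ℝ)) * (m : ℝ) ^ (-(1 / 2) : ℝ) := by
    intro m hm
    rw [Finset.mem_Icc] at hm
    have hm0 : (0 : ℝ) < m := by exact_mod_cast hm.1
    have hmN : (m : ℝ) ≤ N := by exact_mod_cast hm.2
    have h2 : (m : ℝ) ^ (1 - η) / m = (m : ℝ) ^ (-(1 / 2) : ℝ) * (m : ℝ) ^ (1 / 2 - η) := by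
      rw [← Real.rpow_add hm0, div_eq_mul_inv, ← Real.rpow_neg_one (m : ℝ), ← Real.rpow_add hm0]
      congr 1; ring
    have h3 : (N : ℝ) ^ (1 - η) * (N : ℝ) ^ (-(1 / 2) : ℝ) = (N : ℝ) ^ (1 / 2 - η) := by
      rw [← Real.rpow_add hNr]; congr 1; ring
    rw [h2, h3, mul_comm]
    apply mul_le_mul_of_nonneg_right _ (by positivity)
    exact Real.rpow_le_rpow hm0.le hmN (by linarith)
  refine (Finset.sum_le_sum h1).trans ?_
  rw [← Finset.mul_sum]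
  calc ((N : ℝ) ^ (1 - η) * (N : ℝ) ^ (-(1 / 2) : ℝ)) * ∑ m ∈ Finset.Icc 1 N, (m : ℝ) ^ (-(1 / 2) : ℝ)
      ≤ ((N : ℝ) ^ (1 - η) * (N : ℝ) ^ (-(1 / 2) : ℝ)) * (2 * (N : ℝ) ^ (1 / 2 : ℝ)) := by
        gcongr
        exact sum_rpow_neg_half N
    _ = 2 * (N : ℝ) ^ (1 - η) * ((N : ℝ) ^ (-(1 / 2) : ℝ) * (N : ℝ) ^ (1 / 2 : ℝ)) := by ring
    _ = 2 * (N : ℝ) ^ (1 - η) := by
        rw [← Real.rpow_add hNr]; norm_num

theorem abel_log (g : ℕ → ℂ) (N : ℕ) :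
    ∑ k ∈ Finset.Icc 1 (N + 1), (Real.log k : ℂ) * g k =
      (Real.log (N + 1 : ℕ) : ℂ) * ∑ k ∈ Finset.Icc 1 (N + 1), g k -
      ∑ m ∈ Finset.Icc 1 N, ((Real.log (m + 1 : ℕ) - Real.log m : ℝ) : ℂ) * ∑ k ∈ Finset.Icc 1 m, g k := by
  induction N with
  | zero => simp
  | succ N ih =>
    rw [Finset.sum_Icc_succ_top (by omega : 1 ≤ N + 1 + 1), ih,
      Finset.sum_Icc_succ_top (by omega : 1 ≤ N + 1 + 1) (fun k => g k),
      Finset.sum_Icc_succ_top (by omega : 1 ≤ N + 1)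
        (fun m => ((Real.log (m + 1 : ℕ) - Real.log m : ℝ) : ℂ) * ∑ k ∈ Finset.Icc 1 m, g k)]
    generalize ∑ m ∈ Finset.Icc 1 N, ((Real.log (m + 1 : ℕ) - Real.log m : ℝ) : ℂ) *
      ∑ k ∈ Finset.Icc 1 m, g k = T
    generalize ∑ k ∈ Finset.Icc 1 (N + 1), g k = S
    rw [Complex.ofReal_sub]
    ring

/-- one more logarithm -/
theorem PB.log_mul {g : ℕ → ℂ} {M η : ℝ} {j : ℕ} (h : PB g M η j) (hM : 0 ≤ M)
    (hη : η ≤ 1 / 2) (hg : ∀ n ≤ 8, g n = 0) : PB (LSeries.logMul g) (2 * M) η (j + 1) := by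
  intro N hN
  have hlm : ∀ k, LSeries.logMul g k = (Real.log k : ℂ) * g k := by
    intro k
    simp only [LSeries.logMul, Complex.natCast_log]
  simp only [hlm]
  by_cases hN8 : N ≤ 8
  · rw [Finset.sum_eq_zero]
    · simp only [norm_zero]
      have : 0 ≤ Real.log N := Real.log_natCast_nonneg N
      positivity
    · intro k hk
      rw [Finset.mem_Icc] at hk
      rw [hg k (by omega), mul_zero]
  push Not at hN8
  obtain ⟨N, rfl⟩ : ∃ n, N = n + 1 := ⟨N - 1, by omega⟩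
  rw [abel_log]
  have hNr : (0 : ℝ) < ((N + 1 : ℕ) : ℝ) := by positivity
  have hlog2 : 2 ≤ Real.log ((N + 1 : ℕ) : ℝ) := by
    rw [Real.le_log_iff_exp_le hNr]
    have h1 : Real.exp 2 = Real.exp 1 * Real.exp 1 := by rw [← Real.exp_add]; norm_num
    have h2 := Real.exp_one_lt_d9
    have h3 : (9 : ℝ) ≤ ((N + 1 : ℕ) : ℝ) := by exact_mod_cast hN8
    have h4 := Real.exp_pos 1
    rw [h1]
    nlinarith
  set LN := Real.log ((N + 1 : ℕ) : ℝ) with hLN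
  have hb1 : ‖(LN : ℂ) * ∑ k ∈ Finset.Icc 1 (N + 1), g k‖ ≤
      LN * (M * ((N + 1 : ℕ) : ℝ) ^ (1 - η) * LN ^ j) := by
    rw [norm_mul, Complex.norm_real, Real.norm_of_nonneg (by linarith)]
    exact mul_le_mul_of_nonneg_left (h (N + 1) (by omega)) (by linarith)
  have hb2 : ‖∑ m ∈ Finset.Icc 1 N, ((Real.log (m + 1 : ℕ) - Real.log m : ℝ) : ℂ) *
      ∑ k ∈ Finset.Icc 1 m, g k‖ ≤ M * LN ^ j * (2 * ((N + 1 : ℕ) : ℝ) ^ (1 - η)) := by
    refine (norm_sum_le _ _).trans ?_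
    have h1 : ∀ m ∈ Finset.Icc 1 N, ‖((Real.log (m + 1 : ℕ) - Real.log m : ℝ) : ℂ) *
        ∑ k ∈ Finset.Icc 1 m, g k‖ ≤ M * LN ^ j * ((m : ℝ) ^ (1 - η) / m) := by
      intro m hm
      rw [Finset.mem_Icc] at hm
      have hm0 : (0 : ℝ) < m := by exact_mod_cast hm.1
      have hlogm : 0 ≤ Real.log (m : ℝ) := Real.log_natCast_nonneg m
      have hlogm' : Real.log (m : ℝ) ≤ LN := Real.log_le_log hm0 (by exact_mod_cast (by omega : m ≤ N + 1))
      have h2 : 0 ≤ Real.log (m + 1 : ℕ) - Real.log m := by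
        have := Real.log_le_log hm0 (by push_cast; linarith : (m : ℝ) ≤ ((m + 1 : ℕ) : ℝ))
        linarith
      have h3 : Real.log (m + 1 : ℕ) - Real.log m ≤ 1 / m := by
        rw [← Real.log_div (by positivity) hm0.ne']
        have h4 := Real.log_le_sub_one_of_pos (by positivity : (0 : ℝ) < ((m + 1 : ℕ) : ℝ) / m)
        refine h4.trans (le_of_eq ?_)
        push_cast
        field_simp
        ring
      rw [norm_mul, Complex.norm_real, Real.norm_of_nonneg h2]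
      calc (Real.log (m + 1 : ℕ) - Real.log m) * ‖∑ k ∈ Finset.Icc 1 m, g k‖
          ≤ (1 / m) * (M * (m : ℝ) ^ (1 - η) * (Real.log m) ^ j) :=
            mul_le_mul h3 (h m hm.1) (norm_nonneg _) (by positivity)
        _ ≤ (1 / m) * (M * (m : ℝ) ^ (1 - η) * LN ^ j) := by gcongr
        _ = _ := by ring
    refine (Finset.sum_le_sum h1).trans ?_
    rw [← Finset.mul_sum]
    apply mul_le_mul_of_nonneg_left _ (by positivity)
    refine (sum_rpow_div N η hη).trans ?_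
    gcongr
    · linarith
    · omega
  calc _ ≤ LN * (M * ((N + 1 : ℕ) : ℝ) ^ (1 - η) * LN ^ j) + M * LN ^ j * (2 * ((N + 1 : ℕ) : ℝ) ^ (1 - η)) :=
        (norm_sub_le _ _).trans (add_le_add hb1 hb2)
    _ = M * ((N + 1 : ℕ) : ℝ) ^ (1 - η) * LN ^ j * (LN + 2) := by ring
    _ ≤ M * ((N + 1 : ℕ) : ℝ) ^ (1 - η) * LN ^ j * (2 * LN) := by
        gcongr
        linarith
    _ = 2 * M * ((N + 1 : ℕ) : ℝ) ^ (1 - η) * LN ^ (j + 1) := by ring

/-- `(log x)^j ≤ j! δ^{-j} x^δ` -/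
theorem log_pow_le (x δ : ℝ) (hx : 1 ≤ x) (hδ : 0 < δ) (j : ℕ) :
    (Real.log x) ^ j ≤ j.factorial * (1 / δ) ^ j * x ^ δ := by
  have hl : 0 ≤ Real.log x := Real.log_nonneg hx
  have h := Real.pow_div_factorial_le_exp (δ * Real.log x) (by positivity) j
  rw [div_le_iff₀ (by positivity)] at h
  have h1 : Real.exp (δ * Real.log x) = x ^ δ := by
    rw [Real.rpow_def_of_pos (by linarith), mul_comm]
  rw [h1, mul_pow] at h
  calc (Real.log x) ^ j = (1 / δ) ^ j * (δ ^ j * (Real.log x) ^ j) := by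
        rw [← mul_assoc, ← mul_pow]
        field_simp
        simp
    _ ≤ (1 / δ) ^ j * (x ^ δ * j.factorial) := by gcongr
    _ = _ := by ring

theorem PB.real {g : ℕ → ℂ} {M η : ℝ} {j : ℕ} (h : PB g M η j) (hM : 0 ≤ M)
    (hη : η ≤ 1) (y : ℝ) (hy : 1 ≤ y) :
    ‖∑ k ∈ Finset.Icc 1 ⌊y⌋₊, g k‖ ≤ M * y ^ (1 - η) * (Real.log y) ^ j := by
  have h1 : 1 ≤ ⌊y⌋₊ := by
    apply Nat.le_floor; simpa using hy
  have h2 : (⌊y⌋₊ : ℝ) ≤ y := Nat.floor_le (by linarith)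
  have h3 : (1 : ℝ) ≤ ⌊y⌋₊ := by exact_mod_cast h1
  refine (h _ h1).trans ?_
  have h4 : 0 ≤ Real.log (⌊y⌋₊ : ℝ) := Real.log_nonneg h3
  have h5 : Real.log (⌊y⌋₊ : ℝ) ≤ Real.log y := Real.log_le_log (by linarith) h2
  gcongr

theorem PB.isBigO {g : ℕ → ℂ} {M η κ : ℝ} {j : ℕ} (h : PB g M η j) (hM : 0 ≤ M)
    (hη : 0 ≤ η) (hκ : 0 < κ) :
    (fun n ↦ ∑ k ∈ Icc 1 n, g k) =O[Filter.atTop] fun n : ℕ ↦ (n : ℝ) ^ (1 + κ / 2) := by
  apply Asymptotics.IsBigO.of_bound (M * (j.factorial * (1 / (κ / 2)) ^ j))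
  filter_upwards [Filter.eventually_ge_atTop 1] with n hn
  have hn1 : (1 : ℝ) ≤ n := by exact_mod_cast hn
  rw [Real.norm_of_nonneg (by positivity)]
  refine (h n hn).trans ?_
  have h1 := log_pow_le n (κ / 2) hn1 (by linarith) j
  have h2 : (n : ℝ) ^ (1 - η) ≤ n := by
    calc (n : ℝ) ^ (1 - η) ≤ (n : ℝ) ^ (1 : ℝ) := Real.rpow_le_rpow_of_exponent_le hn1 (by linarith)
      _ = n := Real.rpow_one _
  have h3 : (n : ℝ) ^ (1 + κ / 2) = n * (n : ℝ) ^ (κ / 2) := by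
    rw [Real.rpow_add (by linarith), Real.rpow_one]
  calc M * (n : ℝ) ^ (1 - η) * (Real.log n) ^ j
      ≤ M * n * (j.factorial * (1 / (κ / 2)) ^ j * (n : ℝ) ^ (κ / 2)) := by
        have : 0 ≤ Real.log (n : ℝ) := Real.log_nonneg hn1
        gcongr
    _ = M * (j.factorial * (1 / (κ / 2)) ^ j) * (n : ℝ) ^ (1 + κ / 2) := by rw [h3]; ring

/-- integral representation -/
theorem PB.LSeries_eq {g : ℕ → ℂ} {M η : ℝ} {j : ℕ} (h : PB g M η j) (hM : 0 ≤ M)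
    (hη : 0 ≤ η) (s : ℂ) (hs : 1 < s.re) (hsum : LSeriesSummable g s) :
    LSeries g s = s * ∫ t in Set.Ioi (1 : ℝ), (∑ k ∈ Icc 1 ⌊t⌋₊, g k) * (t : ℂ) ^ (-(s + 1)) := by
  have hκ : 0 < s.re - 1 := by linarith
  exact LSeries_eq_mul_integral g (r := 1 + (s.re - 1) / 2) (by linarith) (by linarith) hsum
    (h.isBigO hM hη hκ)

/-- pointwise bound -/
theorem PB.LSeries_le {g : ℕ → ℂ} {M η : ℝ} {j : ℕ} (h : PB g M η j) (hM : 0 ≤ M)
    (hη : 0 ≤ η) (hη1 : η ≤ 1) (s : ℂ) (hs : 1 < s.re) (hsum : LSeriesSummable g s) :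
    ‖LSeries g s‖ ≤ ‖s‖ * (M * (j.factorial * (2 / (η + (s.re - 1))) ^ (j + 1))) := by
  rw [h.LSeries_eq hM hη s hs hsum, norm_mul]
  apply mul_le_mul_of_nonneg_left _ (norm_nonneg _)
  set β := η + (s.re - 1) with hβ
  have hβ0 : 0 < β := by rw [hβ]; linarith
  have hint : MeasureTheory.IntegrableOn (fun t : ℝ => M * (j.factorial * (2 / β) ^ j) * t ^ (-1 - β / 2))
      (Set.Ioi 1) :=
    (integrableOn_Ioi_rpow_of_lt (by linarith) one_pos).const_mul _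
  refine (MeasureTheory.norm_integral_le_of_norm_le hint ?_).trans ?_
  · rw [MeasureTheory.ae_restrict_iff' measurableSet_Ioi]
    refine Filter.Eventually.of_forall fun t ht => ?_
    have ht1 : (1 : ℝ) < t := ht
    have ht0 : (0 : ℝ) < t := by linarith
    rw [norm_mul, Complex.norm_cpow_eq_rpow_re_of_pos ht0]
    have hre : (-(s + 1)).re = -(s.re + 1) := by simp
    rw [hre]
    have h1 := h.real hM hη1 t ht1.le
    have h2 := log_pow_le t (β / 2) ht1.le (by linarith) j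
    have h3 : (1 / (β / 2)) = 2 / β := by field_simp
    rw [h3] at h2
    calc ‖∑ k ∈ Finset.Icc 1 ⌊t⌋₊, g k‖ * t ^ (-(s.re + 1))
        ≤ (M * t ^ (1 - η) * (j.factorial * (2 / β) ^ j * t ^ (β / 2))) * t ^ (-(s.re + 1)) := by
          gcongr
          refine h1.trans ?_
          gcongr
      _ = M * (j.factorial * (2 / β) ^ j) * (t ^ (1 - η) * t ^ (β / 2) * t ^ (-(s.re + 1))) := by ring
      _ = M * (j.factorial * (2 / β) ^ j) * t ^ (-1 - β / 2) := by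
          rw [← Real.rpow_add ht0, ← Real.rpow_add ht0]
          congr 2
          rw [hβ]; ring
  · rw [MeasureTheory.integral_const_mul, integral_Ioi_rpow_of_lt (by linarith) one_pos]
    rw [Real.one_rpow]
    apply le_of_eq
    have : (-1 - β / 2 + 1) = -(β / 2) := by ring
    rw [this, pow_succ]
    field_simp

end Pool.Agent.H22
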