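import Mathlib

set_option autoImplicit false

namespace Pool.Agent.Results.MP_c183ae_nt.AlmostChains


/-- first-kind power step: `z^b = 2 y^a + 1`, `y,z` odd primes, `b ≥ 2` forces `z = 3`. -/
theorem plus_power {y z a b : ℕ} (hy : y.Prime) (hz : z.Prime) (hyo : Odd y)
    (hb : 2 ≤ b) (h : z ^ b = 2 * y ^ a + 1) : z = 3 := by
  have hya : Odd (y ^ a) := hyo.pow
  have hzo : Odd z := by
    rcases hz.eq_two_or_odd' with h2 | h2
    · exfalso
      have : Even (z ^ b) := by
        rw [h2]; exact (even_two).pow_of_ne_zero (by omega)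
      rw [h] at this
      have h3 : Odd (2 * y ^ a + 1) := by exact odd_two_mul_add_one _
      exact (Nat.not_even_iff_odd.mpr h3) this
    · exact h2
  have hbo : Odd b := by
    rw [← Nat.not_even_iff_odd]
    intro hbe
    obtain ⟨c, hc⟩ := hbe
    obtain ⟨u, hu⟩ := hya
    have h1 : z ^ b = (z ^ c) * (z ^ c) := by rw [hc, pow_add]
    obtain ⟨v, hv⟩ := (hzo.pow : Odd (z ^ c))
    rw [h1, hv, hu] at h
    have : (4 * (v * v + v) + 1 : ℕ) = 4 * u + 3 := by nlinarith
    omega
  by_contra hz3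
  have hz5 : 4 ≤ z - 1 := by
    have := hz.two_le
    obtain ⟨u, hu⟩ := hzo
    omega
  -- z - 1 ∣ 2 * y ^ a
  have hdvd : z - 1 ∣ 2 * y ^ a := by
    have : z ^ b - 1 = 2 * y ^ a := by omega
    rw [← this]
    simpa using Nat.sub_dvd_pow_sub_pow z 1 b
  obtain ⟨w, hw⟩ := hzo
  have hg : z - 1 = 2 * w := by omega
  rw [hg] at hdvd
  have hwd : w ∣ y ^ a := (Nat.mul_dvd_mul_iff_left (by norm_num)).mp hdvd
  obtain ⟨c, hca, hwc⟩ := (Nat.dvd_prime_pow hy).mp hwd
  have hc0 : c ≠ 0 := by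
    rintro rfl
    simp at hwc
    omega
  have : Fact y.Prime := ⟨hy⟩
  have hyw : y ∣ z - 1 := by
    rw [hg, hwc]
    exact Dvd.dvd.mul_left (dvd_pow_self y hc0) 2
  have hyz : ¬ y ∣ z := by
    intro hd
    have : y ∣ z - (z - 1) := Nat.dvd_sub hd hyw
    have h1 : z - (z - 1) = 1 := by omega
    rw [h1] at this
    exact hy.one_lt.ne' (Nat.dvd_one.mp this)
  have hb0 : b ≠ 0 := by omega
  have lte := padicValNat.pow_sub_pow hyo (x := z) (y := 1) hz.one_lt (by simpa using hyw) hyz hb0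
  have e1 : z ^ b - 1 ^ b = 2 * y ^ a := by simp; omega
  have hy2 : y ≠ 2 := by
    rintro rfl
    exact (Nat.not_odd_iff_even.mpr even_two) hyo
  have v2 : padicValNat y 2 = 0 := by
    apply padicValNat.eq_zero_of_not_dvd
    intro hd
    exact hy2 ((Nat.prime_dvd_prime_iff_eq hy Nat.prime_two).mp hd)
  have hypos : 0 < y := hy.pos
  have e2 : padicValNat y (2 * y ^ a) = a := by
    rw [padicValNat.mul (by norm_num) (by positivity), v2, padicValNat.prime_pow]; simp
  have e3 : padicValNat y (z - 1) = c := by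
    rw [hg, hwc, padicValNat.mul (by norm_num) (by positivity), v2, padicValNat.prime_pow]; simp
  rw [e1, e2, e3] at lte
  -- a = c + v_y(b)
  have hle : y ^ (a - c) ≤ b := by
    have h1 : a - c = padicValNat y b := by omega
    rw [h1]
    exact Nat.le_of_dvd (by omega) pow_padicValNat_dvd
  have key : z ^ b - 1 = (z - 1) * y ^ (a - c) := by
    rw [hg, hwc]
    have : y ^ a = y ^ c * y ^ (a - c) := by rw [← pow_add]; congr 1; omega
    have h2 : z ^ b - 1 = 2 * y ^ a := by omega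
    rw [h2, this]; ring
  -- geometric lower bound
  have geom : (z - 1) * b < z ^ b - 1 := by
    have hgeom := Nat.geomSum_eq (m := z) hz.two_le b
    have : (∑ k ∈ Finset.range b, z ^ k) * (z - 1) = z ^ b - 1 := by
      rw [hgeom]
      exact Nat.div_mul_cancel (by simpa using Nat.sub_dvd_pow_sub_pow z 1 b)
    rw [← this, mul_comm]
    apply Nat.mul_lt_mul_of_pos_right _ (by omega)
    have hlt : (∑ k ∈ Finset.range b, 1) < ∑ k ∈ Finset.range b, z ^ k := by
      apply Finset.sum_lt_sum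
      · intro i _
        exact Nat.one_le_pow _ _ hz.pos
      · exact ⟨1, by simp; omega, by simpa using hz.one_lt⟩
    simpa using hlt
  rw [key] at geom
  have := Nat.mul_le_mul_left (z - 1) hle
  omega

/-- second-kind power step: `z^b + 1 = 2 y^a`, `b ≥ 2` forces `b` even. -/
theorem minus_power {y z a b : ℕ} (hy : y.Prime) (hz : z.Prime) (hyo : Odd y) (hzo : Odd z)
    (hb : 2 ≤ b) (h : z ^ b + 1 = 2 * y ^ a) : Even b := by
  by_contra hbo
  rw [Nat.not_even_iff_odd] at hbo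
  have hb3 : 3 ≤ b := by
    obtain ⟨u, hu⟩ := hbo
    omega
  have hz3 : 3 ≤ z := by
    have := hz.two_le
    obtain ⟨u, hu⟩ := hzo
    omega
  have hdvd : z + 1 ∣ 2 * y ^ a := by
    rw [← h]
    simpa using Odd.nat_add_dvd_pow_add_pow z 1 hbo
  obtain ⟨w, hw⟩ := hzo
  have hg : z + 1 = 2 * (w + 1) := by omega
  rw [hg] at hdvd
  have hwd : w + 1 ∣ y ^ a := (Nat.mul_dvd_mul_iff_left (by norm_num)).mp hdvd
  obtain ⟨c, hca, hwc⟩ := (Nat.dvd_prime_pow hy).mp hwd
  have hc0 : c ≠ 0 := by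
    rintro rfl
    simp at hwc
    omega
  have : Fact y.Prime := ⟨hy⟩
  have hyw : y ∣ z + 1 := by
    rw [hg, hwc]
    exact Dvd.dvd.mul_left (dvd_pow_self y hc0) 2
  have hyz : ¬ y ∣ z := by
    intro hd
    have : y ∣ (z + 1) - z := Nat.dvd_sub hyw hd
    have h1 : (z + 1) - z = 1 := by omega
    rw [h1] at this
    exact hy.one_lt.ne' (Nat.dvd_one.mp this)
  have lte := padicValNat.pow_add_pow hyo (x := z) (y := 1) hyw hyz hbo
  have e1 : z ^ b + 1 ^ b = 2 * y ^ a := by simpa using h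
  have hy2 : y ≠ 2 := by
    rintro rfl
    exact (Nat.not_odd_iff_even.mpr even_two) hyo
  have v2 : padicValNat y 2 = 0 := by
    apply padicValNat.eq_zero_of_not_dvd
    intro hd
    exact hy2 ((Nat.prime_dvd_prime_iff_eq hy Nat.prime_two).mp hd)
  have hypos : 0 < y := hy.pos
  have e2 : padicValNat y (2 * y ^ a) = a := by
    rw [padicValNat.mul (by norm_num) (by positivity), v2, padicValNat.prime_pow]; simp
  have e3 : padicValNat y (z + 1) = c := by
    rw [hg, hwc, padicValNat.mul (by norm_num) (by positivity), v2, padicValNat.prime_pow]; simp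
  rw [e1, e2, e3] at lte
  have hle : y ^ (a - c) ≤ b := by
    have h1 : a - c = padicValNat y b := by omega
    rw [h1]
    exact Nat.le_of_dvd (by omega) pow_padicValNat_dvd
  have key : z ^ b + 1 = (z + 1) * y ^ (a - c) := by
    rw [hg, hwc, h]
    have : y ^ a = y ^ c * y ^ (a - c) := by rw [← pow_add]; congr 1; omega
    rw [this]; ring
  have hpow : ∀ m : ℕ, (z + 1) * (m + 3) < z ^ (m + 3) + 1 := by
    intro m
    induction m with
    | zero =>
      have h0 : z ^ (0 + 3) = z * z * z := by ring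
      rw [h0]
      have h1 : 9 ≤ z * z := by nlinarith
      nlinarith
    | succ m ih =>
      have h1 : z ^ (m + 1 + 3) = z * z ^ (m + 3) := by ring
      rw [h1]
      nlinarith [Nat.pow_le_pow_left hz3 (m + 3), Nat.one_le_pow (m+3) z (by omega)]
  have h4 := hpow (b - 3)
  have h5 : b - 3 + 3 = b := by omega
  rw [h5, key] at h4
  have := Nat.mul_le_mul_left (z + 1) hle
  omega



theorem one_add_pow_expand (P c : ℤ) (s : ℕ) : ∃ k : ℤ, (1 + P * c) ^ s = 1 + P * c * s + P ^ 2 * k := by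
  induction s with
  | zero => exact ⟨0, by simp⟩
  | succ s ih =>
    obtain ⟨k, hk⟩ := ih
    refine ⟨k + c ^ 2 * s + P * c * k, ?_⟩
    rw [pow_succ, hk]
    push_cast
    ring

/-- the valuation of `2^((r-1) r^e) - 1` at a non-Wieferich odd prime -/
theorem nonwief_val {r : ℕ} (hr : r.Prime) (hro : Odd r) (hw : ¬ r ^ 2 ∣ 2 ^ (r - 1) - 1) (e : ℕ) :
    ∃ c : ℤ, ¬ (r : ℤ) ∣ c ∧ ((2 : ℤ) ^ (r - 1)) ^ (r ^ e) = 1 + (r : ℤ) ^ (e + 1) * c := by
  have : Fact r.Prime := ⟨hr⟩
  have hr2 : r ≠ 2 := by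
    rintro rfl
    exact (Nat.not_odd_iff_even.mpr even_two) hro
  have hr3 : 3 ≤ r := by
    have := hr.two_le
    omega
  have hcop : Nat.Coprime 2 r := by
    rw [Nat.coprime_primes Nat.prime_two hr]
    exact fun h => hr2 h.symm
  have hferm : r ∣ 2 ^ (r - 1) - 1 := by
    have := Nat.ModEq.pow_totient hcop
    rw [Nat.totient_prime hr] at this
    exact (Nat.modEq_iff_dvd' (Nat.one_le_two_pow)).mp this.symm
  have hg1 : 1 < 2 ^ (r - 1) := Nat.one_lt_two_pow (by omega)
  have hndvd : ¬ r ∣ 2 ^ (r - 1) := by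
    intro hd
    have := hr.dvd_of_dvd_pow hd
    exact hr2 ((Nat.prime_dvd_prime_iff_eq hr Nat.prime_two).mp this)
  have hre : r ^ e ≠ 0 := by positivity
  have lte := padicValNat.pow_sub_pow hro (x := 2 ^ (r - 1)) (y := 1) hg1 (by simpa using hferm)
    hndvd hre
  have hv1 : padicValNat r (2 ^ (r - 1) - 1) = 1 := by
    have h1 : 1 ≤ padicValNat r (2 ^ (r - 1) - 1) := by
      rw [← padicValNat_dvd_iff_le (by omega)]
      simpa using hferm
    have h2 : ¬ 2 ≤ padicValNat r (2 ^ (r - 1) - 1) := by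
      rw [← padicValNat_dvd_iff_le (by omega)]
      exact hw
    omega
  rw [hv1, padicValNat.prime_pow] at lte
  have hpos : 0 < (2 ^ (r - 1)) ^ (r ^ e) - 1 := by
    have := Nat.one_lt_pow hre hg1
    omega
  have hdv : r ^ (e + 1) ∣ (2 ^ (r - 1)) ^ (r ^ e) - 1 := by
    rw [padicValNat_dvd_iff_le (by omega)]
    simp at lte
    omega
  have hndv : ¬ r ^ (e + 2) ∣ (2 ^ (r - 1)) ^ (r ^ e) - 1 := by
    rw [padicValNat_dvd_iff_le (by omega)]
    simp at lte
    omega
  obtain ⟨c, hc⟩ := hdv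
  refine ⟨c, ?_, ?_⟩
  · intro hd
    have hd' : r ∣ c := by exact_mod_cast hd
    obtain ⟨d, rfl⟩ := hd'
    exact hndv ⟨d, by rw [hc]; ring⟩
  · have h1 : 1 ≤ (2 ^ (r - 1)) ^ (r ^ e) := by omega
    have : ((2 ^ (r - 1)) ^ (r ^ e) : ℕ) = 1 + r ^ (e + 1) * c := by omega
    exact_mod_cast this

theorem nonwief_lift {r : ℕ} (hr : r.Prime) (hro : Odd r) (hw : ¬ r ^ 2 ∣ 2 ^ (r - 1) - 1)
    (v : ℤ) (hv : (r : ℤ) ∣ v - 1) (e : ℕ) :
    ∃ t : ℕ, (r : ℤ) ^ (e + 1) ∣ ((2 : ℤ) ^ (r - 1)) ^ t * v - 1 := by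
  induction e with
  | zero => exact ⟨0, by simpa using hv⟩
  | succ e ih =>
    obtain ⟨t, w, hw1⟩ := ih
    obtain ⟨c, hc, hg⟩ := nonwief_val hr hro hw e
    -- find s with r ∣ c * s + w
    have hcop : IsCoprime (r : ℤ) c := by
      have : Prime (r : ℤ) := Nat.prime_iff_prime_int.mp hr
      exact (this.coprime_iff_not_dvd).mpr hc
    obtain ⟨α, β, hαβ⟩ := hcop
    -- β * c ≡ 1 mod r ; want s ≡ - β w
    have hrpos : (0 : ℤ) < r := by exact_mod_cast hr.pos
    obtain ⟨s, hs⟩ : ∃ s : ℕ, ((-β * w) % r) = (s : ℤ) :=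
      ⟨((-β * w) % r).toNat, by rw [Int.toNat_of_nonneg (Int.emod_nonneg _ hrpos.ne')]⟩
    have hs2 : (r : ℤ) ∣ c * s + w := by
      have h1 : (-β * w) = (s : ℤ) + r * ((-β * w) / r) := by
        rw [← hs]; exact (Int.emod_add_mul_ediv _ _).symm
      have h2 : (s : ℤ) = -β * w - r * ((-β * w) / r) := by linarith
      rw [h2]
      have h3 : c * (-β * w - r * ((-β * w) / r)) + w = r * (α * w - c * ((-β * w) / r)) := by
        have : β * c = 1 - α * r := by linarith
        calc c * (-β * w - r * ((-β * w) / r)) + w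
            = -(β * c) * w - c * r * ((-β * w) / r) + w := by ring
          _ = r * (α * w - c * ((-β * w) / r)) := by rw [this]; ring
      rw [h3]
      exact dvd_mul_right _ _
    obtain ⟨z, hz⟩ := hs2
    obtain ⟨k, hk⟩ := one_add_pow_expand ((r : ℤ) ^ (e + 1)) c s
    refine ⟨t + r ^ e * s, ?_⟩
    have h1 : ((2 : ℤ) ^ (r - 1)) ^ (t + r ^ e * s) * v
        = (((2 : ℤ) ^ (r - 1)) ^ (r ^ e)) ^ s * (((2 : ℤ) ^ (r - 1)) ^ t * v) := by
      rw [pow_add, pow_mul ((2 : ℤ) ^ (r - 1)) (r ^ e) s]; ring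
    have h2 : ((2 : ℤ) ^ (r - 1)) ^ t * v = 1 + (r : ℤ) ^ (e + 1) * w := by linarith
    rw [h1, hg, hk, h2]
    set R : ℤ := (r : ℤ) ^ (e + 1) with hR
    have hRR : (r : ℤ) ^ (e + 1 + 1) ∣ R * R := by
      rw [hR, ← pow_add]
      exact pow_dvd_pow _ (by omega)
    have h3 : (1 + R * c * s + R ^ 2 * k) * (1 + R * w) - 1
        = R * (c * s + w) + R * R * (c * s * w + k + R * k * w) := by ring
    rw [h3, hz]
    apply dvd_add
    · have : R * ((r : ℤ) * z) = (r : ℤ) ^ (e + 1 + 1) * z := by rw [hR]; ring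
      rw [this]
      exact dvd_mul_right _ _
    · exact Dvd.dvd.mul_right hRR _


/-- `AlmostPrimePower T n`: `n = m * q ^ a` with `q` prime and `a ≥ 1`, where the cofactor `m ≥ 1`
satisfies `r * m ≤ T` for every prime `r` dividing `m`, and no prime dividing `m` is a Wieferich
prime.  Every `m ≤ √T` without Wieferich prime factor is such a cofactor; `m = 1` always is. -/
def AlmostPrimePower (T n : ℕ) : Prop :=
  ∃ m q a : ℕ, n = m * q ^ a ∧ q.Prime ∧ 1 ≤ a ∧ 1 ≤ m ∧
    ∀ r : ℕ, r.Prime → r ∣ m → r * m ≤ T ∧ ¬ r ^ 2 ∣ 2 ^ (r - 1) - 1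

theorem AlmostPrimePower.two_le {T n : ℕ} (h : AlmostPrimePower T n) : 2 ≤ n := by
  obtain ⟨m, q, a, rfl, hq, ha, hm, -⟩ := h
  calc 2 ≤ q := hq.two_le
    _ ≤ q ^ a := Nat.le_self_pow (by omega) q
    _ ≤ m * q ^ a := Nat.le_mul_of_pos_left _ (by omega)

section core

variable {n : ℕ → ℕ} {s : ℤ} {L T : ℕ}

theorem closed_form (hrec : ∀ i, i + 1 < L → (n (i + 1) : ℤ) = 2 * n i + s) :
    ∀ d i, i + d < L → (n (i + d) : ℤ) + s = 2 ^ d * (n i + s) := by
  intro d
  induction d with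
  | zero => intro i _; simp
  | succ d ih =>
    intro i hi
    have h1 := hrec (i + d) (by omega)
    have h2 := ih i (by omega)
    have h3 : i + (d + 1) = i + d + 1 := by omega
    rw [h3, h1, pow_succ]
    linear_combination 2 * h2

theorem growth (hs : s = 1 ∨ s = -1) (hrec : ∀ i, i + 1 < L → (n (i + 1) : ℤ) = 2 * n i + s)
    (h0 : 2 ≤ n 0) : ∀ i, i < L → 2 ^ i ≤ n i := by
  intro i hi
  have h := closed_form hrec i 0 (by omega)
  rw [Nat.zero_add] at h
  have h0' : (2 : ℤ) ≤ n 0 := by exact_mod_cast h0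
  have hp : (1 : ℤ) ≤ 2 ^ i := one_le_pow₀ (by norm_num)
  have : (2 : ℤ) ^ i ≤ n i := by
    rcases hs with rfl | rfl <;> nlinarith
  exact_mod_cast this

theorem odd_term (hs : s = 1 ∨ s = -1) (hrec : ∀ i, i + 1 < L → (n (i + 1) : ℤ) = 2 * n i + s)
    (i : ℕ) (hi : i + 1 < L) : Odd (n (i + 1)) := by
  have h := hrec i hi
  rw [← Int.odd_coe_nat, h]
  rcases hs with rfl | rfl
  · exact odd_two_mul_add_one _
  · have : (2 * (n i : ℤ) + -1) = 2 * (n i - 1) + 1 := by ring
    rw [this]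
    exact odd_two_mul_add_one _

theorem gap (hs : s = 1 ∨ s = -1) (hrec : ∀ i, i + 1 < L → (n (i + 1) : ℤ) = 2 * n i + s)
    {P i d : ℕ} (hd : 1 ≤ d) (hi : i + d < L) (h1 : P ∣ n i) (h2 : P ∣ n (i + d)) : P < 2 ^ d := by
  have h := closed_form hrec d i hi
  have h1' : (P : ℤ) ∣ n i := by exact_mod_cast h1
  have h2' : (P : ℤ) ∣ n (i + d) := by exact_mod_cast h2
  have h3 : (P : ℤ) ∣ 2 ^ d - 1 := by
    have h4 : (2 : ℤ) ^ d - 1 = s * ((n (i + d) : ℤ) - 2 ^ d * n i) := by
      rcases hs with rfl | rfl <;> linarith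
    rw [h4]
    exact Dvd.dvd.mul_left (dvd_sub h2' (Dvd.dvd.mul_left h1' _)) _
  have h5 : (1 : ℤ) < 2 ^ d := one_lt_pow₀ (by norm_num) (by omega)
  have h6 := Int.le_of_dvd (by linarith) h3
  have h7 : (P : ℤ) < 2 ^ d := by linarith
  exact_mod_cast h7

/-- in the second half of a long block free of exceptions, all cofactors are `1`. -/
theorem prime_power_term (hs : s = 1 ∨ s = -1) {h : ℕ}
    (hrec : ∀ i, i + 1 < 2 * h → (n (i + 1) : ℤ) = 2 * n i + s) (hT : 2 * T < h)
    (hgood : ∀ i, i < 2 * h → AlmostPrimePower T (n i)) (i : ℕ) (hi : h ≤ i) (hi2 : i < 2 * h) :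
    ∃ q a : ℕ, q.Prime ∧ 1 ≤ a ∧ n i = q ^ a := by
  obtain ⟨m, q, a, hn, hq, ha, hm, hmW⟩ := hgood i hi2
  by_cases hm1 : m = 1
  · exact ⟨q, a, hq, ha, by rw [hn, hm1, one_mul]⟩
  exfalso
  obtain ⟨r, hr, hrm⟩ := Nat.exists_prime_and_dvd hm1
  obtain ⟨hrmT, hW⟩ := hmW r hr hrm
  have hrn : r ∣ n i := by rw [hn]; exact Dvd.dvd.mul_right hrm _
  have hr2 := hr.two_le
  have hrT : r ≤ T := le_trans (Nat.le_mul_of_pos_right r (by omega)) hrmT
  have hi1 : 1 ≤ i := by omega
  have hodd : Odd (n i) := by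
    have := odd_term hs hrec (i - 1) (by omega)
    rwa [Nat.sub_add_cancel hi1] at this
  have hro : Odd r := Odd.of_dvd_nat hodd hrn
  -- lift
  have hv : (r : ℤ) ∣ ((n i : ℤ) + s) * s - 1 := by
    have h1 : ((n i : ℤ) + s) * s - 1 = (n i : ℤ) * s := by
      rcases hs with rfl | rfl <;> ring
    rw [h1]
    exact Dvd.dvd.mul_right (by exact_mod_cast hrn) _
  set e := Nat.log r (T / r) with he
  have hTr : 1 ≤ T / r := (Nat.one_le_div_iff hr.pos).mpr hrT
  obtain ⟨t, ht⟩ := nonwief_lift hr hro hW _ hv e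
  have hRB : T / r < r ^ (e + 1) := Nat.lt_pow_succ_log_self hr.one_lt _
  have hRB' : r ^ e ≤ T / r := Nat.pow_log_le_self r (by omega)
  set D := (r - 1) * r ^ e with hD
  have hre1 : 1 ≤ r ^ e := Nat.one_le_pow _ _ (by omega)
  have hD1 : 1 ≤ D := Nat.mul_pos (by omega) (by omega)
  have hDT : D ≤ T := by
    calc D ≤ r * (T / r) := Nat.mul_le_mul (by omega) hRB'
      _ ≤ T := Nat.mul_div_le T r
  -- Euler
  have hcop : Nat.Coprime 2 (r ^ (e + 1)) := by
    apply Nat.Coprime.pow_right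
    rw [Nat.coprime_primes Nat.prime_two hr]
    rintro rfl
    exact (Nat.not_odd_iff_even.mpr even_two) hro
  have hE : ((r : ℤ) ^ (e + 1)) ∣ 2 ^ D - 1 := by
    have h1 := Nat.ModEq.pow_totient hcop
    have h2 : Nat.totient (r ^ (e + 1)) = D := by
      rw [Nat.totient_prime_pow_succ hr, hD, mul_comm]
    rw [h2] at h1
    have h3 := (Nat.modEq_iff_dvd.mp h1.symm)
    push_cast at h3
    exact_mod_cast h3
  have hEq : ∀ k : ℕ, ((r : ℤ) ^ (e + 1)) ∣ 2 ^ (D * k) - 1 := by
    intro k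
    have h1 : (2 : ℤ) ^ D - 1 ∣ (2 ^ D) ^ k - 1 := by
      simpa using sub_dvd_pow_sub_pow ((2 : ℤ) ^ D) 1 k
    rw [pow_mul]
    exact dvd_trans hE h1
  -- the position j
  set j0 := i + (r - 1) * t with hj0
  set j := h + (j0 - h) % D with hj
  have hmod : (j0 - h) % D < D := Nat.mod_lt _ (by omega)
  have hjj : j0 = j + D * ((j0 - h) / D) := by
    have := Nat.mod_add_div (j0 - h) D
    omega
  have hjlt : j + D < 2 * h := by omega
  -- divisibility of n j
  have hcf : ∀ x, x < 2 * h → ((n x : ℤ) + s) = 2 ^ x * (n 0 + s) := by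
    intro x hx
    have := closed_form hrec x 0 (by omega)
    simpa using this
  have hs2 : s * s = 1 := by rcases hs with rfl | rfl <;> ring
  have hf0 : ((r : ℤ) ^ (e + 1)) ∣ 2 ^ j0 * ((n 0 : ℤ) + s) - s := by
    have h1 : (2 : ℤ) ^ j0 * ((n 0 : ℤ) + s) - s
        = s * (((2 : ℤ) ^ (r - 1)) ^ t * (((n i : ℤ) + s) * s) - 1) := by
      rw [hcf i hi2, hj0, pow_add, pow_mul]
      linear_combination (-(2 : ℤ) ^ i * (2 ^ (r - 1)) ^ t * (↑(n 0) + s)) * hs2
    rw [h1]
    exact Dvd.dvd.mul_left ht _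
  have hnj : ((r : ℤ) ^ (e + 1)) ∣ n j := by
    have h1 : (n j : ℤ) = (2 ^ j0 * ((n 0 : ℤ) + s) - s)
        - (2 ^ (D * ((j0 - h) / D)) - 1) * (2 ^ j * ((n 0 : ℤ) + s)) := by
      have h2 := hcf j (by omega)
      have h3 : (2 : ℤ) ^ j0 = 2 ^ j * 2 ^ (D * ((j0 - h) / D)) := by
        rw [← pow_add, ← hjj]
      rw [h3]
      linear_combination h2
    rw [h1]
    exact dvd_sub hf0 (Dvd.dvd.mul_right (hEq _) _)
  have hnjD : ((r : ℤ) ^ (e + 1)) ∣ n (j + D) := by
    have h2 := closed_form hrec D j hjlt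
    have h1 : (n (j + D) : ℤ) = 2 ^ D * n j + s * (2 ^ D - 1) := by
      linear_combination h2
    rw [h1]
    exact dvd_add (Dvd.dvd.mul_left hnj _) (Dvd.dvd.mul_left hE _)
  have hnj' : r ^ (e + 1) ∣ n j := by exact_mod_cast hnj
  have hnjD' : r ^ (e + 1) ∣ n (j + D) := by exact_mod_cast hnjD
  -- structure at good positions divisible by r^(e+1)
  have hstr : ∀ x, x < 2 * h → r ^ (e + 1) ∣ n x → ∃ m' a', n x = m' * r ^ a' ∧ m' ≤ T := by
    intro x hx hdx
    obtain ⟨m', q', a', hn', hq', ha', hm', hmW'⟩ := hgood x hx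
    by_cases hqr : q' = r
    · refine ⟨m', a', by rw [hn', hqr], ?_⟩
      by_cases hm1' : m' = 1
      · omega
      · obtain ⟨r', hr', hrm'⟩ := Nat.exists_prime_and_dvd hm1'
        exact le_trans (Nat.le_mul_of_pos_left m' hr'.pos) (hmW' r' hr' hrm').1
    · exfalso
      have hc : Nat.Coprime (r ^ (e + 1)) (q' ^ a') := by
        apply Nat.Coprime.pow
        rw [Nat.coprime_primes hr hq']
        exact fun hh => hqr hh.symm
      rw [hn'] at hdx
      have h1 := hc.dvd_of_dvd_mul_right hdx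
      have h2 := Nat.le_of_dvd (by omega) h1
      have h3 := (hmW' r hr (dvd_trans (dvd_pow_self r (by omega)) h1)).1
      have h4 : m' ≤ T / r := (Nat.le_div_iff_mul_le hr.pos).mpr (by rw [mul_comm]; exact h3)
      omega
  obtain ⟨m1, a1, hn1, hm1B⟩ := hstr j (by omega) hnj'
  obtain ⟨m2, a2, hn2, hm2B⟩ := hstr (j + D) hjlt hnjD'
  have h0 : 2 ≤ n 0 := (hgood 0 (by omega)).two_le
  have hgr := growth hs hrec h0
  have hg1 := hgr j (by omega)
  have hg2 := hgr (j + D) hjlt
  have hP : r ^ (min a1 a2) < 2 ^ D := by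
    apply gap hs hrec hD1 hjlt
    · rw [hn1]; exact Dvd.dvd.mul_left (pow_dvd_pow _ (min_le_left _ _)) _
    · rw [hn2]; exact Dvd.dvd.mul_left (pow_dvd_pow _ (min_le_right _ _)) _
  have hlow : 2 ^ j ≤ T * r ^ (min a1 a2) := by
    rcases le_total a1 a2 with hle | hle
    · rw [min_eq_left hle]
      calc 2 ^ j ≤ n j := hg1
        _ = m1 * r ^ a1 := hn1
        _ ≤ T * r ^ a1 := Nat.mul_le_mul_right _ hm1B
    · rw [min_eq_right hle]
      calc 2 ^ j ≤ 2 ^ (j + D) := Nat.pow_le_pow_right (by norm_num) (by omega)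
        _ ≤ n (j + D) := hg2
        _ = m2 * r ^ a2 := hn2
        _ ≤ T * r ^ a2 := Nat.mul_le_mul_right _ hm2B
  have hfin : 2 ^ j < 2 ^ (T + D) := by
    calc 2 ^ j ≤ T * r ^ (min a1 a2) := hlow
      _ < T * 2 ^ D := Nat.mul_lt_mul_of_pos_left hP (by omega)
      _ ≤ 2 ^ T * 2 ^ D := Nat.mul_le_mul_right _ (Nat.lt_two_pow_self).le
      _ = 2 ^ (T + D) := by rw [pow_add]
  have := (Nat.pow_lt_pow_iff_right (by norm_num : 1 < 2)).mp hfin
  omega

/-- two non-prime terms of the same parity of position cannot both occur late in the block -/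
theorem two_bad (hs : s = 1 ∨ s = -1) {h : ℕ}
    (hrec : ∀ i, i + 1 < 2 * h → (n (i + 1) : ℤ) = 2 * n i + s) (h0 : 2 ≤ n 0)
    (hpp : ∀ i, h ≤ i → i < 2 * h → ∃ q a : ℕ, q.Prime ∧ 1 ≤ a ∧ n i = q ^ a)
    (i j : ℕ) (hi : h + 1 ≤ i) (hij : i < j) (hj : j < 2 * h) (hpar : Even (j - i))
    (hbi : ¬ (n i).Prime) (hbj : ¬ (n j).Prime) : False := by
  have hgr := growth hs hrec h0
  -- odd prime powers with exponent at least 2
  have key : ∀ x, h + 1 ≤ x → x < 2 * h → ¬ (n x).Prime →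
      (s = 1 ∧ ∃ b, n x = 3 ^ b) ∨ (s = -1 ∧ ∃ w, n x = w ^ 2) := by
    intro x hx hx2 hbx
    obtain ⟨z, b, hz, hb, hnx⟩ := hpp x (by omega) hx2
    obtain ⟨y, a, hy, ha, hny⟩ := hpp (x - 1) (by omega) (by omega)
    have hb2 : 2 ≤ b := by
      rcases Nat.lt_or_ge b 2 with hlt | hge
      · exfalso
        have : b = 1 := by omega
        rw [this, pow_one] at hnx
        rw [hnx] at hbx
        exact hbx hz
      · exact hge
    have hrx := hrec (x - 1) (by omega)
    rw [show x - 1 + 1 = x by omega] at hrx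
    have hxo : Odd (n x) := by
      have := odd_term hs hrec (x - 1) (by omega)
      rwa [show x - 1 + 1 = x by omega] at this
    have hyo : Odd (n (x - 1)) := by
      have := odd_term hs hrec (x - 2) (by omega)
      rwa [show x - 2 + 1 = x - 1 by omega] at this
    have hyo' : Odd y := by
      rw [hny] at hyo
      exact Odd.of_dvd_nat hyo (dvd_pow_self y (by omega))
    have hzo' : Odd z := by
      rw [hnx] at hxo
      exact Odd.of_dvd_nat hxo (dvd_pow_self z (by omega))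
    rw [hnx, hny] at hrx
    rcases hs with rfl | rfl
    · left
      refine ⟨rfl, b, ?_⟩
      have hz3 := plus_power hy hz hyo' hb2 (by exact_mod_cast hrx)
      rw [hnx, hz3]
    · right
      refine ⟨rfl, ?_⟩
      have hbe := minus_power (a := a) hy hz hyo' hzo' hb2 (by
        have : (z : ℤ) ^ b + 1 = 2 * y ^ a := by
          push_cast at hrx
          linarith
        exact_mod_cast this)
      obtain ⟨c, hc⟩ := hbe
      exact ⟨z ^ c, by rw [hnx, hc]; ring⟩
  have hlt : 2 ^ (j - i) ≤ n i := by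
    calc 2 ^ (j - i) ≤ 2 ^ i := Nat.pow_le_pow_right (by norm_num) (by omega)
      _ ≤ n i := hgr i (by omega)
  have hji : i + (j - i) = j := by omega
  have hcf := closed_form hrec (j - i) i (by omega)
  rw [hji] at hcf
  rcases key i hi (by omega) hbi with ⟨hs1, b, hb⟩ | ⟨hs1, w, hw⟩
  · rcases key j (by omega) hj hbj with ⟨-, b', hb'⟩ | ⟨hs2, -⟩
    · have hdvd : n i ∣ n j := by
        have hle : n i ≤ n j := by
          have hp : (1 : ℤ) ≤ 2 ^ (j - i) := one_le_pow₀ (by norm_num)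
          have h1 : (0 : ℤ) ≤ n i := by positivity
          have h2 : (n i : ℤ) ≤ n j := by
            rw [hs1] at hcf
            nlinarith
          exact_mod_cast h2
        rw [hb, hb'] at hle ⊢
        exact pow_dvd_pow _ ((Nat.pow_le_pow_iff_right (by norm_num)).mp hle)
      have := gap hs hrec (P := n i) (i := i) (d := j - i) (by omega) (by omega) dvd_rfl
        (by rw [hji]; exact hdvd)
      omega
    · rw [hs1] at hs2; norm_num at hs2
  · rcases key j (by omega) hj hbj with ⟨hs2, -⟩ | ⟨-, u, hu⟩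
    · rw [hs1] at hs2; norm_num at hs2
    · obtain ⟨t, ht⟩ := hpar
      have ht1 : 1 ≤ t := by omega
      rw [hs1, hw, hu, ht] at hcf
      push_cast at hcf
      have h4 : (2 : ℤ) ^ (t + t) = 2 ^ t * 2 ^ t := by rw [pow_add]
      rw [h4] at hcf
      set T : ℤ := 2 ^ t with hT
      have hT2 : 2 ≤ T := by
        calc (2 : ℤ) = 2 ^ 1 := by norm_num
          _ ≤ 2 ^ t := pow_le_pow_right₀ (by norm_num) ht1
      have hu0 : (0 : ℤ) ≤ u := by positivity
      have hw0 : (0 : ℤ) ≤ w := by positivity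
      -- u^2 = (T w)^2 - T^2 + 1
      have h5 : (u : ℤ) < T * w := by
        by_contra hcon
        push Not at hcon
        have : (T * w) ^ 2 ≤ (u : ℤ) ^ 2 := by
          apply pow_le_pow_left₀ (by positivity) hcon
        nlinarith
      have h6 : (u : ℤ) ≤ T * w - 1 := by linarith
      have h7 : (u : ℤ) ^ 2 ≤ (T * w - 1) ^ 2 := pow_le_pow_left₀ hu0 h6 2
      have h8 : 2 * w ≤ T := by nlinarith
      have h9 : (4 : ℤ) * w ^ 2 ≤ T * T := by nlinarith
      have h10 : (n i : ℤ) * 4 ≤ 2 ^ (j - i) := by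
        rw [hw, ht, h4]; push_cast; linarith
      have h11 : (2 : ℤ) ^ (j - i) ≤ n i := by exact_mod_cast hlt
      have h12 : (2 : ℤ) ≤ n 0 := by exact_mod_cast h0
      have h13 : (1 : ℤ) ≤ 2 ^ (j - i) := one_le_pow₀ (by norm_num)
      linarith

/-- a block of length `2h` of almost prime powers contains `k` consecutive primes. -/
theorem block_has_chain (hs : s = 1 ∨ s = -1) {h k : ℕ}
    (hrec : ∀ i, i + 1 < 2 * h → (n (i + 1) : ℤ) = 2 * n i + s) (hT : 2 * T < h)
    (hk : 3 * k + 1 ≤ h)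
    (hgood : ∀ i, i < 2 * h → AlmostPrimePower T (n i)) :
    ∃ a, a + k ≤ 2 * h ∧ ∀ i, i < k → (n (a + i)).Prime := by
  have h0 : 2 ≤ n 0 := (hgood 0 (by omega)).two_le
  have hpp := prime_power_term hs hrec hT hgood
  by_contra hcon
  push Not at hcon
  obtain ⟨i1, hi1, hb1⟩ := hcon (h + 1) (by omega)
  obtain ⟨i2, hi2, hb2⟩ := hcon (h + 1 + k) (by omega)
  obtain ⟨i3, hi3, hb3⟩ := hcon (h + 1 + k + k) (by omega)
  have tb := two_bad hs hrec h0 hpp
  have t12 := tb (h + 1 + i1) (h + 1 + k + i2) (by omega) (by omega) (by omega)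
  have t23 := tb (h + 1 + k + i2) (h + 1 + k + k + i3) (by omega) (by omega) (by omega)
  have t13 := tb (h + 1 + i1) (h + 1 + k + k + i3) (by omega) (by omega) (by omega)
  rcases Nat.even_or_odd (h + 1 + k + i2 - (h + 1 + i1)) with he | ho
  · exact t12 he hb1 hb2
  · rcases Nat.even_or_odd (h + 1 + k + k + i3 - (h + 1 + k + i2)) with he' | ho'
    · exact t23 he' hb2 hb3
    · apply t13 _ hb1 hb3
      have : h + 1 + k + k + i3 - (h + 1 + i1)
          = (h + 1 + k + k + i3 - (h + 1 + k + i2)) + (h + 1 + k + i2 - (h + 1 + i1)) := by omega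
      rw [this]
      exact Odd.add_odd ho' ho

end core

/-- Quantitative form: a sequence of length `K ≥ 2 (E+1) (2T+3k+1)` obeying one of the two Cunningham
recurrences, all but at most `E` of whose terms are almost prime powers with parameter `T`, contains
`k` consecutive terms that are primes. -/
theorem contains_chain (T E K k : ℕ) (n : ℕ → ℕ) (hK : 2 * (E + 1) * (2 * T + 3 * k + 1) ≤ K)
    (hrec : (∀ i, i + 1 < K → n (i + 1) = 2 * n i + 1) ∨
      (∀ i, i + 1 < K → n (i + 1) + 1 = 2 * n i))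
    (hE : Set.ncard {i : ℕ | i < K ∧ ¬ AlmostPrimePower T (n i)} ≤ E) :
    ∃ a, a + k ≤ K ∧ ∀ i, i < k → (n (a + i)).Prime := by
  classical
  replace hE : {i ∈ Finset.range K | ¬ AlmostPrimePower T (n i)}.card ≤ E := by
    rw [← Set.ncard_coe_finset]
    convert hE using 2
    ext i
    simp
  set h := 2 * T + 3 * k + 1 with hh
  have hKh : (E + 1) * (2 * h) ≤ K := by
    calc (E + 1) * (2 * h) = 2 * (E + 1) * h := by ring
      _ ≤ K := hK
  -- an exception-free block
  obtain ⟨b, hbE, hb⟩ : ∃ b, b ≤ E ∧ ∀ i, i < 2 * h → AlmostPrimePower T (n (b * (2 * h) + i)) := by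
    by_contra hcon
    push Not at hcon
    choose! f hf1 hf2 using hcon
    have hblock : ∀ b, b ≤ E → b * (2 * h) + 2 * h ≤ K := by
      intro b hb
      calc b * (2 * h) + 2 * h = (b + 1) * (2 * h) := by ring
        _ ≤ (E + 1) * (2 * h) := Nat.mul_le_mul_right _ (by omega)
        _ ≤ K := hKh
    have hcard : (Finset.range (E + 1)).card
        ≤ {i ∈ Finset.range K | ¬ AlmostPrimePower T (n i)}.card := by
      apply Finset.card_le_card_of_injOn (fun b => b * (2 * h) + f b)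
      · intro b hb
        have hb' : b ≤ E := by
          have := Finset.mem_range.mp (Finset.mem_coe.mp hb)
          omega
        have h1 := hf1 b hb'
        have h2 := hf2 b hb'
        have h3 := hblock b hb'
        simp only [Finset.coe_filter, Finset.mem_range, Set.mem_ofPred_eq]
        exact ⟨by omega, h2⟩
      · intro b hb c hc hbc
        have hb' : b ≤ E := by
          have := Finset.mem_range.mp (Finset.mem_coe.mp hb)
          omega
        have hc' : c ≤ E := by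
          have := Finset.mem_range.mp (Finset.mem_coe.mp hc)
          omega
        have h1 := hf1 b hb'
        have h1' := hf1 c hc'
        simp only at hbc
        have h2 : (b * (2 * h) + f b) / (2 * h) = b := by
          rw [Nat.mul_comm b, Nat.mul_add_div (by omega)]
          simp [Nat.div_eq_of_lt h1]
        have h3 : (c * (2 * h) + f c) / (2 * h) = c := by
          rw [Nat.mul_comm c, Nat.mul_add_div (by omega)]
          simp [Nat.div_eq_of_lt h1']
        rw [← h2, ← h3, hbc]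
    simp only [Finset.card_range] at hcard
    omega
  have hbK : b * (2 * h) + 2 * h ≤ K := by
    calc b * (2 * h) + 2 * h = (b + 1) * (2 * h) := by ring
      _ ≤ (E + 1) * (2 * h) := Nat.mul_le_mul_right _ (by omega)
      _ ≤ K := hKh
  obtain ⟨a, ha, hprime⟩ : ∃ a, a + k ≤ 2 * h ∧ ∀ i, i < k → (n (b * (2 * h) + (a + i))).Prime := by
    rcases hrec with h1 | h1
    · refine block_has_chain (n := fun i => n (b * (2 * h) + i)) (s := 1) (T := T) (Or.inl rfl) ?_
        (by omega) (by omega) hb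
      intro i hi
      have := h1 (b * (2 * h) + i) (by omega)
      rw [← add_assoc, this]
      push_cast
      ring
    · refine block_has_chain (n := fun i => n (b * (2 * h) + i)) (s := -1) (T := T) (Or.inr rfl) ?_
        (by omega) (by omega) hb
      intro i hi
      have := h1 (b * (2 * h) + i) (by omega)
      rw [← add_assoc]
      have h2 : (n (b * (2 * h) + i + 1) : ℤ) + 1 = 2 * n (b * (2 * h) + i) := by exact_mod_cast this
      linarith
  refine ⟨b * (2 * h) + a, by omega, ?_⟩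
  intro i hi
  have := hprime i hi
  rwa [← add_assoc] at this

/-- Arbitrarily long Cunningham chains exist if and only if arbitrarily long almost chains exist:
the left side is the posed question; the right side asks only, for each `k`, for a sequence of some
length `K ≥ 2 (E+1) (2T+3k+1)` obeying `n(i+1) = 2 n(i) + 1` for all `i` (or `n(i+1) = 2 n(i) - 1`
for all `i`) all but at most `E` of whose terms are almost prime powers with parameter `T`. -/
theorem result :
    (∀ k : ℕ, 2 < k → ∃ q : ℕ → ℕ,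
      (∀ i < k, (q i).Prime) ∧
      ((∀ i, i + 1 < k → q (i + 1) = 2 * q i + 1) ∨
       (∀ i, i + 1 < k → q (i + 1) = 2 * q i - 1)))
    ↔
    (∀ k : ℕ, ∃ (T E K : ℕ) (n : ℕ → ℕ), 2 * (E + 1) * (2 * T + 3 * k + 1) ≤ K ∧
      ((∀ i, i + 1 < K → n (i + 1) = 2 * n i + 1) ∨
       (∀ i, i + 1 < K → n (i + 1) + 1 = 2 * n i)) ∧
      Set.ncard {i : ℕ | i < K ∧ ¬ AlmostPrimePower T (n i)} ≤ E) := by
  classical
  constructor
  · intro hQ k
    obtain ⟨q, hq, hrec⟩ := hQ (6 * k + 3) (by omega)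
    refine ⟨0, 0, 6 * k + 3, q, by omega, ?_, ?_⟩
    · rcases hrec with h1 | h1
      · exact Or.inl h1
      · right
        intro i hi
        have h2 := h1 i hi
        have h3 := (hq i (by omega)).two_le
        omega
    · have hempty : {i : ℕ | i < 6 * k + 3 ∧ ¬ AlmostPrimePower 0 (q i)} = ∅ := by
        apply Set.eq_empty_of_forall_notMem
        rintro i ⟨hi, hn⟩
        apply hn
        refine ⟨1, q i, 1, by simp, hq i hi, le_rfl, le_rfl, ?_⟩
        intro r hr hr1
        exact absurd (Nat.dvd_one.mp hr1) hr.one_lt.ne'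
      rw [hempty, Set.ncard_empty]
  · intro h k hk
    obtain ⟨T, E, K, n, hK, hrec, hE⟩ := h k
    obtain ⟨a, haK, hp⟩ := contains_chain T E K k n hK hrec hE
    refine ⟨fun i => n (a + i), fun i hi => hp i hi, ?_⟩
    rcases hrec with h1 | h1
    · left
      intro i hi
      exact h1 (a + i) (by omega)
    · right
      intro i hi
      have := h1 (a + i) (by omega)
      simp only
      rw [← add_assoc]
      omega

end Pool.Agent.Results.MP_c183ae_nt.AlmostChains
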