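import Pool.Agent.H22.Classes

/-!
Dirichlet series of rough numbers twisted by characters: pointwise bounds and mean values.
-/

set_option autoImplicit false

open Finset Real MeasureTheory

namespace Pool.Agent.H22

open Pool.Agent.H16

theorem conj_char {q : ℕ} [NeZero q] (χ : DirichletCharacter ℂ q) (b : ZMod q) (hb : IsUnit b) :
    (starRingEnd ℂ) (χ b) = χ b⁻¹ := by
  have h1 : χ b * χ b⁻¹ = 1 := by rw [← map_mul, ZMod.mul_inv_of_unit b hb, map_one]
  have h2 : star (χ b) = χ⁻¹ b := MulChar.star_apply' χ b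
  rw [MulChar.inv_apply_eq_inv'] at h2
  rw [eq_inv_of_mul_eq_one_right h1]
  exact h2

open scoped Classical in
theorem parseval_char {q : ℕ} [NeZero q] (G : ZMod q → ℂ) :
    ∑ χ : DirichletCharacter ℂ q, ‖∑ a : ZMod q, χ a * G a‖ ^ 2 =
      (Nat.totient q : ℝ) * ∑ a : ZMod q, if IsUnit a then ‖G a‖ ^ 2 else 0 := by
  have h1 : ((∑ χ : DirichletCharacter ℂ q, ‖∑ a : ZMod q, χ a * G a‖ ^ 2 : ℝ) : ℂ) =
      ((Nat.totient q : ℝ) * ∑ a : ZMod q, if IsUnit a then ‖G a‖ ^ 2 else 0 : ℝ) := by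
    calc ((∑ χ : DirichletCharacter ℂ q, ‖∑ a : ZMod q, χ a * G a‖ ^ 2 : ℝ) : ℂ)
        = ∑ χ : DirichletCharacter ℂ q, ∑ b : ZMod q, ∑ a : ZMod q,
            ((starRingEnd ℂ) (χ b) * χ a) * (G a * (starRingEnd ℂ) (G b)) := by
          push_cast
          apply Finset.sum_congr rfl
          intro χ _
          rw [← Complex.mul_conj', map_sum, Finset.sum_mul_sum, Finset.sum_comm]
          apply Finset.sum_congr rfl
          intro b _
          apply Finset.sum_congr rfl
          intro a _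
          rw [map_mul]
          ring
      _ = ∑ b : ZMod q, ∑ a : ZMod q, (∑ χ : DirichletCharacter ℂ q, (starRingEnd ℂ) (χ b) * χ a) *
            (G a * (starRingEnd ℂ) (G b)) := by
          rw [Finset.sum_comm]
          apply Finset.sum_congr rfl
          intro b _
          rw [Finset.sum_comm]
          apply Finset.sum_congr rfl
          intro a _
          rw [Finset.sum_mul]
      _ = ∑ b : ZMod q, if IsUnit b then ((Nat.totient q : ℂ) * ((‖G b‖ ^ 2 : ℝ) : ℂ)) else 0 := by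
          apply Finset.sum_congr rfl
          intro b _
          split_ifs with hb
          · have h2 : ∀ a : ZMod q, (∑ χ : DirichletCharacter ℂ q, (starRingEnd ℂ) (χ b) * χ a) =
                if b = a then (Nat.totient q : ℂ) else 0 := by
              intro a
              rw [← DirichletCharacter.sum_char_inv_mul_char_eq ℂ hb a]
              apply Finset.sum_congr rfl
              intro χ _
              rw [conj_char χ b hb]
            simp_rw [h2]
            simp only [ite_mul, zero_mul, Finset.sum_ite_eq, Finset.mem_univ, if_true]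
            rw [Complex.mul_conj']
            push_cast
            rfl
          · apply Finset.sum_eq_zero
            intro a _
            have h3 : (∑ χ : DirichletCharacter ℂ q, (starRingEnd ℂ) (χ b) * χ a) = 0 := by
              apply Finset.sum_eq_zero
              intro χ _
              rw [MulChar.map_nonunit χ hb]
              simp
            rw [h3, zero_mul]
      _ = _ := by
          push_cast
          rw [Finset.mul_sum]
          apply Finset.sum_congr rfl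
          intro b _
          split_ifs <;> simp
  exact_mod_cast h1

theorem bfun_eq {q : ℕ} [NeZero q] (z : ℕ) (χ : DirichletCharacter ℂ q) (hχ : χ ≠ 1) :
    bfun z χ = (Nat.totient q : ℂ)⁻¹ • ∑ a : ZMod q, χ a • gcls q z a := by
  ext n
  simp only [Pi.smul_apply, Finset.sum_apply, smul_eq_mul]
  have hφ : (Nat.totient q : ℂ) ≠ 0 := by
    exact_mod_cast (Nat.totient_pos.mpr (Nat.pos_of_ne_zero (NeZero.ne q))).ne'
  unfold bfun gcls
  split_ifs with h
  · have h1 : ∑ a : ZMod q, χ a * ((Nat.totient q : ℂ) * (if (n : ZMod q) = a then 1 else 0) - 1) =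
        (Nat.totient q : ℂ) * χ (n : ZMod q) - ∑ a : ZMod q, χ a := by
      simp_rw [mul_sub]
      rw [Finset.sum_sub_distrib]
      congr 1
      · rw [Finset.sum_eq_single (n : ZMod q)]
        · rw [if_pos rfl]; ring
        · intro b _ hb
          rw [if_neg (Ne.symm hb)]; ring
        · simp
      · simp
    rw [h1, MulChar.sum_eq_zero_of_ne_one hχ, sub_zero]
    field_simp
  · simp

theorem logMul_iter_smul (c : ℂ) (g : ℕ → ℂ) (j : ℕ) :
    LSeries.logMul^[j] (c • g) = c • LSeries.logMul^[j] g := by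
  ext n
  rw [Pi.smul_apply, logMul_iter, logMul_iter, Pi.smul_apply, smul_eq_mul, smul_eq_mul]
  ring

theorem logMul_iter_sum {ι : Type*} (S : Finset ι) (g : ι → ℕ → ℂ) (j : ℕ) :
    LSeries.logMul^[j] (∑ i ∈ S, g i) = ∑ i ∈ S, LSeries.logMul^[j] (g i) := by
  ext n
  rw [logMul_iter, Finset.sum_apply, Finset.sum_apply, Finset.mul_sum]
  apply Finset.sum_congr rfl
  intro i _
  rw [logMul_iter]

theorem abs_iter {g : ℕ → ℂ} (h : LSeries.abscissaOfAbsConv g ≤ 1) (j : ℕ) :
    LSeries.abscissaOfAbsConv (LSeries.logMul^[j] g) ≤ 1 := by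
  rw [LSeries.absicssaOfAbsConv_logPowMul]; exact h

theorem LSeries_bfun {q : ℕ} [NeZero q] (z : ℕ) (χ : DirichletCharacter ℂ q) (hχ : χ ≠ 1) (j : ℕ)
    (s : ℂ) (hs : 1 < s.re) :
    LSeries (LSeries.logMul^[j] (bfun z χ)) s =
      (Nat.totient q : ℂ)⁻¹ * ∑ a : ZMod q, χ a * LSeries (LSeries.logMul^[j] (gcls q z a)) s := by
  rw [bfun_eq z χ hχ, logMul_iter_smul, LSeries_smul, logMul_iter_sum]
  have h1 : ∀ a : ZMod q, LSeries.logMul^[j] (χ a • gcls q z a) = χ a • LSeries.logMul^[j] (gcls q z a) :=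
    fun a => logMul_iter_smul _ _ _
  simp_rw [h1]
  rw [LSeries_sum]
  · congr 1
    apply Finset.sum_congr rfl
    intro a _
    rw [LSeries_smul]
  · intro a _
    exact (summable_of_abs (abs_iter (gcls_abs q z a) j) hs).smul _

theorem card_units_eq (q : ℕ) [NeZero q] : #{a : ZMod q | IsUnit a} = Nat.totient q := by
  classical
  rw [← ZMod.card_units_eq_totient q]
  symm
  rw [← Finset.card_univ]
  apply Finset.card_bij (fun (u : (ZMod q)ˣ) _ => (u : ZMod q))
  · intro u _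
    simp
  · intro u _ v _ h
    exact Units.ext h
  · intro a ha
    rw [Finset.mem_filter] at ha
    obtain ⟨u, hu⟩ := ha.2
    exact ⟨u, Finset.mem_univ _, hu⟩

/-- pointwise bound for nontrivial characters -/
theorem U_bound : ∃ (K : ℝ) (z0 : ℕ), 0 < K ∧ 9 ≤ z0 ∧ ∀ z : ℕ, z0 ≤ z → ∀ q : ℕ, ∀ _ : NeZero q,
    (q : ℝ) ≤ (z : ℝ) ^ (1 / 2 : ℝ) → ∀ χ : DirichletCharacter ℂ q, χ ≠ 1 → ∀ j : ℕ, ∀ s : ℂ, 1 < s.re →
    ‖LSeries (LSeries.logMul^[j] (bfun z χ)) s‖ ≤
      K * (2 ^ j * j.factorial * (2 / c0) ^ (j + 1)) * ‖s‖ * (Real.log z) ^ j := by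
  obtain ⟨K, z0, hK, hz0, h⟩ := gcls_PB
  refine ⟨K, z0, hK, hz0, ?_⟩
  intro z hz q hq hqz χ hχ j s hs
  have hz9 : 9 ≤ z := by omega
  have hzr : (9 : ℝ) ≤ z := by exact_mod_cast hz9
  have hlz : 1 < Real.log z := by
    rw [Real.lt_log_iff_exp_lt (by linarith)]
    have := Real.exp_one_lt_d9
    linarith
  have hc := c0_pos
  have hc' := c0_lt
  have hq1 : 1 ≤ q := Nat.pos_of_ne_zero (NeZero.ne q)
  have hη : c0 / Real.log z ≤ 1 / 2 := by
    rw [div_le_iff₀ (by linarith)]; linarith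
  have hφ : 0 < (Nat.totient q : ℝ) := by exact_mod_cast Nat.totient_pos.mpr hq1
  set Bd := K * (2 ^ j * j.factorial * (2 / c0) ^ (j + 1)) * ‖s‖ * (Real.log z) ^ j with hBd
  have hBd0 : 0 ≤ Bd := by positivity
  have hG : ∀ a : ZMod q, IsUnit a → ‖LSeries (LSeries.logMul^[j] (gcls q z a)) s‖ ≤ Bd := by
    intro a ha
    have hPB := (h z hz q hq1 hqz a ha).iter (mul_nonneg hK.le (mp_nonneg z)) hη
      (fun n hn => by unfold gcls; rw [if_neg]; rintro ⟨h1, -⟩; omega) j
    have h1 := hPB.LSeries_le (mul_nonneg (by positivity) (mul_nonneg hK.le (mp_nonneg z))) (by positivity)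
      (by linarith) s hs (summable_of_abs (abs_iter (gcls_abs q z a) j) hs)
    refine h1.trans ?_
    have hmp := mp_le z (by omega)
    have h2 : 2 / (c0 / Real.log z + (s.re - 1)) ≤ (2 / c0) * Real.log z := by
      have h3 : c0 / Real.log z ≤ c0 / Real.log z + (s.re - 1) := by linarith
      calc 2 / (c0 / Real.log z + (s.re - 1)) ≤ 2 / (c0 / Real.log z) :=
            div_le_div_of_nonneg_left (by norm_num) (by positivity) h3
        _ = (2 / c0) * Real.log z := by field_simp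
    have h4 : 0 ≤ 2 / (c0 / Real.log z + (s.re - 1)) := by
      have : 0 < c0 / Real.log z := by positivity
      apply div_nonneg (by norm_num); linarith
    calc ‖s‖ * (2 ^ j * (K * mp z) * (j.factorial * (2 / (c0 / Real.log z + (s.re - 1))) ^ (j + 1)))
        ≤ ‖s‖ * (2 ^ j * (K * (1 / Real.log z)) * (j.factorial * ((2 / c0) * Real.log z) ^ (j + 1))) := by
          gcongr
      _ = Bd := by
          rw [hBd, mul_pow, pow_succ (Real.log z)]
          field_simp
  rw [LSeries_bfun z χ hχ j s hs, norm_mul, norm_inv, Complex.norm_natCast]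
  rw [inv_mul_le_iff₀ hφ]
  refine (norm_sum_le _ _).trans ?_
  classical
  calc ∑ a : ZMod q, ‖χ a * LSeries (LSeries.logMul^[j] (gcls q z a)) s‖
      ≤ ∑ a : ZMod q, if IsUnit a then Bd else 0 := by
        apply Finset.sum_le_sum
        intro a _
        split_ifs with ha
        · rw [norm_mul]
          calc ‖χ a‖ * ‖LSeries (LSeries.logMul^[j] (gcls q z a)) s‖ ≤ 1 * Bd := by
                gcongr
                · exact DirichletCharacter.norm_le_one χ _
                · exact hG a ha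
            _ = Bd := one_mul _
        · rw [MulChar.map_nonunit χ ha, zero_mul, norm_zero]
    _ = (Nat.totient q : ℝ) * Bd := by
        rw [← Finset.sum_filter, Finset.sum_const, card_units_eq, nsmul_eq_mul]

/-- mean value bound for nontrivial characters -/
theorem MV_bound : ∃ (K : ℝ) (z0 : ℕ), 0 < K ∧ 9 ≤ z0 ∧ ∀ z : ℕ, z0 ≤ z → ∀ q : ℕ, ∀ _ : NeZero q,
    (q : ℝ) ≤ (z : ℝ) ^ (1 / 2 : ℝ) → ∀ j : ℕ, ∀ κ : ℝ, 0 < κ → κ ≤ 1 →
    (∀ χ : DirichletCharacter ℂ q, Integrable (fun t : ℝ => Real.exp (-((1 / 4) * t ^ 2)) *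
      ‖LSeries (LSeries.logMul^[j] (bfun z χ)) ((1 + κ : ℝ) + t * Complex.I)‖ ^ 2)) ∧
    ∑ χ ∈ (Finset.univ : Finset (DirichletCharacter ℂ q)).filter (fun χ => χ ≠ 1),
      ∫ t : ℝ, Real.exp (-((1 / 4) * t ^ 2)) *
      ‖LSeries (LSeries.logMul^[j] (bfun z χ)) ((1 + κ : ℝ) + t * Complex.I)‖ ^ 2 ≤
      K * (4 ^ j * ((2 * j).factorial * (1 / c0) ^ (2 * j + 1))) * ((Real.log z) ^ (2 * j + 1) / (Real.log z) ^ 2) := by
  obtain ⟨K, z0, hK, hz0, h⟩ := gcls_PB
  refine ⟨24 * π * K ^ 2, z0, by positivity, hz0, ?_⟩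
  intro z hz q hq hqz j κ hκ hκ1
  have hz9 : 9 ≤ z := by omega
  have hzr : (9 : ℝ) ≤ z := by exact_mod_cast hz9
  have hlz : 1 < Real.log z := by
    rw [Real.lt_log_iff_exp_lt (by linarith)]
    have := Real.exp_one_lt_d9
    linarith
  have hc := c0_pos
  have hc' := c0_lt
  have hq1 : 1 ≤ q := Nat.pos_of_ne_zero (NeZero.ne q)
  have hη : c0 / Real.log z ≤ 1 / 2 := by
    rw [div_le_iff₀ (by linarith)]; linarith
  have hφ : 0 < (Nat.totient q : ℝ) := by exact_mod_cast Nat.totient_pos.mpr hq1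
  have hs : ∀ t : ℝ, 1 < (((1 + κ : ℝ) : ℂ) + t * Complex.I).re := by
    intro t; simp [hκ]
  set Bd := 24 * π * K ^ 2 * (4 ^ j * ((2 * j).factorial * (1 / c0) ^ (2 * j + 1))) *
    ((Real.log z) ^ (2 * j + 1) / (Real.log z) ^ 2) with hBd
  -- integrability for all g with bounded coefficients
  have hint : ∀ g : ℕ → ℂ, LSeries.abscissaOfAbsConv g ≤ 1 → (∃ C : ℝ, ∀ t : ℝ,
      ‖LSeries g ((1 + κ : ℝ) + t * Complex.I)‖ ≤ C) → Integrable (fun t : ℝ => Real.exp (-((1 / 4) * t ^ 2)) *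
      ‖LSeries g ((1 + κ : ℝ) + t * Complex.I)‖ ^ 2) := by
    rintro g hg ⟨C, hC⟩
    have h1 : Integrable (fun t : ℝ => C ^ 2 * Real.exp (-((1 / 4) * t ^ 2))) :=
      (gauss_integrable (1 / 4) (by norm_num)).const_mul _
    apply h1.mono'
    · have := LSeries_line_continuous hg (1 + κ) (by linarith)
      exact (Continuous.mul (by fun_prop) (this.norm.pow 2)).aestronglyMeasurable
    · refine Filter.Eventually.of_forall fun t => ?_
      rw [Real.norm_of_nonneg (by positivity), mul_comm]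
      have := hC t
      gcongr
  have hbdd : ∀ g : ℕ → ℂ, LSeries.abscissaOfAbsConv g ≤ 1 → (∃ C : ℝ, ∀ t : ℝ,
      ‖LSeries g ((1 + κ : ℝ) + t * Complex.I)‖ ≤ C) := by
    intro g hg
    refine ⟨∑' n, ‖LSeries.term g ((1 + κ : ℝ) : ℂ) n‖, fun t => ?_⟩
    have hsum : LSeriesSummable g (((1 + κ : ℝ) : ℂ) + t * Complex.I) := summable_of_abs hg (hs t)
    have hterm : ∀ n, ‖LSeries.term g (((1 + κ : ℝ) : ℂ) + t * Complex.I) n‖ =
        ‖LSeries.term g ((1 + κ : ℝ) : ℂ) n‖ := by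
      intro n
      rw [LSeries.norm_term_eq, LSeries.norm_term_eq]
      simp
    unfold LSeries
    refine (norm_tsum_le_tsum_norm hsum.norm).trans (le_of_eq ?_)
    congr 1
    ext n
    exact hterm n
  refine ⟨fun χ => hint _ (abs_iter (bfun_abs z χ) j) (hbdd _ (abs_iter (bfun_abs z χ) j)), ?_⟩
  classical
  have hGint : ∀ a : ZMod q, Integrable (fun t : ℝ => Real.exp (-((1 / 4) * t ^ 2)) *
      ‖LSeries (LSeries.logMul^[j] (gcls q z a)) ((1 + κ : ℝ) + t * Complex.I)‖ ^ 2) :=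
    fun a => hint _ (abs_iter (gcls_abs q z a) j) (hbdd _ (abs_iter (gcls_abs q z a) j))
  have hG : ∀ a : ZMod q, IsUnit a → ∫ t : ℝ, Real.exp (-((1 / 4) * t ^ 2)) *
      ‖LSeries (LSeries.logMul^[j] (gcls q z a)) ((1 + κ : ℝ) + t * Complex.I)‖ ^ 2 ≤ Bd := by
    intro a ha
    have hPB := (h z hz q hq1 hqz a ha).iter (mul_nonneg hK.le (mp_nonneg z)) hη
      (fun n hn => by unfold gcls; rw [if_neg]; rintro ⟨h1, -⟩; omega) j
    have h1 := (hPB.MV (mul_nonneg (by positivity) (mul_nonneg hK.le (mp_nonneg z))) (by positivity)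
      (by linarith) (abs_iter (gcls_abs q z a) j) κ hκ hκ1).2
    refine h1.trans ?_
    have hmp := mp_le z (by omega)
    have hmp0 := mp_nonneg z
    have h2 : 1 / (c0 / Real.log z + κ) ≤ (1 / c0) * Real.log z := by
      have h3 : c0 / Real.log z ≤ c0 / Real.log z + κ := by linarith
      calc 1 / (c0 / Real.log z + κ) ≤ 1 / (c0 / Real.log z) :=
            div_le_div_of_nonneg_left (by norm_num) (by positivity) h3
        _ = (1 / c0) * Real.log z := by field_simp
    calc 24 * π * ((2 ^ j * (K * mp z)) ^ 2 * ((2 * j).factorial * (1 / (c0 / Real.log z + κ)) ^ (2 * j + 1)))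
        ≤ 24 * π * ((2 ^ j * (K * (1 / Real.log z))) ^ 2 *
            ((2 * j).factorial * ((1 / c0) * Real.log z) ^ (2 * j + 1))) := by
          gcongr
      _ = Bd := by
          rw [hBd, mul_pow (1 / c0), mul_pow, mul_pow, ← pow_mul, show (4 : ℝ) ^ j = 2 ^ (j * 2) by
            rw [mul_comm, pow_mul]; norm_num]
          field_simp
  -- Parseval
  have hpt : ∀ t : ℝ, ∑ χ ∈ (Finset.univ : Finset (DirichletCharacter ℂ q)).filter (fun χ => χ ≠ 1),
      Real.exp (-((1 / 4) * t ^ 2)) *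
      ‖LSeries (LSeries.logMul^[j] (bfun z χ)) ((1 + κ : ℝ) + t * Complex.I)‖ ^ 2 ≤
      (Nat.totient q : ℝ)⁻¹ * ∑ a : ZMod q, if IsUnit a then Real.exp (-((1 / 4) * t ^ 2)) *
        ‖LSeries (LSeries.logMul^[j] (gcls q z a)) ((1 + κ : ℝ) + t * Complex.I)‖ ^ 2 else 0 := by
    intro t
    set G : ZMod q → ℂ := fun a => LSeries (LSeries.logMul^[j] (gcls q z a)) ((1 + κ : ℝ) + t * Complex.I) with hG'
    have h1 : ∀ χ ∈ (Finset.univ : Finset (DirichletCharacter ℂ q)).filter (fun χ => χ ≠ 1),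
        Real.exp (-((1 / 4) * t ^ 2)) *
        ‖LSeries (LSeries.logMul^[j] (bfun z χ)) ((1 + κ : ℝ) + t * Complex.I)‖ ^ 2 =
        Real.exp (-((1 / 4) * t ^ 2)) * ((Nat.totient q : ℝ)⁻¹) ^ 2 * ‖∑ a : ZMod q, χ a * G a‖ ^ 2 := by
      intro χ hχ
      rw [Finset.mem_filter] at hχ
      rw [LSeries_bfun z χ hχ.2 j _ (hs t), norm_mul, norm_inv, Complex.norm_natCast, mul_pow]
      ring
    rw [Finset.sum_congr rfl h1, ← Finset.mul_sum]
    have h2 : ∑ χ ∈ (Finset.univ : Finset (DirichletCharacter ℂ q)).filter (fun χ => χ ≠ 1),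
        ‖∑ a : ZMod q, χ a * G a‖ ^ 2 ≤ (Nat.totient q : ℝ) * ∑ a : ZMod q, if IsUnit a then ‖G a‖ ^ 2 else 0 := by
      rw [← parseval_char G]
      apply Finset.sum_le_sum_of_subset_of_nonneg (Finset.filter_subset _ _)
      intro _ _ _
      positivity
    calc Real.exp (-((1 / 4) * t ^ 2)) * ((Nat.totient q : ℝ)⁻¹) ^ 2 *
          ∑ χ ∈ (Finset.univ : Finset (DirichletCharacter ℂ q)).filter (fun χ => χ ≠ 1),
            ‖∑ a : ZMod q, χ a * G a‖ ^ 2
        ≤ Real.exp (-((1 / 4) * t ^ 2)) * ((Nat.totient q : ℝ)⁻¹) ^ 2 *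
          ((Nat.totient q : ℝ) * ∑ a : ZMod q, if IsUnit a then ‖G a‖ ^ 2 else 0) := by gcongr
      _ = (Nat.totient q : ℝ)⁻¹ * ∑ a : ZMod q, if IsUnit a then Real.exp (-((1 / 4) * t ^ 2)) * ‖G a‖ ^ 2 else 0 := by
          have h3 : ∑ a : ZMod q, (if IsUnit a then Real.exp (-((1 / 4) * t ^ 2)) * ‖G a‖ ^ 2 else 0) =
              Real.exp (-((1 / 4) * t ^ 2)) * ∑ a : ZMod q, if IsUnit a then ‖G a‖ ^ 2 else 0 := by
            rw [Finset.mul_sum]
            apply Finset.sum_congr rfl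
            intro a _
            split_ifs <;> simp
          rw [h3]
          field_simp
  have hbint : ∀ χ : DirichletCharacter ℂ q, Integrable (fun t : ℝ => Real.exp (-((1 / 4) * t ^ 2)) *
      ‖LSeries (LSeries.logMul^[j] (bfun z χ)) ((1 + κ : ℝ) + t * Complex.I)‖ ^ 2) :=
    fun χ => hint _ (abs_iter (bfun_abs z χ) j) (hbdd _ (abs_iter (bfun_abs z χ) j))
  rw [← integral_finsetSum _ (fun χ _ => hbint χ)]
  have hRint : ∀ a ∈ (Finset.univ : Finset (ZMod q)), Integrable (fun t : ℝ => if IsUnit a then Real.exp (-((1 / 4) * t ^ 2)) *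
        ‖LSeries (LSeries.logMul^[j] (gcls q z a)) ((1 + κ : ℝ) + t * Complex.I)‖ ^ 2 else 0) := by
    intro a _
    split_ifs
    · exact hGint a
    · exact integrable_zero _ _ _
  refine (integral_mono (integrable_finsetSum _ (fun χ _ => hbint χ))
    ((integrable_finsetSum _ hRint).const_mul _) hpt).trans ?_
  rw [integral_const_mul, integral_finsetSum _ hRint, inv_mul_le_iff₀ hφ]
  calc ∑ a : ZMod q, ∫ t : ℝ, (if IsUnit a then Real.exp (-((1 / 4) * t ^ 2)) *
        ‖LSeries (LSeries.logMul^[j] (gcls q z a)) ((1 + κ : ℝ) + t * Complex.I)‖ ^ 2 else 0)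
      ≤ ∑ a : ZMod q, if IsUnit a then Bd else 0 := by
        apply Finset.sum_le_sum
        intro a _
        split_ifs with ha
        · exact hG a ha
        · simp
    _ = (Nat.totient q : ℝ) * Bd := by
        rw [← Finset.sum_filter, Finset.sum_const, card_units_eq, nsmul_eq_mul]

end Pool.Agent.H22
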