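import Mathlib

/-!
A Gaussian-weighted Plancherel inequality, and Gaussian transforms of Dirichlet series.
-/

set_option autoImplicit false

open MeasureTheory Real

namespace Pool.Agent.H22

theorem gauss_ft (b u : ℝ) (hb : 0 < b) :
    ∫ t : ℝ, ((Real.exp (-(b * t ^ 2)) : ℝ) : ℂ) * Complex.exp (-(Complex.I * t * u)) =
      ((Real.sqrt (π / b) * Real.exp (-(u ^ 2 / (4 * b))) : ℝ) : ℂ) := by
  have h := fourierIntegral_gaussian (b := (b : ℂ)) (by simpa using hb) (-(u : ℂ))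
  have h1 : ∀ t : ℝ, ((Real.exp (-(b * t ^ 2)) : ℝ) : ℂ) * Complex.exp (-(Complex.I * t * u)) =
      Complex.exp (Complex.I * (-(u : ℂ)) * t) * Complex.exp (-(b : ℂ) * t ^ 2) := by
    intro t
    rw [Complex.ofReal_exp, mul_comm]
    congr 1
    · congr 1; ring
    · congr 1; push_cast; ring
  simp_rw [h1]
  rw [h]
  rw [Complex.ofReal_mul, Complex.ofReal_exp]
  congr 1
  · rw [Real.sqrt_eq_rpow, Complex.ofReal_cpow (by positivity)]
    push_cast
    rfl
  · congr 1
    push_cast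
    ring

theorem gauss_int (b : ℝ) : ∫ t : ℝ, Real.exp (-(b * t ^ 2)) = Real.sqrt (π / b) := by
  have h := integral_gaussian b
  have h2 : (fun t : ℝ => Real.exp (-(b * t ^ 2))) = fun t => Real.exp (-b * t ^ 2) := by
    ext t; congr 1; ring
  rw [h2]
  exact h

theorem gauss_integrable (b : ℝ) (hb : 0 < b) : Integrable (fun t : ℝ => Real.exp (-(b * t ^ 2))) := by
  have h := integrable_exp_neg_mul_sq hb
  have h2 : (fun t : ℝ => Real.exp (-(b * t ^ 2))) = fun t => Real.exp (-b * t ^ 2) := by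
    ext t; congr 1; ring
  rw [h2]
  exact h

theorem gauss_plancherel (h : ℝ → ℂ) (hi : Integrable h) (h2 : Integrable (fun w => ‖h w‖ ^ 2)) :
    ∫ t : ℝ, Real.exp (-((1 / 8) * t ^ 2)) * ‖∫ w, h w * Complex.exp (-(Complex.I * t * w))‖ ^ 2 ≤
      2 * π * ∫ w, ‖h w‖ ^ 2 := by
  set F : ℝ → ℝ × ℝ → ℂ := fun t p => ((Real.exp (-((1 / 8) * t ^ 2)) : ℝ) : ℂ) *
    ((h p.1 * Complex.exp (-(Complex.I * t * p.1))) *
      (starRingEnd ℂ) (h p.2 * Complex.exp (-(Complex.I * t * p.2)))) with hF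
  have hphase : ∀ t w : ℝ, ‖Complex.exp (-(Complex.I * t * w))‖ = 1 := by
    intro t w
    rw [Complex.norm_exp]
    simp
  have hFint : Integrable (Function.uncurry F) (volume.prod (volume.prod volume)) := by
    have hconj : Integrable (fun w => (starRingEnd ℂ) (h w)) := by
      have := hi.norm
      refine ⟨Complex.continuous_conj.comp_aestronglyMeasurable hi.1, ?_⟩
      have h3 := hi.2
      refine h3.mono (Filter.Eventually.of_forall fun w => ?_)
      simp
    have hA : Integrable (fun p : ℝ × ℝ => h p.1 * (starRingEnd ℂ) (h p.2)) (volume.prod volume) :=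
      hi.mul_prod hconj
    have hG : Integrable (fun t : ℝ => ((Real.exp (-((1 / 8) * t ^ 2)) : ℝ) : ℂ)) :=
      (gauss_integrable (1 / 8) (by norm_num)).ofReal
    have hB : Integrable (fun z : ℝ × (ℝ × ℝ) => ((Real.exp (-((1 / 8) * z.1 ^ 2)) : ℝ) : ℂ) *
        (h z.2.1 * (starRingEnd ℂ) (h z.2.2))) (volume.prod (volume.prod volume)) :=
      hG.mul_prod hA
    have hph : Continuous (fun z : ℝ × (ℝ × ℝ) => Complex.exp (-(Complex.I * z.1 * z.2.1)) *
        (starRingEnd ℂ) (Complex.exp (-(Complex.I * z.1 * z.2.2)))) := by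
      apply Continuous.mul
      · fun_prop
      · exact Complex.continuous_conj.comp (by fun_prop)
    have hC := hB.bdd_mul (c := 1) hph.aestronglyMeasurable (Filter.Eventually.of_forall fun z => by
      rw [norm_mul, RCLike.norm_conj, hphase, hphase]; norm_num)
    refine hC.congr (Filter.Eventually.of_forall fun z => ?_)
    simp only [hF, Function.uncurry, map_mul]
    ring
  have hinner : ∀ t : ℝ, ∫ p, F t p ∂(volume.prod volume) =
      ((Real.exp (-((1 / 8) * t ^ 2)) * ‖∫ w, h w * Complex.exp (-(Complex.I * t * w))‖ ^ 2 : ℝ) : ℂ) := by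
    intro t
    simp only [hF]
    rw [integral_const_mul]
    have h3 := integral_prod_mul (μ := (volume : Measure ℝ)) (ν := (volume : Measure ℝ))
      (fun w => h w * Complex.exp (-(Complex.I * t * w)))
      (fun w => (starRingEnd ℂ) (h w * Complex.exp (-(Complex.I * t * w))))
    rw [h3, integral_conj, Complex.mul_conj']
    push_cast
    ring
  have hinner2 : ∀ p : ℝ × ℝ, ∫ t, F t p = (h p.1 * (starRingEnd ℂ) (h p.2)) *
      ((Real.sqrt (π / (1 / 8)) * Real.exp (-((p.1 - p.2) ^ 2 / (4 * (1 / 8)))) : ℝ) : ℂ) := by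
    intro p
    rw [← gauss_ft (1 / 8) (p.1 - p.2) (by norm_num), ← integral_const_mul]
    congr 1
    ext t
    simp only [hF, map_mul]
    have h4 : (starRingEnd ℂ) (Complex.exp (-(Complex.I * t * p.2))) = Complex.exp (Complex.I * t * p.2) := by
      rw [← Complex.exp_conj]
      congr 1
      simp
    have h5 : Complex.exp (-(Complex.I * t * ((p.1 - p.2 : ℝ) : ℂ))) =
        Complex.exp (-(Complex.I * t * p.1)) * Complex.exp (Complex.I * t * p.2) := by
      rw [← Complex.exp_add]; congr 1; push_cast; ring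
    rw [h4, h5]
    ring
  have hkey : ((∫ t : ℝ, Real.exp (-((1 / 8) * t ^ 2)) *
      ‖∫ w, h w * Complex.exp (-(Complex.I * t * w))‖ ^ 2 : ℝ) : ℂ) =
      ∫ p, (h p.1 * (starRingEnd ℂ) (h p.2)) *
      ((Real.sqrt (π / (1 / 8)) * Real.exp (-((p.1 - p.2) ^ 2 / (4 * (1 / 8)))) : ℝ) : ℂ)
        ∂(volume.prod volume) := by
    rw [← integral_complex_ofReal]
    simp_rw [← hinner, ← hinner2]
    exact integral_integral_swap hFint
  -- integrability of the majorants
  have hg : Integrable (fun w : ℝ => Real.exp (-(2 * w ^ 2))) := gauss_integrable 2 (by norm_num)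
  have hB2 : Integrable (fun p : ℝ × ℝ => ‖h p.2‖ ^ 2 * Real.exp (-(2 * (p.1 - p.2) ^ 2)))
      (volume.prod volume) :=
    h2.convolution_integrand (ContinuousLinearMap.mul ℝ ℝ) hg
  have hB1 : Integrable (fun p : ℝ × ℝ => ‖h p.1‖ ^ 2 * Real.exp (-(2 * (p.1 - p.2) ^ 2)))
      (volume.prod volume) := by
    have := hB2.swap
    refine this.congr (Filter.Eventually.of_forall fun p => ?_)
    simp only [Function.comp, Prod.fst_swap, Prod.snd_swap]
    congr 2
    ring
  have hI2 : ∫ p : ℝ × ℝ, ‖h p.2‖ ^ 2 * Real.exp (-(2 * (p.1 - p.2) ^ 2)) ∂(volume.prod volume) =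
      Real.sqrt (π / 2) * ∫ w, ‖h w‖ ^ 2 := by
    rw [integral_prod_symm _ hB2]
    simp only
    have : ∀ y : ℝ, ∫ x : ℝ, ‖h y‖ ^ 2 * Real.exp (-(2 * (x - y) ^ 2)) = ‖h y‖ ^ 2 * Real.sqrt (π / 2) := by
      intro y
      rw [integral_const_mul, ← gauss_int 2]
      congr 1
      exact integral_sub_right_eq_self (fun x => Real.exp (-(2 * x ^ 2))) y
    simp_rw [this]
    rw [integral_mul_const, mul_comm]
  have hI1 : ∫ p : ℝ × ℝ, ‖h p.1‖ ^ 2 * Real.exp (-(2 * (p.1 - p.2) ^ 2)) ∂(volume.prod volume) =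
      Real.sqrt (π / 2) * ∫ w, ‖h w‖ ^ 2 := by
    rw [← hI2, ← integral_prod_swap]
    congr 1
    ext p
    simp only [Prod.fst_swap, Prod.snd_swap]
    congr 2
    ring
  have hle : ∫ t : ℝ, Real.exp (-((1 / 8) * t ^ 2)) *
      ‖∫ w, h w * Complex.exp (-(Complex.I * t * w))‖ ^ 2 ≤
      ∫ p : ℝ × ℝ, Real.sqrt (π / (1 / 8)) * (1 / 2) *
        (‖h p.1‖ ^ 2 * Real.exp (-(2 * (p.1 - p.2) ^ 2)) + ‖h p.2‖ ^ 2 * Real.exp (-(2 * (p.1 - p.2) ^ 2)))
        ∂(volume.prod volume) := by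
    have h6 : (∫ t : ℝ, Real.exp (-((1 / 8) * t ^ 2)) *
        ‖∫ w, h w * Complex.exp (-(Complex.I * t * w))‖ ^ 2) =
        ‖((∫ t : ℝ, Real.exp (-((1 / 8) * t ^ 2)) *
        ‖∫ w, h w * Complex.exp (-(Complex.I * t * w))‖ ^ 2 : ℝ) : ℂ)‖ := by
      rw [Complex.norm_real, Real.norm_of_nonneg]
      apply integral_nonneg
      intro t
      positivity
    rw [h6, hkey]
    apply norm_integral_le_of_norm_le ((hB1.add hB2).const_mul _)
    refine Filter.Eventually.of_forall fun p => ?_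
    rw [norm_mul, norm_mul, RCLike.norm_conj, Complex.norm_real, Real.norm_of_nonneg (by positivity)]
    have h7 : (-((p.1 - p.2) ^ 2 / (4 * (1 / 8)))) = (-(2 * (p.1 - p.2) ^ 2)) := by ring
    rw [h7]
    have h8 : ‖h p.1‖ * ‖h p.2‖ ≤ 1 / 2 * (‖h p.1‖ ^ 2 + ‖h p.2‖ ^ 2) := by
      nlinarith [sq_nonneg (‖h p.1‖ - ‖h p.2‖)]
    calc ‖h p.1‖ * ‖h p.2‖ * (Real.sqrt (π / (1 / 8)) * Real.exp (-(2 * (p.1 - p.2) ^ 2)))
        ≤ (1 / 2 * (‖h p.1‖ ^ 2 + ‖h p.2‖ ^ 2)) *
          (Real.sqrt (π / (1 / 8)) * Real.exp (-(2 * (p.1 - p.2) ^ 2))) :=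
          mul_le_mul_of_nonneg_right h8 (by positivity)
      _ = _ := by simp only [Pi.add_apply]; ring
  refine hle.trans (le_of_eq ?_)
  rw [integral_const_mul, integral_add hB1 hB2, hI1, hI2]
  have h9 : Real.sqrt (π / (1 / 8)) * Real.sqrt (π / 2) = 2 * π := by
    rw [← Real.sqrt_mul (by positivity)]
    have : π / (1 / 8) * (π / 2) = (2 * π) ^ 2 := by ring
    rw [this, Real.sqrt_sq (by positivity)]
  generalize ∫ w, ‖h w‖ ^ 2 = J
  calc Real.sqrt (π / (1 / 8)) * (1 / 2) * (Real.sqrt (π / 2) * J + Real.sqrt (π / 2) * J)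
      = (Real.sqrt (π / (1 / 8)) * Real.sqrt (π / 2)) * J := by ring
    _ = _ := by rw [h9]

end Pool.Agent.H22
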