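import Pool.Agent.H22.Abel
import Pool.Agent.H22.GaussP

/-!
Mean values of Dirichlet series with small partial sums.
-/

set_option autoImplicit false

open Finset Real MeasureTheory

namespace Pool.Agent.H22

/-- Laplace density of the partial sums -/
noncomputable def hfun (g : ℕ → ℂ) (σ : ℝ) (w : ℝ) : ℂ :=
  Set.indicator (Set.Ioi (0 : ℝ)) (fun w : ℝ =>
    (∑ k ∈ Icc 1 ⌊Real.exp w⌋₊, g k) * ((Real.exp (-(σ * w)) : ℝ) : ℂ)) w

theorem hfun_measurable (g : ℕ → ℂ) (σ : ℝ) : Measurable (hfun g σ) := by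
  unfold hfun
  apply Measurable.indicator _ measurableSet_Ioi
  apply Measurable.mul
  · exact (measurable_from_nat (f := fun n : ℕ => ∑ k ∈ Icc 1 n, g k)).comp
      (Nat.measurable_floor.comp Real.measurable_exp)
  · fun_prop

theorem summable_of_abs {g : ℕ → ℂ} (habs : LSeries.abscissaOfAbsConv g ≤ 1) {s : ℂ} (hs : 1 < s.re) :
    LSeriesSummable g s := by
  apply LSeriesSummable_of_abscissaOfAbsConv_lt_re
  refine lt_of_le_of_lt habs ?_
  exact_mod_cast hs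

theorem PB.LSeries_eq_hfun {g : ℕ → ℂ} {M η : ℝ} {j : ℕ} (h : PB g M η j) (hM : 0 ≤ M)
    (hη : 0 ≤ η) (habs : LSeries.abscissaOfAbsConv g ≤ 1) (σ : ℝ) (hσ : 1 < σ) (t : ℝ) :
    LSeries g (σ + t * Complex.I) = (σ + t * Complex.I) *
      ∫ w, hfun g σ w * Complex.exp (-(Complex.I * t * w)) := by
  have hre : (σ + t * Complex.I : ℂ).re = σ := by simp
  rw [h.LSeries_eq hM hη _ (by rw [hre]; exact hσ) (summable_of_abs habs (by rw [hre]; exact hσ))]
  congr 1
  have h1 := integral_comp_exp_Ioi (fun y : ℝ => (∑ k ∈ Icc 1 ⌊y⌋₊, g k) *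
    (y : ℂ) ^ (-((σ + t * Complex.I : ℂ) + 1))) 0
  rw [Real.exp_zero] at h1
  rw [← h1]
  have h2 : ∀ w : ℝ, hfun g σ w * Complex.exp (-(Complex.I * t * w)) =
      Set.indicator (Set.Ioi (0 : ℝ)) (fun w : ℝ => Real.exp w •
        ((∑ k ∈ Icc 1 ⌊Real.exp w⌋₊, g k) * ((Real.exp w : ℝ) : ℂ) ^ (-((σ + t * Complex.I : ℂ) + 1)))) w := by
    intro w
    unfold hfun
    by_cases hw : w ∈ Set.Ioi (0 : ℝ)
    · rw [Set.indicator_of_mem hw, Set.indicator_of_mem hw]
      have h3 : ((Real.exp w : ℝ) : ℂ) ^ (-((σ + t * Complex.I : ℂ) + 1)) =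
          Complex.exp (w * (-((σ + t * Complex.I : ℂ) + 1))) := by
        rw [Complex.cpow_def_of_ne_zero (by exact_mod_cast (Real.exp_pos w).ne'),
          ← Complex.ofReal_log (Real.exp_pos w).le, Real.log_exp]
      rw [h3, Complex.real_smul, Complex.ofReal_exp, Complex.ofReal_exp]
      have h4 : Complex.exp w * ((∑ k ∈ Icc 1 ⌊Real.exp w⌋₊, g k) *
          Complex.exp (w * (-((σ + t * Complex.I : ℂ) + 1)))) =
          (∑ k ∈ Icc 1 ⌊Real.exp w⌋₊, g k) * (Complex.exp w * Complex.exp (w * (-((σ + t * Complex.I : ℂ) + 1)))) := by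
        ring
      rw [h4, ← Complex.exp_add, mul_assoc, ← Complex.exp_add]
      congr 2
      push_cast
      ring
    · rw [Set.indicator_of_notMem hw, Set.indicator_of_notMem hw, zero_mul]
  simp_rw [h2]
  rw [integral_indicator measurableSet_Ioi]

theorem pow_le_exp_mul (w β : ℝ) (hw : 0 ≤ w) (hβ : 0 < β) (j : ℕ) :
    w ^ j ≤ j.factorial * (1 / β) ^ j * Real.exp (β * w) := by
  have h := Real.pow_div_factorial_le_exp (β * w) (by positivity) j
  rw [div_le_iff₀ (by positivity)] at h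
  rw [mul_pow] at h
  calc w ^ j = (1 / β) ^ j * (β ^ j * w ^ j) := by
        rw [← mul_assoc, ← mul_pow]
        field_simp
        simp
    _ ≤ (1 / β) ^ j * (Real.exp (β * w) * j.factorial) := by gcongr
    _ = _ := by ring

theorem PB.hfun_le {g : ℕ → ℂ} {M η : ℝ} {j : ℕ} (h : PB g M η j) (hM : 0 ≤ M)
    (hη1 : η ≤ 1) (κ : ℝ) (w : ℝ) :
    ‖hfun g (1 + κ) w‖ ≤ Set.indicator (Set.Ioi (0 : ℝ))
      (fun w => M * w ^ j * Real.exp (-((η + κ) * w))) w := by
  unfold hfun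
  by_cases hw : w ∈ Set.Ioi (0 : ℝ)
  · rw [Set.indicator_of_mem hw, Set.indicator_of_mem hw]
    have hw0 : (0 : ℝ) < w := hw
    rw [norm_mul, Complex.norm_real, Real.norm_of_nonneg (Real.exp_pos _).le]
    have h1 := h.real hM hη1 (Real.exp w) (Real.one_le_exp hw0.le)
    rw [Real.log_exp] at h1
    have h2 : (Real.exp w) ^ (1 - η) = Real.exp (w * (1 - η)) := by
      rw [← Real.exp_mul]
    rw [h2] at h1
    calc ‖∑ k ∈ Icc 1 ⌊Real.exp w⌋₊, g k‖ * Real.exp (-((1 + κ) * w))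
        ≤ (M * Real.exp (w * (1 - η)) * w ^ j) * Real.exp (-((1 + κ) * w)) := by gcongr
      _ = M * w ^ j * (Real.exp (w * (1 - η)) * Real.exp (-((1 + κ) * w))) := by ring
      _ = M * w ^ j * Real.exp (-((η + κ) * w)) := by
          rw [← Real.exp_add]; congr 2; ring
  · rw [Set.indicator_of_notMem hw, Set.indicator_of_notMem hw, norm_zero]

theorem PB.hfun_integrable {g : ℕ → ℂ} {M η : ℝ} {j : ℕ} (h : PB g M η j) (hM : 0 ≤ M)
    (hη : 0 ≤ η) (hη1 : η ≤ 1) (κ : ℝ) (hκ : 0 < κ) : Integrable (hfun g (1 + κ)) := by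
  set β := η + κ with hβ
  have hβ0 : 0 < β := by rw [hβ]; linarith
  have hint : Integrable (Set.indicator (Set.Ioi (0 : ℝ))
      (fun w : ℝ => M * (j.factorial * (1 / (β / 2)) ^ j) * Real.exp (-(β / 2) * w))) := by
    rw [integrable_indicator_iff measurableSet_Ioi]
    exact (exp_neg_integrableOn_Ioi 0 (by linarith)).const_mul _
  apply hint.mono' (hfun_measurable g _).aestronglyMeasurable
  refine Filter.Eventually.of_forall fun w => ?_
  refine (h.hfun_le hM hη1 κ w).trans ?_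
  apply Set.indicator_le_indicator' _
  intro hw
  have hw0 : (0 : ℝ) < w := hw
  have h1 := pow_le_exp_mul w (β / 2) hw0.le (by linarith) j
  calc M * w ^ j * Real.exp (-((η + κ) * w))
      ≤ M * (j.factorial * (1 / (β / 2)) ^ j * Real.exp (β / 2 * w)) * Real.exp (-((η + κ) * w)) := by gcongr
    _ = M * (j.factorial * (1 / (β / 2)) ^ j) * (Real.exp (β / 2 * w) * Real.exp (-((η + κ) * w))) := by ring
    _ = M * (j.factorial * (1 / (β / 2)) ^ j) * Real.exp (-(β / 2) * w) := by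
        rw [← Real.exp_add, ← hβ]; congr 2; ring

theorem PB.hfun_sq {g : ℕ → ℂ} {M η : ℝ} {j : ℕ} (h : PB g M η j) (hM : 0 ≤ M)
    (hη : 0 ≤ η) (hη1 : η ≤ 1) (κ : ℝ) (hκ : 0 < κ) :
    Integrable (fun w => ‖hfun g (1 + κ) w‖ ^ 2) ∧
    ∫ w, ‖hfun g (1 + κ) w‖ ^ 2 ≤ M ^ 2 * ((2 * j).factorial * (1 / (η + κ)) ^ (2 * j + 1)) := by
  set β := η + κ with hβ
  have hβ0 : 0 < β := by rw [hβ]; linarith
  have hint : Integrable (Set.indicator (Set.Ioi (0 : ℝ))
      (fun w : ℝ => M ^ 2 * ((2 * j).factorial * (1 / β) ^ (2 * j)) * Real.exp (-β * w))) := by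
    rw [integrable_indicator_iff measurableSet_Ioi]
    exact (exp_neg_integrableOn_Ioi 0 hβ0).const_mul _
  have hle : ∀ w, ‖hfun g (1 + κ) w‖ ^ 2 ≤ Set.indicator (Set.Ioi (0 : ℝ))
      (fun w : ℝ => M ^ 2 * ((2 * j).factorial * (1 / β) ^ (2 * j)) * Real.exp (-β * w)) w := by
    intro w
    have h0 := h.hfun_le hM hη1 κ w
    by_cases hw : w ∈ Set.Ioi (0 : ℝ)
    · rw [Set.indicator_of_mem hw] at h0 ⊢
      have hw0 : (0 : ℝ) < w := hw
      have h1 := pow_le_exp_mul w β hw0.le hβ0 (2 * j)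
      calc ‖hfun g (1 + κ) w‖ ^ 2 ≤ (M * w ^ j * Real.exp (-((η + κ) * w))) ^ 2 := by gcongr
        _ = M ^ 2 * w ^ (2 * j) * (Real.exp (-(β * w)) * Real.exp (-(β * w))) := by rw [← hβ]; ring
        _ ≤ M ^ 2 * ((2 * j).factorial * (1 / β) ^ (2 * j) * Real.exp (β * w)) *
            (Real.exp (-(β * w)) * Real.exp (-(β * w))) := by gcongr
        _ = M ^ 2 * ((2 * j).factorial * (1 / β) ^ (2 * j)) *
            (Real.exp (β * w) * (Real.exp (-(β * w)) * Real.exp (-(β * w)))) := by ring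
        _ = _ := by
            rw [← Real.exp_add, ← Real.exp_add]; congr 2; ring
    · rw [Set.indicator_of_notMem hw] at h0 ⊢
      have : ‖hfun g (1 + κ) w‖ = 0 := le_antisymm h0 (norm_nonneg _)
      rw [this]; norm_num
  have hint2 : Integrable (fun w => ‖hfun g (1 + κ) w‖ ^ 2) := by
    apply hint.mono' ((hfun_measurable g _).norm.pow_const 2).aestronglyMeasurable
    refine Filter.Eventually.of_forall fun w => ?_
    rw [Real.norm_of_nonneg (by positivity)]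
    exact hle w
  refine ⟨hint2, (integral_mono hint2 hint hle).trans (le_of_eq ?_)⟩
  rw [integral_indicator measurableSet_Ioi, integral_const_mul, integral_exp_mul_Ioi (by linarith)]
  rw [mul_zero, Real.exp_zero, pow_succ (1 / β) (2 * j)]
  field_simp

theorem LSeries_line_continuous {g : ℕ → ℂ} (habs : LSeries.abscissaOfAbsConv g ≤ 1) (σ : ℝ) (hσ : 1 < σ) :
    Continuous (fun t : ℝ => LSeries g (σ + t * Complex.I)) := by
  have h1 := (LSeries_differentiableOn g).continuousOn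
  apply h1.comp_continuous (by fun_prop)
  intro t
  show LSeries.abscissaOfAbsConv g < ((σ + t * Complex.I : ℂ).re : EReal)
  refine lt_of_le_of_lt habs ?_
  simp only [Complex.add_re, Complex.ofReal_re, Complex.mul_re, Complex.I_re, mul_zero, Complex.ofReal_im,
    Complex.I_im, mul_one, sub_self, add_zero]
  exact_mod_cast hσ

/-- mean value estimate -/
theorem PB.MV {g : ℕ → ℂ} {M η : ℝ} {j : ℕ} (h : PB g M η j) (hM : 0 ≤ M)
    (hη : 0 ≤ η) (hη1 : η ≤ 1) (habs : LSeries.abscissaOfAbsConv g ≤ 1) (κ : ℝ) (hκ : 0 < κ) (hκ1 : κ ≤ 1) :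
    Integrable (fun t : ℝ => Real.exp (-((1 / 4) * t ^ 2)) * ‖LSeries g ((1 + κ : ℝ) + t * Complex.I)‖ ^ 2) ∧
    ∫ t : ℝ, Real.exp (-((1 / 4) * t ^ 2)) * ‖LSeries g ((1 + κ : ℝ) + t * Complex.I)‖ ^ 2 ≤
      24 * π * (M ^ 2 * ((2 * j).factorial * (1 / (η + κ)) ^ (2 * j + 1))) := by
  have hσ : 1 < 1 + κ := by linarith
  set I : ℝ → ℂ := fun t => ∫ w, hfun g (1 + κ) w * Complex.exp (-(Complex.I * t * w)) with hI
  have hL : ∀ t : ℝ, LSeries g ((1 + κ : ℝ) + t * Complex.I) = (((1 + κ : ℝ) : ℂ) + t * Complex.I) * I t := by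
    intro t
    exact h.LSeries_eq_hfun hM hη habs (1 + κ) hσ t
  have hs2 : ∀ t : ℝ, ‖(((1 + κ : ℝ) : ℂ) + t * Complex.I)‖ ^ 2 = (1 + κ) ^ 2 + t ^ 2 := by
    intro t
    rw [← Complex.normSq_eq_norm_sq, Complex.normSq_add_mul_I]
  have hsne : ∀ t : ℝ, (((1 + κ : ℝ) : ℂ) + t * Complex.I) ≠ 0 := by
    intro t h0
    have := hs2 t
    rw [h0] at this
    simp at this
    nlinarith [sq_nonneg t]
  have hIeq : ∀ t : ℝ, I t = LSeries g ((1 + κ : ℝ) + t * Complex.I) / (((1 + κ : ℝ) : ℂ) + t * Complex.I) := by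
    intro t
    rw [hL t, mul_div_cancel_left₀ _ (hsne t)]
  have hIcont : Continuous I := by
    have : I = fun t : ℝ => LSeries g ((1 + κ : ℝ) + t * Complex.I) / (((1 + κ : ℝ) : ℂ) + t * Complex.I) := by
      ext t; exact hIeq t
    rw [this]
    exact (LSeries_line_continuous habs (1 + κ) hσ).div (by fun_prop) hsne
  have hIbd : ∀ t, ‖I t‖ ≤ ∫ w, ‖hfun g (1 + κ) w‖ := by
    intro t
    refine (norm_integral_le_integral_norm _).trans (le_of_eq ?_)
    congr 1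
    ext w
    rw [norm_mul, Complex.norm_exp]
    simp
  set B := ∫ w, ‖hfun g (1 + κ) w‖ with hB
  have hB0 : 0 ≤ B := integral_nonneg fun _ => norm_nonneg _
  have hint8 : Integrable (fun t : ℝ => Real.exp (-((1 / 8) * t ^ 2)) * ‖I t‖ ^ 2) := by
    have h1 : Integrable (fun t : ℝ => B ^ 2 * Real.exp (-((1 / 8) * t ^ 2))) :=
      (gauss_integrable (1 / 8) (by norm_num)).const_mul _
    apply h1.mono' (by fun_prop)
    refine Filter.Eventually.of_forall fun t => ?_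
    rw [Real.norm_of_nonneg (by positivity), mul_comm]
    have := hIbd t
    gcongr
  have hpt : ∀ t : ℝ, Real.exp (-((1 / 4) * t ^ 2)) * ‖LSeries g ((1 + κ : ℝ) + t * Complex.I)‖ ^ 2 ≤
      12 * (Real.exp (-((1 / 8) * t ^ 2)) * ‖I t‖ ^ 2) := by
    intro t
    rw [hL t, norm_mul, mul_pow, hs2]
    have h1 : Real.exp (-((1 / 4) * t ^ 2)) = Real.exp (-((1 / 8) * t ^ 2)) * Real.exp (-((1 / 8) * t ^ 2)) := by
      rw [← Real.exp_add]; congr 1; ring
    have h2 : Real.exp (-((1 / 8) * t ^ 2)) * ((1 + κ) ^ 2 + t ^ 2) ≤ 12 := by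
      have h3 : (1 / 8) * t ^ 2 + 1 ≤ Real.exp ((1 / 8) * t ^ 2) := Real.add_one_le_exp _
      rw [Real.exp_neg, inv_mul_le_iff₀ (Real.exp_pos _)]
      nlinarith [sq_nonneg t]
    calc Real.exp (-((1 / 4) * t ^ 2)) * (((1 + κ) ^ 2 + t ^ 2) * ‖I t‖ ^ 2)
        = (Real.exp (-((1 / 8) * t ^ 2)) * ((1 + κ) ^ 2 + t ^ 2)) * (Real.exp (-((1 / 8) * t ^ 2)) * ‖I t‖ ^ 2) := by
          rw [h1]; ring
      _ ≤ 12 * (Real.exp (-((1 / 8) * t ^ 2)) * ‖I t‖ ^ 2) := mul_le_mul_of_nonneg_right h2 (by positivity)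
  have hint4 : Integrable (fun t : ℝ => Real.exp (-((1 / 4) * t ^ 2)) *
      ‖LSeries g ((1 + κ : ℝ) + t * Complex.I)‖ ^ 2) := by
    apply (hint8.const_mul 12).mono'
    · have := LSeries_line_continuous habs (1 + κ) hσ
      exact (Continuous.mul (by fun_prop) (this.norm.pow 2)).aestronglyMeasurable
    · refine Filter.Eventually.of_forall fun t => ?_
      rw [Real.norm_of_nonneg (by positivity)]
      exact hpt t
  refine ⟨hint4, (integral_mono hint4 (hint8.const_mul 12) hpt).trans ?_⟩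
  rw [integral_const_mul]
  obtain ⟨hsq1, hsq2⟩ := h.hfun_sq hM hη hη1 κ hκ
  have h5 := gauss_plancherel (hfun g (1 + κ)) (h.hfun_integrable hM hη hη1 κ hκ) hsq1
  calc 12 * ∫ t : ℝ, Real.exp (-((1 / 8) * t ^ 2)) * ‖I t‖ ^ 2
      ≤ 12 * (2 * π * ∫ w, ‖hfun g (1 + κ) w‖ ^ 2) := by gcongr
    _ ≤ 12 * (2 * π * (M ^ 2 * ((2 * j).factorial * (1 / (η + κ)) ^ (2 * j + 1)))) := by gcongr
    _ = _ := by ring

end Pool.Agent.H22
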