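import Pool.Agent.H22.Equid3
import Pool.Agent.H22.MV

/-!
Rough numbers in residue classes and Dirichlet characters restricted to rough numbers.
-/

set_option autoImplicit false

open Finset Real

namespace Pool.Agent.H22

open Pool.Agent.H16

theorem Rg_iff_coprime (z n : ℕ) : Rg z n ↔ Nat.Coprime n (primorial z) := by
  constructor
  · intro h
    by_contra hc
    rw [Nat.Prime.not_coprime_iff_dvd] at hc
    obtain ⟨p, hp, h1, h2⟩ := hc
    rw [hp.dvd_primorial_iff] at h2
    exact h p (mem_primesIoc.mpr ⟨hp.pos, h2, hp⟩) h1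
  · intro h p hp hd
    rw [mem_primesIoc] at hp
    have h1 := (hp.2.2.dvd_primorial_iff).mpr hp.2.1
    have h2 := Nat.dvd_gcd hd h1
    rw [h] at h2
    exact hp.2.2.one_lt.ne' (Nat.dvd_one.mp h2)

theorem Rg_zero {z : ℕ} (hz : 2 ≤ z) : ¬ Rg z 0 := by
  intro h
  exact h 2 (mem_primesIoc.mpr ⟨by norm_num, hz, Nat.prime_two⟩) (dvd_zero 2)

theorem Rg_one (z : ℕ) : Rg z 1 := by
  intro p hp hd
  rw [mem_primesIoc] at hp
  exact hp.2.2.one_lt.ne' (Nat.dvd_one.mp hd)

theorem Rg_small {z n : ℕ} (hz : 2 ≤ z) (hn : n ≤ z) (h : Rg z n) : n = 1 := by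
  by_contra h1
  have h0 : n ≠ 0 := by rintro rfl; exact Rg_zero hz h
  have hp := Nat.minFac_prime h1
  have hle : n.minFac ≤ n := Nat.minFac_le (by omega)
  exact h n.minFac (mem_primesIoc.mpr ⟨hp.pos, by omega, hp⟩) (Nat.minFac_dvd n)

/-- `χ` restricted to `z`-rough integers, as a Dirichlet character -/
noncomputable def lft {q : ℕ} (z : ℕ) (χ : DirichletCharacter ℂ q) :
    DirichletCharacter ℂ (q * primorial z) :=
  DirichletCharacter.changeLevel (dvd_mul_right q (primorial z)) χ

theorem lft_apply {q : ℕ} (z : ℕ) (χ : DirichletCharacter ℂ q) (n : ℕ) :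
    lft z χ (n : ZMod (q * primorial z)) = if Rg z n then χ (n : ZMod q) else 0 := by
  by_cases hc : Nat.Coprime n (q * primorial z)
  · have h1 : Rg z n := by
      rw [Rg_iff_coprime]; exact Nat.Coprime.coprime_mul_left_right hc
    rw [if_pos h1]
    have h2 := DirichletCharacter.changeLevel_eq_cast_of_dvd χ (dvd_mul_right q (primorial z))
      (ZMod.unitOfCoprime n hc)
    unfold lft
    rw [ZMod.coe_unitOfCoprime] at h2
    rw [h2, ZMod.cast_natCast (dvd_mul_right q (primorial z))]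
  · have h1 : lft z χ (n : ZMod (q * primorial z)) = 0 := by
      apply MulChar.map_nonunit
      rw [ZMod.isUnit_iff_coprime]
      exact hc
    rw [h1]
    split_ifs with h2
    · symm
      apply MulChar.map_nonunit
      rw [ZMod.isUnit_iff_coprime]
      intro h3
      apply hc
      rw [Rg_iff_coprime] at h2
      exact Nat.Coprime.mul_right h3 h2
    · rfl

theorem lft_one {q : ℕ} (z : ℕ) : lft z (1 : DirichletCharacter ℂ q) = 1 := by
  unfold lft
  exact map_one _

theorem lft_sq {q : ℕ} (z : ℕ) (χ : DirichletCharacter ℂ q) : lft z χ ^ 2 = lft z (χ ^ 2) := by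
  unfold lft
  exact (map_pow _ _ _).symm

/-- the nontrivial part of the series -/
noncomputable def bfun {q : ℕ} (z : ℕ) (χ : DirichletCharacter ℂ q) (n : ℕ) : ℂ :=
  if z < n ∧ Rg z n then χ (n : ZMod q) else 0

/-- normalised indicator of a residue class on rough numbers -/
noncomputable def gcls (q z : ℕ) (a : ZMod q) (n : ℕ) : ℂ :=
  if z < n ∧ Rg z n then (Nat.totient q : ℂ) * (if (n : ZMod q) = a then 1 else 0) - 1 else 0

/-- iterated multiplication by the logarithm -/
theorem logMul_iter (g : ℕ → ℂ) (j n : ℕ) :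
    (LSeries.logMul^[j] g) n = (Complex.log n) ^ j * g n := by
  induction j generalizing n with
  | zero => simp
  | succ j ih =>
    rw [Function.iterate_succ_apply']
    show Complex.log n * (LSeries.logMul^[j] g) n = _
    rw [ih, pow_succ]
    ring

theorem PB.iter {g : ℕ → ℂ} {M η : ℝ} (h : PB g M η 0) (hM : 0 ≤ M)
    (hη : η ≤ 1 / 2) (hg : ∀ n ≤ 8, g n = 0) (j : ℕ) : PB (LSeries.logMul^[j] g) (2 ^ j * M) η j := by
  induction j with
  | zero => simpa using h
  | succ j ih =>
    rw [Function.iterate_succ_apply']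
    have := ih.log_mul (by positivity) hη (fun n hn => by rw [logMul_iter, hg n hn, mul_zero])
    convert this using 1
    ring

theorem gcls_abs (q z : ℕ) (a : ZMod q) : LSeries.abscissaOfAbsConv (gcls q z a) ≤ 1 := by
  apply LSeries.abscissaOfAbsConv_le_of_le_const
  refine ⟨(Nat.totient q : ℝ) + 1, fun n _ => ?_⟩
  unfold gcls
  split_ifs
  · calc ‖(Nat.totient q : ℂ) * 1 - 1‖ ≤ ‖(Nat.totient q : ℂ) * 1‖ + ‖(1 : ℂ)‖ := norm_sub_le _ _
      _ = _ := by simp
  · simp
  · simp
    positivity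

theorem bfun_abs {q : ℕ} (z : ℕ) (χ : DirichletCharacter ℂ q) :
    LSeries.abscissaOfAbsConv (bfun z χ) ≤ 1 := by
  apply LSeries.abscissaOfAbsConv_le_of_le_const
  refine ⟨1, fun n _ => ?_⟩
  unfold bfun
  split_ifs
  · exact DirichletCharacter.norm_le_one χ _
  · simp

/-- the two constants of the equidistribution theorem -/
theorem gcls_PB : ∃ (K : ℝ) (z0 : ℕ), 0 < K ∧ 9 ≤ z0 ∧ ∀ z : ℕ, z0 ≤ z → ∀ q : ℕ, 1 ≤ q →
    (q : ℝ) ≤ (z : ℝ) ^ (1 / 2 : ℝ) → ∀ a : ZMod q, IsUnit a →
    PB (gcls q z a) (K * mp z) (c0 / Real.log z) 0 := by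
  obtain ⟨K, z0, hK, hz0, h⟩ := Nct_equid
  refine ⟨2 * K + 8 * Real.exp 11, z0 + 9, by positivity, by omega, ?_⟩
  intro z hz q hq hqz a ha N hN
  have hqne : NeZero q := ⟨by omega⟩
  have hz9 : 9 ≤ z := by omega
  have hzr : (9 : ℝ) ≤ z := by exact_mod_cast hz9
  have hlz : 1 < Real.log z := by
    rw [Real.lt_log_iff_exp_lt (by linarith)]
    have := Real.exp_one_lt_d9
    linarith
  have hmp := mp_nonneg z
  rw [pow_zero, mul_one]
  by_cases hNz : N ≤ z
  · rw [Finset.sum_eq_zero]
    · rw [norm_zero]; positivity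
    · intro k hk
      rw [Finset.mem_Icc] at hk
      unfold gcls
      rw [if_neg]
      rintro ⟨h1, -⟩
      omega
  push Not at hNz
  -- counts
  obtain ⟨b, hb, hbq⟩ : ∃ b : ℕ, (b : ZMod q) = a ∧ Nat.Coprime b q := by
    refine ⟨a.val, ZMod.natCast_zmod_val a, ?_⟩
    rw [← ZMod.isUnit_iff_coprime, ZMod.natCast_zmod_val]
    exact ha
  have hcount : ∀ q' b' : ℕ, ((#{k ∈ Finset.Icc 1 N | z < k ∧ Rg z k ∧ k % q' = b' % q'} : ℕ) : ℝ) =
      Nct q' b' z N - Nct q' b' z z := by
    intro q' b'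
    have h1 : Nct q' b' z N = #{k ∈ Finset.Icc 1 N | z < k ∧ Rg z k ∧ k % q' = b' % q'} + Nct q' b' z z := by
      unfold Nct
      rw [← Finset.card_union_of_disjoint]
      · congr 1
        ext n
        simp only [Finset.mem_filter, Finset.mem_range, Finset.mem_union, Finset.mem_Icc]
        constructor
        · rintro ⟨h1, h2, h3⟩
          by_cases h4 : z < n
          · left; exact ⟨⟨by omega, by omega⟩, h4, h3, h2⟩
          · right; exact ⟨by omega, h2, h3⟩
        · rintro (⟨⟨h1, h2⟩, h3, h4, h5⟩ | ⟨h1, h2, h3⟩)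
          · exact ⟨by omega, h5, h4⟩
          · exact ⟨by omega, h2, h3⟩
      · rw [Finset.disjoint_left]
        intro n h1 h2
        simp only [Finset.mem_filter, Finset.mem_range, Finset.mem_Icc] at h1 h2
        omega
    rw [h1]; push_cast; ring
  have hNctz : ∀ q' b' : ℕ, ((Nct q' b' z z : ℕ) : ℝ) ≤ 1 := by
    intro q' b'
    have : Nct q' b' z z ≤ 1 := by
      unfold Nct
      rw [Finset.card_le_one]
      intro x hx y hy
      simp only [Finset.mem_filter, Finset.mem_range] at hx hy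
      rw [Rg_small (by omega) (by omega) hx.2.2, Rg_small (by omega) (by omega) hy.2.2]
    exact_mod_cast this
  have hsum : ∑ k ∈ Finset.Icc 1 N, gcls q z a k =
      (((Nat.totient q : ℝ) * (Nct q b z N - Nct q b z z) - (Nct 1 0 z N - Nct 1 0 z z) : ℝ) : ℂ) := by
    rw [← hcount, ← hcount]
    have h1 : ∀ k ∈ Finset.Icc 1 N, gcls q z a k =
        (Nat.totient q : ℂ) * (if z < k ∧ Rg z k ∧ k % q = b % q then 1 else 0) -
          (if z < k ∧ Rg z k ∧ k % 1 = 0 % 1 then 1 else 0) := by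
      intro k _
      unfold gcls
      by_cases h2 : z < k ∧ Rg z k
      · rw [if_pos h2]
        have h3 : ((k : ZMod q) = a) ↔ (k % q = b % q) := by
          rw [← hb, ZMod.natCast_eq_natCast_iff']
        rw [if_pos (⟨h2.1, h2.2, by simp [Nat.mod_one]⟩ : z < k ∧ Rg z k ∧ k % 1 = 0 % 1)]
        by_cases h4 : (k : ZMod q) = a
        · rw [if_pos h4, if_pos ⟨h2.1, h2.2, h3.mp h4⟩]
        · rw [if_neg h4, if_neg (fun h5 => h4 (h3.mpr h5.2.2))]
      · rw [if_neg h2, if_neg (fun h5 => h2 ⟨h5.1, h5.2.1⟩), if_neg (fun h5 => h2 ⟨h5.1, h5.2.1⟩)]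
        ring
    rw [Finset.sum_congr rfl h1, Finset.sum_sub_distrib, ← Finset.mul_sum, Finset.sum_boole,
      Finset.sum_boole]
    push_cast
    ring
  rw [hsum, Complex.norm_real, Real.norm_eq_abs]
  have hA := h z (by omega) q hq hqz b hbq N (by omega)
  have hq1 : ((1 : ℕ) : ℝ) ≤ (z : ℝ) ^ (1 / 2 : ℝ) := by
    push_cast
    exact Real.one_le_rpow (by linarith) (by norm_num)
  have hB := h z (by omega) 1 le_rfl hq1 0 (by simp) N (by omega)
  rw [Nat.totient_one, Nat.cast_one, one_mul] at hB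
  have hNr : (0 : ℝ) < N := by exact_mod_cast (by omega : 0 < N)
  have hNz' : (z : ℝ) ≤ N := by exact_mod_cast hNz.le
  -- N * exp(-c0 log N/ log z) = N^(1 - c0/log z)
  have hpow : (N : ℝ) * Real.exp (-(c0 * (Real.log N / Real.log z))) = (N : ℝ) ^ (1 - c0 / Real.log z) := by
    rw [Real.rpow_sub hNr, Real.rpow_one, Real.rpow_def_of_pos hNr, Real.exp_neg, ← div_eq_mul_inv]
    congr 2
    ring
  rw [hpow] at hA hB
  set E := (N : ℝ) ^ (1 - c0 / Real.log z) with hE
  have hc0 := c0_pos
  have hc0' := c0_lt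
  -- lower bound for E
  have hη1 : c0 / Real.log z ≤ 1 := by
    rw [div_le_one (by linarith)]; linarith
  have hElow : (z : ℝ) / 2 ≤ E := by
    have h1 : (z : ℝ) ^ (1 - c0 / Real.log z) ≤ E := by
      rw [hE]
      exact Real.rpow_le_rpow (by linarith) hNz' (by linarith)
    refine le_trans ?_ h1
    have h2 : (z : ℝ) ^ (1 - c0 / Real.log z) = z * Real.exp (-c0) := by
      rw [Real.rpow_sub (by linarith), Real.rpow_one, Real.rpow_def_of_pos (by linarith), Real.exp_neg]
      have : Real.log z * (c0 / Real.log z) = c0 := by field_simp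
      rw [this]
      rfl
    rw [h2]
    have h3 : 1 / 2 ≤ Real.exp (-c0) := by
      have := Real.add_one_le_exp (-c0)
      linarith
    nlinarith
  have hsq : (z : ℝ) ^ (1 / 2 : ℝ) * (z : ℝ) ^ (1 / 2 : ℝ) = z := by
    rw [← Real.rpow_add (by linarith)]; norm_num
  set r := (z : ℝ) ^ (1 / 2 : ℝ) with hr
  have hr1 : 1 ≤ r := by simpa using hq1
  have hlogr : Real.log z ≤ 2 * r := by
    have h1 : Real.log z = 2 * Real.log r := by
      rw [← hsq, Real.log_mul (by linarith) (by linarith)]; ring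
    rw [h1]
    have := Real.log_le_sub_one_of_pos (by linarith : 0 < r)
    linarith
  have hphi : (Nat.totient q : ℝ) + 1 ≤ 8 * Real.exp 11 * (mp z * E) := by
    have h1 : (Nat.totient q : ℝ) ≤ r := by
      have : (Nat.totient q : ℝ) ≤ q := by exact_mod_cast Nat.totient_le q
      linarith
    have h2 := mp_ge z (by omega)
    have h3 : Real.exp (-11) / (2 * r) ≤ mp z := by
      refine le_trans ?_ h2
      exact div_le_div_of_nonneg_left (Real.exp_pos _).le (by linarith) hlogr
    have h4 : Real.exp (-11) / (2 * r) * (z / 2) ≤ mp z * E := by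
      apply mul_le_mul h3 hElow (by positivity) hmp
    have h5 : Real.exp (-11) / (2 * r) * (z / 2) = Real.exp (-11) * r / 4 := by
      rw [← hsq]; field_simp; ring
    rw [h5] at h4
    have h6 : 8 * Real.exp 11 * (Real.exp (-11) * r / 4) = 2 * r := by
      rw [Real.exp_neg]; field_simp; ring
    have h7 : 0 < Real.exp 11 := Real.exp_pos _
    nlinarith
  have h0a : (0 : ℝ) ≤ Nct q b z z := by positivity
  have h0b : (0 : ℝ) ≤ Nct 1 0 z z := by positivity
  have h1a := hNctz q b
  have h1b := hNctz 1 0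
  have hφ0 : (0 : ℝ) ≤ Nat.totient q := by positivity
  rw [abs_le] at hA hB
  have e1 : (Nat.totient q : ℝ) * Nct q b z z ≤ Nat.totient q := by nlinarith
  have e2 : 0 ≤ (Nat.totient q : ℝ) * Nct q b z z := by positivity
  have e3 : 0 ≤ mp z * E := by positivity
  rw [abs_le]
  constructor <;> nlinarith

end Pool.Agent.H22
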