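import Pool.Agent.H22.Orth

/-!
Comparison of smoothed prime sums modulo `2^k W` and modulo `8 W`.
-/

set_option autoImplicit false

open Finset Real MeasureTheory

namespace Pool.Agent.H22

open Pool.Agent.H16

/-- `Λ(n) log n` on rough numbers in a residue class -/
noncomputable def FL (q z : ℕ) (a : ZMod q) (n : ℕ) : ℂ :=
  if (n : ZMod q) = a ∧ Rg z n then ((ArithmeticFunction.vonMangoldt n : ℝ) : ℂ) * (Real.log n : ℂ) else 0

theorem FL_abs (q z : ℕ) (a : ZMod q) : LSeries.abscissaOfAbsConv (FL q z a) ≤ 1 := by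
  have h1 : LSeries.abscissaOfAbsConv (LSeries.logMul (fun n => ((ArithmeticFunction.vonMangoldt n : ℝ) : ℂ))) ≤ 1 := by
    rw [LSeries.abscissaOfAbsConv_logMul]
    apply LSeries.abscissaOfAbsConv_le_of_forall_lt_LSeriesSummable'
    intro y hy
    have hy1 : 1 < (y : ℂ).re := by
      rw [Complex.ofReal_re]; exact_mod_cast hy
    exact ArithmeticFunction.LSeriesSummable_vonMangoldt hy1
  apply LSeries.abscissaOfAbsConv_le_of_forall_lt_LSeriesSummable'
  intro y hy
  have hy1 : 1 < (y : ℂ).re := by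
    rw [Complex.ofReal_re]; exact_mod_cast hy
  have h2 := summable_of_abs h1 hy1
  apply Summable.of_norm_bounded h2.norm
  intro n
  apply LSeries.norm_term_le
  unfold FL LSeries.logMul
  split_ifs
  · rw [Complex.natCast_log, mul_comm]
  · simp only [norm_zero]
    positivity

theorem SS_smul (c : ℂ) (f : ℕ → ℂ) (κ y : ℝ) : SS (c • f) κ y = c * SS f κ y := by
  unfold SS
  rw [← tsum_mul_left]
  congr 1
  ext n
  rw [LSeries.term_smul]
  simp only [Pi.smul_apply, smul_eq_mul]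
  ring

theorem SS_sum {ι : Type*} (S : Finset ι) (f : ι → ℕ → ℂ) (hf : ∀ i ∈ S, LSeries.abscissaOfAbsConv (f i) ≤ 1)
    (κ y : ℝ) (hκ : 0 < κ) : SS (∑ i ∈ S, f i) κ y = ∑ i ∈ S, SS (f i) κ y := by
  unfold SS
  rw [← Summable.tsum_finsetSum (fun i hi => SS_summable (hf i hi) κ y hκ)]
  congr 1
  ext n
  rw [LSeries.term_sum_apply, Finset.sum_mul]

theorem smul_abs {f : ℕ → ℂ} (hf : LSeries.abscissaOfAbsConv f ≤ 1) (c : ℂ) :
    LSeries.abscissaOfAbsConv (c • f) ≤ 1 := by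
  apply LSeries.abscissaOfAbsConv_le_of_forall_lt_LSeriesSummable'
  intro y hy
  have hy1 : 1 < (y : ℂ).re := by
    rw [Complex.ofReal_re]; exact_mod_cast hy
  exact (summable_of_abs hf hy1).smul c

theorem core : ∃ (C : ℝ) (z0 : ℕ), 0 < C ∧ 9 ≤ z0 ∧ ∀ z : ℕ, z0 ≤ z → ∀ k W q N : ℕ, 3 ≤ k → 1 ≤ W →
    q = 2 ^ k * W → N = 8 * W →
    (q : ℝ) ≤ (z : ℝ) ^ (1 / 2 : ℝ) → ∀ a : ZMod q, IsUnit a →
    ∀ κ : ℝ, 0 < κ → κ * Real.log z ≤ 1 → ∀ y : ℝ, 1 ≤ y →
    ∃ b : ZMod N, IsUnit b ∧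
    ‖(Nat.totient q : ℂ) * SS (FL q z a) κ y -
      (Nat.totient N : ℂ) * SS (FL N z b) κ y‖ ≤ C * Real.log z := by
  obtain ⟨C1, z1, hC1, hz1, hH⟩ := High_bound
  obtain ⟨K, z2, hK, hz2, hG⟩ := gcls_PB
  have hc0 := c0_pos
  have hc0' := c0_lt
  set C2 := 64 * (4 * K * (2 * (1 / c0) ^ 2)) with hC2
  have hC2pos : 0 < C2 := by positivity
  refine ⟨C1 + 2 * C2, z1 + z2, by positivity, by omega, ?_⟩
  intro z hz k W q N hk hW hq hN hqz a ha κ hκ hκl y hy
  classical
  have hq0 : NeZero q := ⟨by rw [hq]; positivity⟩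
  have hN0 : NeZero N := ⟨by rw [hN]; positivity⟩
  have hNq : N ∣ q := by
    rw [hN, hq]
    exact Nat.mul_dvd_mul_right (pow_dvd_pow 2 hk) W
  have hNle : N ≤ q := Nat.le_of_dvd (Nat.pos_of_ne_zero hq0.ne) hNq
  have hrad : ∀ n : ℕ, Nat.Coprime n N → Nat.Coprime n q := by
    intro n hn
    rw [hN] at hn
    rw [hq]
    have h1 : Nat.Coprime n 8 := Nat.Coprime.coprime_mul_right_right hn
    have h2 : Nat.Coprime n W := Nat.Coprime.coprime_mul_left_right hn
    have h3 : Nat.Coprime n 2 := by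
      have : (8 : ℕ) = 2 ^ 3 := by norm_num
      rw [this] at h1
      exact (Nat.coprime_pow_right_iff (by norm_num) n 2).mp h1
    exact Nat.Coprime.mul_right (h3.pow_right k) h2
  have hz9 : 9 ≤ z := by omega
  have hzr : (9 : ℝ) ≤ z := by exact_mod_cast hz9
  have hlz : 1 < Real.log z := by
    rw [Real.lt_log_iff_exp_lt (by linarith)]
    have := Real.exp_one_lt_d9
    linarith
  have hκ1 : κ ≤ 1 := by nlinarith
  have hNz : (N : ℝ) ≤ (z : ℝ) ^ (1 / 2 : ℝ) := le_trans (by exact_mod_cast hNle) hqz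
  have hbu : IsUnit ((ZMod.castHom hNq (ZMod N)) a) := ha.map (ZMod.castHom hNq (ZMod N))
  refine ⟨(ZMod.castHom hNq (ZMod N)) a, hbu, ?_⟩
  set b := (ZMod.castHom hNq (ZMod N)) a with hb
  -- high characters
  have hhi : ∀ χ ∈ hi q N, χ ^ 2 ≠ 1 := by
    intro χ hχ h2
    unfold hi at hχ
    rw [Finset.mem_filter] at hχ
    subst hq hN
    exact hχ.2 (factors_of_sq k W hk hW χ h2)
  have hHb := hH z (by omega) q hq0 hqz κ hκ hκl y (hi q N) hhi (fun χ => χ a⁻¹)
    (fun χ => DirichletCharacter.norm_le_one χ _)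
  -- the two combinations
  have hlog : ∀ n : ℕ, Complex.log (n : ℂ) = (Real.log n : ℂ) := fun n => (Complex.natCast_log).symm
  have hcL : ∑ χ ∈ hi q N, χ a⁻¹ • LSeries.logMul (chL z χ) =
      (Nat.totient q : ℂ) • FL q z a - (Nat.totient N : ℂ) • FL N z b := by
    ext n
    rw [Finset.sum_apply]
    simp only [Pi.smul_apply, Pi.sub_apply, smul_eq_mul]
    have h1 : ∀ χ ∈ hi q N, χ a⁻¹ * LSeries.logMul (chL z χ) n =
        (if Rg z n then ((ArithmeticFunction.vonMangoldt n : ℝ) : ℂ) * (Real.log n : ℂ) else 0) *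
          (χ a⁻¹ * χ (n : ZMod q)) := by
      intro χ _
      unfold LSeries.logMul chL
      rw [lft_apply, hlog]
      split_ifs <;> ring
    rw [Finset.sum_congr rfl h1, ← Finset.mul_sum, orth_hi hNq hrad a ha n, ← hb]
    unfold FL
    by_cases hR : Rg z n
    · rw [if_pos hR]
      have e1 : ((n : ZMod q) = a ∧ Rg z n) ↔ a = (n : ZMod q) := by
        constructor
        · rintro ⟨h, -⟩; exact h.symm
        · intro h; exact ⟨h.symm, hR⟩
      have e2 : ((n : ZMod N) = b ∧ Rg z n) ↔ b = (n : ZMod N) := by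
        constructor
        · rintro ⟨h, -⟩; exact h.symm
        · intro h; exact ⟨h.symm, hR⟩
      simp only [e1, e2]
      split_ifs <;> ring
    · simp only [hR, and_false, if_false]
      ring
  have hcR : ∑ χ ∈ hi q N, χ a⁻¹ • LSeries.logMul^[2] (bfun z χ) =
      LSeries.logMul^[2] (gcls q z a) - LSeries.logMul^[2] (gcls N z b) := by
    ext n
    rw [Finset.sum_apply]
    simp only [Pi.smul_apply, Pi.sub_apply, smul_eq_mul]
    have h1 : ∀ χ ∈ hi q N, χ a⁻¹ * (LSeries.logMul^[2] (bfun z χ)) n =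
        (if z < n ∧ Rg z n then (Complex.log n) ^ 2 else 0) * (χ a⁻¹ * χ (n : ZMod q)) := by
      intro χ _
      rw [logMul_iter]
      unfold bfun
      split_ifs <;> ring
    rw [Finset.sum_congr rfl h1, ← Finset.mul_sum, orth_hi hNq hrad a ha n, ← hb, logMul_iter, logMul_iter]
    unfold gcls
    by_cases hR : z < n ∧ Rg z n
    · rw [if_pos hR, if_pos hR, if_pos hR]
      have e1 : ((n : ZMod q) = a) ↔ a = (n : ZMod q) := eq_comm
      have e2 : ((n : ZMod N) = b) ↔ b = (n : ZMod N) := eq_comm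
      simp only [e1, e2]
      split_ifs <;> ring
    · rw [if_neg hR, if_neg hR, if_neg hR]
      ring
  have habsL : ∀ χ : DirichletCharacter ℂ q, LSeries.abscissaOfAbsConv (LSeries.logMul (chL z χ)) ≤ 1 := by
    intro χ
    rw [LSeries.abscissaOfAbsConv_logMul]; exact chL_abs z χ
  have hSSL : ∑ χ ∈ hi q N, χ a⁻¹ * SS (LSeries.logMul (chL z χ)) κ y =
      (Nat.totient q : ℂ) * SS (FL q z a) κ y - (Nat.totient N : ℂ) * SS (FL N z b) κ y := by
    rw [← SS_smul, ← SS_smul, ← SS_sub (smul_abs (FL_abs q z a) _) (smul_abs (FL_abs N z b) _) κ y hκ, ← hcL,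
      SS_sum _ _ (fun χ _ => smul_abs (habsL χ) _) κ y hκ]
    apply Finset.sum_congr rfl
    intro χ _
    rw [SS_smul]
  have hSSR : ∑ χ ∈ hi q N, χ a⁻¹ * SS (LSeries.logMul^[2] (bfun z χ)) κ y =
      SS (LSeries.logMul^[2] (gcls q z a)) κ y - SS (LSeries.logMul^[2] (gcls N z b)) κ y := by
    rw [← SS_sub (abs_iter (gcls_abs q z a) 2) (abs_iter (gcls_abs N z b) 2) κ y hκ, ← hcR,
      SS_sum _ _ (fun χ _ => smul_abs (abs_iter (bfun_abs z χ) 2) _) κ y hκ]
    apply Finset.sum_congr rfl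
    intro χ _
    rw [SS_smul]
  have hGb : ∀ (r : ℕ), ∀ _ : NeZero r, (r : ℝ) ≤ (z : ℝ) ^ (1 / 2 : ℝ) → ∀ d : ZMod r, IsUnit d →
      ‖SS (LSeries.logMul^[2] (gcls r z d)) κ y‖ ≤ C2 * Real.log z := by
    intro r hr hrz d hd
    have hη : c0 / Real.log z ≤ 1 / 2 := by
      rw [div_le_iff₀ (by linarith)]; linarith
    have hηpos : 0 < c0 / Real.log z := by positivity
    have hPB := (hG z (by omega) r (Nat.pos_of_ne_zero hr.ne) hrz d hd).iter
      (mul_nonneg hK.le (mp_nonneg z)) hη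
      (fun n hn => by unfold gcls; rw [if_neg]; rintro ⟨h1, -⟩; omega) 2
    have h1 := SS_PB_bound hPB (mul_nonneg (by positivity) (mul_nonneg hK.le (mp_nonneg z))) hηpos
      (abs_iter (gcls_abs r z d) 2) κ y hκ hκ1 hy
    refine h1.trans ?_
    have hmp := mp_le z (by omega)
    calc 64 * (2 ^ 2 * (K * mp z) * ((Nat.factorial 2 : ℕ) * (1 / (c0 / Real.log z)) ^ 2))
        ≤ 64 * (2 ^ 2 * (K * (1 / Real.log z)) * ((Nat.factorial 2 : ℕ) * (1 / (c0 / Real.log z)) ^ 2)) := by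
          gcongr
      _ = C2 * Real.log z := by
          rw [hC2]
          simp only [Nat.factorial, Nat.succ_eq_add_one]
          push_cast
          field_simp
          ring
  have hb1 := hGb q hq0 hqz a ha
  have hb2 := hGb N hN0 hNz b hbu
  have hfin : (Nat.totient q : ℂ) * SS (FL q z a) κ y - (Nat.totient N : ℂ) * SS (FL N z b) κ y =
      ∑ χ ∈ hi q N, χ a⁻¹ * (SS (LSeries.logMul (chL z χ)) κ y - SS (LSeries.logMul^[2] (bfun z χ)) κ y) +
      (SS (LSeries.logMul^[2] (gcls q z a)) κ y - SS (LSeries.logMul^[2] (gcls N z b)) κ y) := by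
    rw [← hSSL, ← hSSR, ← Finset.sum_add_distrib]
    apply Finset.sum_congr rfl
    intro χ _
    ring
  rw [hfin]
  calc _ ≤ C1 * Real.log z + (C2 * Real.log z + C2 * Real.log z) :=
        (norm_add_le _ _).trans (add_le_add hHb ((norm_sub_le _ _).trans (add_le_add hb1 hb2)))
    _ = (C1 + 2 * C2) * Real.log z := by ring

end Pool.Agent.H22
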