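import Pool.Agent.H22.FundLemma

/-!
Equidistribution in residue classes of the integers free of prime factors `≤ z`.
-/

set_option autoImplicit false

open Finset Real

namespace Pool.Agent.H22

open Pool.Agent.H16

/-- `n` has no prime factor `≤ z` -/
def Rg (z n : ℕ) : Prop := ∀ p ∈ primesIoc 0 z, ¬ p ∣ n

instance (z n : ℕ) : Decidable (Rg z n) := by unfold Rg; infer_instance

theorem Rg.mono {w z n : ℕ} (hwz : w ≤ z) (h : Rg z n) : Rg w n := by
  intro p hp
  apply h p
  rw [mem_primesIoc] at hp ⊢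
  exact ⟨hp.1, hp.2.1.trans hwz, hp.2.2⟩

/-- number of `n ≤ y`, `n ≡ a (mod q)`, without prime factor `≤ z` -/
def Nct (q a z y : ℕ) : ℕ := #{n ∈ range (y + 1) | n % q = a % q ∧ Rg z n}

/-- density for the primes not dividing `q` -/
noncomputable def densq (q z : ℕ) : ℝ := ∏ p ∈ primesIoc 0 z, (if p ∣ q then 1 else 1 - 1 / (p : ℝ))

/-- Mertens product -/
noncomputable def mp (z : ℕ) : ℝ := ∏ p ∈ primesIoc 0 z, (1 - 1 / (p : ℝ))

/-- excluded classes for `k ↦ a + q k` -/
def Rap (q a p : ℕ) : Finset ℕ := if p ∣ q then ∅ else {k ∈ range p | p ∣ a + q * k}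

theorem Rap_subset (q a p : ℕ) : Rap q a p ⊆ range p := by
  unfold Rap
  split_ifs
  · simp
  · exact Finset.filter_subset _ _

theorem Rap_card (q a p : ℕ) (hp : p.Prime) (hpq : ¬ p ∣ q) : #(Rap q a p) = 1 := by
  have : Fact p.Prime := ⟨hp⟩
  have : NeZero p := ⟨hp.ne_zero⟩
  have hq0 : (q : ZMod p) ≠ 0 := by
    rw [Ne, ZMod.natCast_eq_zero_iff]; exact hpq
  unfold Rap
  rw [if_neg hpq, Finset.card_eq_one]
  refine ⟨(-(a : ZMod p) * (q : ZMod p)⁻¹).val, ?_⟩
  ext k
  simp only [Finset.mem_filter, Finset.mem_range, Finset.mem_singleton]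
  constructor
  · rintro ⟨hk, hd⟩
    rw [← ZMod.natCast_eq_zero_iff] at hd
    push_cast at hd
    have h1 : (k : ZMod p) = -(a : ZMod p) * (q : ZMod p)⁻¹ := by
      field_simp
      linear_combination hd
    rw [← h1, ZMod.val_natCast, Nat.mod_eq_of_lt hk]
  · rintro rfl
    refine ⟨ZMod.val_lt _, ?_⟩
    rw [← ZMod.natCast_eq_zero_iff]
    push_cast
    rw [ZMod.natCast_zmod_val]
    field_simp
    ring

theorem dvd_iff_mod {q a p k : ℕ} : p ∣ a + q * (k % p) ↔ p ∣ a + q * k := by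
  have h : a + q * k = a + q * (k % p) + p * (q * (k / p)) := by
    conv_lhs => rw [← Nat.mod_add_div k p]
    ring
  rw [h]
  exact (Nat.dvd_add_iff_left (Dvd.intro _ rfl))

theorem dens_Rap (q a z : ℕ) : dens (Rap q a) z = densq q z := by
  unfold dens densq
  apply Finset.prod_congr rfl
  intro p hp
  rw [mem_primesIoc] at hp
  by_cases h : p ∣ q
  · rw [if_pos h]
    unfold Rap
    rw [if_pos h]
    simp
  · rw [if_neg h, Rap_card q a p hp.2.2 h]
    simp

/-- reparametrisation of `Nct` -/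
theorem Nct_eq (q a z y : ℕ) (hq : 1 ≤ q) (haq : Nat.Coprime a q) (hy : q ≤ y) :
    Nct q a z y = #{k ∈ range ((y - a % q) / q + 1) | ∀ p ∈ primesIoc 0 z, k % p ∉ Rap q (a % q) p} := by
  unfold Nct
  symm
  have haq' : a % q < q := Nat.mod_lt _ hq
  apply Finset.card_bij (fun k _ => a % q + q * k)
  · intro k hk
    simp only [Finset.mem_filter, Finset.mem_range] at hk ⊢
    obtain ⟨hk, hR⟩ := hk
    have hk' : k ≤ (y - a % q) / q := by omega
    have h1 : q * k ≤ y - a % q := by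
      calc q * k ≤ q * ((y - a % q) / q) := Nat.mul_le_mul_left _ hk'
        _ ≤ y - a % q := Nat.mul_div_le _ _
    refine ⟨by omega, ?_, ?_⟩
    · rw [Nat.add_mul_mod_self_left, Nat.mod_mod]
    · intro p hp hdvd
      have hpp := (mem_primesIoc.mp hp).2.2
      by_cases h : p ∣ q
      · have h2 : p ∣ a % q := by
          have := (Nat.dvd_add_right (h.mul_right k)).mp (by rwa [add_comm] at hdvd)
          exact this
        have h3 : p ∣ a := by
          rw [← Nat.mod_add_div a q]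
          exact dvd_add h2 (h.mul_right _)
        have h4 := Nat.dvd_gcd h3 h
        rw [haq] at h4
        exact hpp.one_lt.ne' (Nat.dvd_one.mp h4)
      · apply hR p hp
        unfold Rap
        rw [if_neg h, Finset.mem_filter, Finset.mem_range]
        exact ⟨Nat.mod_lt _ hpp.pos, dvd_iff_mod.mpr hdvd⟩
  · intro k1 _ k2 _ h
    have : q * k1 = q * k2 := by omega
    exact Nat.eq_of_mul_eq_mul_left hq this
  · intro n hn
    simp only [Finset.mem_filter, Finset.mem_range] at hn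
    obtain ⟨hny, hmod, hrg⟩ := hn
    have hdm := Nat.mod_add_div n q
    refine ⟨n / q, ?_, ?_⟩
    · simp only [Finset.mem_filter, Finset.mem_range]
      constructor
      · apply Nat.lt_succ_of_le
        rw [Nat.le_div_iff_mul_le hq]
        rw [← hmod]
        have h5 : n / q * q = q * (n / q) := Nat.mul_comm _ _
        omega
      · intro p hp hmem
        have hpp := (mem_primesIoc.mp hp).2.2
        unfold Rap at hmem
        split_ifs at hmem with h
        · simp at hmem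
        · rw [Finset.mem_filter] at hmem
          have h2 := dvd_iff_mod.mp hmem.2
          rw [← hmod, hdm] at h2
          exact hrg p hp h2
    · show a % q + q * (n / q) = n
      rw [← hmod, hdm]

/-- asymptotic count -/
theorem Nct_asymp : ∃ z0 : ℕ, 2 ≤ z0 ∧ ∀ z ≥ z0, ∀ b ≥ 10, ∀ q ≥ 1, ∀ a : ℕ, Nat.Coprime a q →
    ∀ y : ℕ, q * z ^ (9 * b + 21) ≤ y →
    |(Nct q a z y : ℝ) - (y / q) * densq q z| ≤ 8 * (1 / 2) ^ b * ((y / q) * densq q z) := by
  obtain ⟨z0, hz0, h⟩ := fund_lemma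
  refine ⟨z0, hz0, ?_⟩
  intro z hz b hb q hq a haq y hy
  have hz2 : 2 ≤ z := by omega
  have hzr : (2 : ℝ) ≤ z := by exact_mod_cast hz2
  have hqr : (0 : ℝ) < q := by exact_mod_cast hq
  have haq' : a % q < q := Nat.mod_lt _ hq
  have hzpow : 1 ≤ z ^ (9 * b + 21) := Nat.one_le_pow _ _ (by omega)
  have hqy : q ≤ y := by nlinarith
  set K := (y - a % q) / q + 1 with hK
  have hKq1 : (K : ℝ) ≤ y / q + 1 := by
    rw [hK]
    push_cast
    have h1 : (((y - a % q) / q : ℕ) : ℝ) ≤ ((y - a % q : ℕ) : ℝ) / q := Nat.cast_div_le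
    have h2 : ((y - a % q : ℕ) : ℝ) / q ≤ y / q := by
      gcongr
      exact_mod_cast Nat.sub_le _ _
    linarith
  have hKq2 : (y : ℝ) / q - 1 ≤ K := by
    rw [sub_le_iff_le_add, div_le_iff₀ hqr]
    have h1 : y ≤ (K + 1) * q := by
      have h2 := Nat.lt_div_mul_add (a := y - a % q) hq
      have h3 : (y - a % q) / q * q = (K - 1) * q := by rw [hK]; simp
      rw [h3] at h2
      have h4 : (K - 1) * q + q = K * q := by
        obtain ⟨c, hc⟩ : ∃ c, K = c + 1 := ⟨(y - a % q) / q, hK⟩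
        rw [hc]; simp; ring
      have h5 : (K + 1) * q = K * q + q := by ring
      omega
    exact_mod_cast h1
  have hKbig : z ^ (9 * b + 20) ≤ K := by
    have h1 : ((z ^ (9 * b + 20) : ℕ) : ℝ) ≤ K := by
      refine le_trans ?_ hKq2
      push_cast
      have h2 : (z : ℝ) ^ (9 * b + 21) ≤ y / q := by
        rw [le_div_iff₀ hqr, mul_comm]
        exact_mod_cast hy
      have h3 : (1 : ℝ) ≤ (z : ℝ) ^ (9 * b + 20) := one_le_pow₀ (by linarith)
      have h4 : (z : ℝ) ^ (9 * b + 21) = (z : ℝ) ^ (9 * b + 20) * z := pow_succ _ _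
      nlinarith
    exact_mod_cast h1
  have hcards : ∀ p, p.Prime → p ≤ z → #(Rap q (a % q) p) ≤ 1 := by
    intro p hp _
    by_cases hpq : p ∣ q
    · unfold Rap; rw [if_pos hpq]; simp
    · rw [Rap_card q (a % q) p hp hpq]
  have hfl := h z hz b hb K hKbig (Rap q (a % q)) (fun p _ _ => Rap_subset _ _ _)
    (fun p hp hpz => (hcards p hp hpz).trans (by norm_num))
    (fun p hp hpz => lt_of_le_of_lt (hcards p hp hpz) hp.one_lt)
  rw [dens_Rap] at hfl
  have hN := Nct_eq q a z y hq haq hqy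
  rw [← hK] at hN
  rw [hN]
  set V := densq q z with hV
  have hVpos : 0 ≤ V := by
    rw [hV]
    unfold densq
    apply Finset.prod_nonneg
    intro p hp
    split_ifs
    · norm_num
    · rw [mem_primesIoc] at hp
      have : (1 : ℝ) ≤ p := by exact_mod_cast hp.2.2.one_lt.le
      have : 1 / (p : ℝ) ≤ 1 := by rw [div_le_one (by linarith)]; exact this
      linarith
  have hhalf0 : (0 : ℝ) < (1 / 2) ^ b := by positivity
  have hhalf1 : (1 / 2 : ℝ) ^ b ≤ 1 := pow_le_one₀ (by norm_num) (by norm_num)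
  -- 1 ≤ (1/2)^b * (y/q)
  have hone : 1 ≤ (1 / 2 : ℝ) ^ b * (y / q) := by
    have h2 : (z : ℝ) ^ (9 * b + 21) ≤ y / q := by
      rw [le_div_iff₀ hqr, mul_comm]
      exact_mod_cast hy
    have h3 : (2 : ℝ) ^ b ≤ (z : ℝ) ^ (9 * b + 21) := by
      calc (2 : ℝ) ^ b ≤ (z : ℝ) ^ b := pow_le_pow_left₀ (by norm_num) hzr b
        _ ≤ (z : ℝ) ^ (9 * b + 21) := pow_le_pow_right₀ (by linarith) (by omega)
    have h4 : (1 / 2 : ℝ) ^ b * 2 ^ b = 1 := by rw [← mul_pow]; norm_num
    calc (1 : ℝ) = (1 / 2 : ℝ) ^ b * 2 ^ b := h4.symm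
      _ ≤ (1 / 2 : ℝ) ^ b * (y / q) := by gcongr; linarith
  have hyq0 : (0 : ℝ) ≤ y / q := by positivity
  -- |K V - (y/q) V| ≤ V ≤ (1/2)^b (y/q) V
  have hd : |(K : ℝ) * V - (y / q) * V| ≤ (1 / 2) ^ b * ((y / q) * V) := by
    rw [← sub_mul, abs_mul, abs_of_nonneg hVpos]
    have h5 : |(K : ℝ) - y / q| ≤ 1 := by
      rw [abs_le]; constructor <;> linarith
    calc |(K : ℝ) - y / q| * V ≤ 1 * V := mul_le_mul_of_nonneg_right h5 hVpos
      _ ≤ ((1 / 2 : ℝ) ^ b * (y / q)) * V := mul_le_mul_of_nonneg_right hone hVpos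
      _ = _ := by ring
  have hKV : (K : ℝ) * V ≤ 2 * ((y / q) * V) := by
    have h6 := (abs_le.mp hd).2
    have h7 : (1 / 2 : ℝ) ^ b * ((y / q) * V) ≤ 1 * ((y / q) * V) :=
      mul_le_mul_of_nonneg_right hhalf1 (by positivity)
    linarith
  have h8 : 3 * (1 / 2 : ℝ) ^ b * (K * V) ≤ 3 * (1 / 2) ^ b * (2 * ((y / q) * V)) :=
    mul_le_mul_of_nonneg_left hKV (by positivity)
  have h9 := abs_le.mp hfl
  have h10 := abs_le.mp hd
  have h11 : 0 ≤ (1 / 2 : ℝ) ^ b * ((y / q) * V) := by positivity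
  rw [abs_le]
  constructor <;> nlinarith

end Pool.Agent.H22
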