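import Pool.Agent.H22.Equid

/-!
Uniform equidistribution of rough numbers, in the form used for Dirichlet series.
-/

set_option autoImplicit false

open Finset Real

namespace Pool.Agent.H22

open Pool.Agent.H16

theorem densq_nonneg (q z : ℕ) : 0 ≤ densq q z := by
  unfold densq
  apply Finset.prod_nonneg
  intro p hp
  split_ifs
  · norm_num
  · rw [mem_primesIoc] at hp
    have h1 : (1 : ℝ) ≤ p := by exact_mod_cast hp.2.2.one_lt.le
    have : 1 / (p : ℝ) ≤ 1 := by rw [div_le_one (by linarith)]; exact h1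
    linarith

theorem sum_inv_sq (w z : ℕ) (hw : 1 ≤ w) (hwz : w ≤ z) :
    ∑ n ∈ Finset.Ioc w z, 1 / (n : ℝ) ^ 2 ≤ 1 / (w : ℝ) - 1 / (z : ℝ) := by
  induction z, hwz using Nat.le_induction with
  | base => simp
  | succ z hz ih =>
    rw [← Finset.insert_Ioc_right_eq_Ioc_add_one (by omega), Finset.sum_insert (by simp)]
    have hz1 : (1 : ℝ) ≤ z := by exact_mod_cast (by omega : 1 ≤ z)
    have h1 : 1 / (((z + 1 : ℕ) : ℝ)) ^ 2 ≤ 1 / (z : ℝ) - 1 / ((z + 1 : ℕ) : ℝ) := by
      push_cast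
      rw [div_sub_div _ _ (by linarith) (by linarith), div_le_div_iff₀ (by positivity) (by positivity)]
      nlinarith
    linarith

theorem exp_le_one_sub {x : ℝ} (hx0 : 0 ≤ x) (hx : x ≤ 1 / 3) :
    Real.exp (-(x + 3 / 2 * x ^ 2)) ≤ 1 - x := by
  have h1 : 0 < 1 - x := by linarith
  have h2 := Real.one_sub_inv_le_log_of_pos h1
  rw [← Real.le_log_iff_exp_le h1]
  refine le_trans ?_ h2
  have h3 : 1 - (1 - x)⁻¹ = -(x / (1 - x)) := by field_simp; ring
  rw [h3]
  apply neg_le_neg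
  rw [div_le_iff₀ h1]
  nlinarith [sq_nonneg x, mul_nonneg hx0 hx0]

/-- Mertens-type lower bound for the product over a range of primes -/
theorem prod_range_lower (w z : ℕ) (hw : 2 ≤ w) (hwz : w ≤ z) :
    Real.exp (-9) * (Real.log w / Real.log z) ≤ ∏ p ∈ primesIoc w z, (1 - 1 / (p : ℝ)) := by
  have hwr : (2 : ℝ) ≤ w := by exact_mod_cast hw
  have hzr : (2 : ℝ) ≤ z := by exact_mod_cast hw.trans hwz
  have hlw : 0.69 < Real.log w := by
    have h1 : Real.log 2 ≤ Real.log w := Real.log_le_log (by norm_num) hwr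
    have := Real.log_two_gt_d9
    linarith
  have hlz : 0 < Real.log z := Real.log_pos (by linarith)
  have hlow : Real.exp (-(∑ p ∈ primesIoc w z, (1 : ℝ) / p + 3 / 2 * ∑ p ∈ primesIoc w z, 1 / (p : ℝ) ^ 2))
      ≤ ∏ p ∈ primesIoc w z, (1 - 1 / (p : ℝ)) := by
    rw [Finset.mul_sum, ← Finset.sum_add_distrib, ← Finset.sum_neg_distrib, Real.exp_sum]
    apply Finset.prod_le_prod
    · intro p _; positivity
    · intro p hp
      rw [mem_primesIoc] at hp
      have hp3 : (3 : ℝ) ≤ p := by exact_mod_cast (by omega : 3 ≤ p)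
      have h1 : 1 / (p : ℝ) ≤ 1 / 3 := one_div_le_one_div_of_le (by norm_num) hp3
      have h2 := exp_le_one_sub (x := 1 / (p : ℝ)) (by positivity) h1
      have h3 : (1 / (p : ℝ)) ^ 2 = 1 / (p : ℝ) ^ 2 := by rw [div_pow, one_pow]
      rw [h3] at h2
      exact h2
  refine le_trans ?_ hlow
  have hs1 := sum_inv_primes_le w z hw hwz
  have hs2 : ∑ p ∈ primesIoc w z, 1 / (p : ℝ) ^ 2 ≤ 1 / 2 := by
    have h1 : primesIoc w z ⊆ Finset.Ioc w z := by
      intro p hp
      rw [mem_primesIoc] at hp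
      rw [Finset.mem_Ioc]
      exact ⟨hp.1, hp.2.1⟩
    calc ∑ p ∈ primesIoc w z, 1 / (p : ℝ) ^ 2 ≤ ∑ n ∈ Finset.Ioc w z, 1 / (n : ℝ) ^ 2 :=
          Finset.sum_le_sum_of_subset_of_nonneg h1 (fun n _ _ => by positivity)
      _ ≤ 1 / (w : ℝ) - 1 / (z : ℝ) := sum_inv_sq w z (by omega) hwz
      _ ≤ 1 / (w : ℝ) := by
          have : 0 ≤ 1 / (z : ℝ) := by positivity
          linarith
      _ ≤ 1 / 2 := one_div_le_one_div_of_le (by norm_num) hwr
  have h5 : 5 / Real.log w ≤ 5 / 0.69 := div_le_div_of_nonneg_left (by norm_num) (by norm_num) hlw.le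
  have h6 : Real.log w / Real.log z = Real.exp (-(Real.log (Real.log z / Real.log w))) := by
    rw [Real.exp_neg, Real.exp_log (by positivity), inv_div]
  rw [h6, ← Real.exp_add]
  apply Real.exp_le_exp.mpr
  have h7 : (5 : ℝ) / 0.69 ≤ 7.3 := by norm_num
  linarith

theorem primesIoc_union (w z : ℕ) (hwz : w ≤ z) :
    primesIoc 0 z = primesIoc 0 w ∪ primesIoc w z := by
  ext p
  simp only [Finset.mem_union, mem_primesIoc]
  constructor
  · rintro ⟨h1, h2, h3⟩
    by_cases h : p ≤ w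
    · exact Or.inl ⟨h1, h, h3⟩
    · exact Or.inr ⟨by omega, h2, h3⟩
  · rintro (⟨h1, h2, h3⟩ | ⟨h1, h2, h3⟩)
    · exact ⟨h1, by omega, h3⟩
    · exact ⟨by omega, h2, h3⟩

theorem primesIoc_disj (w z : ℕ) : Disjoint (primesIoc 0 w) (primesIoc w z) := by
  rw [Finset.disjoint_left]
  intro p hp hp'
  rw [mem_primesIoc] at hp hp'
  omega

theorem densq_ratio (q w z : ℕ) (hw : 2 ≤ w) (hwz : w ≤ z) :
    densq q w ≤ Real.exp 9 * (Real.log z / Real.log w) * densq q z := by
  have hwr : (2 : ℝ) ≤ w := by exact_mod_cast hw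
  have hzr : (2 : ℝ) ≤ z := by exact_mod_cast hw.trans hwz
  have hlw : 0 < Real.log w := Real.log_pos (by linarith)
  have hlz : 0 < Real.log z := Real.log_pos (by linarith)
  have h1 : densq q z = densq q w * ∏ p ∈ primesIoc w z, (if p ∣ q then 1 else 1 - 1 / (p : ℝ)) := by
    unfold densq
    rw [primesIoc_union w z hwz, Finset.prod_union (primesIoc_disj w z)]
  have h2 : ∏ p ∈ primesIoc w z, (1 - 1 / (p : ℝ)) ≤
      ∏ p ∈ primesIoc w z, (if p ∣ q then 1 else 1 - 1 / (p : ℝ)) := by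
    apply Finset.prod_le_prod
    · intro p hp
      rw [mem_primesIoc] at hp
      have h1 : (1 : ℝ) ≤ p := by exact_mod_cast hp.2.2.one_lt.le
      have : 1 / (p : ℝ) ≤ 1 := by rw [div_le_one (by linarith)]; exact h1
      linarith
    · intro p _
      split_ifs
      · have : 0 ≤ 1 / (p : ℝ) := by positivity
        linarith
      · exact le_rfl
  have h3 := (prod_range_lower w z hw hwz).trans h2
  have h4 := densq_nonneg q w
  rw [h1]
  have h5 : densq q w * 1 ≤ densq q w * (Real.exp 9 * (Real.log z / Real.log w) *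
      ∏ p ∈ primesIoc w z, (if p ∣ q then 1 else 1 - 1 / (p : ℝ))) := by
    apply mul_le_mul_of_nonneg_left _ h4
    calc (1 : ℝ) = Real.exp 9 * (Real.log z / Real.log w) *
          (Real.exp (-9) * (Real.log w / Real.log z)) := by
          rw [Real.exp_neg]
          field_simp
      _ ≤ _ := by gcongr
  linarith

theorem mp_eq (z : ℕ) : mp z = densq 1 z := by
  unfold mp densq
  apply Finset.prod_congr rfl
  intro p hp
  rw [mem_primesIoc] at hp
  rw [if_neg]
  intro h
  exact hp.2.2.one_lt.ne' (Nat.dvd_one.mp h)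

theorem mp_nonneg (z : ℕ) : 0 ≤ mp z := by rw [mp_eq]; exact densq_nonneg 1 z

theorem mp_le (z : ℕ) (hz : 2 ≤ z) : mp z ≤ 1 / Real.log z := by
  have h := prod_primes_le z (by omega)
  have h1 : mp z = ∏ p ∈ Nat.primesLE z, (1 - 1 / (p : ℝ)) := by
    unfold mp
    apply Finset.prod_congr _ (fun _ _ => rfl)
    ext p
    rw [mem_primesIoc, Nat.mem_primesLE]
    exact ⟨fun h => ⟨h.2.1, h.2.2⟩, fun h => ⟨h.2.pos, h.1, h.2⟩⟩
  rw [h1]
  refine h.trans ?_
  have hzr : (2 : ℝ) ≤ z := by exact_mod_cast hz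
  apply one_div_le_one_div_of_le (Real.log_pos (by linarith))
  exact Real.log_le_log (by linarith) (by linarith)

theorem mp_ge (z : ℕ) (hz : 2 ≤ z) : Real.exp (-11) / Real.log z ≤ mp z := by
  have h := densq_ratio 1 2 z le_rfl hz
  rw [← mp_eq, ← mp_eq] at h
  have h2 : mp 2 = 1 / 2 := by
    unfold mp
    have : primesIoc 0 2 = {2} := by decide
    rw [this, Finset.prod_singleton]
    norm_num
  rw [h2] at h
  have hzr : (2 : ℝ) ≤ z := by exact_mod_cast hz
  have hlz : 0 < Real.log z := Real.log_pos (by linarith)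
  have hl2 := Real.log_two_gt_d9
  have hl2' : 0 < Real.log 2 := by linarith
  push_cast at h
  rw [div_le_iff₀ hlz, Real.exp_neg, inv_le_iff_one_le_mul₀' (Real.exp_pos _)]
  have h8 : Real.exp 11 = Real.exp 9 * (Real.exp 1 * Real.exp 1) := by
    rw [← Real.exp_add, ← Real.exp_add]; norm_num
  have h9 : Real.log 2 / 2 ≤ Real.exp 9 * Real.log z * mp z := by
    have h10 : Real.exp 9 * (Real.log z / Real.log 2) * mp z = (Real.exp 9 * Real.log z * mp z) / Real.log 2 := by
      ring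
    rw [h10] at h
    rw [div_le_iff₀ (by norm_num : (0:ℝ) < 2)]
    have h11 := (le_div_iff₀ hl2').mp h
    linarith
  have h12 : Real.exp 11 * (mp z * Real.log z)
      = (Real.exp 1 * Real.exp 1) * (Real.exp 9 * Real.log z * mp z) := by
    rw [h8]; ring
  rw [h12]
  have h13 := Real.exp_one_gt_d9
  have h14 : 7 ≤ Real.exp 1 * Real.exp 1 := by nlinarith
  nlinarith

end Pool.Agent.H22
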