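import Pool.Agent.H22.Equid2

/-!
Uniform equidistribution of rough numbers: final form.
-/

set_option autoImplicit false

open Finset Real

namespace Pool.Agent.H22

open Pool.Agent.H16

theorem densq_totient (q z : ℕ) (hq : 1 ≤ q) (hqz : ∀ p, p.Prime → p ∣ q → p ≤ z) :
    densq q z * (Nat.totient q : ℝ) = q * mp z := by
  have h1 : (Nat.totient q : ℝ) = q * ∏ p ∈ q.primeFactors, (1 - 1 / (p : ℝ)) := by
    have h := Nat.totient_eq_mul_prod_factors q
    have h' : ((Nat.totient q : ℚ) : ℝ) = ((q * ∏ p ∈ q.primeFactors, (1 - (p : ℚ)⁻¹) : ℚ) : ℝ) := by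
      rw [h]
    push_cast at h'
    rw [h']
    simp only [one_div]
  have h2 : mp z = densq q z * ∏ p ∈ q.primeFactors, (1 - 1 / (p : ℝ)) := by
    have h3 : q.primeFactors = {p ∈ primesIoc 0 z | p ∣ q} := by
      ext p
      rw [Nat.mem_primeFactors, Finset.mem_filter, mem_primesIoc]
      constructor
      · rintro ⟨hp, hd, -⟩
        exact ⟨⟨hp.pos, hqz p hp hd, hp⟩, hd⟩
      · rintro ⟨⟨-, -, hp⟩, hd⟩
        exact ⟨hp, hd, by omega⟩
    rw [h3, Finset.prod_filter]
    unfold mp densq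
    rw [← Finset.prod_mul_distrib]
    apply Finset.prod_congr rfl
    intro p _
    split_ifs <;> ring
  rw [h1, h2]
  ring

/-- exponent of the saving -/
noncomputable def c0 : ℝ := Real.log 2 / 9

theorem c0_pos : 0 < c0 := by
  unfold c0
  have := Real.log_two_gt_d9
  positivity

theorem c0_lt : c0 < 1 / 9 := by
  unfold c0
  have := Real.log_two_lt_d9
  linarith

theorem Nct_mono {q a w z y : ℕ} (hwz : w ≤ z) : Nct q a z y ≤ Nct q a w y := by
  unfold Nct
  apply Finset.card_le_card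
  intro n hn
  rw [Finset.mem_filter] at hn ⊢
  exact ⟨hn.1, hn.2.1, hn.2.2.mono hwz⟩

/-- upper bound in the short range -/
theorem Nct_upper : ∃ z0 : ℕ, 2 ≤ z0 ∧ ∀ z : ℕ, z0 ≤ z → ∀ q : ℕ, 1 ≤ q → (q : ℝ) ≤ (z : ℝ) ^ (1 / 2 : ℝ) →
    ∀ a : ℕ, Nat.Coprime a q → ∀ y : ℕ, z ≤ y →
    (Nct q a z y : ℝ) ≤ 1200 * Real.exp 9 * ((y / q) * densq q z) := by
  obtain ⟨z0, hz0, h⟩ := Nct_asymp
  -- choose z with z^(1/300) ≥ z0 + 2
  refine ⟨(z0 + 2) ^ 300, ?_, ?_⟩
  · calc 2 ≤ z0 + 2 := by omega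
      _ = (z0 + 2) ^ 1 := (pow_one _).symm
      _ ≤ (z0 + 2) ^ 300 := Nat.pow_le_pow_right (by omega) (by norm_num)
  intro z hz q hq hqz a haq y hzy
  have hz' : ((z0 : ℝ) + 2) ^ (300 : ℕ) ≤ z := by exact_mod_cast hz
  have hz0r : (0 : ℝ) ≤ z0 := by positivity
  have hz1 : (1 : ℝ) ≤ z := le_trans (one_le_pow₀ (by linarith)) hz'
  have hzpos : (0 : ℝ) < z := by linarith
  set r : ℝ := (z : ℝ) ^ (1 / 300 : ℝ) with hr
  have hrge : (z0 : ℝ) + 2 ≤ r := by
    rw [hr]
    calc (z0 : ℝ) + 2 = (((z0 : ℝ) + 2) ^ (300 : ℕ)) ^ (1 / 300 : ℝ) := by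
          rw [← Real.rpow_natCast, ← Real.rpow_mul (by linarith)]
          norm_num
      _ ≤ (z : ℝ) ^ (1 / 300 : ℝ) := Real.rpow_le_rpow (by positivity) hz' (by norm_num)
  set w := ⌊r⌋₊ with hw
  have hwle : (w : ℝ) ≤ r := Nat.floor_le (by linarith)
  have hwge : r < w + 1 := Nat.lt_floor_add_one r
  have hwz0 : z0 ≤ w := by
    rw [hw]
    apply Nat.le_floor
    linarith
  have hw2 : 2 ≤ w := by omega
  have hw2r : (2 : ℝ) ≤ w := by exact_mod_cast hw2
  have hwz : w ≤ z := by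
    have h1 : (w : ℝ) ≤ z := by
      refine hwle.trans ?_
      rw [hr]
      calc (z : ℝ) ^ (1 / 300 : ℝ) ≤ (z : ℝ) ^ (1 : ℝ) :=
            Real.rpow_le_rpow_of_exponent_le hz1 (by norm_num)
        _ = z := Real.rpow_one _
    exact_mod_cast h1
  -- y is large enough
  have hyw : q * w ^ (9 * 10 + 21) ≤ y := by
    have h1 : ((q * w ^ (9 * 10 + 21) : ℕ) : ℝ) ≤ y := by
      push_cast
      calc (q : ℝ) * (w : ℝ) ^ (9 * 10 + 21) ≤ (z : ℝ) ^ (1 / 2 : ℝ) * r ^ (9 * 10 + 21) := by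
            gcongr
        _ = (z : ℝ) ^ (1 / 2 : ℝ) * (z : ℝ) ^ (111 / 300 : ℝ) := by
            rw [hr, ← Real.rpow_natCast, ← Real.rpow_mul hzpos.le]
            norm_num
        _ = (z : ℝ) ^ (1 / 2 + 111 / 300 : ℝ) := by rw [← Real.rpow_add hzpos]
        _ ≤ (z : ℝ) ^ (1 : ℝ) := Real.rpow_le_rpow_of_exponent_le hz1 (by norm_num)
        _ = z := Real.rpow_one _
        _ ≤ y := by exact_mod_cast hzy
    exact_mod_cast h1
  have hasy := (abs_le.mp (h w hwz0 10 le_rfl q hq a haq y hyw)).2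
  have hdw := densq_nonneg q w
  have hyq0 : (0 : ℝ) ≤ y / q := by positivity
  have h2 : (Nct q a w y : ℝ) ≤ 2 * ((y / q) * densq q w) := by
    have h3 : 8 * (1 / 2 : ℝ) ^ 10 * ((y / q) * densq q w) ≤ 1 * ((y / q) * densq q w) := by
      apply mul_le_mul_of_nonneg_right _ (by positivity)
      norm_num
    linarith
  have hratio : Real.log z / Real.log w ≤ 600 := by
    have hlw : 0 < Real.log w := Real.log_pos (by linarith)
    rw [div_le_iff₀ hlw]
    have h4 : Real.log r = 1 / 300 * Real.log z := by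
      rw [hr, Real.log_rpow hzpos]
    have h5 : Real.log r ≤ Real.log ((w : ℝ) ^ 2) := by
      apply Real.log_le_log (by linarith)
      nlinarith
    rw [Real.log_pow] at h5
    push_cast at h5
    linarith
  have h6 := densq_ratio q w z hw2 hwz
  have hdz := densq_nonneg q z
  have h7 : densq q w ≤ Real.exp 9 * 600 * densq q z := by
    refine h6.trans ?_
    gcongr
  have h8 : (Nct q a z y : ℝ) ≤ Nct q a w y := by exact_mod_cast Nct_mono hwz
  calc (Nct q a z y : ℝ) ≤ 2 * ((y / q) * densq q w) := h8.trans h2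
    _ ≤ 2 * ((y / q) * (Real.exp 9 * 600 * densq q z)) := by gcongr
    _ = _ := by ring

/-- **Equidistribution of rough numbers.** -/
theorem Nct_equid : ∃ (K : ℝ) (z0 : ℕ), 0 < K ∧ 2 ≤ z0 ∧ ∀ z : ℕ, z0 ≤ z → ∀ q : ℕ, 1 ≤ q →
    (q : ℝ) ≤ (z : ℝ) ^ (1 / 2 : ℝ) → ∀ a : ℕ, Nat.Coprime a q → ∀ y : ℕ, z ≤ y →
    |(Nat.totient q : ℝ) * Nct q a z y - y * mp z|
      ≤ K * (mp z * (y * Real.exp (-(c0 * (Real.log y / Real.log z))))) := by
  obtain ⟨z1, hz1, h1⟩ := Nct_asymp
  obtain ⟨z2, hz2, h2⟩ := Nct_upper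
  refine ⟨(1200 * Real.exp 9 + 1) * 2 ^ 13, z1 + z2, by positivity, by omega, ?_⟩
  intro z hz q hq hqz a haq y hzy
  have hz2' : 2 ≤ z := by omega
  have hzr : (2 : ℝ) ≤ z := by exact_mod_cast hz2'
  have hzpos : (0 : ℝ) < z := by linarith
  have hyr : (z : ℝ) ≤ y := by exact_mod_cast hzy
  have hypos : (0 : ℝ) < y := by linarith
  have hqr : (0 : ℝ) < q := by exact_mod_cast hq
  have hlz : 0 < Real.log z := Real.log_pos (by linarith)
  have hly : Real.log z ≤ Real.log y := Real.log_le_log hzpos hyr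
  set v := Real.log y / Real.log z with hv
  have hv1 : 1 ≤ v := by rw [hv, le_div_iff₀ hlz]; linarith
  have hyv : (z : ℝ) ^ v = y := by
    rw [Real.rpow_def_of_pos hzpos, hv, mul_div_cancel₀ _ hlz.ne', Real.exp_log hypos]
  have hprimes : ∀ p, p.Prime → p ∣ q → p ≤ z := by
    intro p _ hd
    have h3 : p ≤ q := Nat.le_of_dvd hq hd
    have h4 : (q : ℝ) ≤ z := by
      refine hqz.trans ?_
      calc (z : ℝ) ^ (1 / 2 : ℝ) ≤ (z : ℝ) ^ (1 : ℝ) :=
            Real.rpow_le_rpow_of_exponent_le (by linarith) (by norm_num)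
        _ = z := Real.rpow_one _
    have h5 : q ≤ z := by exact_mod_cast h4
    omega
  have htot := densq_totient q z hq hprimes
  set φ : ℝ := (Nat.totient q : ℝ) with hφ
  have hφ0 : 0 ≤ φ := by positivity
  have hD := densq_nonneg q z
  have hM := mp_nonneg z
  have hyD : φ * ((y / q) * densq q z) = y * mp z := by
    have : φ * ((y / q) * densq q z) = y / q * (densq q z * φ) := by ring
    rw [this, htot]
    field_simp
  have hlog2 : 0 < Real.log 2 := Real.log_pos (by norm_num)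
  rcases lt_or_ge v 112 with hv112 | hv112
  · -- short range
    have h3 := h2 z (by omega) q hq hqz a haq y hzy
    have h4 : φ * Nct q a z y ≤ 1200 * Real.exp 9 * (y * mp z) := by
      calc φ * Nct q a z y ≤ φ * (1200 * Real.exp 9 * ((y / q) * densq q z)) := by gcongr
        _ = 1200 * Real.exp 9 * (φ * ((y / q) * densq q z)) := by ring
        _ = _ := by rw [hyD]
    have h5 : 0 ≤ φ * Nct q a z y := by positivity
    have h6 : |φ * Nct q a z y - y * mp z| ≤ (1200 * Real.exp 9 + 1) * (y * mp z) := by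
      have h7 : 0 ≤ y * mp z := by positivity
      have h8 : 0 ≤ 1200 * Real.exp 9 * (y * mp z) := by positivity
      rw [abs_le]
      constructor <;> nlinarith
    refine h6.trans ?_
    have h9 : 1 ≤ 2 ^ 13 * Real.exp (-(c0 * v)) := by
      have h10 : (2 : ℝ) ^ 13 = Real.exp (13 * Real.log 2) := by
        rw [mul_comm, Real.exp_mul, Real.exp_log (by norm_num)]
        norm_num
      rw [h10, ← Real.exp_add, Real.one_le_exp_iff]
      unfold c0
      nlinarith
    have h11 : 0 ≤ (1200 * Real.exp 9 + 1) * (y * mp z) := by positivity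
    calc (1200 * Real.exp 9 + 1) * (y * mp z)
        = (1200 * Real.exp 9 + 1) * (y * mp z) * 1 := (mul_one _).symm
      _ ≤ (1200 * Real.exp 9 + 1) * (y * mp z) * (2 ^ 13 * Real.exp (-(c0 * v))) :=
          mul_le_mul_of_nonneg_left h9 h11
      _ = _ := by ring
  · -- long range
    set b := ⌊(v - 22) / 9⌋₊ with hb
    have hb10 : 10 ≤ b := by
      rw [hb]
      apply Nat.le_floor
      push_cast
      linarith
    have hble : (b : ℝ) ≤ (v - 22) / 9 := Nat.floor_le (by linarith)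
    have hbgt : (v - 22) / 9 < b + 1 := Nat.lt_floor_add_one _
    have hybig : q * z ^ (9 * b + 21) ≤ y := by
      have h3 : ((q * z ^ (9 * b + 21) : ℕ) : ℝ) ≤ y := by
        push_cast
        calc (q : ℝ) * (z : ℝ) ^ (9 * b + 21) ≤ (z : ℝ) ^ (1 / 2 : ℝ) * (z : ℝ) ^ (9 * b + 21) := by
              gcongr
          _ = (z : ℝ) ^ (1 / 2 + ((9 * b + 21 : ℕ) : ℝ)) := by
              rw [Real.rpow_add hzpos, Real.rpow_natCast]
          _ ≤ (z : ℝ) ^ v := by
              apply Real.rpow_le_rpow_of_exponent_le (by linarith)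
              push_cast
              linarith
          _ = y := hyv
      exact_mod_cast h3
    have h3 := h1 z (by omega) b hb10 q hq a haq y hybig
    have h4 : |φ * Nct q a z y - y * mp z| ≤ 8 * (1 / 2) ^ b * (y * mp z) := by
      have h5 : φ * Nct q a z y - y * mp z = φ * (Nct q a z y - (y / q) * densq q z) := by
        rw [mul_sub, hyD]
      rw [h5, abs_mul, abs_of_nonneg hφ0]
      calc φ * |(Nct q a z y : ℝ) - (y / q) * densq q z|
          ≤ φ * (8 * (1 / 2) ^ b * ((y / q) * densq q z)) := by gcongr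
        _ = 8 * (1 / 2) ^ b * (φ * ((y / q) * densq q z)) := by ring
        _ = _ := by rw [hyD]
    refine h4.trans ?_
    have h6 : (1 / 2 : ℝ) ^ b ≤ 16 * Real.exp (-(c0 * v)) := by
      have h7 : (1 / 2 : ℝ) ^ b = Real.exp (-(b * Real.log 2)) := by
        rw [one_div, inv_pow, Real.exp_neg, Real.exp_nat_mul, Real.exp_log (by norm_num)]
      have h8 : (16 : ℝ) = Real.exp (4 * Real.log 2) := by
        rw [mul_comm, Real.exp_mul, Real.exp_log (by norm_num)]
        norm_num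
      rw [h7, h8, ← Real.exp_add]
      apply Real.exp_le_exp.mpr
      unfold c0
      nlinarith
    have h9 : 0 ≤ y * mp z := by positivity
    have hE0 : 0 < Real.exp (-(c0 * v)) := Real.exp_pos _
    have he9 : (1 : ℝ) ≤ Real.exp 9 := Real.one_le_exp (by norm_num)
    calc 8 * (1 / 2 : ℝ) ^ b * (y * mp z) ≤ 8 * (16 * Real.exp (-(c0 * v))) * (y * mp z) := by
          gcongr
      _ = 128 * (mp z * (y * Real.exp (-(c0 * v)))) := by ring
      _ ≤ (1200 * Real.exp 9 + 1) * 2 ^ 13 * (mp z * (y * Real.exp (-(c0 * v)))) := by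
          apply mul_le_mul_of_nonneg_right _ (by positivity)
          nlinarith

end Pool.Agent.H22
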