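import Pool.Agent.H22.Romanov

/-!
Sieve upper bound for `m` with `2^i W m - s` and `2^(i+d) W m - s` both prime.
-/

set_option autoImplicit false

open Finset Real

namespace Pool.Agent.H22

open Pool.Agent.H16

/-- `W/φ(W)` as a product over primes -/
noncomputable def EW (W : ℕ) : ℝ := ∏ p ∈ W.primeFactors, (1 - 1 / (p : ℝ))⁻¹

/-- `2^i y - s` as a natural number -/
def Lf (s : ℤ) (i y : ℕ) : ℕ := ((2 : ℤ) ^ i * y - s).toNat

theorem Lf_coe (s : ℤ) (hs : s = 1 ∨ s = -1) (i y : ℕ) (hy : 1 ≤ y) : ((Lf s i y : ℕ) : ℤ) = (2 : ℤ) ^ i * y - s := by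
  unfold Lf
  apply Int.toNat_of_nonneg
  have h1 : (1 : ℤ) ≤ 2 ^ i := by
    have := Nat.one_le_two_pow (n := i)
    exact_mod_cast this
  have h2 : (1 : ℤ) ≤ y := by exact_mod_cast hy
  have h3 : (1 : ℤ) ≤ 2 ^ i * y := by nlinarith
  rcases hs with rfl | rfl <;> linarith

/-- solutions of `c k ≡ s` -/
def AA (c : ℕ) (s : ℤ) (p : ℕ) : Finset ℕ := {k ∈ range p | (p : ℤ) ∣ (c : ℤ) * k - s}

theorem AA_card_le (c : ℕ) (s : ℤ) (hs : s = 1 ∨ s = -1) (p : ℕ) (hp : p.Prime) : (AA c s p).card ≤ 1 := by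
  rw [Finset.card_le_one]
  intro k hk l hl
  unfold AA at hk hl
  rw [Finset.mem_filter, Finset.mem_range] at hk hl
  have hp' : Prime (p : ℤ) := Nat.prime_iff_prime_int.mp hp
  have h1 : (p : ℤ) ∣ (c : ℤ) * ((k : ℤ) - l) := by
    have h0 : (c : ℤ) * ((k : ℤ) - l) = ((c : ℤ) * k - s) - ((c : ℤ) * l - s) := by ring
    rw [h0]
    exact dvd_sub hk.2 hl.2
  rcases hp'.dvd_or_dvd h1 with h | h
  · exfalso
    have h2 : (p : ℤ) ∣ s := by
      have h3 : (p : ℤ) ∣ (c : ℤ) * k := h.mul_right _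
      have h0 : s = (c : ℤ) * k - ((c : ℤ) * k - s) := by ring
      rw [h0]
      exact dvd_sub h3 hk.2
    have h5 : (p : ℤ) ∣ 1 := by
      rcases hs with rfl | rfl
      · exact h2
      · exact (dvd_neg.mp h2)
    exact hp'.not_isUnit (isUnit_of_dvd_one h5)
  · obtain ⟨t, ht⟩ := h
    have hp0 : (0 : ℤ) < p := by exact_mod_cast hp.pos
    have hk' : (k : ℤ) < p := by exact_mod_cast hk.1
    have hl' : (l : ℤ) < p := by exact_mod_cast hl.1
    have hk0 : (0 : ℤ) ≤ k := by positivity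
    have hl0 : (0 : ℤ) ≤ l := by positivity
    have ht0 : t = 0 := by
      by_contra hne
      rcases lt_or_gt_of_ne hne with h6 | h6
      · nlinarith
      · nlinarith
    rw [ht0, mul_zero] at ht
    have : (k : ℤ) = l := by linarith
    exact_mod_cast this

theorem AA_nonempty (c : ℕ) (s : ℤ) (p : ℕ) (hp : p.Prime) (hc : ¬ p ∣ c) : (AA c s p).Nonempty := by
  have : Fact p.Prime := ⟨hp⟩
  have hc0 : (c : ZMod p) ≠ 0 := by
    intro h
    rw [ZMod.natCast_eq_zero_iff] at h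
    exact hc h
  refine ⟨((s : ZMod p) * (c : ZMod p)⁻¹).val, ?_⟩
  unfold AA
  rw [Finset.mem_filter, Finset.mem_range]
  refine ⟨ZMod.val_lt _, ?_⟩
  rw [← ZMod.intCast_zmod_eq_zero_iff_dvd]
  push_cast
  rw [ZMod.natCast_zmod_val]
  field_simp
  ring

/-- the excluded classes -/
def RR (W : ℕ) (s : ℤ) (i d p : ℕ) : Finset ℕ := AA (2 ^ i * W) s p ∪ AA (2 ^ (i + d) * W) s p

theorem RR_card_le (W : ℕ) (s : ℤ) (hs : s = 1 ∨ s = -1) (i d p : ℕ) (hp : p.Prime) :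
    (RR W s i d p).card ≤ 2 := by
  unfold RR
  refine (Finset.card_union_le _ _).trans ?_
  have := AA_card_le (2 ^ i * W) s hs p hp
  have := AA_card_le (2 ^ (i + d) * W) s hs p hp
  omega

theorem AA_two (c : ℕ) (hc : 2 ∣ c) (s : ℤ) (hs : s = 1 ∨ s = -1) : AA c s 2 = ∅ := by
  unfold AA
  rw [Finset.filter_eq_empty_iff]
  intro k _ h
  obtain ⟨t, rfl⟩ := hc
  push_cast at h
  have h2 : (2 : ℤ) ∣ 2 * (t : ℤ) * k := ⟨t * k, by ring⟩
  have h3 := (dvd_sub_right h2).mp h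
  rcases hs with rfl | rfl <;> revert h3 <;> decide

theorem RR_card_lt (W : ℕ) (s : ℤ) (hs : s = 1 ∨ s = -1) (i d p : ℕ) (hi : 1 ≤ i) (hp : p.Prime) :
    (RR W s i d p).card < p := by
  by_cases h2 : p = 2
  · subst h2
    unfold RR
    rw [AA_two _ (Dvd.dvd.mul_right (dvd_pow_self 2 (by omega)) W) s hs,
      AA_two _ (Dvd.dvd.mul_right (dvd_pow_self 2 (by omega)) W) s hs]
    simp
  · have := RR_card_le W s hs i d p hp
    have := hp.two_le
    omega

theorem RR_card_one (W : ℕ) (s : ℤ) (i d p : ℕ) (hp : p.Prime) (h2 : p ≠ 2) (hW : ¬ p ∣ W) :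
    1 ≤ (RR W s i d p).card := by
  have hc : ¬ p ∣ 2 ^ i * W := by
    intro h
    rcases (Nat.Prime.dvd_mul hp).mp h with h | h
    · exact h2 ((Nat.prime_dvd_prime_iff_eq hp Nat.prime_two).mp (hp.dvd_of_dvd_pow h))
    · exact hW h
  obtain ⟨k, hk⟩ := AA_nonempty (2 ^ i * W) s p hp hc
  unfold RR
  exact Finset.card_pos.mpr ⟨k, Finset.mem_union_left _ hk⟩

theorem RR_card_two (W : ℕ) (s : ℤ) (hs : s = 1 ∨ s = -1) (i d p : ℕ) (hp : p.Prime) (h2 : p ≠ 2) (hW : ¬ p ∣ W)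
    (hd : ¬ p ∣ 2 ^ d - 1) : 2 ≤ (RR W s i d p).card := by
  have hc : ∀ i, ¬ p ∣ 2 ^ i * W := by
    intro i h
    rcases (Nat.Prime.dvd_mul hp).mp h with h | h
    · exact h2 ((Nat.prime_dvd_prime_iff_eq hp Nat.prime_two).mp (hp.dvd_of_dvd_pow h))
    · exact hW h
  obtain ⟨k, hk⟩ := AA_nonempty (2 ^ i * W) s p hp (hc i)
  obtain ⟨l, hl⟩ := AA_nonempty (2 ^ (i + d) * W) s p hp (hc (i + d))
  have hne : k ≠ l := by
    rintro rfl
    unfold AA at hk hl
    rw [Finset.mem_filter] at hk hl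
    apply hd
    have h1 := (dvd_mul_of_dvd_right hk.2 ((2 : ℤ) ^ d))
    have h3 := dvd_sub hl.2 h1
    have h4 : ((2 ^ (i + d) * W : ℕ) : ℤ) * k - s - 2 ^ d * (((2 ^ i * W : ℕ) : ℤ) * k - s) = s * (2 ^ d - 1) := by
      push_cast
      rw [pow_add]
      ring
    rw [h4] at h3
    have h5 : (p : ℤ) ∣ 2 ^ d - 1 := by
      rcases hs with rfl | rfl
      · simpa using h3
      · rw [neg_one_mul, dvd_neg] at h3; exact h3
    have h6 : (((2 ^ d - 1 : ℕ) : ℕ) : ℤ) = 2 ^ d - 1 := by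
      rw [Nat.cast_sub Nat.one_le_two_pow]; push_cast; ring
    rw [← h6] at h5
    exact_mod_cast h5
  have hsub : ({k, l} : Finset ℕ) ⊆ RR W s i d p := by
    intro x hx
    rw [Finset.mem_insert, Finset.mem_singleton] at hx
    unfold RR
    rcases hx with rfl | rfl
    · exact Finset.mem_union_left _ hk
    · exact Finset.mem_union_right _ hl
  calc 2 = ({k, l} : Finset ℕ).card := (Finset.card_pair hne).symm
    _ ≤ _ := Finset.card_le_card hsub

theorem filter_prod_le (n z : ℕ) (hn : n ≠ 0) :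
    ∏ p ∈ primesIoc 0 z, (if p ∣ n then (1 - 1 / (p : ℝ))⁻¹ else 1) ≤ ∏ p ∈ n.primeFactors, (1 - 1 / (p : ℝ))⁻¹ := by
  rw [← Finset.prod_filter]
  apply prod_subset_le
  · intro p hp
    rw [Finset.mem_filter, mem_primesIoc] at hp
    exact Nat.mem_primeFactors.mpr ⟨hp.1.2.2, hp.2, hn⟩
  · intro p hp
    exact (Nat.mem_primeFactors.mp hp).1

theorem EW_nonneg (n : ℕ) : 0 ≤ ∏ p ∈ n.primeFactors, (1 - 1 / (p : ℝ))⁻¹ := by
  apply Finset.prod_nonneg
  intro p hp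
  have := factor_ge_one (Nat.mem_primeFactors.mp hp).1
  linarith

theorem EW_ge_one (n : ℕ) : 1 ≤ ∏ p ∈ n.primeFactors, (1 - 1 / (p : ℝ))⁻¹ := by
  calc (1 : ℝ) = ∏ _p ∈ n.primeFactors, (1 : ℝ) := by simp
    _ ≤ _ := by
      apply Finset.prod_le_prod
      · intro _ _; norm_num
      · intro p hp
        exact factor_ge_one (Nat.mem_primeFactors.mp hp).1

theorem EW_two_mul (W : ℕ) (hW : W % 2 = 1) : EW (2 * W) = 2 * EW W := by
  unfold EW
  have hW0 : W ≠ 0 := by rintro rfl; simp at hW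
  rw [Nat.primeFactors_mul (by norm_num) hW0, Nat.Prime.primeFactors Nat.prime_two, Finset.prod_union]
  · simp
    norm_num
  · rw [Finset.disjoint_singleton_left]
    intro h
    have := (Nat.mem_primeFactors.mp h).2.1
    omega

theorem dens_RR_le (W : ℕ) (hW : W % 2 = 1) (s : ℤ) (hs : s = 1 ∨ s = -1) (i d z : ℕ) (hi : 1 ≤ i) (hd : 1 ≤ d) :
    dens (RR W s i d) z ≤ (mp z) ^ 2 * (4 * (EW W) ^ 2 * FF d) := by
  have hW0 : W ≠ 0 := by rintro rfl; simp at hW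
  have h2d : 2 ^ d - 1 ≠ 0 := by
    have : 2 ^ 1 ≤ 2 ^ d := Nat.pow_le_pow_right (by norm_num) hd
    omega
  have h1 : dens (RR W s i d) z ≤ ∏ p ∈ primesIoc 0 z, ((1 - 1 / (p : ℝ)) ^ 2 *
      ((if p ∣ 2 * W then (1 - 1 / (p : ℝ))⁻¹ else 1) ^ 2 * (if p ∣ 2 ^ d - 1 then (1 - 1 / (p : ℝ))⁻¹ else 1))) := by
    unfold dens
    apply Finset.prod_le_prod
    · intro p hp
      rw [mem_primesIoc] at hp
      have hp0 : (0 : ℝ) < p := by exact_mod_cast hp.2.2.pos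
      have := RR_card_lt W s hs i d p hi hp.2.2
      have h3 : ((RR W s i d p).card : ℝ) / p ≤ 1 := by
        rw [div_le_one hp0]; exact_mod_cast this.le
      linarith
    · intro p hp
      rw [mem_primesIoc] at hp
      have hpp := hp.2.2
      have hp2 : (2 : ℝ) ≤ p := by exact_mod_cast hpp.two_le
      have hp0 : (0 : ℝ) < p := by linarith
      have hx : 0 < 1 - 1 / (p : ℝ) := by
        have : 1 / (p : ℝ) ≤ 1 / 2 := one_div_le_one_div_of_le (by norm_num) hp2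
        linarith
      have hge := factor_ge_one hpp
      set x := 1 - 1 / (p : ℝ) with hxd
      have hif1 : 1 ≤ (if p ∣ 2 ^ d - 1 then x⁻¹ else 1) := by split_ifs <;> linarith
      have hcard0 : 0 ≤ ((RR W s i d p).card : ℝ) / p := by positivity
      by_cases hA : p ∣ 2 * W
      · rw [if_pos hA]
        have h3 : x ^ 2 * ((x⁻¹) ^ 2 * (if p ∣ 2 ^ d - 1 then x⁻¹ else 1)) = (if p ∣ 2 ^ d - 1 then x⁻¹ else 1) := by
          field_simp
        rw [h3]
        linarith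
      · rw [if_neg hA]
        have hp2' : p ≠ 2 := by
          rintro rfl
          exact hA (dvd_mul_right 2 W)
        have hpW : ¬ p ∣ W := fun h => hA (h.mul_left 2)
        by_cases hB : p ∣ 2 ^ d - 1
        · rw [if_pos hB]
          have h3 : x ^ 2 * ((1 : ℝ) ^ 2 * x⁻¹) = x := by field_simp
          rw [h3, hxd]
          have h4 : (1 : ℝ) ≤ ((RR W s i d p).card : ℝ) := by
            exact_mod_cast RR_card_one W s i d p hpp hp2' hpW
          have h5 : 1 / (p : ℝ) ≤ ((RR W s i d p).card : ℝ) / p := by gcongr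
          linarith
        · rw [if_neg hB]
          have h4 : (2 : ℝ) ≤ ((RR W s i d p).card : ℝ) := by
            exact_mod_cast RR_card_two W s hs i d p hpp hp2' hpW hB
          have h5 : 2 / (p : ℝ) ≤ ((RR W s i d p).card : ℝ) / p := by gcongr
          have h6 : x ^ 2 * ((1 : ℝ) ^ 2 * 1) = 1 - 2 / p + 1 / (p : ℝ) ^ 2 := by
            rw [hxd]; field_simp; ring
          rw [h6]
          have : 0 < 1 / (p : ℝ) ^ 2 := by positivity
          linarith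
  refine h1.trans ?_
  rw [Finset.prod_mul_distrib, Finset.prod_mul_distrib, Finset.prod_pow, Finset.prod_pow]
  have h3 := filter_prod_le (2 * W) z (by omega)
  have h4 := filter_prod_le (2 ^ d - 1) z h2d
  have h5 : (∏ p ∈ primesIoc 0 z, (1 - 1 / (p : ℝ))) = mp z := rfl
  have h6 : (∏ p ∈ (2 * W).primeFactors, (1 - 1 / (p : ℝ))⁻¹) = 2 * EW W := EW_two_mul W hW
  rw [h5]
  rw [h6] at h3
  have h7 : 0 ≤ ∏ p ∈ primesIoc 0 z, (if p ∣ 2 * W then (1 - 1 / (p : ℝ))⁻¹ else 1) := by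
    apply Finset.prod_nonneg
    intro p hp
    rw [mem_primesIoc] at hp
    have := factor_ge_one hp.2.2
    split_ifs <;> linarith
  have h8 : 0 ≤ ∏ p ∈ primesIoc 0 z, (if p ∣ 2 ^ d - 1 then (1 - 1 / (p : ℝ))⁻¹ else 1) := by
    apply Finset.prod_nonneg
    intro p hp
    rw [mem_primesIoc] at hp
    have := factor_ge_one hp.2.2
    split_ifs <;> linarith
  have h9 : (∏ p ∈ primesIoc 0 z, (if p ∣ 2 * W then (1 - 1 / (p : ℝ))⁻¹ else 1)) ^ 2 ≤ (2 * EW W) ^ 2 := by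
    gcongr
  calc (mp z) ^ 2 * ((∏ p ∈ primesIoc 0 z, (if p ∣ 2 * W then (1 - 1 / (p : ℝ))⁻¹ else 1)) ^ 2 *
        ∏ p ∈ primesIoc 0 z, (if p ∣ 2 ^ d - 1 then (1 - 1 / (p : ℝ))⁻¹ else 1))
      ≤ (mp z) ^ 2 * ((2 * EW W) ^ 2 * FF d) := by
        have h10 : ∏ p ∈ primesIoc 0 z, (if p ∣ 2 ^ d - 1 then (1 - 1 / (p : ℝ))⁻¹ else 1) ≤ FF d := h4
        gcongr
    _ = _ := by ring

/-- the sieve condition for actual primes -/
theorem not_mem_RR (W : ℕ) (hW : 1 ≤ W) (s : ℤ) (hs : s = 1 ∨ s = -1) (i d z m : ℕ) (hi : 1 ≤ i) (hm : z + 1 < m)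
    (h1 : (Lf s i (W * m)).Prime) (h2 : (Lf s (i + d) (W * m)).Prime) :
    ∀ p ∈ primesIoc 0 z, m % p ∉ RR W s i d p := by
  have hWm : 1 ≤ W * m := Nat.one_le_iff_ne_zero.mpr (Nat.mul_ne_zero (by omega) (by omega))
  have key : ∀ j, 1 ≤ j → (Lf s j (W * m)).Prime → ∀ p ∈ primesIoc 0 z, m % p ∉ AA (2 ^ j * W) s p := by
    intro j hj hpr p hp hmem
    rw [mem_primesIoc] at hp
    unfold AA at hmem
    rw [Finset.mem_filter] at hmem
    have hL := Lf_coe s hs j (W * m) hWm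
    have hmod : (m : ℤ) = (p : ℤ) * ((m / p : ℕ) : ℤ) + ((m % p : ℕ) : ℤ) := by
      exact_mod_cast (Nat.div_add_mod m p).symm
    have h3 : (p : ℤ) ∣ ((Lf s j (W * m) : ℕ) : ℤ) := by
      rw [hL]
      have h4 : (2 : ℤ) ^ j * ((W * m : ℕ) : ℤ) - s =
          (((2 ^ j * W : ℕ) : ℤ) * ((m % p : ℕ) : ℤ) - s) + (p : ℤ) * (2 ^ j * W * ((m / p : ℕ) : ℤ)) := by
        push_cast
        push_cast at hmod
        nth_rw 1 [hmod]
        ring
      rw [h4]
      exact dvd_add hmem.2 (dvd_mul_right _ _)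
    have h4 : p ∣ Lf s j (W * m) := by exact_mod_cast h3
    have h5 := (Nat.prime_dvd_prime_iff_eq hp.2.2 hpr).mp h4
    have h6 : (z : ℤ) < ((Lf s j (W * m) : ℕ) : ℤ) := by
      rw [hL]
      have h7 : (2 : ℤ) ≤ 2 ^ j := by
        have : 2 ^ 1 ≤ 2 ^ j := Nat.pow_le_pow_right (by norm_num) hj
        exact_mod_cast this
      have h8 : (m : ℤ) ≤ ((W * m : ℕ) : ℤ) := by
        have : m ≤ W * m := Nat.le_mul_of_pos_left m hW
        exact_mod_cast this
      have h9 : ((z : ℤ) + 1) < m := by exact_mod_cast hm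
      have h10 : (0 : ℤ) ≤ ((W * m : ℕ) : ℤ) := by positivity
      have h11 : (2 : ℤ) * ((W * m : ℕ) : ℤ) ≤ 2 ^ j * ((W * m : ℕ) : ℤ) := by nlinarith
      have hz0 : (0 : ℤ) ≤ z := by positivity
      rcases hs with rfl | rfl <;> linarith
    rw [← h5] at h6
    have : (z : ℤ) < (p : ℤ) := h6
    have h12 : z < p := by exact_mod_cast this
    omega
  intro p hp hmem
  unfold RR at hmem
  rw [Finset.mem_union] at hmem
  rcases hmem with h | h
  · exact key i hi h1 p hp h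
  · exact key (i + d) (by omega) h2 p hp h

/-- **Pairs.** -/
theorem pair_sieve : ∃ (C : ℝ) (M0 : ℕ), 0 < C ∧ 3 ≤ M0 ∧ ∀ M : ℕ, M0 ≤ M → ∀ W : ℕ, W % 2 = 1 →
    ∀ s : ℤ, s = 1 ∨ s = -1 → ∀ i d : ℕ, 1 ≤ i → 1 ≤ d →
    ((#{m ∈ Finset.Icc 1 M | (Lf s i (W * m)).Prime ∧ (Lf s (i + d) (W * m)).Prime} : ℕ) : ℝ) ≤
      C * (M * (EW W) ^ 2 * FF d / (Real.log M) ^ 2) := by
  obtain ⟨z0, hz0, hfund⟩ := fund_lemma
  refine ⟨1 + 16 * 220 ^ 2, (z0 + 4) ^ 110, by norm_num, ?_, ?_⟩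
  · calc 3 ≤ z0 + 4 := by omega
      _ ≤ (z0 + 4) ^ 110 := Nat.le_self_pow (by norm_num) _
  intro M hM W hW s hs i d hi hd
  have hW1 : 1 ≤ W := by omega
  set t := (M : ℝ) ^ (1 / 110 : ℝ) with ht
  have hM0 : (0 : ℝ) < M := by
    have : 0 < M := lt_of_lt_of_le (by positivity) hM
    exact_mod_cast this
  have ht0 : 0 < t := Real.rpow_pos_of_pos hM0 _
  have hpowt : t ^ 110 = M := by
    rw [ht, ← Real.rpow_natCast, ← Real.rpow_mul hM0.le]
    norm_num
  have hlogt : Real.log t = Real.log M / 110 := by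
    rw [ht, Real.log_rpow hM0]; ring
  set z := ⌊t⌋₊ with hz
  have hzt : (z : ℝ) ≤ t := Nat.floor_le ht0.le
  have hz4 : z0 + 4 ≤ z := by
    apply Nat.le_floor
    by_contra hc
    push Not at hc
    have h1 : t ^ 110 < (((z0 + 4 : ℕ) : ℝ)) ^ 110 := pow_lt_pow_left₀ hc ht0.le (by norm_num)
    rw [hpowt] at h1
    have : (((z0 + 4 : ℕ) : ℝ)) ^ 110 ≤ M := by exact_mod_cast hM
    linarith
  have hzM : z ^ 110 ≤ M := by
    have : (z : ℝ) ^ 110 ≤ M := by
      rw [← hpowt]; gcongr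
    exact_mod_cast this
  have hz4r : (4 : ℝ) ≤ z := by exact_mod_cast (by omega : 4 ≤ z)
  have hz0r : (0 : ℝ) < z := by linarith
  have hlz : Real.log M / 220 ≤ Real.log z := by
    have h1 : t < z + 1 := Nat.lt_floor_add_one t
    have h2 : Real.sqrt t ≤ z := by
      have h3 : 2 ≤ Real.sqrt t := by
        apply Real.le_sqrt_of_sq_le
        nlinarith only [hzt, hz4r]
      have h4 : Real.sqrt t ^ 2 = t := Real.sq_sqrt ht0.le
      nlinarith only [h1, h3, h4]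
    have h5 : Real.log (Real.sqrt t) = Real.log M / 220 := by
      rw [Real.log_sqrt ht0.le, hlogt]
      ring
    rw [← h5]
    exact Real.log_le_log (Real.sqrt_pos.mpr ht0) h2
  have hlogM : 0 < Real.log M := by
    apply Real.log_pos
    have h1 : (z : ℝ) ≤ z ^ 110 := by
      have : z ≤ z ^ 110 := Nat.le_self_pow (by norm_num) z
      exact_mod_cast this
    have h2 : ((z ^ 110 : ℕ) : ℝ) ≤ M := by exact_mod_cast hzM
    push_cast at h2
    linarith
  have hlz0 : 0 < Real.log z := lt_of_lt_of_le (by positivity) hlz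
  -- the sieve
  have hsieve := hfund z (by omega) 10 le_rfl (M + 1) (by
    calc z ^ (9 * 10 + 20) = z ^ 110 := by norm_num
      _ ≤ M + 1 := by omega) (RR W s i d)
    (fun p hp _ => by
      unfold RR AA
      exact Finset.union_subset (Finset.filter_subset _ _) (Finset.filter_subset _ _))
    (fun p hp _ => RR_card_le W s hs i d p hp)
    (fun p hp _ => RR_card_lt W s hs i d p hi hp)
  set D := dens (RR W s i d) z with hD
  have hDle := dens_RR_le W hW s hs i d z hi hd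
  rw [← hD] at hDle
  set G := (EW W) ^ 2 * FF d with hG
  have hG1 : 1 ≤ G := by
    have h1 : 1 ≤ EW W := EW_ge_one W
    have h2 : 1 ≤ FF d := EW_ge_one (2 ^ d - 1)
    rw [hG]
    nlinarith
  have hD0 : 0 ≤ D := by
    rw [hD]
    unfold dens
    apply Finset.prod_nonneg
    intro p hp
    rw [mem_primesIoc] at hp
    have hp0 : (0 : ℝ) < p := by exact_mod_cast hp.2.2.pos
    have := RR_card_lt W s hs i d p hi hp.2.2
    have h3 : ((RR W s i d p).card : ℝ) / p ≤ 1 := by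
      rw [div_le_one hp0]; exact_mod_cast this.le
    linarith
  have hcount : ((#{k ∈ range (M + 1) | ∀ p ∈ primesIoc 0 z, k % p ∉ RR W s i d p} : ℕ) : ℝ) ≤
      2 * ((M + 1 : ℕ) * D) := by
    have h1 := (abs_le.mp hsieve).2
    have h2 : 0 ≤ ((M + 1 : ℕ) : ℝ) * D := by positivity
    have h3 : 3 * (1 / 2 : ℝ) ^ 10 * (((M + 1 : ℕ) : ℝ) * D) ≤ 1 * (((M + 1 : ℕ) : ℝ) * D) := by
      gcongr; norm_num
    linarith
  have hsub : (Finset.filter (fun m => (Lf s i (W * m)).Prime ∧ (Lf s (i + d) (W * m)).Prime) (Finset.Icc 1 M)) ⊆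
      Finset.Icc 1 (z + 1) ∪ Finset.filter (fun k => ∀ p ∈ primesIoc 0 z, k % p ∉ RR W s i d p) (range (M + 1)) := by
    intro m hm
    rw [Finset.mem_filter, Finset.mem_Icc] at hm
    rw [Finset.mem_union]
    by_cases h : m ≤ z + 1
    · left; rw [Finset.mem_Icc]; exact ⟨hm.1.1, h⟩
    · right
      push Not at h
      rw [Finset.mem_filter, Finset.mem_range]
      exact ⟨by omega, not_mem_RR W hW1 s hs i d z m hi h hm.2.1 hm.2.2⟩
  have hcard : ((#{m ∈ Finset.Icc 1 M | (Lf s i (W * m)).Prime ∧ (Lf s (i + d) (W * m)).Prime} : ℕ) : ℝ) ≤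
      ((z + 1 : ℕ) : ℝ) + 2 * ((M + 1 : ℕ) * D) := by
    have h1 := (Finset.card_le_card hsub).trans (Finset.card_union_le _ _)
    rw [Nat.card_Icc, Nat.add_sub_cancel] at h1
    have h2 : ((#{m ∈ Finset.Icc 1 M | (Lf s i (W * m)).Prime ∧ (Lf s (i + d) (W * m)).Prime} : ℕ) : ℝ) ≤
      ((z + 1 : ℕ) : ℝ) + ((#{k ∈ range (M + 1) | ∀ p ∈ primesIoc 0 z, k % p ∉ RR W s i d p} : ℕ) : ℝ) := by
      exact_mod_cast h1
    linarith
  refine hcard.trans ?_
  -- small term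
  have hsmall : ((z + 1 : ℕ) : ℝ) ≤ M / (Real.log M) ^ 2 := by
    rw [le_div_iff₀ (by positivity)]
    have h1 : Real.log M ≤ 220 * z := by
      have := Real.log_le_sub_one_of_pos hz0r
      linarith
    have h2 : (Real.log M) ^ 2 ≤ (220 * z) ^ 2 := by gcongr
    have h3 : (z : ℝ) ^ 110 ≤ M := by exact_mod_cast hzM
    have h5 : (4 : ℝ) ^ 107 ≤ (z : ℝ) ^ 107 := by gcongr
    calc ((z + 1 : ℕ) : ℝ) * (Real.log M) ^ 2 ≤ (2 * z) * (220 * z) ^ 2 := by
          gcongr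
          push_cast; linarith
      _ = 96800 * (z : ℝ) ^ 3 := by ring
      _ ≤ (z : ℝ) ^ 107 * (z : ℝ) ^ 3 := by
          gcongr
          refine le_trans ?_ h5
          norm_num
      _ = (z : ℝ) ^ 110 := by ring
      _ ≤ M := h3
  have hmain : 2 * (((M + 1 : ℕ) : ℝ) * D) ≤ 16 * 220 ^ 2 * (M * G / (Real.log M) ^ 2) := by
    have hM1 : ((M + 1 : ℕ) : ℝ) ≤ 2 * M := by
      have : (1 : ℝ) ≤ M := by
        have : 1 ≤ M := lt_of_lt_of_le (by positivity) hM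
        exact_mod_cast this
      push_cast; linarith
    have hmpz : mp z ≤ 220 / Real.log M := by
      refine (mp_le z (by omega)).trans ?_
      rw [div_le_div_iff₀ hlz0 hlogM]
      linarith
    have hmp0 := mp_nonneg z
    have hD2 : D ≤ (220 / Real.log M) ^ 2 * (4 * G) := by
      refine hDle.trans ?_
      rw [hG]
      have h1 : 0 ≤ 4 * EW W ^ 2 * FF d := by
        have : 0 ≤ FF d := EW_nonneg (2 ^ d - 1)
        positivity
      calc (mp z) ^ 2 * (4 * EW W ^ 2 * FF d) ≤ (220 / Real.log M) ^ 2 * (4 * EW W ^ 2 * FF d) := by gcongr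
        _ = _ := by ring
    calc 2 * (((M + 1 : ℕ) : ℝ) * D) ≤ 2 * ((2 * M) * ((220 / Real.log M) ^ 2 * (4 * G))) := by
          gcongr
      _ = _ := by field_simp; ring
  have hMl : (M : ℝ) / (Real.log M) ^ 2 ≤ M * G / (Real.log M) ^ 2 := by
    gcongr
    exact le_mul_of_one_le_right hM0.le hG1
  calc ((z + 1 : ℕ) : ℝ) + 2 * (((M + 1 : ℕ) : ℝ) * D)
      ≤ M * G / (Real.log M) ^ 2 + 16 * 220 ^ 2 * (M * G / (Real.log M) ^ 2) := by linarith
    _ = (1 + 16 * 220 ^ 2) * (M * (EW W) ^ 2 * FF d / (Real.log M) ^ 2) := by rw [hG]; ring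

end Pool.Agent.H22
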