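import Pool.Agent.H22.Linnik
import Pool.Agent.H22.Pairs

/-!
The first moment.
-/

set_option autoImplicit false

open Finset Real

namespace Pool.Agent.H22

open Pool.Agent.H16

theorem EW_mul_totient (W : ℕ) : (Nat.totient W : ℝ) * EW W = W := by
  have h := Nat.totient_eq_mul_prod_factors W
  have h2 : (Nat.totient W : ℝ) = W * ∏ p ∈ W.primeFactors, (1 - 1 / (p : ℝ)) := by
    have h3 : ((Nat.totient W : ℚ) : ℝ) = ((W * ∏ p ∈ W.primeFactors, (1 - (p : ℚ)⁻¹) : ℚ) : ℝ) := by rw [h]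
    push_cast at h3
    rw [h3]
    simp only [one_div]
  rw [h2]
  unfold EW
  rw [mul_assoc, ← Finset.prod_mul_distrib]
  rw [Finset.prod_eq_one, mul_one]
  intro p hp
  have hp' := (Nat.mem_primeFactors.mp hp).1
  have hp2 : (2 : ℝ) ≤ p := by exact_mod_cast hp'.two_le
  have hx : 0 < 1 - 1 / (p : ℝ) := by
    have : 1 / (p : ℝ) ≤ 1 / 2 := one_div_le_one_div_of_le (by norm_num) hp2
    linarith
  exact mul_inv_cancel₀ hx.ne'

theorem Lf_coprime (s : ℤ) (hs : s = 1 ∨ s = -1) (i W : ℕ) (hi : 1 ≤ i) (hW : 1 ≤ W) :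
    Nat.Coprime (Lf s i W) (2 ^ (i + 1) * W) := by
  rw [← Nat.isCoprime_iff_coprime, Lf_coe s hs i W hW]
  obtain ⟨j, rfl⟩ : ∃ j, i = j + 1 := ⟨i - 1, by omega⟩
  refine ⟨-((2 : ℤ) ^ (j + 1) * W + s), 2 ^ j * W, ?_⟩
  push_cast
  have hss : s * s = 1 := by rcases hs with rfl | rfl <;> norm_num
  have : -((2 : ℤ) ^ (j + 1) * W + s) * (2 ^ (j + 1) * W - s) + 2 ^ j * W * (2 ^ (j + 1 + 1) * W) = s * s := by
    ring
  rw [this, hss]

theorem win_subset (s : ℤ) (hs : s = 1 ∨ s = -1) (i W M q H : ℕ) (hi : 2 ≤ i) (hW : 1 ≤ W) (hM : 1 ≤ M)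
    (hq : q = 2 ^ (i + 1) * W) (hH : 2 ≤ H) :
    winP q ((Lf s i W : ℕ) : ZMod q) ((2 : ℝ) ^ i * W * M / (2 * H)) H ⊆
      (Finset.filter (fun m => m % 2 = 1 ∧ (Lf s i (W * m)).Prime) (Finset.Icc 1 M)).image
        (fun m => Lf s i (W * m)) := by
  intro p hp
  unfold winP at hp
  rw [Finset.mem_filter, Finset.mem_Ioc] at hp
  obtain ⟨⟨-, hpu⟩, hpp, hpc⟩ := hp
  have hHr : (0 : ℝ) < H := by exact_mod_cast (by omega : 0 < H)
  have hpu' : (p : ℝ) ≤ (2 : ℝ) ^ i * W * M / 2 := by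
    have h1 : (p : ℝ) ≤ (2 : ℝ) ^ i * W * M / (2 * H) * H := by
      have h2 : (0 : ℝ) ≤ (2 : ℝ) ^ i * W * M / (2 * H) * H := by positivity
      exact (Nat.le_floor_iff h2).mp hpu
    calc (p : ℝ) ≤ _ := h1
      _ = _ := by field_simp
  rw [ZMod.natCast_eq_natCast_iff] at hpc
  have h1 := (Nat.modEq_iff_dvd.mp hpc.symm)
  obtain ⟨t, ht⟩ := h1
  rw [Lf_coe s hs i W hW, hq] at ht
  push_cast at ht
  have hps : (p : ℤ) + s = 2 ^ i * W * (1 + 2 * t) := by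
    rw [pow_succ] at ht
    linarith
  have hX : (4 : ℤ) ≤ 2 ^ i * W := by
    have h2 : (2 : ℕ) ^ 2 ≤ 2 ^ i := Nat.pow_le_pow_right (by norm_num) hi
    have h3 : 4 * 1 ≤ 2 ^ i * W := Nat.mul_le_mul (by simpa using h2) hW
    exact_mod_cast h3
  have hp2 : (2 : ℤ) ≤ p := by exact_mod_cast hpp.two_le
  have hpos : 1 ≤ (p : ℤ) + s := by rcases hs with rfl | rfl <;> linarith
  have ht0 : 0 ≤ t := by
    by_contra hc
    push Not at hc
    have : 1 + 2 * t ≤ -1 := by omega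
    nlinarith
  obtain ⟨u, rfl⟩ := Int.eq_ofNat_of_zero_le ht0
  have hm1 : 1 ≤ W * (1 + 2 * u) := Nat.one_le_iff_ne_zero.mpr (Nat.mul_ne_zero (by omega) (by omega))
  have hLf : Lf s i (W * (1 + 2 * u)) = p := by
    have h2 : ((Lf s i (W * (1 + 2 * u)) : ℕ) : ℤ) = (p : ℤ) := by
      rw [Lf_coe s hs i _ hm1]
      push_cast
      linarith
    exact_mod_cast h2
  rw [Finset.mem_image]
  refine ⟨1 + 2 * u, ?_, hLf⟩
  rw [Finset.mem_filter, Finset.mem_Icc]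
  refine ⟨⟨by omega, ?_⟩, by omega, by rw [hLf]; exact hpp⟩
  by_contra hc
  push Not at hc
  have h3 : ((M : ℝ) + 1) ≤ ((1 + 2 * u : ℕ) : ℝ) := by exact_mod_cast hc
  have h4 : ((p : ℝ) + s) = 2 ^ i * W * ((1 + 2 * u : ℕ) : ℝ) := by
    have : (((p : ℤ) + s : ℤ) : ℝ) = ((2 ^ i * W * (1 + 2 * (u : ℤ)) : ℤ) : ℝ) := by
      rw [hps]
    push_cast at this ⊢
    exact this
  have h5 : (s : ℝ) ≤ 1 := by rcases hs with rfl | rfl <;> norm_num
  have hXr : (4 : ℝ) ≤ 2 ^ i * W := by exact_mod_cast hX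
  have hM0 : (0 : ℝ) ≤ M := Nat.cast_nonneg _
  have h6 : (2 : ℝ) ^ i * W * ((M : ℝ) + 1) ≤ 2 ^ i * W * M / 2 + 1 := by
    calc (2 : ℝ) ^ i * W * ((M : ℝ) + 1) ≤ 2 ^ i * W * ((1 + 2 * u : ℕ) : ℝ) := by gcongr
      _ = (p : ℝ) + s := h4.symm
      _ ≤ _ := by linarith
  nlinarith

theorem first_moment : ∃ (A : ℕ) (c1 : ℝ), 0 < c1 ∧ 2 ≤ A ∧ ∀ W : ℕ, W % 2 = 1 → ∃ M1 : ℕ, 3 ≤ M1 ∧
    ∀ M : ℕ, M1 ≤ M → ∀ s : ℤ, s = 1 ∨ s = -1 → ∀ i : ℕ, 2 ≤ i → (2 : ℝ) ^ i ≤ (M : ℝ) ^ (1 / (2 * A : ℝ)) →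
    c1 * (EW W * (M / Real.log M)) ≤
      ((#{m ∈ Finset.Icc 1 M | m % 2 = 1 ∧ (Lf s i (W * m)).Prime} : ℕ) : ℝ) := by
  obtain ⟨A, H, c, hc, hH, hA, hlin⟩ := linnik
  have hHr : (2 : ℝ) ≤ H := by exact_mod_cast hH
  refine ⟨A, c / (6 * H), by positivity, hA, ?_⟩
  intro W hW
  have hW1 : 1 ≤ W := by omega
  obtain ⟨x0, hx0⟩ := hlin W hW1
  set B : ℕ := (2 * W) ^ A * (2 * H) with hB
  refine ⟨⌈2 * H * |x0|⌉₊ + B ^ 2 + W + 3, by omega, ?_⟩
  intro M hM s hs i hi hiM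
  have hM1 : 1 ≤ M := by omega
  have hM1r : (3 : ℝ) ≤ M := by exact_mod_cast (by omega : 3 ≤ M)
  have hM0 : (0 : ℝ) < M := by linarith
  have hMW : (W : ℝ) ≤ M := by exact_mod_cast (by omega : W ≤ M)
  have hMx0 : 2 * H * |x0| ≤ M := by
    have h1 := Nat.le_ceil (2 * (H : ℝ) * |x0|)
    have h2 : ((⌈2 * (H : ℝ) * |x0|⌉₊ : ℕ) : ℝ) ≤ M := by exact_mod_cast (by omega : ⌈2 * (H : ℝ) * |x0|⌉₊ ≤ M)
    linarith
  have hMB : B ^ 2 ≤ M := by omega
  set q := 2 ^ (i + 1) * W with hq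
  set x := (2 : ℝ) ^ i * W * M / (2 * H) with hx
  have hW1r : (1 : ℝ) ≤ W := by exact_mod_cast hW1
  have h2i : (4 : ℝ) ≤ 2 ^ i := by
    have h2 : (2 : ℝ) ^ 2 ≤ 2 ^ i := pow_le_pow_right₀ (by norm_num) hi
    linarith
  have hxlow : (M : ℝ) / (2 * H) ≤ x := by
    rw [hx]
    gcongr
    have : (1 : ℝ) ≤ 2 ^ i * W := by nlinarith
    nlinarith
  have hxpos : 0 < x := by rw [hx]; positivity
  have hxx0 : x0 ≤ x := by
    refine (le_abs_self x0).trans (le_trans ?_ hxlow)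
    rw [le_div_iff₀ (by positivity)]
    linarith
  -- q^A ≤ x
  have hqA : (q : ℝ) ^ A ≤ x := by
    refine le_trans ?_ hxlow
    have h1 : (q : ℝ) = (2 * W) * 2 ^ i := by
      rw [hq]; push_cast; rw [pow_succ]; ring
    have h2 : ((2 : ℝ) ^ i) ^ A ≤ Real.sqrt M := by
      calc ((2 : ℝ) ^ i) ^ A ≤ ((M : ℝ) ^ (1 / (2 * A : ℝ))) ^ A := by gcongr
        _ = Real.sqrt M := by
          rw [← Real.rpow_natCast, ← Real.rpow_mul hM0.le, Real.sqrt_eq_rpow]
          congr 1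
          have : (A : ℝ) ≠ 0 := by
            have : (2 : ℝ) ≤ A := by exact_mod_cast hA
            linarith
          field_simp
    have h3 : ((B : ℕ) : ℝ) ≤ Real.sqrt M := by
      apply Real.le_sqrt_of_sq_le
      exact_mod_cast hMB
    rw [le_div_iff₀ (by positivity), h1, mul_pow]
    calc (2 * (W : ℝ)) ^ A * (2 ^ i) ^ A * (2 * H) = (B : ℝ) * (2 ^ i) ^ A := by
          rw [hB]; push_cast; ring
      _ ≤ Real.sqrt M * Real.sqrt M := by gcongr
      _ = M := Real.mul_self_sqrt hM0.le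
  have hu : IsUnit ((Lf s i W : ℕ) : ZMod q) := by
    rw [ZMod.isUnit_iff_coprime]
    exact Lf_coprime s hs i W (by omega) hW1
  have hmain := hx0 x hxx0 (i + 1) q (by omega) hq hqA _ hu
  have hsub := win_subset s hs i W M q H hi hW1 hM1 hq hH
  have hcard := (Finset.card_le_card hsub).trans Finset.card_image_le
  have hcard' : ((winP q ((Lf s i W : ℕ) : ZMod q) x H).card : ℝ) ≤
      ((#{m ∈ Finset.Icc 1 M | m % 2 = 1 ∧ (Lf s i (W * m)).Prime} : ℕ) : ℝ) := Nat.cast_le.mpr hcard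
  refine le_trans ?_ (hmain.trans hcard')
  -- compare
  have hφ : (Nat.totient q : ℝ) = 2 ^ i * Nat.totient W := by
    have hcop : Nat.Coprime (2 ^ (i + 1)) W := by
      apply Nat.Coprime.pow_left
      rw [Nat.coprime_two_left, Nat.odd_iff]
      exact hW
    rw [hq, Nat.totient_mul hcop, Nat.totient_prime_pow_succ Nat.prime_two]
    push_cast
    norm_num
  have hφW : (0 : ℝ) < Nat.totient W := by exact_mod_cast Nat.totient_pos.mpr hW1
  have hEW := EW_mul_totient W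
  have hlogM : 0 < Real.log M := Real.log_pos (by linarith)
  have hx1 : 1 < x := by
    refine lt_of_lt_of_le ?_ hqA
    have h1 : (1 : ℝ) < q := by
      have : 1 < q := by
        rw [hq]
        calc 1 < 2 ^ (i + 1) := Nat.one_lt_two_pow (by omega)
          _ ≤ 2 ^ (i + 1) * W := Nat.le_mul_of_pos_right _ hW1
      exact_mod_cast this
    exact one_lt_pow₀ h1 (by omega)
  have hlogx0 : 0 < Real.log x := Real.log_pos hx1
  have hlogx : Real.log x ≤ 3 * Real.log M := by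
    have h1 : x ≤ (M : ℝ) ^ 3 := by
      have h2 : (2 : ℝ) ^ i ≤ M := by
        refine hiM.trans ?_
        calc (M : ℝ) ^ (1 / (2 * A : ℝ)) ≤ (M : ℝ) ^ (1 : ℝ) := by
              apply Real.rpow_le_rpow_of_exponent_le (by linarith)
              have : (2 : ℝ) ≤ A := by exact_mod_cast hA
              rw [div_le_one (by linarith)]
              linarith
          _ = M := Real.rpow_one _
      calc x ≤ (2 : ℝ) ^ i * W * M := by
            rw [hx]
            apply div_le_self (by positivity)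
            linarith
        _ ≤ M * M * M := by gcongr
        _ = (M : ℝ) ^ 3 := by ring
    calc Real.log x ≤ Real.log ((M : ℝ) ^ 3) := Real.log_le_log hxpos h1
      _ = 3 * Real.log M := by rw [Real.log_pow]; push_cast; ring
  have hxφ : x / Nat.totient q = EW W * M / (2 * H) := by
    rw [hφ, hx]
    rw [div_div, div_eq_div_iff (by positivity) (by positivity)]
    calc (2 : ℝ) ^ i * W * M * (2 * H) = 2 ^ i * (Nat.totient W * EW W) * M * (2 * H) := by rw [hEW]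
      _ = _ := by ring
  have hEW0 : 0 ≤ EW W := EW_nonneg W
  calc c / (6 * H) * (EW W * (M / Real.log M)) = c * ((EW W * M / (2 * H)) / (3 * Real.log M)) := by
        field_simp
        ring
    _ ≤ c * ((EW W * M / (2 * H)) / Real.log x) := by
        gcongr
    _ = c * (x / (Nat.totient q * Real.log x)) := by
        rw [← hxφ, div_div]

end Pool.Agent.H22
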