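import Pool.Agent.H16.BrunHooley
import Pool.Agent.H16.Mertens
import Pool.Agent.H16.Euler

/-!
A fundamental lemma of sieve theory (dimension at most two), deduced from the Brun-Hooley sieve of
`Pool.Agent.H16.BrunHooley` with buckets cut at iterated square roots.
-/

set_option autoImplicit false

open Finset Real

namespace Pool.Agent.H22

open Pool.Agent.H16

/-- iterated integer square roots of `z` -/
def cut (z : ℕ) : ℕ → ℕ
  | 0 => z
  | j + 1 => Nat.sqrt (cut z j)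

theorem cut_succ_le (z j : ℕ) : cut z (j + 1) ≤ cut z j := Nat.sqrt_le_self _

theorem cut_antitone (z : ℕ) : Antitone (cut z) := antitone_nat_of_succ_le (cut_succ_le z)

theorem cut_pow_le (z j : ℕ) : (cut z j) ^ (2 ^ j) ≤ z := by
  induction j with
  | zero => simp [cut]
  | succ j ih =>
    have h1 : (cut z (j + 1)) ^ 2 ≤ cut z j := Nat.sqrt_le' _
    calc (cut z (j + 1)) ^ (2 ^ (j + 1)) = ((cut z (j + 1)) ^ 2) ^ (2 ^ j) := by
          rw [← pow_mul]; congr 1; ring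
      _ ≤ (cut z j) ^ (2 ^ j) := Nat.pow_le_pow_left h1 _
      _ ≤ z := ih

theorem exists_stop (z Z : ℕ) (hZ : 2 ≤ Z) : ∃ J : ℕ, cut z J < Z ∧ (∀ j < J, Z ≤ cut z j) ∧ J ≤ z := by
  have hex : ∃ J, cut z J < Z := by
    by_contra hcon
    push Not at hcon
    have h1 := hcon (z + 1)
    have h2 := cut_pow_le z (z + 1)
    have h3 : 2 ^ (2 ^ (z + 1)) ≤ z := by
      calc 2 ^ (2 ^ (z + 1)) ≤ (cut z (z + 1)) ^ (2 ^ (z + 1)) := Nat.pow_le_pow_left (by omega) _
        _ ≤ z := h2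
    have h4 : z + 1 < 2 ^ (z + 1) := Nat.lt_two_pow_self
    have h5 : 2 ^ (z + 1) < 2 ^ (2 ^ (z + 1)) := Nat.lt_two_pow_self
    omega
  classical
  refine ⟨Nat.find hex, Nat.find_spec hex, fun j hj => not_lt.mp (Nat.find_min hex hj), ?_⟩
  by_contra hcon
  push Not at hcon
  have h1 : Z ≤ cut z z := not_lt.mp (Nat.find_min hex hcon)
  have h2 := cut_pow_le z z
  have h3 : 2 ^ (2 ^ z) ≤ z := by
    calc 2 ^ (2 ^ z) ≤ (cut z z) ^ (2 ^ z) := Nat.pow_le_pow_left (by omega) _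
      _ ≤ z := h2
  have h4 : z < 2 ^ z := Nat.lt_two_pow_self
  have h5 : 2 ^ z < 2 ^ (2 ^ z) := Nat.lt_two_pow_self
  omega

/-- the sieving density -/
noncomputable def dens (R : ℕ → Finset ℕ) (z : ℕ) : ℝ :=
  ∏ p ∈ primesIoc 0 z, (1 - (#(R p) : ℝ) / p)

theorem dens_lower (R : ℕ → Finset ℕ) (z : ℕ) (hz : 2 ≤ z)
    (hR2 : ∀ p, p.Prime → p ≤ z → #(R p) ≤ 2) (hRlt : ∀ p, p.Prime → p ≤ z → #(R p) < p) :
    1 / ((z : ℝ) * (z - 1)) ≤ dens R z := by
  -- comparison function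
  set l : ℕ → ℝ := fun n => if n < 4 then 1 / (n : ℝ) else 1 - 2 / n with hl
  have hl01 : ∀ n : ℕ, 2 ≤ n → 0 ≤ l n ∧ l n ≤ 1 := by
    intro n hn
    have hn' : (2 : ℝ) ≤ n := by exact_mod_cast hn
    rw [hl]
    simp only
    split_ifs with h
    · constructor
      · positivity
      · rw [div_le_one (by linarith)]; linarith
    · have hn4 : (4 : ℝ) ≤ n := by exact_mod_cast (not_lt.mp h)
      have h1 : 2 / (n : ℝ) ≤ 1 := by rw [div_le_one (by linarith)]; linarith
      have h2 : 0 ≤ 2 / (n : ℝ) := by positivity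
      constructor <;> linarith
  have hprod : ∀ m : ℕ, 2 ≤ m → 1 / ((m : ℝ) * (m - 1)) ≤ ∏ n ∈ Finset.Icc 2 m, l n := by
    intro m hm
    induction m, hm using Nat.le_induction with
    | base =>
      rw [Finset.Icc_self, Finset.prod_singleton, hl]
      norm_num
    | succ m hm ih =>
      rw [← Finset.insert_Icc_right_eq_Icc_add_one (by omega), Finset.prod_insert (by simp)]
      have hm' : (2 : ℝ) ≤ m := by exact_mod_cast hm
      have h0 := (hl01 (m + 1) (by omega)).1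
      have h1 : 1 / (((m + 1 : ℕ) : ℝ) * (((m + 1 : ℕ) : ℝ) - 1)) ≤ l (m + 1) * (1 / ((m : ℝ) * (m - 1))) := by
        rw [hl]
        simp only
        push_cast
        split_ifs with h
        · have hm2 : m = 2 := by omega
          subst hm2
          norm_num
        · have hm3 : (3 : ℝ) ≤ m := by
            have : 3 ≤ m := by omega
            exact_mod_cast this
          have e1 : (1 : ℝ) - 2 / ((m : ℝ) + 1) = (m - 1) / (m + 1) := by
            field_simp; ring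
          rw [e1]
          have hne : (m : ℝ) - 1 ≠ 0 := by linarith
          have e2 : ((m : ℝ) - 1) / (m + 1) * (1 / (m * (m - 1))) = 1 / ((m + 1) * m) := by
            field_simp
          rw [e2]
          apply le_of_eq
          congr 1
          ring
      exact h1.trans (mul_le_mul_of_nonneg_left ih h0)
  refine (hprod z hz).trans ?_
  have hsub : primesIoc 0 z ⊆ Finset.Icc 2 z := by
    intro p hp
    rw [mem_primesIoc] at hp
    rw [Finset.mem_Icc]
    exact ⟨hp.2.2.two_le, hp.2.1⟩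
  rw [← Finset.prod_sdiff hsub]
  have h1 : ∏ n ∈ Finset.Icc 2 z \ primesIoc 0 z, l n ≤ 1 := by
    apply Finset.prod_le_one
    · intro n hn
      exact (hl01 n (Finset.mem_Icc.mp (Finset.mem_sdiff.mp hn).1).1).1
    · intro n hn
      exact (hl01 n (Finset.mem_Icc.mp (Finset.mem_sdiff.mp hn).1).1).2
  have h2 : ∏ n ∈ primesIoc 0 z, l n ≤ dens R z := by
    unfold dens
    apply Finset.prod_le_prod
    · intro n hn
      exact (hl01 n (Finset.mem_Icc.mp (hsub hn)).1).1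
    · intro p hp
      rw [mem_primesIoc] at hp
      obtain ⟨-, hpz, hpp⟩ := hp
      have hp2 : (2 : ℝ) ≤ p := by exact_mod_cast hpp.two_le
      rw [hl]
      simp only
      split_ifs with h
      · have h3 : (#(R p) : ℝ) + 1 ≤ p := by exact_mod_cast hRlt p hpp hpz
        have h4 : (1 : ℝ) / p = 1 - (p - 1) / p := by field_simp; ring
        rw [h4]
        gcongr
        linarith
      · have h3 : (#(R p) : ℝ) ≤ 2 := by exact_mod_cast hR2 p hpp hpz
        gcongr
  have h3 : 0 ≤ ∏ n ∈ primesIoc 0 z, l n := Finset.prod_nonneg (fun n hn =>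
    (hl01 n (Finset.mem_Icc.mp (hsub hn)).1).1)
  calc (∏ n ∈ Finset.Icc 2 z \ primesIoc 0 z, l n) * ∏ n ∈ primesIoc 0 z, l n
      ≤ 1 * ∏ n ∈ primesIoc 0 z, l n := mul_le_mul_of_nonneg_right h1 h3
    _ = ∏ n ∈ primesIoc 0 z, l n := one_mul _
    _ ≤ dens R z := h2

theorem eight_pow_le_factorial (m : ℕ) (hm : 20 ≤ m) : 8 ^ m ≤ m.factorial := by
  induction m, hm using Nat.le_induction with
  | base => decide
  | succ m hm ih =>
    rw [pow_succ, Nat.factorial_succ]
    calc 8 ^ m * 8 ≤ m.factorial * (m + 1) := Nat.mul_le_mul ih (by omega)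
      _ = (m + 1) * m.factorial := Nat.mul_comm _ _

/-- reciprocal sums over the buckets -/
theorem bucket_inv (n : ℕ) (hn : 2 ^ 80 ≤ n) :
    ∑ p ∈ primesIoc (Nat.sqrt n) n, (1 : ℝ) / p ≤ 1 := by
  set m := Nat.sqrt n with hm
  have hm40 : 2 ^ 40 ≤ m := by
    rw [hm, Nat.le_sqrt]
    calc 2 ^ 40 * 2 ^ 40 = 2 ^ 80 := by norm_num
      _ ≤ n := hn
  have hmn : m ≤ n := Nat.sqrt_le_self n
  have hm2 : 2 ≤ m := by omega
  have h := sum_inv_primes_le m n hm2 hmn
  refine h.trans ?_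
  have hmr : (2 : ℝ) ^ 40 ≤ m := by exact_mod_cast hm40
  have hmpos : (0 : ℝ) < m := by linarith [show (0 : ℝ) < 2 ^ 40 by norm_num]
  have hlogm : 27 ≤ Real.log m := by
    have h1 : Real.log ((2 : ℝ) ^ 40) ≤ Real.log m := Real.log_le_log (by norm_num) hmr
    rw [Real.log_pow] at h1
    have := Real.log_two_gt_d9
    push_cast at h1
    linarith
  have hnlt : n < (m + 1) ^ 2 := Nat.lt_succ_sqrt' n
  have hnpos : (0 : ℝ) < n := by exact_mod_cast (by omega : 0 < n)
  have hlogn : Real.log n ≤ 2 * Real.log m + 1 := by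
    have h1 : Real.log n ≤ Real.log (((m : ℝ) + 1) ^ 2) := by
      apply Real.log_le_log hnpos
      exact_mod_cast hnlt.le
    rw [Real.log_pow] at h1
    have h2 : Real.log ((m : ℝ) + 1) ≤ Real.log m + 1 / m := by
      have e1 : (m : ℝ) + 1 = m * (1 + 1 / m) := by field_simp
      rw [e1, Real.log_mul hmpos.ne' (by positivity)]
      have := Real.log_le_sub_one_of_pos (show 0 < 1 + 1 / (m : ℝ) by positivity)
      linarith
    have h3 : 1 / (m : ℝ) ≤ 1 / 2 := by
      apply one_div_le_one_div_of_le (by norm_num)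
      linarith [show (2 : ℝ) ≤ 2 ^ 40 by norm_num]
    push_cast at h1
    linarith
  have hratio : Real.log n / Real.log m ≤ 2.04 := by
    rw [div_le_iff₀ (by linarith)]
    linarith
  have hrpos : 0 < Real.log n / Real.log m := by
    apply div_pos _ (by linarith)
    have : Real.log m ≤ Real.log n := Real.log_le_log hmpos (by exact_mod_cast hmn)
    linarith
  have h4 : Real.log (Real.log n / Real.log m) ≤ 0.75 := by
    calc Real.log (Real.log n / Real.log m) ≤ Real.log 2.04 := Real.log_le_log hrpos hratio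
      _ = Real.log 2 + Real.log 1.02 := by
          rw [← Real.log_mul (by norm_num) (by norm_num)]; norm_num
      _ ≤ 0.6931471808 + (1.02 - 1) := by
          have h5 := Real.log_two_lt_d9
          have h6 := Real.log_le_sub_one_of_pos (show (0 : ℝ) < 1.02 by norm_num)
          linarith
      _ ≤ 0.75 := by norm_num
  have h5 : 5 / Real.log m ≤ 5 / 27 := by
    apply div_le_div_of_nonneg_left (by norm_num) (by norm_num) hlogm
  linarith [show (5 : ℝ) / 27 ≤ 0.2 by norm_num]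

theorem exp_neg_two_mul_le {x : ℝ} (hx0 : 0 ≤ x) (hx : x ≤ 1 / 2) : Real.exp (-(2 * x)) ≤ 1 - x := by
  have h1 : 0 < 1 - x := by linarith
  have h2 := Real.one_sub_inv_le_log_of_pos h1
  rw [← Real.le_log_iff_exp_le h1]
  refine le_trans ?_ h2
  have h3 : 1 - (1 - x)⁻¹ = -(x / (1 - x)) := by field_simp; ring
  rw [h3]
  apply neg_le_neg
  rw [div_le_iff₀ h1]
  nlinarith

/-- the cost of a bucket -/
theorem bucket_cost (R : ℕ → Finset ℕ) (n b : ℕ) (hn : 2 ^ 80 ≤ n) (hb : 20 ≤ b + 1)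
    (hR2 : ∀ p ∈ primesIoc (Nat.sqrt n) n, #(R p) ≤ 2) :
    es (primesIoc (Nat.sqrt n) n) (fun p => (#(R p) : ℝ) / p) (b + 1) /
      ∏ p ∈ primesIoc (Nat.sqrt n) n, (1 - (#(R p) : ℝ) / p) ≤ 81 * (1 / 4) ^ (b + 1) := by
  set P := primesIoc (Nat.sqrt n) n with hP
  have hm40 : 2 ^ 40 ≤ Nat.sqrt n := by
    rw [Nat.le_sqrt]
    calc 2 ^ 40 * 2 ^ 40 = 2 ^ 80 := by norm_num
      _ ≤ n := hn
  have hsum : ∑ p ∈ P, (#(R p) : ℝ) / p ≤ 2 := by
    calc ∑ p ∈ P, (#(R p) : ℝ) / p ≤ ∑ p ∈ P, 2 * ((1 : ℝ) / p) := by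
          apply Finset.sum_le_sum
          intro p hp
          rw [mul_one_div]
          have : (#(R p) : ℝ) ≤ 2 := by exact_mod_cast hR2 p hp
          gcongr
      _ = 2 * ∑ p ∈ P, (1 : ℝ) / p := by rw [Finset.mul_sum]
      _ ≤ 2 * 1 := by
          apply mul_le_mul_of_nonneg_left (bucket_inv n hn) (by norm_num)
      _ = 2 := by norm_num
  have hs0 : 0 ≤ ∑ p ∈ P, (#(R p) : ℝ) / p := Finset.sum_nonneg (fun p _ => by positivity)
  have hx : ∀ p ∈ P, 0 ≤ (#(R p) : ℝ) / p ∧ (#(R p) : ℝ) / p ≤ 1 / 2 := by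
    intro p hp
    have h1 : (#(R p) : ℝ) ≤ 2 := by exact_mod_cast hR2 p hp
    rw [hP, mem_primesIoc] at hp
    have h2 : 4 ≤ p := by omega
    have h3 : (4 : ℝ) ≤ p := by exact_mod_cast h2
    refine ⟨by positivity, ?_⟩
    rw [div_le_iff₀ (by linarith)]
    linarith
  have hV : Real.exp (-4) ≤ ∏ p ∈ P, (1 - (#(R p) : ℝ) / p) := by
    calc Real.exp (-4) ≤ Real.exp (-(2 * ∑ p ∈ P, (#(R p) : ℝ) / p)) := by
          apply Real.exp_le_exp.mpr; linarith
      _ = ∏ p ∈ P, Real.exp (-(2 * ((#(R p) : ℝ) / p))) := by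
          rw [← Real.exp_sum, Finset.mul_sum, Finset.sum_neg_distrib]
      _ ≤ _ := by
          apply Finset.prod_le_prod
          · intro p _; positivity
          · intro p hp
            exact exp_neg_two_mul_le (hx p hp).1 (hx p hp).2
  have hH : es P (fun p => (#(R p) : ℝ) / p) (b + 1) ≤ (1 / 4) ^ (b + 1) := by
    refine (es_le_pow P (fun p => (#(R p) : ℝ) / p) (fun p hp => (hx p hp).1) (b + 1)).trans ?_
    have h1 : (∑ p ∈ P, (#(R p) : ℝ) / p) ^ (b + 1) ≤ 2 ^ (b + 1) :=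
      pow_le_pow_left₀ hs0 hsum _
    have h2 : (8 : ℝ) ^ (b + 1) ≤ ((b + 1).factorial : ℝ) := by
      exact_mod_cast eight_pow_le_factorial (b + 1) hb
    have h3 : (0 : ℝ) < 8 ^ (b + 1) := by positivity
    calc (∑ p ∈ P, (#(R p) : ℝ) / p) ^ (b + 1) / ((b + 1).factorial : ℝ)
        ≤ 2 ^ (b + 1) / 8 ^ (b + 1) := by gcongr
      _ = (1 / 4) ^ (b + 1) := by
          rw [← div_pow]; norm_num
  have hexp : Real.exp 4 ≤ 81 := by
    have h1 : Real.exp 1 ≤ 3 := by
      have := Real.exp_one_lt_d9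
      linarith
    calc Real.exp 4 = (Real.exp 1) ^ 4 := by rw [← Real.exp_nat_mul]; norm_num
      _ ≤ 3 ^ 4 := pow_le_pow_left₀ (Real.exp_pos _).le h1 4
      _ = 81 := by norm_num
  have h4 : (0 : ℝ) ≤ (1 / 4) ^ (b + 1) := by positivity
  calc es P (fun p => (#(R p) : ℝ) / p) (b + 1) / ∏ p ∈ P, (1 - (#(R p) : ℝ) / p)
      ≤ (1 / 4) ^ (b + 1) / Real.exp (-4) := by
        apply div_le_div₀ h4 hH (Real.exp_pos _) hV
    _ = Real.exp 4 * (1 / 4) ^ (b + 1) := by
        rw [Real.exp_neg, div_inv_eq_mul, mul_comm]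
    _ ≤ 81 * (1 / 4) ^ (b + 1) := mul_le_mul_of_nonneg_right hexp h4

theorem sum_weights (b J : ℕ) :
    ∑ j ∈ range J, ((b : ℝ) + j) / 2 ^ j = 2 * b + 2 - 2 * (b + J + 1) / 2 ^ J := by
  induction J with
  | zero => simp; ring
  | succ J ih =>
    rw [Finset.sum_range_succ, ih]
    push_cast
    rw [pow_succ]
    field_simp
    ring

theorem prod_one_add_le_exp {ι : Type*} (s : Finset ι) (f : ι → ℝ) (hf : ∀ i ∈ s, 0 ≤ f i) :
    ∏ i ∈ s, (1 + f i) ≤ Real.exp (∑ i ∈ s, f i) := by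
  rw [Real.exp_sum]
  apply Finset.prod_le_prod
  · intro i hi; linarith [hf i hi]
  · intro i _
    have := Real.add_one_le_exp (f i)
    linarith


section Main

variable (z Z b J : ℕ)

/-- the buckets -/
def bkt (j : ℕ) : Finset ℕ := if j < J then primesIoc (cut z (j + 1)) (cut z j) else primesIoc 0 (cut z J)

/-- the truncation levels -/
def lev (j : ℕ) : ℕ := if j < J then 2 * (b + j) else 2 * Z

theorem bkt_union : (range (J + 1)).biUnion (bkt z J) = primesIoc 0 z := by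
  ext p
  simp only [Finset.mem_biUnion, Finset.mem_range]
  constructor
  · rintro ⟨j, hj, hp⟩
    unfold bkt at hp
    split_ifs at hp with h
    · rw [mem_primesIoc] at hp ⊢
      have := cut_antitone z (Nat.zero_le j)
      have h0 : cut z 0 = z := rfl
      exact ⟨by omega, by omega, hp.2.2⟩
    · rw [mem_primesIoc] at hp ⊢
      have := cut_antitone z (Nat.zero_le J)
      have h0 : cut z 0 = z := rfl
      exact ⟨by omega, by omega, hp.2.2⟩
  · intro hp
    rw [mem_primesIoc] at hp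
    by_cases h : p ≤ cut z J
    · refine ⟨J, by omega, ?_⟩
      unfold bkt
      rw [if_neg (by omega), mem_primesIoc]
      exact ⟨hp.1, h, hp.2.2⟩
    · have hex : ∃ j, cut z j < p := ⟨J, by omega⟩
      classical
      let j0 := Nat.find hex
      have hj0 : cut z j0 < p := Nat.find_spec hex
      have hj0pos : j0 ≠ 0 := by
        intro h0
        rw [h0] at hj0
        have h0 : cut z 0 = z := rfl
        omega
      have hmin : ¬ cut z (j0 - 1) < p := Nat.find_min hex (by omega)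
      have hle : j0 ≤ J := Nat.find_min' hex (by omega)
      refine ⟨j0 - 1, by omega, ?_⟩
      unfold bkt
      rw [if_pos (by omega), mem_primesIoc]
      have e : j0 - 1 + 1 = j0 := by omega
      rw [e]
      exact ⟨hj0, by omega, hp.2.2⟩

theorem bkt_disjoint (i j : ℕ) (hi : i < J + 1) (hj : j < J + 1) (hij : i ≠ j) :
    Disjoint (bkt z J i) (bkt z J j) := by
  have key : ∀ i j : ℕ, i < j → j < J + 1 → Disjoint (bkt z J i) (bkt z J j) := by
    intro i j h hj
    rw [Finset.disjoint_left]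
    intro p hp hp'
    unfold bkt at hp hp'
    rw [if_pos (by omega)] at hp
    rw [mem_primesIoc] at hp
    split_ifs at hp' with h'
    · rw [mem_primesIoc] at hp'
      have := cut_antitone z (show i + 1 ≤ j by omega)
      omega
    · rw [mem_primesIoc] at hp'
      have := cut_antitone z (show i + 1 ≤ J by omega)
      omega
  rcases Nat.lt_or_gt_of_ne hij with h | h
  · exact key i j h hj
  · exact (key j i h hi).symm

theorem bkt_subset (j : ℕ) (hj : j < J + 1) : bkt z J j ⊆ primesIoc 0 z := by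
  rw [← bkt_union z J]
  exact Finset.subset_biUnion_of_mem (bkt z J) (Finset.mem_range.mpr hj)

theorem dens_eq (R : ℕ → Finset ℕ) :
    ∏ j ∈ range (J + 1), ∏ p ∈ bkt z J j, (1 - (#(R p) : ℝ) / p) = dens R z := by
  unfold dens
  rw [← bkt_union z J, Finset.prod_biUnion]
  intro i hi j hj hij
  exact bkt_disjoint z J i j (by simpa using hi) (by simpa using hj) hij

end Main

theorem log_cut_le (z j : ℕ) (hc : 1 ≤ cut z j) : Real.log (cut z j) ≤ Real.log z / 2 ^ j := by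
  have h := cut_pow_le z j
  have h1 : (0 : ℝ) < cut z j := by exact_mod_cast hc
  rw [le_div_iff₀ (by positivity)]
  have h2 : Real.log ((cut z j : ℝ) ^ (2 ^ j)) ≤ Real.log z := by
    apply Real.log_le_log (by positivity)
    exact_mod_cast h
  rw [Real.log_pow] at h2
  push_cast at h2
  linarith

/-- bound for the remainder -/
theorem rem_bound (R : ℕ → Finset ℕ) (z Z b J : ℕ) (hz : 2 ≤ z) (hZ : 2 ≤ Z)
    (hJ : cut z J < Z) (hJ' : ∀ j < J, Z ≤ cut z j)
    (hR2 : ∀ p, p.Prime → p ≤ z → #(R p) ≤ 2) :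
    ∏ j ∈ range (J + 1), (1 + ∑ p ∈ bkt z J j, (#(R p) : ℝ)) ^ (lev Z b J j)
      ≤ (z : ℝ) ^ (8 * b + 8) * (1 + 2 * Z : ℝ) ^ (2 * Z) := by
  have hzr : (2 : ℝ) ≤ z := by exact_mod_cast hz
  have hlogz : 0 ≤ Real.log z := Real.log_nonneg (by linarith)
  rw [Finset.prod_range_succ]
  have hR2' : ∀ j < J + 1, ∀ p ∈ bkt z J j, (#(R p) : ℝ) ≤ 2 := by
    intro j hj p hp
    have h1 := bkt_subset z J j hj hp
    rw [mem_primesIoc] at h1
    exact_mod_cast hR2 p h1.2.2 h1.2.1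
  have hsum : ∀ j < J + 1, ∑ p ∈ bkt z J j, (#(R p) : ℝ) ≤ 2 * (#(bkt z J j) : ℝ) := by
    intro j hj
    calc ∑ p ∈ bkt z J j, (#(R p) : ℝ) ≤ ∑ p ∈ bkt z J j, (2 : ℝ) :=
          Finset.sum_le_sum (hR2' j hj)
      _ = 2 * (#(bkt z J j) : ℝ) := by rw [Finset.sum_const, nsmul_eq_mul]; ring
  have hnn : ∀ j, 0 ≤ ∑ p ∈ bkt z J j, (#(R p) : ℝ) := fun j =>
    Finset.sum_nonneg (fun p _ => by positivity)
  apply mul_le_mul
  · -- main part
    have hfac : ∀ j ∈ range J, (1 + ∑ p ∈ bkt z J j, (#(R p) : ℝ)) ^ (lev Z b J j)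
        ≤ Real.exp (4 * Real.log z * (((b : ℝ) + j) / 2 ^ j)) := by
      intro j hj
      have hj' : j < J := Finset.mem_range.mp hj
      have hc2 : 2 ≤ cut z j := le_trans hZ (hJ' j hj')
      have hc2' : (2 : ℝ) ≤ cut z j := by exact_mod_cast hc2
      have hcard : #(bkt z J j) + 1 ≤ cut z j := by
        unfold bkt
        rw [if_pos hj']
        have h1 : primesIoc (cut z (j + 1)) (cut z j) ⊆ Finset.Ioc 1 (cut z j) := by
          intro p hp
          rw [mem_primesIoc] at hp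
          rw [Finset.mem_Ioc]
          exact ⟨hp.2.2.one_lt, hp.2.1⟩
        have h2 := Finset.card_le_card h1
        rw [Nat.card_Ioc] at h2
        omega
      have hcard' : (#(bkt z J j) : ℝ) + 1 ≤ cut z j := by exact_mod_cast hcard
      have h1 : 1 + ∑ p ∈ bkt z J j, (#(R p) : ℝ) ≤ (cut z j : ℝ) ^ 2 := by
        have := hsum j (by omega)
        nlinarith
      have hlev : lev Z b J j = 2 * (b + j) := by
        unfold lev
        rw [if_pos hj']
      rw [hlev]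
      have h0 : 0 ≤ 1 + ∑ p ∈ bkt z J j, (#(R p) : ℝ) := by linarith [hnn j]
      have hcpos : (0 : ℝ) < cut z j := by linarith
      calc (1 + ∑ p ∈ bkt z J j, (#(R p) : ℝ)) ^ (2 * (b + j))
          ≤ ((cut z j : ℝ) ^ 2) ^ (2 * (b + j)) := pow_le_pow_left₀ h0 h1 _
        _ = Real.exp (4 * ((b : ℝ) + j) * Real.log (cut z j)) := by
            rw [← pow_mul, ← Real.exp_log hcpos, ← Real.exp_nat_mul]
            congr 1
            rw [Real.exp_log hcpos]
            push_cast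
            ring
        _ ≤ Real.exp (4 * Real.log z * (((b : ℝ) + j) / 2 ^ j)) := by
            apply Real.exp_le_exp.mpr
            have h2 := log_cut_le z j (by omega)
            calc 4 * ((b : ℝ) + j) * Real.log (cut z j)
                ≤ 4 * ((b : ℝ) + j) * (Real.log z / 2 ^ j) :=
                  mul_le_mul_of_nonneg_left h2 (by positivity)
              _ = 4 * Real.log z * (((b : ℝ) + j) / 2 ^ j) := by ring
    calc ∏ j ∈ range J, (1 + ∑ p ∈ bkt z J j, (#(R p) : ℝ)) ^ (lev Z b J j)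
        ≤ ∏ j ∈ range J, Real.exp (4 * Real.log z * (((b : ℝ) + j) / 2 ^ j)) := by
          apply Finset.prod_le_prod
          · intro j _
            exact pow_nonneg (by linarith [hnn j]) _
          · exact hfac
      _ = Real.exp (4 * Real.log z * (2 * b + 2 - 2 * (b + J + 1) / 2 ^ J)) := by
          rw [← Real.exp_sum, ← Finset.mul_sum, sum_weights]
      _ ≤ Real.exp (((8 * b + 8 : ℕ) : ℝ) * Real.log z) := by
          apply Real.exp_le_exp.mpr
          have h1 : 0 ≤ 2 * ((b : ℝ) + J + 1) / 2 ^ J := by positivity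
          push_cast
          nlinarith
      _ = (z : ℝ) ^ (8 * b + 8) := by
          rw [Real.exp_nat_mul, Real.exp_log (by linarith)]
  · have hlev : lev Z b J J = 2 * Z := by
      unfold lev
      rw [if_neg (by omega)]
    rw [hlev]
    have h0 : 0 ≤ 1 + ∑ p ∈ bkt z J J, (#(R p) : ℝ) := by linarith [hnn J]
    apply pow_le_pow_left₀ h0
    have hcard : #(bkt z J J) ≤ Z := by
      unfold bkt
      rw [if_neg (by omega)]
      have h1 : primesIoc 0 (cut z J) ⊆ Finset.Ioc 0 (cut z J) := by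
        intro p hp
        rw [mem_primesIoc] at hp
        rw [Finset.mem_Ioc]
        exact ⟨hp.1, hp.2.1⟩
      have h2 := Finset.card_le_card h1
      rw [Nat.card_Ioc] at h2
      omega
    have hcard' : (#(bkt z J J) : ℝ) ≤ Z := by exact_mod_cast hcard
    have := hsum J (by omega)
    linarith
  · exact pow_nonneg (by linarith [hnn J]) _
  · positivity

/-- the total cost -/
theorem cost_bound (R : ℕ → Finset ℕ) (z Z b J : ℕ) (hZ : 2 ^ 80 ≤ Z) (hb : 10 ≤ b)
    (hJ : cut z J < Z) (hJ' : ∀ j < J, Z ≤ cut z j)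
    (hR2 : ∀ p, p.Prime → p ≤ z → #(R p) ≤ 2) :
    ∑ j ∈ range (J + 1), es (bkt z J j) (fun p => (#(R p) : ℝ) / p) (lev Z b J j + 1) /
      ∏ p ∈ bkt z J j, (1 - (#(R p) : ℝ) / p) ≤ (1 / 2) ^ b := by
  rw [Finset.sum_range_succ]
  have hlast : es (bkt z J J) (fun p => (#(R p) : ℝ) / p) (lev Z b J J + 1) = 0 := by
    have hlev : lev Z b J J = 2 * Z := by
      unfold lev
      rw [if_neg (by omega)]
    rw [hlev]
    unfold es
    have hcard : #(bkt z J J) < 2 * Z + 1 := by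
      unfold bkt
      rw [if_neg (by omega)]
      have h1 : primesIoc 0 (cut z J) ⊆ Finset.Ioc 0 (cut z J) := by
        intro p hp
        rw [mem_primesIoc] at hp
        rw [Finset.mem_Ioc]
        exact ⟨hp.1, hp.2.1⟩
      have h2 := Finset.card_le_card h1
      rw [Nat.card_Ioc] at h2
      omega
    rw [Finset.powersetCard_eq_empty.mpr hcard]
    simp
  rw [hlast, zero_div, add_zero]
  have hfac : ∀ j ∈ range J, es (bkt z J j) (fun p => (#(R p) : ℝ) / p) (lev Z b J j + 1) /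
      ∏ p ∈ bkt z J j, (1 - (#(R p) : ℝ) / p) ≤ 81 / 4 * (1 / 16) ^ b * (1 / 2) ^ j := by
    intro j hj
    have hj' : j < J := Finset.mem_range.mp hj
    have hlev : lev Z b J j = 2 * (b + j) := by
      unfold lev
      rw [if_pos hj']
    have hbkt : bkt z J j = primesIoc (Nat.sqrt (cut z j)) (cut z j) := by
      unfold bkt
      rw [if_pos hj']
      rfl
    rw [hlev, hbkt]
    refine (bucket_cost R (cut z j) (2 * (b + j)) (hZ.trans (hJ' j hj')) (by omega) ?_).trans ?_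
    · intro p hp
      rw [← hbkt] at hp
      have h1 := bkt_subset z J j (by omega) hp
      rw [mem_primesIoc] at h1
      exact hR2 p h1.2.2 h1.2.1
    · have e1 : (1 / 4 : ℝ) ^ (2 * (b + j) + 1) = 1 / 4 * ((1 / 16) ^ b * (1 / 16) ^ j) := by
        rw [pow_succ, pow_mul, pow_add]
        norm_num
        ring
      rw [e1]
      have h2 : (1 / 16 : ℝ) ^ j ≤ (1 / 2) ^ j := pow_le_pow_left₀ (by norm_num) (by norm_num) j
      have h3 : (0 : ℝ) ≤ (1 / 16) ^ b := by positivity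
      nlinarith [mul_le_mul_of_nonneg_left h2 h3]
  refine (Finset.sum_le_sum hfac).trans ?_
  rw [← Finset.mul_sum]
  have hgeo : ∑ j ∈ range J, (1 / 2 : ℝ) ^ j ≤ 2 := by
    rw [geom_sum_eq (by norm_num)]
    have : (0 : ℝ) ≤ (1 / 2) ^ J := by positivity
    rw [div_le_iff_of_neg (by norm_num)]
    linarith
  have h16 : (1 / 16 : ℝ) ^ b = (1 / 2) ^ b * (1 / 8) ^ b := by
    rw [← mul_pow]; norm_num
  have h8 : (1 / 8 : ℝ) ^ b ≤ (1 / 8) ^ 10 := pow_le_pow_of_le_one (by norm_num) (by norm_num) hb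
  have hb0 : (0 : ℝ) ≤ (1 / 2) ^ b := by positivity
  have h80 : (0 : ℝ) ≤ (1 / 8) ^ b := by positivity
  calc 81 / 4 * (1 / 16) ^ b * ∑ j ∈ range J, (1 / 2 : ℝ) ^ j
      ≤ 81 / 4 * (1 / 16) ^ b * 2 := mul_le_mul_of_nonneg_left hgeo (by positivity)
    _ = (1 / 2) ^ b * (81 / 2 * (1 / 8) ^ b) := by rw [h16]; ring
    _ ≤ (1 / 2) ^ b * 1 := by
        apply mul_le_mul_of_nonneg_left _ hb0
        calc 81 / 2 * (1 / 8 : ℝ) ^ b ≤ 81 / 2 * (1 / 8) ^ 10 := by linarith
          _ ≤ 1 := by norm_num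
    _ = (1 / 2) ^ b := mul_one _

/-- **Fundamental lemma.** -/
theorem fund_lemma : ∃ z0 : ℕ, 2 ≤ z0 ∧ ∀ z ≥ z0, ∀ b ≥ 10, ∀ X : ℕ, z ^ (9 * b + 20) ≤ X →
    ∀ R : ℕ → Finset ℕ, (∀ p, p.Prime → p ≤ z → R p ⊆ range p) →
    (∀ p, p.Prime → p ≤ z → #(R p) ≤ 2) → (∀ p, p.Prime → p ≤ z → #(R p) < p) →
    |(#{k ∈ range X | ∀ p ∈ primesIoc 0 z, k % p ∉ R p} : ℝ) - X * dens R z|
      ≤ 3 * (1 / 2) ^ b * (X * dens R z) := by
  obtain ⟨Z, hZ⟩ : ∃ Z : ℕ, 2 ^ 80 ≤ Z := ⟨2 ^ 80, le_rfl⟩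
  have hZ2 : 2 ≤ Z := le_trans (by norm_num) hZ
  obtain ⟨K, hK⟩ : ∃ K : ℕ, K = (1 + 2 * Z) ^ (2 * Z) := ⟨_, rfl⟩
  refine ⟨4 * K + 2, by omega, ?_⟩
  intro z hz b hb X hX R hR hR2 hRlt
  obtain ⟨J, hJ, hJ', hJz⟩ := exists_stop z Z hZ2
  have hz2 : 2 ≤ z := by omega
  have hzr : (2 : ℝ) ≤ z := by exact_mod_cast hz2
  have hKz : (4 : ℝ) * K ≤ z := by
    have : 4 * K ≤ z := by omega
    exact_mod_cast this
  -- the sieve set-up
  have hb' : ∀ j ∈ range (J + 1), Even (lev Z b J j) := by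
    intro j _
    unfold lev
    split_ifs <;> exact even_two_mul _
  have hmem : ∀ j ∈ range (J + 1), ∀ p ∈ bkt z J j, p.Prime ∧ p ≤ z := by
    intro j hj p hp
    have h1 := bkt_subset z J j (Finset.mem_range.mp hj) hp
    rw [mem_primesIoc] at h1
    exact ⟨h1.2.2, h1.2.1⟩
  have hP : ∀ j ∈ range (J + 1), ∀ p ∈ bkt z J j, p.Prime := fun j hj p hp => (hmem j hj p hp).1
  have hRs : ∀ j ∈ range (J + 1), ∀ p ∈ bkt z J j, R p ⊆ range p := fun j hj p hp =>
    hR p (hmem j hj p hp).1 (hmem j hj p hp).2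
  have hdisj : ∀ i ∈ range (J + 1), ∀ j ∈ range (J + 1), i ≠ j → Disjoint (bkt z J i) (bkt z J j) :=
    fun i hi j hj hij => bkt_disjoint z J i j (Finset.mem_range.mp hi) (Finset.mem_range.mp hj) hij
  have hlt : ∀ j ∈ range (J + 1), ∀ p ∈ bkt z J j, #(R p) < p := fun j hj p hp =>
    hRlt p (hmem j hj p hp).1 (hmem j hj p hp).2
  have hcost := cost_bound R z Z b J hZ hb hJ hJ' hR2
  have hrem := rem_bound R z Z b J hz2 hZ2 hJ hJ' hR2
  have hcard : sifted R X (range (J + 1)) (bkt z J)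
      = (#{k ∈ range X | ∀ p ∈ primesIoc 0 z, k % p ∉ R p} : ℝ) := by
    rw [sifted_eq_card]
    congr 2
    apply Finset.filter_congr
    intro k _
    constructor
    · intro h p hp
      rw [← bkt_union z J, Finset.mem_biUnion] at hp
      obtain ⟨j, hj, hp⟩ := hp
      exact h j hj p hp
    · intro h j hj p hp
      exact h p (bkt_subset z J j (Finset.mem_range.mp hj) hp)
  have hV := dens_lower R z hz2 hR2 hRlt
  have hVpos : 0 < dens R z := lt_of_lt_of_le (by
    have : (0 : ℝ) < z - 1 := by linarith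
    positivity) hV
  have hVz : 1 / (z : ℝ) ^ 2 ≤ dens R z := by
    refine le_trans ?_ hV
    apply one_div_le_one_div_of_le
    · have : (0 : ℝ) < z - 1 := by linarith
      positivity
    · nlinarith
  set V := dens R z with hVdef
  set E := ∑ j ∈ range (J + 1), es (bkt z J j) (fun p => (#(R p) : ℝ) / p) (lev Z b J j + 1) /
      ∏ p ∈ bkt z J j, (1 - (#(R p) : ℝ) / p) with hE
  have hhalf : (1 / 2 : ℝ) ^ b ≤ 1 := pow_le_one₀ (by norm_num) (by norm_num)
  have hhalf0 : (0 : ℝ) < (1 / 2) ^ b := by positivity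
  have hE1 : E ≤ 1 := hcost.trans hhalf
  have hXr : ((z : ℝ) ^ (9 * b + 20)) ≤ X := by exact_mod_cast hX
  have hXpos : (0 : ℝ) ≤ X := by positivity
  -- remainder estimate
  have hremX : (4 * (z : ℝ)) * ((z : ℝ) ^ (8 * b + 8) * K) ≤ (1 / 2) ^ b * (X * V) := by
    have h1 : (1 / 2 : ℝ) ^ b * (z : ℝ) ^ b = ((z : ℝ) / 2) ^ b := by
      rw [← mul_pow]; congr 1; ring
    have h2 : (1 : ℝ) ≤ ((z : ℝ) / 2) ^ b := one_le_pow₀ (by linarith)
    have h3 : (z : ℝ) ^ (9 * b + 20) = (z : ℝ) ^ b * ((z : ℝ) ^ (8 * b + 8) * (z : ℝ) ^ 12) := by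
      rw [← pow_add, ← pow_add]; congr 1; ring
    have hz0 : (0 : ℝ) < z := by linarith
    have h4 : (z : ℝ) ^ 12 * (1 / (z : ℝ) ^ 2) = (z : ℝ) ^ 10 := by
      field_simp
    have h5 : (z : ℝ) ^ 2 ≤ (z : ℝ) ^ 10 := pow_le_pow_right₀ (by linarith) (by norm_num)
    have hP8 : (0 : ℝ) ≤ (z : ℝ) ^ (8 * b + 8) := by positivity
    calc (4 * (z : ℝ)) * ((z : ℝ) ^ (8 * b + 8) * K)
        = (z : ℝ) ^ (8 * b + 8) * ((z : ℝ) * (4 * K)) := by ring
      _ ≤ (z : ℝ) ^ (8 * b + 8) * ((z : ℝ) * z) := by gcongr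
      _ = (z : ℝ) ^ (8 * b + 8) * (z : ℝ) ^ 2 := by ring
      _ ≤ (z : ℝ) ^ (8 * b + 8) * (z : ℝ) ^ 10 := by gcongr
      _ = 1 * ((z : ℝ) ^ (8 * b + 8) * (z : ℝ) ^ 10) := by ring
      _ ≤ ((z : ℝ) / 2) ^ b * ((z : ℝ) ^ (8 * b + 8) * (z : ℝ) ^ 10) := by gcongr
      _ = (1 / 2) ^ b * ((z : ℝ) ^ (9 * b + 20) * (1 / (z : ℝ) ^ 2)) := by
          rw [h3, ← h1, ← h4]; ring
      _ ≤ (1 / 2) ^ b * (X * V) := by gcongr
  have hKr : (K : ℝ) = (1 + 2 * Z : ℝ) ^ (2 * Z) := by rw [hK]; push_cast; rfl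
  have hrem' : ∏ j ∈ range (J + 1), (1 + ∑ p ∈ bkt z J j, (#(R p) : ℝ)) ^ (lev Z b J j)
      ≤ (z : ℝ) ^ (8 * b + 8) * K := by rw [hKr]; exact hrem
  have hprod0 : 0 ≤ ∏ j ∈ range (J + 1), (1 + ∑ p ∈ bkt z J j, (#(R p) : ℝ)) ^ (lev Z b J j) := by
    apply Finset.prod_nonneg
    intro j _
    have : 0 ≤ ∑ p ∈ bkt z J j, (#(R p) : ℝ) := Finset.sum_nonneg (fun p _ => by positivity)
    exact pow_nonneg (by linarith) _
  have hVj : ∀ j ∈ range (J + 1), 0 < ∏ p ∈ bkt z J j, (1 - (#(R p) : ℝ) / p) := by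
    intro j hj
    apply Finset.prod_pos
    intro p hp
    have h1 : (0 : ℝ) < p := by exact_mod_cast (hP j hj p hp).pos
    have h2 : (#(R p) : ℝ) < p := by exact_mod_cast hlt j hj p hp
    have : (#(R p) : ℝ) / p < 1 := by rw [div_lt_one h1]; exact h2
    linarith
  have hes : ∀ j ∈ range (J + 1), 0 ≤ es (bkt z J j) (fun p => (#(R p) : ℝ) / p) (lev Z b J j + 1) :=
    fun j _ => es_nonneg _ _ (fun p _ => by positivity) _
  have hE0 : 0 ≤ E := Finset.sum_nonneg (fun j hj => div_nonneg (hes j hj) (hVj j hj).le)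
  -- lower bound
  have hlower := sifted_lower' R (range (J + 1)) (bkt z J) (lev Z b J) hb' hP hRs hdisj X hlt hE1
  rw [dens_eq, hcard] at hlower
  -- upper bound
  have hupper := sifted_upper' R (range (J + 1)) (bkt z J) (lev Z b J) hb' hP hRs hdisj X
    (fun j hj p hp => (hlt j hj p hp).le)
  rw [hcard] at hupper
  have hprodU : ∏ j ∈ range (J + 1), (∏ p ∈ bkt z J j, (1 - (#(R p) : ℝ) / p) +
      es (bkt z J j) (fun p => (#(R p) : ℝ) / p) (lev Z b J j + 1)) ≤ V * (1 + 2 * E) := by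
    have e1 : ∏ j ∈ range (J + 1), (∏ p ∈ bkt z J j, (1 - (#(R p) : ℝ) / p) +
        es (bkt z J j) (fun p => (#(R p) : ℝ) / p) (lev Z b J j + 1))
        = V * ∏ j ∈ range (J + 1), (1 + es (bkt z J j) (fun p => (#(R p) : ℝ) / p) (lev Z b J j + 1) /
          ∏ p ∈ bkt z J j, (1 - (#(R p) : ℝ) / p)) := by
      rw [hVdef, ← dens_eq z J R, ← Finset.prod_mul_distrib]
      apply Finset.prod_congr rfl
      intro j hj
      have := (hVj j hj).ne'
      field_simp
    rw [e1]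
    apply mul_le_mul_of_nonneg_left _ hVpos.le
    refine (prod_one_add_le_exp _ _ (fun j hj => div_nonneg (hes j hj) (hVj j hj).le)).trans ?_
    rw [← hE]
    have h1 := Real.abs_exp_sub_one_le (x := E) (by rw [abs_of_nonneg hE0]; exact hE1)
    rw [abs_of_nonneg hE0] at h1
    have h2 := le_abs_self (Real.exp E - 1)
    linarith
  have hup2 : (X : ℝ) * ∏ j ∈ range (J + 1), (∏ p ∈ bkt z J j, (1 - (#(R p) : ℝ) / p) +
      es (bkt z J j) (fun p => (#(R p) : ℝ) / p) (lev Z b J j + 1)) ≤ X * (V * (1 + 2 * E)) :=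
    mul_le_mul_of_nonneg_left hprodU hXpos
  have hz4 : (1 : ℝ) ≤ 4 * z := by linarith
  have hremU : ∏ j ∈ range (J + 1), (1 + ∑ p ∈ bkt z J j, (#(R p) : ℝ)) ^ (lev Z b J j)
      ≤ (1 / 2) ^ b * (X * V) := by
    calc ∏ j ∈ range (J + 1), (1 + ∑ p ∈ bkt z J j, (#(R p) : ℝ)) ^ (lev Z b J j)
        ≤ 1 * ((z : ℝ) ^ (8 * b + 8) * K) := by rw [one_mul]; exact hrem'
      _ ≤ (4 * z) * ((z : ℝ) ^ (8 * b + 8) * K) := by gcongr
      _ ≤ _ := hremX
  have hcountS : (1 : ℝ) + ∑ j ∈ range (J + 1), (1 + ∑ p ∈ bkt z J j, (#(R p) : ℝ)) ≤ 4 * z := by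
    rw [Finset.sum_add_distrib, Finset.sum_const, Finset.card_range, nsmul_eq_mul, mul_one]
    have h1 : ∑ j ∈ range (J + 1), ∑ p ∈ bkt z J j, (#(R p) : ℝ) ≤ 2 * (z - 1) := by
      rw [← Finset.sum_biUnion, bkt_union]
      · calc ∑ p ∈ primesIoc 0 z, (#(R p) : ℝ) ≤ ∑ p ∈ primesIoc 0 z, (2 : ℝ) := by
              apply Finset.sum_le_sum
              intro p hp
              rw [mem_primesIoc] at hp
              exact_mod_cast hR2 p hp.2.2 hp.2.1
          _ = 2 * (#(primesIoc 0 z) : ℝ) := by rw [Finset.sum_const, nsmul_eq_mul]; ring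
          _ ≤ 2 * (z - 1) := by
              have h2 : primesIoc 0 z ⊆ Finset.Ioc 1 z := by
                intro p hp
                rw [mem_primesIoc] at hp
                rw [Finset.mem_Ioc]
                exact ⟨hp.2.2.one_lt, hp.2.1⟩
              have h3 := Finset.card_le_card h2
              rw [Nat.card_Ioc] at h3
              have h4 : #(primesIoc 0 z) + 1 ≤ z := by omega
              have h5 : (#(primesIoc 0 z) : ℝ) + 1 ≤ z := by exact_mod_cast h4
              linarith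
      · intro i hi j hj hij
        exact bkt_disjoint z J i j (by simpa using hi) (by simpa using hj) hij
    have h2 : (J : ℝ) ≤ z := by exact_mod_cast hJz
    push_cast
    linarith
  have hremL : (1 + ∑ j ∈ range (J + 1), (1 + ∑ p ∈ bkt z J j, (#(R p) : ℝ))) *
      ∏ j ∈ range (J + 1), (1 + ∑ p ∈ bkt z J j, (#(R p) : ℝ)) ^ (lev Z b J j)
      ≤ (1 / 2) ^ b * (X * V) := by
    refine le_trans ?_ hremX
    apply mul_le_mul hcountS hrem' hprod0 (by positivity)
  have hXV : 0 ≤ X * V := by positivity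
  rw [abs_le]
  constructor
  · have h1 : X * V * (1 - E) ≥ X * V * (1 - (1 / 2) ^ b) := by
      apply mul_le_mul_of_nonneg_left _ hXV
      linarith
    nlinarith
  · have h1 : X * (V * (1 + 2 * E)) ≤ X * V * (1 + 2 * (1 / 2) ^ b) := by
      have : X * V * (1 + 2 * E) ≤ X * V * (1 + 2 * (1 / 2) ^ b) := by
        apply mul_le_mul_of_nonneg_left _ hXV
        linarith
      linarith
    nlinarith

end Pool.Agent.H22
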