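import Pool.Agent.H22.Transf

/-!
The contribution of the characters whose square is nontrivial.
-/

set_option autoImplicit false

open Finset Real MeasureTheory

namespace Pool.Agent.H22

open Pool.Agent.H16

theorem SS_sub {f g : ℕ → ℂ} (hf : LSeries.abscissaOfAbsConv f ≤ 1) (hg : LSeries.abscissaOfAbsConv g ≤ 1)
    (κ y : ℝ) (hκ : 0 < κ) : SS (f - g) κ y = SS f κ y - SS g κ y := by
  unfold SS
  rw [← (SS_summable hf κ y hκ).tsum_sub (SS_summable hg κ y hκ)]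
  congr 1
  ext n
  rw [LSeries.term_sub]
  simp only [Pi.sub_apply]
  ring

theorem poly_gauss (t : ℝ) : (1 + |t|) ^ 8 * Real.exp (-((1 / 2) * t ^ 2)) ≤
    40320 * Real.exp 2 * Real.exp (-((1 / 4) * t ^ 2)) := by
  have h0 := abs_nonneg t
  have h := Real.pow_div_factorial_le_exp (1 + |t|) (by linarith) 8
  have hfac : ((Nat.factorial 8 : ℕ) : ℝ) = 40320 := by norm_num [Nat.factorial]
  rw [hfac, div_le_iff₀ (by norm_num)] at h
  have h2 : Real.exp (1 + |t|) * Real.exp (-((1 / 2) * t ^ 2)) ≤ Real.exp 2 * Real.exp (-((1 / 4) * t ^ 2)) := by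
    rw [← Real.exp_add, ← Real.exp_add]
    apply Real.exp_le_exp.mpr
    have : t ^ 2 = |t| ^ 2 := (sq_abs t).symm
    rw [this]
    nlinarith [sq_nonneg (|t| / 2 - 1)]
  calc (1 + |t|) ^ 8 * Real.exp (-((1 / 2) * t ^ 2)) ≤ (Real.exp (1 + |t|) * 40320) * Real.exp (-((1 / 2) * t ^ 2)) := by
        gcongr
    _ = 40320 * (Real.exp (1 + |t|) * Real.exp (-((1 / 2) * t ^ 2))) := by ring
    _ ≤ 40320 * (Real.exp 2 * Real.exp (-((1 / 4) * t ^ 2))) := by gcongr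
    _ = _ := by ring

theorem High_bound : ∃ (C : ℝ) (z0 : ℕ), 0 < C ∧ 9 ≤ z0 ∧ ∀ z : ℕ, z0 ≤ z → ∀ q : ℕ, ∀ _ : NeZero q,
    (q : ℝ) ≤ (z : ℝ) ^ (1 / 2 : ℝ) → ∀ κ : ℝ, 0 < κ → κ * Real.log z ≤ 1 → ∀ y : ℝ,
    ∀ S : Finset (DirichletCharacter ℂ q), (∀ χ ∈ S, χ ^ 2 ≠ 1) →
    ∀ w : DirichletCharacter ℂ q → ℂ, (∀ χ, ‖w χ‖ ≤ 1) →
    ‖∑ χ ∈ S, w χ * (SS (LSeries.logMul (chL z χ)) κ y - SS (LSeries.logMul^[2] (bfun z χ)) κ y)‖ ≤
      C * Real.log z := by
  obtain ⟨c, z1, hc, hz1, hL⟩ := L_bound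
  obtain ⟨K, z2, hK, hz2, hM⟩ := MV_bound
  have hc0 := c0_pos
  set c2 := 1 / c + 1 / c ^ 2 with hc2
  have hc2pos : 0 < c2 := by positivity
  set G := 40320 * Real.exp 2 with hG
  have hGpos : 0 < G := by positivity
  set m0 := K * (4 ^ 0 * ((2 * 0).factorial * (1 / c0) ^ (2 * 0 + 1))) with hm0
  set m1 := K * (4 ^ 1 * ((2 * 1).factorial * (1 / c0) ^ (2 * 1 + 1))) with hm1
  set m2 := K * (4 ^ 2 * ((2 * 2).factorial * (1 / c0) ^ (2 * 2 + 1))) with hm2
  have hm0' : 0 ≤ m0 := by positivity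
  have hm1' : 0 ≤ m1 := by positivity
  have hm2' : 0 ≤ m2 := by positivity
  refine ⟨G * c2 * (m0 + m1 + m2) + 1, z1 + z2, by positivity, by omega, ?_⟩
  intro z hz q hq hqz κ hκ hκl y S hS w hw
  have hz9 : 9 ≤ z := by omega
  have hzr : (9 : ℝ) ≤ z := by exact_mod_cast hz9
  have hlz : 1 < Real.log z := by
    rw [Real.lt_log_iff_exp_lt (by linarith)]
    have := Real.exp_one_lt_d9
    linarith
  have hκ1 : κ ≤ 1 := by nlinarith
  set l := Real.log z with hl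
  have hs : ∀ t : ℝ, 1 < (((1 + κ : ℝ) : ℂ) + t * Complex.I).re := by
    intro t; simp [hκ]
  -- the majorant
  set R : DirichletCharacter ℂ q → ℝ → ℝ := fun χ t =>
    G * c2 * (1 / l ^ 2) * (Real.exp (-((1 / 4) * t ^ 2)) *
      ‖LSeries (LSeries.logMul^[2] (bfun z χ)) ((1 + κ : ℝ) + t * Complex.I)‖ ^ 2) +
    G * c2 * l ^ 2 * (Real.exp (-((1 / 4) * t ^ 2)) *
      ‖LSeries (LSeries.logMul^[0] (bfun z χ)) ((1 + κ : ℝ) + t * Complex.I)‖ ^ 2) +
    G * c2 * (Real.exp (-((1 / 4) * t ^ 2)) *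
      ‖LSeries (LSeries.logMul^[1] (bfun z χ)) ((1 + κ : ℝ) + t * Complex.I)‖ ^ 2) with hR
  have hM0 := hM z (by omega) q hq hqz 0 κ hκ hκ1
  have hM1 := hM z (by omega) q hq hqz 1 κ hκ hκ1
  have hM2 := hM z (by omega) q hq hqz 2 κ hκ hκ1
  have hRint : ∀ χ, Integrable (R χ) := by
    intro χ
    exact (((hM2.1 χ).const_mul _).add ((hM0.1 χ).const_mul _)).add ((hM1.1 χ).const_mul _)
  have hone : ∀ χ ∈ S, ‖SS (LSeries.logMul (chL z χ)) κ y - SS (LSeries.logMul^[2] (bfun z χ)) κ y‖ ≤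
      ∫ t, R χ t := by
    intro χ hχ
    have habs1 : LSeries.abscissaOfAbsConv (LSeries.logMul (chL z χ)) ≤ 1 := by
      rw [LSeries.abscissaOfAbsConv_logMul]; exact chL_abs z χ
    have habs2 : LSeries.abscissaOfAbsConv (LSeries.logMul^[2] (bfun z χ)) ≤ 1 := abs_iter (bfun_abs z χ) 2
    have habs : LSeries.abscissaOfAbsConv (LSeries.logMul (chL z χ) - LSeries.logMul^[2] (bfun z χ)) ≤ 1 := by
      apply LSeries.abscissaOfAbsConv_le_of_forall_lt_LSeriesSummable'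
      intro y hy
      have hy1 : 1 < (y : ℂ).re := by
        rw [Complex.ofReal_re]; exact_mod_cast hy
      exact (summable_of_abs habs1 hy1).sub (summable_of_abs habs2 hy1)
    rw [← SS_sub habs1 habs2 κ y hκ]
    have h1 := gauss_transform habs κ y hκ
    have h2 : ‖(Real.sqrt (2 * π) : ℂ) * SS (LSeries.logMul (chL z χ) - LSeries.logMul^[2] (bfun z χ)) κ y‖ ≤
        ∫ t, R χ t := by
      rw [← h1]
      apply norm_integral_le_of_norm_le (hRint χ)
      refine Filter.Eventually.of_forall fun t => ?_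
      have hphase : ‖Complex.exp (Complex.I * t * Real.log y)‖ = 1 := by
        rw [Complex.norm_exp]; simp
      rw [norm_mul, norm_mul, hphase, one_mul, Complex.norm_real, Real.norm_of_nonneg (Real.exp_pos _).le]
      rw [LSeries_sub (summable_of_abs habs1 (hs t)) (summable_of_abs habs2 (hs t)),
        X1_eq (by omega) χ _ (hs t)]
      have hlow := hL z (by omega) q hq hqz χ (hS χ hχ) κ hκ hκl t
      have hAB := LSeries_lft (by omega : 2 ≤ z) χ _ (hs t)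
      have hAne : LSeries (fun n : ℕ => lft z χ (n : ZMod (q * primorial z))) ((1 + κ : ℝ) + t * Complex.I) ≠ 0 :=
        DirichletCharacter.LSeries_ne_zero_of_one_lt_re (lft z χ) (hs t)
      set A := LSeries (fun n : ℕ => lft z χ (n : ZMod (q * primorial z))) ((1 + κ : ℝ) + t * Complex.I) with hA
      set A2 := LSeries (LSeries.logMul^[2] (bfun z χ)) ((1 + κ : ℝ) + t * Complex.I) with hA2
      set A1 := LSeries (LSeries.logMul^[1] (bfun z χ)) ((1 + κ : ℝ) + t * Complex.I) with hA1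
      set B := LSeries (bfun z χ) ((1 + κ : ℝ) + t * Complex.I) with hB
      have hB0 : LSeries (LSeries.logMul^[0] (bfun z χ)) ((1 + κ : ℝ) + t * Complex.I) = B := rfl
      have hApos : 0 < ‖A‖ := norm_pos_iff.mpr hAne
      set T := 1 + |t| with hT
      have hT1 : 1 ≤ T := by have := abs_nonneg t; linarith
      have hinv : 1 / ‖A‖ ≤ T ^ 4 / c := by
        rw [div_le_div_iff₀ hApos hc, one_mul]
        rw [div_le_iff₀ (by positivity)] at hlow
        linarith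
      have hid : A2 / A - (A1 / A) ^ 2 - A2 = -(A2 * B / A) - (A1 / A) ^ 2 := by
        rw [hAB]
        rw [hAB] at hAne
        field_simp
        ring
      rw [hid]
      have hn1 : ‖-(A2 * B / A) - (A1 / A) ^ 2‖ ≤ ‖A2‖ * ‖B‖ * (1 / ‖A‖) + ‖A1‖ ^ 2 * (1 / ‖A‖) ^ 2 := by
        refine (norm_sub_le _ _).trans ?_
        rw [norm_neg, norm_div, norm_mul, norm_pow, norm_div]
        apply le_of_eq
        field_simp
      have hT4 : T ^ 4 ≤ T ^ 8 := pow_le_pow_right₀ hT1 (by norm_num)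
      have h3 : 1 / ‖A‖ ≤ c2 * T ^ 8 := by
        calc 1 / ‖A‖ ≤ T ^ 4 / c := hinv
          _ = (1 / c) * T ^ 4 := by ring
          _ ≤ c2 * T ^ 8 := by
              apply mul_le_mul _ hT4 (by positivity) hc2pos.le
              rw [hc2]
              have : 0 ≤ 1 / c ^ 2 := by positivity
              linarith
      have h4 : (1 / ‖A‖) ^ 2 ≤ c2 * T ^ 8 := by
        calc (1 / ‖A‖) ^ 2 ≤ (T ^ 4 / c) ^ 2 := by gcongr
          _ = (1 / c ^ 2) * T ^ 8 := by field_simp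
          _ ≤ c2 * T ^ 8 := by
              apply mul_le_mul_of_nonneg_right _ (by positivity)
              rw [hc2]
              have : 0 ≤ 1 / c := by positivity
              linarith
      have h5 : ‖A2‖ * ‖B‖ ≤ (1 / l ^ 2) * ‖A2‖ ^ 2 + l ^ 2 * ‖B‖ ^ 2 := by
        have h6 : ‖A2‖ * ‖B‖ = (1 / l * ‖A2‖) * (l * ‖B‖) := by field_simp
        have h7 : (1 / l ^ 2) * ‖A2‖ ^ 2 = (1 / l * ‖A2‖) ^ 2 := by ring
        have h8 : l ^ 2 * ‖B‖ ^ 2 = (l * ‖B‖) ^ 2 := by ring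
        rw [h6, h7, h8]
        nlinarith [sq_nonneg (1 / l * ‖A2‖ - l * ‖B‖), sq_nonneg (1 / l * ‖A2‖ + l * ‖B‖)]
      have hpg := poly_gauss t
      rw [← hT, ← hG] at hpg
      have hsum0 : 0 ≤ (1 / l ^ 2) * ‖A2‖ ^ 2 + l ^ 2 * ‖B‖ ^ 2 + ‖A1‖ ^ 2 := by positivity
      calc Real.exp (-((1 / 2) * t ^ 2)) * ‖-(A2 * B / A) - (A1 / A) ^ 2‖
          ≤ Real.exp (-((1 / 2) * t ^ 2)) * (‖A2‖ * ‖B‖ * (c2 * T ^ 8) + ‖A1‖ ^ 2 * (c2 * T ^ 8)) := by
            gcongr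
            refine hn1.trans ?_
            gcongr
        _ = (T ^ 8 * Real.exp (-((1 / 2) * t ^ 2))) * (c2 * (‖A2‖ * ‖B‖ + ‖A1‖ ^ 2)) := by ring
        _ ≤ (G * Real.exp (-((1 / 4) * t ^ 2))) * (c2 * ((1 / l ^ 2) * ‖A2‖ ^ 2 + l ^ 2 * ‖B‖ ^ 2 + ‖A1‖ ^ 2)) := by
            gcongr
        _ = R χ t := by
            rw [hR]
            simp only
            rw [hB0]
            ring
    rw [norm_mul] at h2
    have h3 : 1 ≤ ‖(Real.sqrt (2 * π) : ℂ)‖ := by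
      rw [Complex.norm_real, Real.norm_of_nonneg (Real.sqrt_nonneg _)]
      rw [Real.one_le_sqrt]
      have := Real.pi_gt_three
      linarith
    have h4 := norm_nonneg (SS (LSeries.logMul (chL z χ) - LSeries.logMul^[2] (bfun z χ)) κ y)
    nlinarith
  have hS1 : S ⊆ (Finset.univ : Finset (DirichletCharacter ℂ q)).filter (fun χ => χ ≠ 1) := by
    intro χ hχ
    rw [Finset.mem_filter]
    refine ⟨Finset.mem_univ _, ?_⟩
    rintro rfl
    exact hS 1 hχ (one_pow 2)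
  have hRsum : ∑ χ ∈ S, ∫ t, R χ t ≤ G * c2 * (m0 + m1 + m2) * l := by
    have h1 : ∀ χ, ∫ t, R χ t =
        G * c2 * (1 / l ^ 2) * (∫ t : ℝ, Real.exp (-((1 / 4) * t ^ 2)) *
          ‖LSeries (LSeries.logMul^[2] (bfun z χ)) ((1 + κ : ℝ) + t * Complex.I)‖ ^ 2) +
        G * c2 * l ^ 2 * (∫ t : ℝ, Real.exp (-((1 / 4) * t ^ 2)) *
          ‖LSeries (LSeries.logMul^[0] (bfun z χ)) ((1 + κ : ℝ) + t * Complex.I)‖ ^ 2) +
        G * c2 * (∫ t : ℝ, Real.exp (-((1 / 4) * t ^ 2)) *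
          ‖LSeries (LSeries.logMul^[1] (bfun z χ)) ((1 + κ : ℝ) + t * Complex.I)‖ ^ 2) := by
      intro χ
      have i2 := (hM2.1 χ).const_mul (G * c2 * (1 / l ^ 2))
      have i0 := (hM0.1 χ).const_mul (G * c2 * l ^ 2)
      have i1 := (hM1.1 χ).const_mul (G * c2)
      have e1 := integral_add (i2.add i0) i1
      simp only [Pi.add_apply] at e1
      rw [integral_add i2 i0, integral_const_mul, integral_const_mul, integral_const_mul] at e1
      exact e1
    have hsub : ∀ j : ℕ, ∑ χ ∈ S, ∫ t : ℝ, Real.exp (-((1 / 4) * t ^ 2)) *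
          ‖LSeries (LSeries.logMul^[j] (bfun z χ)) ((1 + κ : ℝ) + t * Complex.I)‖ ^ 2 ≤
        ∑ χ ∈ (Finset.univ : Finset (DirichletCharacter ℂ q)).filter (fun χ => χ ≠ 1),
          ∫ t : ℝ, Real.exp (-((1 / 4) * t ^ 2)) *
          ‖LSeries (LSeries.logMul^[j] (bfun z χ)) ((1 + κ : ℝ) + t * Complex.I)‖ ^ 2 := by
      intro j
      apply Finset.sum_le_sum_of_subset_of_nonneg hS1
      intro χ _ _
      exact integral_nonneg fun t => by positivity
    simp_rw [h1]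
    rw [Finset.sum_add_distrib, Finset.sum_add_distrib, ← Finset.mul_sum, ← Finset.mul_sum, ← Finset.mul_sum]
    have e2 := (hsub 2).trans hM2.2
    have e0 := (hsub 0).trans hM0.2
    have e1 := (hsub 1).trans hM1.2
    rw [← hm2] at e2
    rw [← hm0] at e0
    rw [← hm1] at e1
    calc _ ≤ G * c2 * (1 / l ^ 2) * (m2 * (l ^ (2 * 2 + 1) / l ^ 2)) +
          G * c2 * l ^ 2 * (m0 * (l ^ (2 * 0 + 1) / l ^ 2)) +
          G * c2 * (m1 * (l ^ (2 * 1 + 1) / l ^ 2)) := by gcongr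
      _ = G * c2 * (m0 + m1 + m2) * l := by field_simp; ring
  calc ‖∑ χ ∈ S, w χ * (SS (LSeries.logMul (chL z χ)) κ y - SS (LSeries.logMul^[2] (bfun z χ)) κ y)‖
      ≤ ∑ χ ∈ S, ‖w χ * (SS (LSeries.logMul (chL z χ)) κ y - SS (LSeries.logMul^[2] (bfun z χ)) κ y)‖ :=
        norm_sum_le _ _
    _ ≤ ∑ χ ∈ S, ∫ t, R χ t := by
        apply Finset.sum_le_sum
        intro χ hχ
        rw [norm_mul]
        calc _ ≤ 1 * ‖SS (LSeries.logMul (chL z χ)) κ y - SS (LSeries.logMul^[2] (bfun z χ)) κ y‖ := by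
              gcongr
              exact hw χ
          _ ≤ _ := by rw [one_mul]; exact hone χ hχ
    _ ≤ G * c2 * (m0 + m1 + m2) * l := hRsum
    _ ≤ (G * c2 * (m0 + m1 + m2) + 1) * l := by
        have : 0 ≤ l := by linarith
        nlinarith

end Pool.Agent.H22
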