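import Pool.Agent.H22.RealF

/-!
A Linnik type theorem for the moduli `2^k W`, with `W` fixed.
-/

set_option autoImplicit false

open Finset Real MeasureTheory

namespace Pool.Agent.H22

open Pool.Agent.H16

/-- rough numbers in a class, beyond `z` -/
noncomputable def In (q z : ℕ) (a : ZMod q) (n : ℕ) : ℝ :=
  if (n : ZMod q) = a ∧ z < n ∧ Rg z n then 1 else 0

theorem In_nonneg (q z : ℕ) (a : ZMod q) (n : ℕ) : 0 ≤ In q z a n := by
  unfold In; split_ifs <;> norm_num

theorem In_zero (q z : ℕ) (a : ZMod q) : In q z a 0 = 0 := by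
  unfold In; rw [if_neg]; rintro ⟨-, h, -⟩; omega

theorem In_abs (q z : ℕ) (a : ZMod q) : LSeries.abscissaOfAbsConv (fun n => ((In q z a n : ℝ) : ℂ)) ≤ 1 := by
  apply LSeries.abscissaOfAbsConv_le_of_le_const
  refine ⟨1, fun n _ => ?_⟩
  unfold In
  split_ifs <;> simp

theorem In_sum : ∃ (K : ℝ) (z0 : ℕ), 0 < K ∧ 2 ≤ z0 ∧ ∀ z : ℕ, z0 ≤ z → ∀ q : ℕ, 1 ≤ q →
    (q : ℝ) ≤ (z : ℝ) ^ (1 / 2 : ℝ) → ∀ a : ZMod q, IsUnit a → ∀ m : ℕ, 1 ≤ m →
    ∑ n ∈ Finset.Icc 1 m, In q z a n ≤ (K * mp z / Nat.totient q) * m := by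
  obtain ⟨K, z0, hK, hz0, h⟩ := Nct_equid
  refine ⟨1 + K, z0, by linarith, hz0, ?_⟩
  intro z hz q hq hqz a ha m hm
  have : NeZero q := ⟨by omega⟩
  have hφ : (0 : ℝ) < Nat.totient q := by exact_mod_cast Nat.totient_pos.mpr hq
  have hmp := mp_nonneg z
  by_cases hmz : m ≤ z
  · rw [Finset.sum_eq_zero]
    · positivity
    · intro k hk
      rw [Finset.mem_Icc] at hk
      unfold In
      rw [if_neg]
      rintro ⟨-, h1, -⟩
      omega
  push Not at hmz
  obtain ⟨b, hb, hbq⟩ : ∃ b : ℕ, (b : ZMod q) = a ∧ Nat.Coprime b q := by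
    refine ⟨a.val, ZMod.natCast_zmod_val a, ?_⟩
    rw [← ZMod.isUnit_iff_coprime, ZMod.natCast_zmod_val]
    exact ha
  have h1 : ∑ n ∈ Finset.Icc 1 m, In q z a n ≤ Nct q b z m := by
    unfold In
    rw [Finset.sum_boole]
    unfold Nct
    have h2 : Finset.filter (fun n : ℕ => (n : ZMod q) = a ∧ z < n ∧ Rg z n) (Finset.Icc 1 m) ⊆
        Finset.filter (fun n : ℕ => n % q = b % q ∧ Rg z n) (range (m + 1)) := by
      intro n hn
      rw [Finset.mem_filter, Finset.mem_Icc] at hn
      rw [Finset.mem_filter, Finset.mem_range]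
      refine ⟨by omega, ?_, hn.2.2.2⟩
      rw [← ZMod.natCast_eq_natCast_iff', hb]
      exact hn.2.1
    exact_mod_cast Finset.card_le_card h2
  refine h1.trans ?_
  have h2 := h z hz q hq hqz b hbq m hmz.le
  have h3 := (abs_le.mp h2).2
  have hz2 : 2 ≤ z := by omega
  have hmr : (0 : ℝ) < m := by exact_mod_cast hm
  have hexp : Real.exp (-(c0 * (Real.log m / Real.log z))) ≤ 1 := by
    rw [Real.exp_le_one_iff]
    have := c0_pos
    have h5 : 0 ≤ Real.log m := Real.log_natCast_nonneg m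
    have h6 : 0 ≤ Real.log z := Real.log_natCast_nonneg z
    have : 0 ≤ c0 * (Real.log m / Real.log z) := by positivity
    linarith
  have h4 : K * (mp z * (m * Real.exp (-(c0 * (Real.log m / Real.log z))))) ≤ K * (mp z * (m * 1)) := by
    gcongr
  have h5 : (Nat.totient q : ℝ) * Nct q b z m ≤ (1 + K) * mp z * m := by nlinarith
  have h6 : (Nct q b z m : ℝ) = ((Nat.totient q : ℝ) * Nct q b z m) / Nat.totient q := by
    field_simp
  rw [h6]
  calc _ ≤ ((1 + K) * mp z * m) / Nat.totient q := by gcongr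
    _ = _ := by ring

theorem In_SR : ∃ (K : ℝ) (z0 : ℕ), 0 < K ∧ 2 ≤ z0 ∧ ∀ z : ℕ, z0 ≤ z → ∀ q : ℕ, 1 ≤ q →
    (q : ℝ) ≤ (z : ℝ) ^ (1 / 2 : ℝ) → ∀ a : ZMod q, IsUnit a → ∀ κ y : ℝ, 0 < κ → κ ≤ 1 → 1 ≤ y →
    SR (In q z a) κ y ≤ 64 * (K * mp z / Nat.totient q) := by
  obtain ⟨K, z0, hK, hz0, h⟩ := In_sum
  refine ⟨K, z0, hK, hz0, ?_⟩
  intro z hz q hq hqz a ha κ y hκ hκ1 hy
  have hmp := mp_nonneg z
  have h1 := SS_D_bound (g := fun n => ((In q z a n : ℝ) : ℂ)) (D := K * mp z / Nat.totient q) (by positivity)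
    (fun m hm => by
      rw [← Complex.ofReal_sum, Complex.norm_real, Real.norm_of_nonneg (Finset.sum_nonneg (fun _ _ => In_nonneg _ _ _ _))]
      exact h z hz q hq hqz a ha m hm) (In_abs q z a) κ y hκ hκ1 hy
  rw [SS_eq_SR (In_zero q z a), Complex.norm_real] at h1
  exact (le_abs_self _).trans h1

theorem SR_In_nonneg (q z : ℕ) (a : ZMod q) (κ y : ℝ) : 0 ≤ SR (In q z a) κ y :=
  tsum_nonneg (fun n => mul_nonneg (In_nonneg _ _ _ _) (vw_pos _ _ _).le)

theorem In_summable (q z : ℕ) (a : ZMod q) (κ y : ℝ) (hκ : 0 < κ) :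
    Summable (fun n : ℕ => In q z a n * vw κ y n) :=
  SR_summable (In_zero q z a) (In_abs q z a) κ y hκ

/-- pointwise bound far from `y` -/
theorem far_bound (q z : ℕ) (hz : 2 ≤ z) (a : ZMod q) (κ y : ℝ) (hκ : 0 < κ) (hy : 0 < y) (H : ℝ) (hH : 1 < H)
    (n : ℕ) (hn : 1 ≤ n) (hfar : (n : ℝ) ≤ y / H ∨ y * H < n) :
    fr q z a n * vw κ y n ≤ Real.exp (-(Real.log H) ^ 2 / 2) * (8 / κ ^ 2) *
      (In q z a n * (vw (κ / 2) (y * H) n + vw (κ / 2) (y / H) n)) := by
  have hn0 : (0 : ℝ) < n := by exact_mod_cast hn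
  have hH0 : 0 < H := by linarith
  have hh : 0 < Real.log H := Real.log_pos hH
  by_cases hfr : fr q z a n = 0
  · rw [hfr, zero_mul]
    have := In_nonneg q z a n
    have := vw_pos (κ / 2) (y * H) n
    have := vw_pos (κ / 2) (y / H) n
    positivity
  have hcond : (n : ZMod q) = a ∧ Rg z n := by
    by_contra hc
    apply hfr
    unfold fr
    rw [if_neg hc]
  have hn1 : n ≠ 1 := by
    rintro rfl
    apply hfr
    unfold fr
    simp
  have hzn : z < n := by
    by_contra hc
    push Not at hc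
    exact hn1 (Rg_small hz hc hcond.2)
  have hIn : In q z a n = 1 := by
    unfold In
    rw [if_pos ⟨hcond.1, hzn, hcond.2⟩]
  rw [hIn, one_mul]
  set l := Real.log n with hl
  have hl0 : 0 ≤ l := Real.log_natCast_nonneg n
  have hfrle : fr q z a n ≤ l ^ 2 := by
    unfold fr
    rw [if_pos hcond, sq]
    exact mul_le_mul_of_nonneg_right ArithmeticFunction.vonMangoldt_le_log hl0
  have hl2 : l ^ 2 ≤ 8 / κ ^ 2 * Real.exp (κ * l / 2) := by
    have h1 := Real.quadratic_le_exp_of_nonneg (show 0 ≤ κ * l / 2 by positivity)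
    have h2 : (κ * l / 2) ^ 2 / 2 ≤ Real.exp (κ * l / 2) := by
      have : 0 ≤ κ * l / 2 := by positivity
      linarith
    calc l ^ 2 = 8 / κ ^ 2 * ((κ * l / 2) ^ 2 / 2) := by field_simp; ring
      _ ≤ _ := by gcongr
  have hvw1 : vw κ y n = Real.exp (-(κ * l / 2)) * Real.exp (-((1 + κ / 2) * l) - (l - Real.log y) ^ 2 / 2) := by
    unfold vw
    rw [← Real.exp_add]
    congr 1
    rw [← hl]
    ring
  have hmain : Real.exp (-((1 + κ / 2) * l) - (l - Real.log y) ^ 2 / 2) ≤
      Real.exp (-(Real.log H) ^ 2 / 2) * (vw (κ / 2) (y * H) n + vw (κ / 2) (y / H) n) := by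
    rcases hfar with h | h
    · have h1 : l ≤ Real.log y - Real.log H := by
        rw [← Real.log_div hy.ne' hH0.ne']
        exact Real.log_le_log hn0 h
      have h2 : Real.exp (-((1 + κ / 2) * l) - (l - Real.log y) ^ 2 / 2) ≤
          Real.exp (-(Real.log H) ^ 2 / 2) * vw (κ / 2) (y / H) n := by
        unfold vw
        rw [← Real.exp_add, ← hl, Real.log_div hy.ne' hH0.ne']
        apply Real.exp_le_exp.mpr
        nlinarith
      have h3 := vw_pos (κ / 2) (y * H) n
      have h4 := Real.exp_pos (-(Real.log H) ^ 2 / 2)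
      nlinarith [mul_pos h4 h3]
    · have h1 : Real.log y + Real.log H ≤ l := by
        rw [← Real.log_mul hy.ne' hH0.ne']
        exact Real.log_le_log (by positivity) h.le
      have h2 : Real.exp (-((1 + κ / 2) * l) - (l - Real.log y) ^ 2 / 2) ≤
          Real.exp (-(Real.log H) ^ 2 / 2) * vw (κ / 2) (y * H) n := by
        unfold vw
        rw [← Real.exp_add, ← hl, Real.log_mul hy.ne' hH0.ne']
        apply Real.exp_le_exp.mpr
        nlinarith
      have h3 := vw_pos (κ / 2) (y / H) n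
      have h4 := Real.exp_pos (-(Real.log H) ^ 2 / 2)
      nlinarith [mul_pos h4 h3]
  rw [hvw1]
  have hE : Real.exp (κ * l / 2) * Real.exp (-(κ * l / 2)) = 1 := by
    rw [← Real.exp_add]; simp
  have hκ2 : 0 < 8 / κ ^ 2 := by positivity
  have hv1 := vw_pos (κ / 2) (y * H) n
  have hv2 := vw_pos (κ / 2) (y / H) n
  calc fr q z a n * (Real.exp (-(κ * l / 2)) * Real.exp (-((1 + κ / 2) * l) - (l - Real.log y) ^ 2 / 2))
      ≤ (8 / κ ^ 2 * Real.exp (κ * l / 2)) * (Real.exp (-(κ * l / 2)) *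
        (Real.exp (-(Real.log H) ^ 2 / 2) * (vw (κ / 2) (y * H) n + vw (κ / 2) (y / H) n))) := by
        gcongr
        exact hfrle.trans hl2
    _ = (8 / κ ^ 2) * (Real.exp (κ * l / 2) * Real.exp (-(κ * l / 2))) *
        (Real.exp (-(Real.log H) ^ 2 / 2) * (vw (κ / 2) (y * H) n + vw (κ / 2) (y / H) n)) := by ring
    _ = _ := by rw [hE]; ring

/-- the primes in the window -/
noncomputable def winP (q : ℕ) (a : ZMod q) (y H : ℝ) : Finset ℕ :=
  {p ∈ Finset.Ioc ⌊y / H⌋₊ ⌊y * H⌋₊ | p.Prime ∧ (p : ZMod q) = a}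

theorem vw_le_inv (κ y : ℝ) (hκ : 0 < κ) (n : ℕ) (hn : 1 ≤ n) : vw κ y n ≤ 1 / (n : ℝ) := by
  have hn1 : (1 : ℝ) ≤ n := by exact_mod_cast hn
  refine (vw_le κ y _ hκ.le hn1).trans ?_
  rw [one_div]
  apply mul_le_of_le_one_right (by positivity)
  rw [Real.exp_le_one_iff]
  have := sq_nonneg (Real.log (n : ℝ) - Real.log y)
  linarith

/-- upper bound for the smoothed sum through the primes in the window -/
theorem SR_upper (q z : ℕ) (hz : 2 ≤ z) (a : ZMod q) (κ y : ℝ) (hκ : 0 < κ) (H : ℝ) (hH : 1 < H) (hy : H ≤ y) :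
    SR (fr q z a) κ y ≤ ((winP q a y H).card : ℝ) * ((Real.log (y * H)) ^ 2 * (H / y)) +
      2 * Real.sqrt (y * H) * Real.log (y * H) * (Real.log (y * H) * (H / y)) +
      Real.exp (-(Real.log H) ^ 2 / 2) * (8 / κ ^ 2) *
        (SR (In q z a) (κ / 2) (y * H) + SR (In q z a) (κ / 2) (y / H)) := by
  have hy0 : 0 < y := by linarith
  have hH0 : 0 < H := by linarith
  have hyH1 : 1 ≤ y * H := by nlinarith
  set E := Real.exp (-(Real.log H) ^ 2 / 2) * (8 / κ ^ 2) with hE
  have hE0 : 0 ≤ E := by positivity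
  set L := Real.log (y * H) with hL
  have hL0 : 0 ≤ L := Real.log_nonneg hyH1
  set NP := Finset.filter (fun n : ℕ => ¬ n.Prime) (Finset.Ioc 0 ⌊y * H⌋₊) with hNP
  set A : ℕ → ℝ := fun n => if n ∈ winP q a y H then L ^ 2 * (H / y) else 0 with hA
  set B : ℕ → ℝ := fun n => if n ∈ NP then ArithmeticFunction.vonMangoldt n * (L * (H / y)) else 0 with hB
  set F : ℕ → ℝ := fun n => E * (In q z a n * vw (κ / 2) (y * H) n + In q z a n * vw (κ / 2) (y / H) n) with hF
  have hAn : ∀ n, 0 ≤ A n := by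
    intro n; rw [hA]; simp only; split_ifs
    · positivity
    · exact le_rfl
  have hBn : ∀ n, 0 ≤ B n := by
    intro n; rw [hB]; simp only; split_ifs
    · have := ArithmeticFunction.vonMangoldt_nonneg (n := n)
      positivity
    · exact le_rfl
  have hFn : ∀ n, 0 ≤ F n := by
    intro n; rw [hF]; simp only
    have := In_nonneg q z a n
    have := vw_pos (κ / 2) (y * H) n
    have := vw_pos (κ / 2) (y / H) n
    positivity
  have hpt : ∀ n : ℕ, fr q z a n * vw κ y n ≤ A n + B n + F n := by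
    intro n
    rcases Nat.eq_zero_or_pos n with hn | hn
    · subst hn
      rw [fr_zero, zero_mul]
      have := hAn 0; have := hBn 0; have := hFn 0
      linarith
    have hn0 : (0 : ℝ) < n := by exact_mod_cast hn
    by_cases hfar : (n : ℝ) ≤ y / H ∨ y * H < n
    · have h1 := far_bound q z hz a κ y hκ hy0 H hH n hn hfar
      have h2 : F n = E * (In q z a n * (vw (κ / 2) (y * H) n + vw (κ / 2) (y / H) n)) := by
        rw [hF]; ring
      have := hAn n; have := hBn n
      rw [h2]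
      linarith
    push Not at hfar
    have hnle : n ≤ ⌊y * H⌋₊ := Nat.le_floor hfar.2
    have hngt : ⌊y / H⌋₊ < n := by
      rw [Nat.floor_lt (by positivity)]
      exact hfar.1
    have hlog : Real.log n ≤ L := Real.log_le_log hn0 hfar.2
    have hlog0 : 0 ≤ Real.log n := Real.log_natCast_nonneg n
    have hinv : vw κ y n ≤ H / y := by
      refine (vw_le_inv κ y hκ n hn).trans ?_
      rw [div_le_div_iff₀ hn0 hy0, one_mul]
      have := hfar.1
      rw [div_lt_iff₀ hH0] at this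
      linarith
    have hv0 := vw_pos κ y n
    have hΛ := ArithmeticFunction.vonMangoldt_nonneg (n := n)
    by_cases hp : n.Prime
    · by_cases hcl : (n : ZMod q) = a
      · have hmem : n ∈ winP q a y H := by
          unfold winP
          rw [Finset.mem_filter, Finset.mem_Ioc]
          exact ⟨⟨hngt, hnle⟩, hp, hcl⟩
        have h1 : fr q z a n ≤ L ^ 2 := by
          unfold fr
          split_ifs
          · calc ArithmeticFunction.vonMangoldt n * Real.log n ≤ Real.log n * Real.log n := by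
                  gcongr
                  exact ArithmeticFunction.vonMangoldt_le_log
              _ ≤ L * L := by gcongr
              _ = L ^ 2 := by ring
          · positivity
        have h2 : A n = L ^ 2 * (H / y) := by
          rw [hA]; simp only; rw [if_pos hmem]
        have := hBn n; have := hFn n
        have h3 : fr q z a n * vw κ y n ≤ L ^ 2 * (H / y) := by
          have := fr_nonneg q z a n
          gcongr
        rw [h2]; linarith
      · have h1 : fr q z a n = 0 := by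
          unfold fr
          rw [if_neg (fun h => hcl h.1)]
        rw [h1, zero_mul]
        have := hAn n; have := hBn n; have := hFn n
        linarith
    · have hmem : n ∈ NP := by
        rw [hNP, Finset.mem_filter, Finset.mem_Ioc]
        exact ⟨⟨hn, hnle⟩, hp⟩
      have h2 : B n = ArithmeticFunction.vonMangoldt n * (L * (H / y)) := by
        rw [hB]; simp only; rw [if_pos hmem]
      have h3 : fr q z a n * vw κ y n ≤ ArithmeticFunction.vonMangoldt n * (L * (H / y)) := by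
        have h4 : fr q z a n ≤ ArithmeticFunction.vonMangoldt n * L := by
          unfold fr
          split_ifs
          · gcongr
          · positivity
        calc fr q z a n * vw κ y n ≤ (ArithmeticFunction.vonMangoldt n * L) * (H / y) := by
              have := fr_nonneg q z a n
              gcongr
          _ = _ := by ring
      have := hAn n; have := hFn n
      rw [h2]; linarith
  have hsA : HasSum A (((winP q a y H).card : ℝ) * (L ^ 2 * (H / y))) := by
    have h1 : ((winP q a y H).card : ℝ) * (L ^ 2 * (H / y)) = ∑ n ∈ winP q a y H, A n := by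
      rw [← nsmul_eq_mul, ← Finset.sum_const]
      apply Finset.sum_congr rfl
      intro n hn
      rw [hA]; simp only; rw [if_pos hn]
    rw [h1]
    apply hasSum_sum_of_ne_finset_zero
    intro n hn
    rw [hA]; simp only; rw [if_neg hn]
  have hsB : HasSum B (∑ n ∈ NP, B n) := by
    apply hasSum_sum_of_ne_finset_zero
    intro n hn
    rw [hB]; simp only; rw [if_neg hn]
  have hκ2 : 0 < κ / 2 := by positivity
  have hsF : HasSum F (E * (SR (In q z a) (κ / 2) (y * H) + SR (In q z a) (κ / 2) (y / H))) := by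
    rw [hF]
    apply HasSum.mul_left
    unfold SR
    exact (In_summable q z a _ _ hκ2).hasSum.add (In_summable q z a _ _ hκ2).hasSum
  have hBs : ∑ n ∈ NP, B n ≤ 2 * Real.sqrt (y * H) * L * (L * (H / y)) := by
    have h1 : ∑ n ∈ NP, B n = (∑ n ∈ NP, ArithmeticFunction.vonMangoldt n) * (L * (H / y)) := by
      rw [Finset.sum_mul]
      apply Finset.sum_congr rfl
      intro n hn
      rw [hB]; simp only; rw [if_pos hn]
    rw [h1]
    have h2 : ∑ n ∈ NP, ArithmeticFunction.vonMangoldt n = Chebyshev.psi (y * H) - Chebyshev.theta (y * H) := by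
      unfold Chebyshev.psi Chebyshev.theta
      rw [← Finset.sum_filter_add_sum_filter_not (Finset.Ioc 0 ⌊y * H⌋₊) Nat.Prime, hNP]
      have h3 : ∑ p ∈ Finset.filter (fun n : ℕ => n.Prime) (Finset.Ioc 0 ⌊y * H⌋₊), Real.log p =
          ∑ p ∈ Finset.filter (fun n : ℕ => n.Prime) (Finset.Ioc 0 ⌊y * H⌋₊), ArithmeticFunction.vonMangoldt p := by
        apply Finset.sum_congr rfl
        intro p hp
        rw [ArithmeticFunction.vonMangoldt_apply_prime (Finset.mem_filter.mp hp).2]
      rw [h3]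
      ring
    rw [h2]
    have h4 := Chebyshev.psi_sub_theta_le hyH1
    gcongr
  have hs := (hsA.add hsB).add hsF
  have hfin : SR (fr q z a) κ y ≤ ((winP q a y H).card : ℝ) * (L ^ 2 * (H / y)) + ∑ n ∈ NP, B n +
      E * (SR (In q z a) (κ / 2) (y * H) + SR (In q z a) (κ / 2) (y / H)) :=
    hasSum_le hpt (fr_summable q z a κ y hκ).hasSum hs
  linarith

/-- A Linnik type theorem: least primes in progressions to moduli `2^k W`, `W` fixed, in positive proportion. -/
theorem linnik : ∃ (A H : ℕ) (c : ℝ), 0 < c ∧ 2 ≤ H ∧ 2 ≤ A ∧ ∀ W : ℕ, 1 ≤ W → ∃ x0 : ℝ, ∀ y : ℝ, x0 ≤ y →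
    ∀ k q : ℕ, 3 ≤ k → q = 2 ^ k * W → (q : ℝ) ^ A ≤ y → ∀ a : ZMod q, IsUnit a →
    c * (y / (Nat.totient q * Real.log y)) ≤ (winP q a y H).card := by
  obtain ⟨C, z1, hC, hz1, hcore⟩ := core
  obtain ⟨K, z2, hK, hz2, hIn⟩ := In_SR
  set U : ℕ := ⌈100 * C⌉₊ + 2 with hU
  have hU2 : 2 ≤ U := by omega
  have hUC : 100 * C ≤ U := by
    have := Nat.le_ceil (100 * C)
    rw [hU]; push_cast; linarith
  set B : ℝ := 819200 * U * (1 + K) with hB
  have hB0 : 0 < B := by positivity
  set H : ℕ := ⌈B⌉₊ + 9 with hH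
  have hHB : B ≤ H := by
    have := Nat.le_ceil B
    rw [hH]; push_cast; linarith
  have hH9 : (9 : ℝ) ≤ H := by rw [hH]; push_cast; linarith [Nat.cast_nonneg (α := ℝ) ⌈B⌉₊]
  have hH0 : (0 : ℝ) < H := by linarith
  have hUr : (2 : ℝ) ≤ U := by exact_mod_cast hU2
  refine ⟨2 * U, H, 1 / (800 * H), by positivity, by omega, by omega, ?_⟩
  intro W hW
  obtain ⟨y1, hy1⟩ := SR_lower (8 * W) (by omega)
  refine ⟨|y1| + ((z1 + z2 + 4 : ℕ) : ℝ) ^ (2 * U) + (819200 * (H : ℝ) ^ 2) ^ 8, ?_⟩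
  intro y hy k q hk hq hqA a ha
  have hy1' : y1 ≤ y := by
    have h1 := le_abs_self y1
    have h2 : 0 ≤ ((z1 + z2 + 4 : ℕ) : ℝ) ^ (2 * U) := by positivity
    have h3 : 0 ≤ (819200 * (H : ℝ) ^ 2) ^ 8 := by positivity
    linarith
  have hyH8 : (819200 * (H : ℝ) ^ 2) ^ 8 ≤ y := by
    have h1 := abs_nonneg y1
    have h2 : 0 ≤ ((z1 + z2 + 4 : ℕ) : ℝ) ^ (2 * U) := by positivity
    linarith
  have hyz : ((z1 + z2 + 4 : ℕ) : ℝ) ^ (2 * U) ≤ y := by
    have h1 := abs_nonneg y1
    have h3 : 0 ≤ (819200 * (H : ℝ) ^ 2) ^ 8 := by positivity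
    linarith
  have hyH : (H : ℝ) ≤ y := by
    refine le_trans ?_ hyH8
    have h1 : (H : ℝ) ≤ 819200 * (H : ℝ) ^ 2 := by nlinarith only [hH9]
    have h2 : 1 ≤ 819200 * (H : ℝ) ^ 2 := by nlinarith only [hH9]
    calc (H : ℝ) ≤ 819200 * (H : ℝ) ^ 2 := h1
      _ = (819200 * (H : ℝ) ^ 2) ^ 1 := (pow_one _).symm
      _ ≤ _ := pow_le_pow_right₀ h2 (by norm_num)
  have hy0 : 0 < y := by linarith
  have hy9 : 9 ≤ y := by linarith
  set L := Real.log y with hL
  have hL1 : 1 < L := by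
    rw [hL, Real.lt_log_iff_exp_lt hy0]
    have := Real.exp_one_lt_d9
    linarith
  -- z
  set t := y ^ (1 / (U : ℝ)) with ht
  have ht0 : 0 < t := Real.rpow_pos_of_pos hy0 _
  have hlogt : Real.log t = L / U := by
    rw [ht, Real.log_rpow hy0, ← hL]; ring
  have hpowt : t ^ U = y := by
    rw [ht, ← Real.rpow_natCast, ← Real.rpow_mul hy0.le]
    rw [one_div, inv_mul_cancel₀ (by linarith), Real.rpow_one]
  set z := ⌊t⌋₊ with hz
  -- q^2 ≤ z
  have hq2t : ((q ^ 2 : ℕ) : ℝ) ≤ t := by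
    by_contra hc
    push Not at hc
    have h1 : t ^ U < ((q ^ 2 : ℕ) : ℝ) ^ U := pow_lt_pow_left₀ hc ht0.le (by omega)
    rw [hpowt] at h1
    have h2 : ((q ^ 2 : ℕ) : ℝ) ^ U = (q : ℝ) ^ (2 * U) := by
      push_cast; rw [← pow_mul]
    rw [h2] at h1
    linarith
  have hq2z : q ^ 2 ≤ z := Nat.le_floor hq2t
  have hqz : (q : ℝ) ≤ (z : ℝ) ^ (1 / 2 : ℝ) := by
    rw [← Real.sqrt_eq_rpow]
    apply Real.le_sqrt_of_sq_le
    exact_mod_cast hq2z
  -- z large
  set r := z1 + z2 + 4 with hr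
  have hr4 : (4 : ℝ) ≤ r := by rw [hr]; push_cast; have := Nat.cast_nonneg (α := ℝ) z1; have := Nat.cast_nonneg (α := ℝ) z2; linarith
  have hrt : (r : ℝ) ^ 2 ≤ t := by
    by_contra hc
    push Not at hc
    have h1 : t ^ U < ((r : ℝ) ^ 2) ^ U := pow_lt_pow_left₀ hc ht0.le (by omega)
    rw [hpowt, ← pow_mul] at h1
    linarith
  have hrz : r ^ 2 ≤ z := Nat.le_floor (by exact_mod_cast hrt)
  have hrz' : r ≤ z := (Nat.le_self_pow (by norm_num) r).trans hrz
  have hz4 : 4 ≤ z := by omega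
  have hz0 : (0 : ℝ) < z := by exact_mod_cast (by omega : 0 < z)
  have hzt : (z : ℝ) ≤ t := Nat.floor_le ht0.le
  have hlz : Real.log z ≤ L / U := by
    rw [← hlogt]; exact Real.log_le_log hz0 hzt
  have hlz2 : L / (2 * U) ≤ Real.log z := by
    -- z ≥ t - 1 ≥ sqrt t
    have h1 : t < z + 1 := Nat.lt_floor_add_one t
    have h2 : Real.sqrt t ≤ z := by
      have h3 : 2 ≤ Real.sqrt t := by
        apply Real.le_sqrt_of_sq_le
        nlinarith only [hrt, hr4]
      have h4 : Real.sqrt t ^ 2 = t := Real.sq_sqrt ht0.le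
      nlinarith only [h1, h3, h4]
    have h5 : Real.log (Real.sqrt t) = L / (2 * U) := by
      rw [Real.log_sqrt ht0.le, hlogt]
      field_simp
    rw [← h5]
    exact Real.log_le_log (Real.sqrt_pos.mpr ht0) h2
  have hzy : (z : ℝ) ≤ y := by
    refine hzt.trans ?_
    have ht1 : 1 ≤ t := by nlinarith only [hrt, hr4]
    calc t = t ^ 1 := (pow_one t).symm
      _ ≤ t ^ U := pow_le_pow_right₀ ht1 (by omega)
      _ = y := hpowt
  have hlz0 : 0 < Real.log z := lt_of_lt_of_le (by positivity) hlz2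
  set κ := 1 / L with hκ
  have hκ0 : 0 < κ := by positivity
  have hκ1 : κ ≤ 1 := by rw [hκ, div_le_one (by linarith)]; exact hL1.le
  have hκl : κ * Real.log z ≤ 1 := by
    rw [hκ, one_div, inv_mul_le_iff₀ (by linarith), mul_one]
    refine hlz.trans ?_
    exact div_le_self (by linarith) (by linarith)
  have hq1 : 1 ≤ q := by
    rw [hq]; exact Nat.one_le_iff_ne_zero.mpr (by positivity)
  obtain ⟨b, hb, hcmp⟩ := hcore z (by omega) k W q (8 * W) hk hW hq rfl hqz a ha κ hκ0 hκl y (by linarith)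
  rw [SS_FL, SS_FL] at hcmp
  have hlow := hy1 y hy1' z hzy b hb
  rw [← hL, ← hκ] at hlow
  have hcmp2 : |(Nat.totient q : ℝ) * SR (fr q z a) κ y - (Nat.totient (8 * W) : ℝ) * SR (fr (8 * W) z b) κ y| ≤
      C * Real.log z := by
    have h1 : ((Nat.totient q : ℂ) * ((SR (fr q z a) κ y : ℝ) : ℂ) -
        (Nat.totient (8 * W) : ℂ) * ((SR (fr (8 * W) z b) κ y : ℝ) : ℂ)) =
        (((Nat.totient q : ℝ) * SR (fr q z a) κ y - (Nat.totient (8 * W) : ℝ) * SR (fr (8 * W) z b) κ y : ℝ) : ℂ) := by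
      push_cast; ring
    rw [h1, Complex.norm_real, Real.norm_eq_abs] at hcmp
    exact hcmp
  have hClz : C * Real.log z ≤ L / 100 := by
    calc C * Real.log z ≤ C * (L / U) := by gcongr
      _ ≤ L / 100 := by
        rw [mul_div_assoc', div_le_div_iff₀ (by positivity) (by norm_num)]
        nlinarith only [hUC, hL1]
  have hSlow : L / 100 ≤ (Nat.totient q : ℝ) * SR (fr q z a) κ y := by
    have := (abs_le.mp hcmp2).1
    linarith
  -- upper bound
  set φ := (Nat.totient q : ℝ) with hφ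
  have hφ0 : 0 < φ := by rw [hφ]; exact_mod_cast Nat.totient_pos.mpr hq1
  have hφq : φ ≤ q := by rw [hφ]; exact_mod_cast Nat.totient_le q
  have hup := SR_upper q z (by omega) a κ y hκ0 H (by linarith) hyH
  have hyHge : 1 ≤ y / H := by rw [le_div_iff₀ hH0]; linarith
  have hI1 := hIn z (by omega) q hq1 hqz a ha (κ / 2) (y * H) (by positivity) (by linarith) (by nlinarith only [hy9, hH9])
  have hI2 := hIn z (by omega) q hq1 hqz a ha (κ / 2) (y / H) (by positivity) (by linarith) hyHge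
  rw [← hφ] at hI1 hI2
  have hmp := mp_le z (by omega)
  have hmp0 := mp_nonneg z
  set P : ℝ := ((winP q a y H).card : ℝ) with hP
  have hP0 : 0 ≤ P := Nat.cast_nonneg _
  -- log (yH) ≤ 2 log y
  have hLH : Real.log (y * H) ≤ 2 * L := by
    rw [Real.log_mul hy0.ne' hH0.ne']
    have : Real.log H ≤ L := Real.log_le_log hH0 hyH
    linarith
  have hLH0 : 0 ≤ Real.log (y * H) := Real.log_nonneg (by nlinarith only [hy9, hH9])
  -- far part
  have hκsq : 8 / κ ^ 2 = 8 * L ^ 2 := by
    rw [hκ]; field_simp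
  have hexpH : Real.exp (-(Real.log H) ^ 2 / 2) ≤ 1 / H := by
    have h1 : 2 ≤ Real.log H := by
      rw [Real.le_log_iff_exp_le hH0]
      have h2 : Real.exp 2 = Real.exp 1 ^ 2 := by rw [← Real.exp_nat_mul]; norm_num
      rw [h2]
      have h3 := Real.exp_one_lt_d9
      have h4 := Real.exp_pos 1
      calc Real.exp 1 ^ 2 ≤ (2.7182818286 : ℝ) ^ 2 := by gcongr
        _ ≤ 9 := by norm_num
        _ ≤ H := hH9
    calc Real.exp (-(Real.log H) ^ 2 / 2) ≤ Real.exp (-Real.log H) := by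
          apply Real.exp_le_exp.mpr
          nlinarith only [h1]
      _ = 1 / H := by rw [Real.exp_neg, Real.exp_log hH0, one_div]
  have hfarb : φ * (Real.exp (-(Real.log H) ^ 2 / 2) * (8 / κ ^ 2) *
      (SR (In q z a) (κ / 2) (y * H) + SR (In q z a) (κ / 2) (y / H))) ≤ L / 400 := by
    have h1 : SR (In q z a) (κ / 2) (y * H) + SR (In q z a) (κ / 2) (y / H) ≤ 128 * (K * mp z / φ) := by linarith
    have h2 : mp z ≤ 2 * U / L := by
      refine hmp.trans ?_
      rw [div_le_div_iff₀ hlz0 (by linarith), one_mul]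
      rw [div_le_iff₀ (by positivity)] at hlz2
      linarith
    calc φ * (Real.exp (-(Real.log H) ^ 2 / 2) * (8 / κ ^ 2) *
        (SR (In q z a) (κ / 2) (y * H) + SR (In q z a) (κ / 2) (y / H)))
        ≤ φ * ((1 / H) * (8 * L ^ 2) * (128 * (K * mp z / φ))) := by
          rw [hκsq]
          have h3 := SR_In_nonneg q z a (κ / 2) (y * H)
          have h4 := SR_In_nonneg q z a (κ / 2) (y / H)
          gcongr
      _ = (1 / H) * (1024 * L ^ 2 * K) * mp z := by
          field_simp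
          ring
      _ ≤ (1 / H) * (1024 * L ^ 2 * K) * (2 * U / L) := by gcongr
      _ = (2048 * U * K) * L / H := by field_simp; ring
      _ ≤ L / 400 := by
          rw [div_le_div_iff₀ hH0 (by norm_num)]
          have : 2048 * U * K * 400 ≤ (H : ℝ) := by
            refine le_trans ?_ hHB
            rw [hB]
            have : 0 ≤ (U : ℝ) := by linarith
            nlinarith only [this]
          nlinarith only [this, hL1]
  -- nonprime part
  have hnpb : φ * (2 * Real.sqrt (y * H) * Real.log (y * H) * (Real.log (y * H) * (H / y))) ≤ L / 400 := by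
    -- φ ≤ y^(1/4)
    set s := y ^ (1 / 8 : ℝ) with hs
    have hs0 : 0 < s := Real.rpow_pos_of_pos hy0 _
    have hs8 : s ^ 8 = y := by
      rw [hs, ← Real.rpow_natCast, ← Real.rpow_mul hy0.le]
      norm_num
    have hsH : 819200 * (H : ℝ) ^ 2 ≤ s := by
      by_contra hc
      push Not at hc
      have h1 : s ^ 8 < (819200 * (H : ℝ) ^ 2) ^ 8 := pow_lt_pow_left₀ hc hs0.le (by norm_num)
      rw [hs8] at h1
      linarith
    have hs1 : 1 ≤ s := by nlinarith only [hsH, hH9]
    have hφs : φ ≤ s ^ 2 := by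
      refine hφq.trans ?_
      by_contra hc
      push Not at hc
      have h1 : (s ^ 2) ^ 4 < (q : ℝ) ^ 4 := pow_lt_pow_left₀ hc (by positivity) (by norm_num)
      have h2 : (q : ℝ) ^ 4 ≤ (q : ℝ) ^ (2 * U) := pow_le_pow_right₀ (by exact_mod_cast hq1) (by omega)
      rw [← pow_mul] at h1
      norm_num at h1
      linarith
    have hLs : L ≤ 16 * Real.sqrt s := by
      -- log y = 16 log sqrt s ≤ 16 sqrt s
      have h1 : L = 16 * Real.log (Real.sqrt s) := by
        rw [hL, Real.log_sqrt hs0.le, ← hs8, Real.log_pow]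
        push_cast; ring
      rw [h1]
      have h2 := Real.log_le_sub_one_of_pos (Real.sqrt_pos.mpr hs0)
      linarith
    have hL2 : L ^ 2 ≤ 256 * s := by
      have h1 : Real.sqrt s ^ 2 = s := Real.sq_sqrt hs0.le
      have h2 := Real.sqrt_nonneg s
      have h3 : L ^ 2 ≤ (16 * Real.sqrt s) ^ 2 := by gcongr
      calc L ^ 2 ≤ (16 * Real.sqrt s) ^ 2 := h3
        _ = 256 * (Real.sqrt s ^ 2) := by ring
        _ = 256 * s := by rw [h1]
    have hsq : Real.sqrt (y * H) ≤ s ^ 4 * H := by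
      rw [Real.sqrt_le_left (by positivity)]
      calc y * H ≤ y * (H ^ 2) := by
            gcongr
            nlinarith only [hH9]
        _ = (s ^ 4 * H) ^ 2 := by rw [← hs8]; ring
    calc φ * (2 * Real.sqrt (y * H) * Real.log (y * H) * (Real.log (y * H) * (H / y)))
        ≤ s ^ 2 * (2 * (s ^ 4 * H) * (2 * L) * ((2 * L) * (H / y))) := by
          gcongr
      _ = 8 * (H : ℝ) ^ 2 * (s ^ 6 / y) * L ^ 2 := by ring
      _ ≤ 8 * (H : ℝ) ^ 2 * (s ^ 6 / y) * (256 * s) := by gcongr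
      _ = 2048 * (H : ℝ) ^ 2 / s := by
          rw [← hs8]
          field_simp
          ring
      _ ≤ 1 / 400 := by
          rw [div_le_div_iff₀ hs0 (by norm_num)]
          linarith
      _ ≤ L / 400 := by
          gcongr
  -- conclusion
  have hmain : L / 200 ≤ φ * (P * ((2 * L) ^ 2 * (H / y))) := by
    have h1 : φ * SR (fr q z a) κ y ≤ φ * (P * ((Real.log (y * H)) ^ 2 * (H / y)) +
      2 * Real.sqrt (y * H) * Real.log (y * H) * (Real.log (y * H) * (H / y)) +
      Real.exp (-(Real.log H) ^ 2 / 2) * (8 / κ ^ 2) *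
        (SR (In q z a) (κ / 2) (y * H) + SR (In q z a) (κ / 2) (y / H))) := by
      gcongr
    have h2 : φ * (P * ((Real.log (y * H)) ^ 2 * (H / y))) ≤ φ * (P * ((2 * L) ^ 2 * (H / y))) := by
      gcongr
    rw [mul_add, mul_add] at h1
    linarith
  rw [div_le_iff₀ (by norm_num)] at hmain
  have h3 : φ * (P * ((2 * L) ^ 2 * (H / y))) * 200 = L * (P * (800 * H) * (φ * L) / y) := by
    field_simp
    ring
  rw [h3] at hmain
  have h4 : 1 ≤ P * (800 * H) * (φ * L) / y := by
    by_contra hc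
    push Not at hc
    nlinarith only [hc, hmain, hL1]
  rw [le_div_iff₀ hy0, one_mul] at h4
  have h5 : y / (φ * L) ≤ P * (800 * H) := by
    rw [div_le_iff₀ (by positivity)]
    exact h4
  rw [one_div, inv_mul_le_iff₀ (by positivity)]
  linarith

end Pool.Agent.H22
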