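import Pool.Agent.H22.Chars

/-!
Lower bounds for the rough part of Dirichlet series on vertical lines (the 3-4-1 inequality).
-/

set_option autoImplicit false

open Finset Real MeasureTheory

namespace Pool.Agent.H22

open Pool.Agent.H16

theorem triv_PB : ∃ (K : ℝ) (z0 : ℕ), 0 < K ∧ 9 ≤ z0 ∧ ∀ z : ℕ, z0 ≤ z → ∀ q : ℕ, ∀ _ : NeZero q,
    PB (bfun z (1 : DirichletCharacter ℂ q)) (K * mp z) 0 0 := by
  obtain ⟨K, z0, hK, hz0, h⟩ := Nct_equid
  refine ⟨K + 1, z0 + 9, by positivity, by omega, ?_⟩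
  intro z hz q _ N hN
  have hz9 : 9 ≤ z := by omega
  have hzr : (9 : ℝ) ≤ z := by exact_mod_cast hz9
  have hmp := mp_nonneg z
  rw [pow_zero, mul_one, sub_zero, Real.rpow_one]
  by_cases hNz : N ≤ z
  · rw [Finset.sum_eq_zero]
    · rw [norm_zero]; positivity
    · intro k hk
      rw [Finset.mem_Icc] at hk
      unfold bfun
      rw [if_neg]
      rintro ⟨h1, -⟩
      omega
  push Not at hNz
  have hq1 : ((1 : ℕ) : ℝ) ≤ (z : ℝ) ^ (1 / 2 : ℝ) := by
    push_cast
    exact Real.one_le_rpow (by linarith) (by norm_num)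
  have hB := h z (by omega) 1 le_rfl hq1 0 (by simp) N (by omega)
  rw [Nat.totient_one, Nat.cast_one, one_mul] at hB
  have hNr : (0 : ℝ) < N := by exact_mod_cast (by omega : 0 < N)
  have hcount : ‖∑ k ∈ Finset.Icc 1 N, bfun z (1 : DirichletCharacter ℂ q) k‖ ≤ Nct 1 0 z N := by
    calc ‖∑ k ∈ Finset.Icc 1 N, bfun z (1 : DirichletCharacter ℂ q) k‖
        ≤ ∑ k ∈ Finset.Icc 1 N, ‖bfun z (1 : DirichletCharacter ℂ q) k‖ := norm_sum_le _ _
      _ ≤ ∑ k ∈ Finset.Icc 1 N, (if Rg z k then (1 : ℝ) else 0) := by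
          apply Finset.sum_le_sum
          intro k _
          unfold bfun
          by_cases h1 : Rg z k
          · rw [if_pos h1]
            split_ifs
            · exact DirichletCharacter.norm_le_one _ _
            · simp
          · rw [if_neg h1, if_neg (fun h2 => h1 h2.2)]
            simp
      _ = (#{k ∈ Finset.Icc 1 N | Rg z k} : ℝ) := by rw [Finset.sum_boole]
      _ ≤ Nct 1 0 z N := by
          unfold Nct
          norm_cast
          apply Finset.card_le_card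
          intro k hk
          simp only [Finset.mem_filter, Finset.mem_Icc, Finset.mem_range] at hk ⊢
          exact ⟨by omega, by simp [Nat.mod_one], hk.2⟩
  refine hcount.trans ?_
  have h1 := (abs_le.mp hB).2
  have hexp : Real.exp (-(c0 * (Real.log N / Real.log z))) ≤ 1 := by
    rw [Real.exp_le_one_iff]
    have := c0_pos
    have : 0 ≤ Real.log N / Real.log z :=
      div_nonneg (Real.log_natCast_nonneg _) (Real.log_natCast_nonneg _)
    have : 0 ≤ c0 * (Real.log N / Real.log z) := by positivity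
    linarith
  have h2 : K * (mp z * (N * Real.exp (-(c0 * (Real.log N / Real.log z))))) ≤ K * (mp z * (N * 1)) := by
    gcongr
  nlinarith

theorem lft_eq {q : ℕ} {z : ℕ} (hz : 2 ≤ z) (χ : DirichletCharacter ℂ q) :
    (fun n : ℕ => lft z χ (n : ZMod (q * primorial z))) = LSeries.delta + bfun z χ := by
  ext n
  rw [lft_apply, Pi.add_apply]
  unfold bfun LSeries.delta
  by_cases h : Rg z n
  · by_cases hn : z < n
    · have h1 : n ≠ 1 := by omega
      simp [h, hn, h1]
    · have h1 := Rg_small hz (by omega) h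
      subst h1
      simp [h, hn]
  · have h1 : n ≠ 1 := by rintro rfl; exact h (Rg_one z)
    simp [h, h1]

theorem LSeries_lft {q : ℕ} {z : ℕ} (hz : 2 ≤ z) (χ : DirichletCharacter ℂ q) (s : ℂ) (hs : 1 < s.re) :
    LSeries (fun n : ℕ => lft z χ (n : ZMod (q * primorial z))) s = 1 + LSeries (bfun z χ) s := by
  rw [lft_eq hz, LSeries_add _ (summable_of_abs (bfun_abs z χ) hs)]
  · rw [LSeries_delta]; rfl
  · unfold LSeriesSummable
    apply summable_of_ne_finset_zero (s := {1})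
    intro n hn
    rw [LSeries.term_delta]
    rw [Finset.mem_singleton] at hn
    rw [if_neg hn]

theorem logMul_lft {q : ℕ} {z : ℕ} (hz : 2 ≤ z) (χ : DirichletCharacter ℂ q) (j : ℕ) (hj : 1 ≤ j) :
    LSeries.logMul^[j] (fun n : ℕ => lft z χ (n : ZMod (q * primorial z))) =
      LSeries.logMul^[j] (bfun z χ) := by
  rw [lft_eq hz]
  ext n
  rw [logMul_iter, logMul_iter, Pi.add_apply]
  unfold LSeries.delta
  by_cases hn : n = 1
  · subst hn
    simp
    omega
  · rw [if_neg hn, zero_add]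

theorem lft_abs {q : ℕ} (z : ℕ) (χ : DirichletCharacter ℂ q) :
    LSeries.abscissaOfAbsConv (fun n : ℕ => lft z χ (n : ZMod (q * primorial z))) ≤ 1 := by
  apply LSeries.abscissaOfAbsConv_le_of_le_const
  exact ⟨1, fun n _ => DirichletCharacter.norm_le_one _ _⟩

/-- real-variable core of the lower bound -/
theorem lower_real (f : ℝ → ℝ) (C T l κ : ℝ) (hC : 1 ≤ C) (hT : 1 ≤ T) (hl : 0 < l)
    (hf : ∀ θ, 0 ≤ f θ) (ha : ∀ θ, 0 < θ → θ * l ≤ 1 → (θ * l) ^ 3 ≤ C ^ 4 * T * f θ ^ 4)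
    (hb : ∀ θ1 θ2, 0 < θ1 → θ1 ≤ θ2 → θ2 * l ≤ 1 → f θ2 ≤ f θ1 + C * T * l * (θ2 - θ1))
    (hκ : 0 < κ) (hκl : κ * l ≤ 1) : 1 / (16 * C ^ 7) / T ^ 4 ≤ f κ := by
  set δ := 1 / (2 * C ^ 2) with hδ
  have hδ0 : 0 < δ := by positivity
  have hδ1 : δ ≤ 1 := by
    rw [hδ, div_le_one (by positivity)]
    nlinarith
  set θ0 := δ ^ 4 / T ^ 5 / l with hθ0
  have hθl : θ0 * l = δ ^ 4 / T ^ 5 := by rw [hθ0]; field_simp
  have hθpos : 0 < θ0 := by positivity
  have hθ1 : θ0 * l ≤ 1 := by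
    rw [hθl, div_le_one (by positivity)]
    calc δ ^ 4 ≤ 1 := pow_le_one₀ hδ0.le hδ1
      _ ≤ T ^ 5 := one_le_pow₀ hT
  -- lower bound at θ ≥ θ0
  have hlow : ∀ θ, θ0 ≤ θ → θ * l ≤ 1 → δ ^ 3 / (C * T ^ 4) ≤ f θ := by
    intro θ h1 h2
    have h3 := ha θ (by linarith) h2
    have h4 : (δ ^ 4 / T ^ 5) ^ 3 ≤ (θ * l) ^ 3 := by
      rw [← hθl]
      gcongr
    have h5 : (δ ^ 3 / (C * T ^ 4)) ^ 4 ≤ f θ ^ 4 := by
      have h6 : C ^ 4 * T * (δ ^ 3 / (C * T ^ 4)) ^ 4 = (δ ^ 4 / T ^ 5) ^ 3 := by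
        field_simp
      have h7 : C ^ 4 * T * (δ ^ 3 / (C * T ^ 4)) ^ 4 ≤ C ^ 4 * T * f θ ^ 4 := by
        rw [h6]; exact h4.trans h3
      exact le_of_mul_le_mul_left h7 (by positivity)
    exact le_of_pow_le_pow_left₀ (by norm_num) (hf θ) h5
  have hfin : 1 / (16 * C ^ 7) / T ^ 4 = δ ^ 3 / (2 * C * T ^ 4) := by
    rw [hδ]; field_simp; norm_num
  rw [hfin]
  rcases le_or_gt θ0 κ with h | h
  · refine le_trans ?_ (hlow κ h hκl)
    apply div_le_div_of_nonneg_left (by positivity) (by positivity)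
    nlinarith [show 0 < C * T ^ 4 by positivity]
  · have h1 := hb κ θ0 hκ h.le hθ1
    have h2 := hlow θ0 le_rfl hθ1
    have h3 : C * T * l * (θ0 - κ) ≤ C * T * (δ ^ 4 / T ^ 5) := by
      rw [← hθl]
      have : C * T * l * (θ0 - κ) = C * T * (θ0 * l) - C * T * l * κ := by ring
      rw [this]
      have : 0 ≤ C * T * l * κ := by positivity
      linarith
    have h4 : δ ^ 3 / (C * T ^ 4) - C * T * (δ ^ 4 / T ^ 5) = δ ^ 3 / (2 * C * T ^ 4) := by
      have : C * T * (δ ^ 4 / T ^ 5) = δ ^ 3 / T ^ 4 * (C * δ) := by field_simp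
      rw [this]
      have h5 : C * δ = 1 / (2 * C) := by rw [hδ]; field_simp
      rw [h5]
      field_simp
      ring
    linarith

theorem L_bound : ∃ (c : ℝ) (z0 : ℕ), 0 < c ∧ 9 ≤ z0 ∧ ∀ z : ℕ, z0 ≤ z → ∀ q : ℕ, ∀ _ : NeZero q,
    (q : ℝ) ≤ (z : ℝ) ^ (1 / 2 : ℝ) → ∀ χ : DirichletCharacter ℂ q, χ ^ 2 ≠ 1 →
    ∀ κ : ℝ, 0 < κ → κ * Real.log z ≤ 1 → ∀ t : ℝ,
    c / (1 + |t|) ^ 4 ≤ ‖LSeries (fun n : ℕ => lft z χ (n : ZMod (q * primorial z)))
      ((1 + κ : ℝ) + t * Complex.I)‖ := by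
  obtain ⟨K1, z1, hK1, hz1, hU⟩ := U_bound
  obtain ⟨K2, z2, hK2, hz2, hT⟩ := triv_PB
  have hc0 := c0_pos
  set C := 1 + 8 * K2 + 16 * K1 * (2 / c0) ^ 1 + 16 * K1 * (2 / c0) ^ 2 with hC
  have hC1 : 1 ≤ C := by
    have : 0 ≤ 8 * K2 + 16 * K1 * (2 / c0) ^ 1 + 16 * K1 * (2 / c0) ^ 2 := by positivity
    linarith
  refine ⟨1 / (16 * C ^ 7), z1 + z2, by positivity, by omega, ?_⟩
  intro z hz q hq hqz χ hχ κ hκ hκl t
  have hz9 : 9 ≤ z := by omega
  have hzr : (9 : ℝ) ≤ z := by exact_mod_cast hz9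
  have hlz : 1 < Real.log z := by
    rw [Real.lt_log_iff_exp_lt (by linarith)]
    have := Real.exp_one_lt_d9
    linarith
  have hχ1 : χ ≠ 1 := by
    rintro rfl
    exact hχ (one_pow 2)
  set T := 1 + |t| with hTdef
  have hT1 : 1 ≤ T := by
    have := abs_nonneg t
    linarith
  set A : ℂ → ℂ := LSeries (fun n : ℕ => lft z χ (n : ZMod (q * primorial z))) with hA
  have hsre : ∀ θ : ℝ, 0 < θ → 1 < (((1 + θ : ℝ) : ℂ) + t * Complex.I).re := by
    intro θ hθ; simp [hθ]
  have hsnorm : ∀ θ u : ℝ, 0 < θ → θ ≤ 1 → ‖((1 + θ : ℝ) : ℂ) + u * Complex.I‖ ≤ 2 + |u| := by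
    intro θ u hθ hθ1
    calc ‖((1 + θ : ℝ) : ℂ) + u * Complex.I‖ ≤ ‖((1 + θ : ℝ) : ℂ)‖ + ‖(u : ℂ) * Complex.I‖ := norm_add_le _ _
      _ = (1 + θ) + |u| := by
          rw [Complex.norm_real, norm_mul, Complex.norm_I, mul_one, Complex.norm_real,
            Real.norm_of_nonneg (by linarith), Real.norm_eq_abs]
      _ ≤ 2 + |u| := by linarith
  apply lower_real (fun θ => ‖A ((1 + θ : ℝ) + t * Complex.I)‖) C T (Real.log z) κ hC1 hT1 (by linarith)
    (fun θ => norm_nonneg _) _ _ hκ hκl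
  · -- 3-4-1
    intro θ hθ hθl
    have hθ1 : θ ≤ 1 := by nlinarith
    have h341 := DirichletCharacter.norm_LSeries_product_ge_one (lft z χ) hθ t
    rw [norm_mul, norm_mul, norm_pow, norm_pow] at h341
    -- trivial character
    have hb1 : ‖LSeries (fun n : ℕ => (1 : DirichletCharacter ℂ (q * primorial z)) (n : ZMod (q * primorial z)))
        (1 + θ)‖ ≤ C / (θ * Real.log z) := by
      rw [← lft_one (q := q) z]
      have hre : 1 < (1 + (θ : ℂ)).re := by simp [hθ]
      rw [LSeries_lft (by omega) _ _ hre]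
      have h1 := (hT z (by omega) q hq).LSeries_le (mul_nonneg hK2.le (mp_nonneg z)) le_rfl (by norm_num)
        (1 + (θ : ℂ)) hre (summable_of_abs (bfun_abs z _) hre)
      have h2 : (1 + (θ : ℂ)).re - 1 = θ := by simp
      rw [h2, zero_add, Nat.factorial_zero, Nat.cast_one, one_mul, zero_add, pow_one] at h1
      have h3 : ‖1 + (θ : ℂ)‖ ≤ 2 := by
        have := hsnorm θ 0 hθ hθ1
        simpa using this
      have h4 := mp_le z (by omega)
      have h4' := mp_nonneg z
      have h5 : ‖LSeries (bfun z (1 : DirichletCharacter ℂ q)) (1 + θ)‖ ≤ 4 * K2 / (θ * Real.log z) := by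
        refine h1.trans ?_
        calc ‖1 + (θ : ℂ)‖ * (K2 * mp z * (2 / θ)) ≤ 2 * (K2 * (1 / Real.log z) * (2 / θ)) := by gcongr
          _ = 4 * K2 / (θ * Real.log z) := by field_simp; ring
      have h6 : 1 ≤ 1 / (θ * Real.log z) := by
        rw [le_div_iff₀ (by positivity)]; linarith
      calc ‖1 + LSeries (bfun z (1 : DirichletCharacter ℂ q)) (1 + θ)‖
          ≤ ‖(1 : ℂ)‖ + ‖LSeries (bfun z (1 : DirichletCharacter ℂ q)) (1 + θ)‖ := norm_add_le _ _
        _ ≤ 1 / (θ * Real.log z) + 4 * K2 / (θ * Real.log z) := by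
            rw [norm_one]; exact add_le_add h6 h5
        _ = (1 + 4 * K2) / (θ * Real.log z) := by ring
        _ ≤ C / (θ * Real.log z) := by
            gcongr
            rw [hC]
            have : 0 ≤ 16 * K1 * (2 / c0) ^ 1 + 16 * K1 * (2 / c0) ^ 2 := by positivity
            linarith
    -- square character
    have hb2 : ‖LSeries (fun n : ℕ => ((lft z χ) ^ 2 : DirichletCharacter ℂ (q * primorial z))
        (n : ZMod (q * primorial z))) (1 + θ + 2 * Complex.I * t)‖ ≤ C * T := by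
      rw [lft_sq]
      have hs' : (1 + (θ : ℂ) + 2 * Complex.I * t) = ((1 + θ : ℝ) : ℂ) + ((2 * t : ℝ) : ℂ) * Complex.I := by
        push_cast; ring
      rw [hs']
      have hre : 1 < (((1 + θ : ℝ) : ℂ) + ((2 * t : ℝ) : ℂ) * Complex.I).re := by
        simp only [Complex.add_re, Complex.ofReal_re, Complex.mul_re, Complex.I_re, mul_zero,
          Complex.ofReal_im, Complex.I_im, mul_one, sub_self, add_zero]
        linarith
      rw [LSeries_lft (by omega) _ _ hre]
      have h1 := hU z (by omega) q hq hqz (χ ^ 2) hχ 0 _ hre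
      simp only [Function.iterate_zero, id_eq, pow_zero, Nat.factorial_zero, Nat.cast_one, one_mul,
        zero_add, mul_one] at h1
      have h2 := hsnorm θ (2 * t) hθ hθ1
      rw [abs_mul, abs_of_pos (by norm_num : (0 : ℝ) < 2)] at h2
      calc ‖1 + LSeries (bfun z (χ ^ 2)) (((1 + θ : ℝ) : ℂ) + ((2 * t : ℝ) : ℂ) * Complex.I)‖
          ≤ ‖(1 : ℂ)‖ + ‖LSeries (bfun z (χ ^ 2)) (((1 + θ : ℝ) : ℂ) + ((2 * t : ℝ) : ℂ) * Complex.I)‖ :=
            norm_add_le _ _
        _ ≤ 1 + K1 * (2 / c0) ^ 1 * (2 + 2 * |t|) := by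
            rw [norm_one]
            gcongr
            refine h1.trans ?_
            gcongr
        _ ≤ C * T := by
            rw [hC]
            have h3 : 0 ≤ K1 * (2 / c0) ^ 1 := by positivity
            have h4 : 0 ≤ K1 * (2 / c0) ^ 2 := by positivity
            have h5 : 2 + 2 * |t| = 2 * T := by rw [hTdef]; ring
            rw [h5]
            have h6 : 0 ≤ K1 * (2 / c0) ^ 1 * T := by positivity
            have h7 : 0 ≤ K1 * (2 / c0) ^ 2 * T := by positivity
            have h8 : 0 ≤ K2 * T := by positivity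
            nlinarith
    have hAeq : LSeries (fun n : ℕ => (lft z χ) (n : ZMod (q * primorial z))) (1 + θ + Complex.I * t) =
        A ((1 + θ : ℝ) + t * Complex.I) := by
      rw [hA]; congr 1; push_cast; ring
    rw [hAeq] at h341
    set a := ‖A ((1 + θ : ℝ) + t * Complex.I)‖ with ha
    have ha0 : 0 ≤ a := norm_nonneg _
    have hθl0 : 0 < θ * Real.log z := by positivity
    have h1 : 1 ≤ (C / (θ * Real.log z)) ^ 3 * a ^ 4 * (C * T) := by
      refine le_trans h341 ?_
      gcongr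
    have h2 : (C / (θ * Real.log z)) ^ 3 * a ^ 4 * (C * T) * (θ * Real.log z) ^ 3 = C ^ 4 * T * a ^ 4 := by
      field_simp
    calc (θ * Real.log z) ^ 3 = 1 * (θ * Real.log z) ^ 3 := (one_mul _).symm
      _ ≤ (C / (θ * Real.log z)) ^ 3 * a ^ 4 * (C * T) * (θ * Real.log z) ^ 3 :=
          mul_le_mul_of_nonneg_right h1 (by positivity)
      _ = C ^ 4 * T * a ^ 4 := h2
  · -- derivative
    intro θ1 θ2 h1 h12 h2l
    have hθ2 : θ2 ≤ 1 := by nlinarith
    have hderiv : ∀ θ : ℝ, 0 < θ → HasDerivAt (fun θ : ℝ => A ((1 + θ : ℝ) + t * Complex.I))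
        (-LSeries (LSeries.logMul (fun n : ℕ => lft z χ (n : ZMod (q * primorial z))))
          ((1 + θ : ℝ) + t * Complex.I)) θ := by
      intro θ hθ
      have h3 : HasDerivAt A (-LSeries (LSeries.logMul (fun n : ℕ => lft z χ (n : ZMod (q * primorial z))))
          (1 + (θ : ℂ) + t * Complex.I)) (1 + (θ : ℂ) + t * Complex.I) := by
        apply LSeries_hasDerivAt
        refine lt_of_le_of_lt (lft_abs z χ) ?_
        have : (1 + (θ : ℂ) + t * Complex.I).re = 1 + θ := by simp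
        rw [this]
        exact_mod_cast (by linarith : (1 : ℝ) < 1 + θ)
      have h4 : HasDerivAt (fun w : ℂ => 1 + w + t * Complex.I) 1 (θ : ℂ) := by
        have := ((hasDerivAt_id (θ : ℂ)).const_add 1).add_const (t * Complex.I)
        simpa using this
      have h5 := (HasDerivAt.comp (θ : ℂ) h3 h4).comp_ofReal
      rw [mul_one] at h5
      have h6 : (fun θ : ℝ => A ((1 + θ : ℝ) + t * Complex.I)) =
          fun y : ℝ => (A ∘ fun w : ℂ => 1 + w + t * Complex.I) (y : ℂ) := by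
        ext y
        simp only [Function.comp]
        push_cast
        rfl
      rw [h6]
      push_cast
      exact h5
    have hbd : ∀ θ ∈ Set.Ico θ1 θ2, ‖-LSeries (LSeries.logMul (fun n : ℕ => lft z χ (n : ZMod (q * primorial z))))
          ((1 + θ : ℝ) + t * Complex.I)‖ ≤ C * T * Real.log z := by
      intro θ hθ
      have hθ0 : 0 < θ := lt_of_lt_of_le h1 hθ.1
      have hθ1 : θ ≤ 1 := by linarith [hθ.2]
      rw [norm_neg]
      have h3 := logMul_lft (by omega : 2 ≤ z) χ 1 le_rfl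
      simp only [Function.iterate_one] at h3
      rw [h3]
      have h4 := hU z (by omega) q hq hqz χ hχ1 1 _ (hsre θ hθ0)
      simp only [Function.iterate_one, pow_one, Nat.factorial_one, Nat.cast_one, mul_one] at h4
      refine h4.trans ?_
      have h5 := hsnorm θ t hθ0 hθ1
      have h6 : 2 + |t| ≤ 2 * T := by rw [hTdef]; have := abs_nonneg t; linarith
      calc K1 * (2 * (2 / c0) ^ (1 + 1)) * ‖((1 + θ : ℝ) : ℂ) + t * Complex.I‖ * Real.log z
          ≤ K1 * (2 * (2 / c0) ^ (1 + 1)) * (2 * T) * Real.log z := by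
            gcongr
            exact h5.trans h6
        _ = 4 * (K1 * (2 / c0) ^ 2) * T * Real.log z := by ring
        _ ≤ C * T * Real.log z := by
            have h7 : 0 ≤ K1 * (2 / c0) ^ 1 := by positivity
            have h8 : 0 ≤ K1 * (2 / c0) ^ 2 := by positivity
            gcongr
            rw [hC]
            nlinarith
    have h3 := norm_image_sub_le_of_norm_deriv_le_segment'
      (f := fun θ : ℝ => A ((1 + θ : ℝ) + t * Complex.I))
      (fun θ hθ => (hderiv θ (lt_of_lt_of_le h1 hθ.1)).hasDerivWithinAt) hbd θ2 ⟨h12, le_rfl⟩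
    have h4 := norm_sub_norm_le (A ((1 + θ2 : ℝ) + t * Complex.I)) (A ((1 + θ1 : ℝ) + t * Complex.I))
    linarith

end Pool.Agent.H22
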