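import Pool.Agent.H22.RDiff

/-!
Characters modulo `2^k W` that do not come from characters modulo `8 W`.
-/

set_option autoImplicit false

open Finset Real MeasureTheory

namespace Pool.Agent.H22

open Pool.Agent.H16

theorem exists_sqrt (W u : ℤ) (hu : 8 * W ∣ u - 1) (k : ℕ) (hk : 3 ≤ k) :
    ∃ v : ℤ, Odd v ∧ (2 ^ k * W) ∣ v ^ 2 - u := by
  induction k, hk using Nat.le_induction with
  | base =>
    refine ⟨1, odd_one, ?_⟩
    have h1 : (1 : ℤ) ^ 2 - u = -(u - 1) := by ring
    rw [h1, dvd_neg]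
    norm_num
    exact hu
  | succ k hk ih =>
    obtain ⟨v, hv, m, hm⟩ := ih
    obtain ⟨c, hc⟩ := hv
    obtain ⟨r, rfl⟩ : ∃ r, k = r + 3 := ⟨k - 3, by omega⟩
    refine ⟨v + 2 ^ (r + 2) * W * m, ?_, ?_⟩
    · rw [hc]
      refine ⟨c + 2 ^ (r + 1) * W * m, ?_⟩
      ring
    · have h1 : (v + 2 ^ (r + 2) * W * m) ^ 2 - u =
          (v ^ 2 - u) + 2 ^ (r + 3) * W * m * v + 2 ^ (2 * r + 4) * W ^ 2 * m ^ 2 := by ring
      rw [h1, hm, hc]
      refine ⟨m * (1 + c) + 2 ^ r * W * m ^ 2, ?_⟩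
      ring

/-- characters whose square is trivial come from modulus `8 W` -/
theorem factors_of_sq (k W : ℕ) (hk : 3 ≤ k) (hW : 1 ≤ W) (χ : DirichletCharacter ℂ (2 ^ k * W))
    (hχ : χ ^ 2 = 1) : DirichletCharacter.FactorsThrough χ (8 * W) := by
  have hq : NeZero (2 ^ k * W) := ⟨by positivity⟩
  have hd : 8 * W ∣ 2 ^ k * W := by
    apply Nat.mul_dvd_mul_right
    exact pow_dvd_pow 2 hk
  rw [DirichletCharacter.factorsThrough_iff_ker_unitsMap hd]
  intro u hu
  rw [MonoidHom.mem_ker] at hu ⊢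
  have h1 : ((u : ZMod (2 ^ k * W)).val : ZMod (8 * W)) = 1 := by
    have h2 := congrArg (fun x : (ZMod (8 * W))ˣ => (x : ZMod (8 * W))) hu
    simp only [ZMod.unitsMap_val, Units.val_one] at h2
    rw [← h2, ZMod.natCast_val]
  have h3 : ((8 * W : ℕ) : ℤ) ∣ (((u : ZMod (2 ^ k * W)).val : ℤ)) - 1 := by
    rw [← ZMod.intCast_zmod_eq_zero_iff_dvd]
    push_cast
    push_cast at h1
    rw [h1]; ring
  push_cast at h3
  obtain ⟨v, -, hv⟩ := exists_sqrt (W : ℤ) _ h3 k hk
  have h4 : ((v : ZMod (2 ^ k * W))) ^ 2 = (u : ZMod (2 ^ k * W)) := by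
    have h5 : ((2 ^ k * W : ℕ) : ℤ) ∣ v ^ 2 - ((u : ZMod (2 ^ k * W)).val : ℤ) := by
      push_cast; exact hv
    rw [← ZMod.intCast_zmod_eq_zero_iff_dvd] at h5
    push_cast at h5
    rw [ZMod.natCast_val, ZMod.cast_id', id_eq, sub_eq_zero] at h5
    exact h5
  have hvu : IsUnit (v : ZMod (2 ^ k * W)) := by
    have : IsUnit ((v : ZMod (2 ^ k * W)) ^ 2) := by rw [h4]; exact u.isUnit
    exact (isUnit_pow_iff (by norm_num)).mp this
  have h6 : χ (u : ZMod (2 ^ k * W)) = 1 := by
    rw [← h4, map_pow]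
    have h7 : (χ ^ 2) (v : ZMod (2 ^ k * W)) = 1 := by
      rw [hχ]
      exact MulChar.one_apply hvu
    rw [MulChar.pow_apply' χ (by norm_num)] at h7
    exact h7
  ext
  rw [MulChar.coe_toUnitHom]
  simpa using h6

open scoped Classical in
/-- characters mod `q` not induced from modulus `N` -/
noncomputable def hi (q N : ℕ) : Finset (DirichletCharacter ℂ q) :=
  (Finset.univ : Finset (DirichletCharacter ℂ q)).filter (fun χ => ¬ DirichletCharacter.FactorsThrough χ N)

theorem orth_hi {q N : ℕ} [NeZero q] [NeZero N] (hN : N ∣ q) (hrad : ∀ n : ℕ, Nat.Coprime n N → Nat.Coprime n q)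
    (a : ZMod q) (ha : IsUnit a) (n : ℕ) :
    ∑ χ ∈ hi q N, χ a⁻¹ * χ (n : ZMod q) =
      (if a = (n : ZMod q) then (Nat.totient q : ℂ) else 0) -
      (if ZMod.castHom hN (ZMod N) a = (n : ZMod N) then (Nat.totient N : ℂ) else 0) := by
  classical
  have hall := DirichletCharacter.sum_char_inv_mul_char_eq ℂ ha (n : ZMod q)
  have hsplit : ∑ χ : DirichletCharacter ℂ q, χ a⁻¹ * χ (n : ZMod q) =
      ∑ χ ∈ hi q N, χ a⁻¹ * χ (n : ZMod q) +
      ∑ χ ∈ (Finset.univ : Finset (DirichletCharacter ℂ q)).filter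
        (fun χ => DirichletCharacter.FactorsThrough χ N), χ a⁻¹ * χ (n : ZMod q) := by
    unfold hi
    rw [add_comm]
    exact (Finset.sum_filter_add_sum_filter_not _ _ _).symm
  have hlow : ∑ χ ∈ (Finset.univ : Finset (DirichletCharacter ℂ q)).filter
        (fun χ => DirichletCharacter.FactorsThrough χ N), χ a⁻¹ * χ (n : ZMod q) =
      (if ZMod.castHom hN (ZMod N) a = (n : ZMod N) then (Nat.totient N : ℂ) else 0) := by
    have himg : (Finset.univ : Finset (DirichletCharacter ℂ q)).filter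
        (fun χ => DirichletCharacter.FactorsThrough χ N) =
        (Finset.univ : Finset (DirichletCharacter ℂ N)).image (DirichletCharacter.changeLevel hN) := by
      ext χ
      simp only [Finset.mem_filter, Finset.mem_univ, true_and, Finset.mem_image]
      constructor
      · rintro ⟨h, χ₀, rfl⟩
        exact ⟨χ₀, rfl⟩
      · rintro ⟨χ₀, rfl⟩
        exact ⟨hN, χ₀, rfl⟩
    rw [himg, Finset.sum_image (fun x _ y _ h => DirichletCharacter.changeLevel_injective hN h)]
    by_cases hn : Nat.Coprime n q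
    · have hnu : IsUnit (n : ZMod q) := (ZMod.isUnit_iff_coprime n q).mpr hn
      have hau : IsUnit a⁻¹ := by
        have h1 : a * a⁻¹ = 1 := ZMod.mul_inv_of_unit a ha
        exact IsUnit.of_mul_eq_one a (by rw [mul_comm]; exact h1)
      obtain ⟨u, hu⟩ := hau.mul hnu
      have h1 : ∀ ψ : DirichletCharacter ℂ N,
          (DirichletCharacter.changeLevel hN ψ) a⁻¹ * (DirichletCharacter.changeLevel hN ψ) (n : ZMod q) =
          ψ (ZMod.castHom hN (ZMod N) (a⁻¹ * (n : ZMod q))) := by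
        intro ψ
        rw [← map_mul, ← hu, DirichletCharacter.changeLevel_eq_cast_of_dvd ψ hN u]
        rfl
      simp_rw [h1]
      rw [DirichletCharacter.sum_characters_eq]
      have h2 : ZMod.castHom hN (ZMod N) (a⁻¹ * (n : ZMod q)) = 1 ↔
          ZMod.castHom hN (ZMod N) a = (n : ZMod N) := by
        have h3 : ZMod.castHom hN (ZMod N) a * ZMod.castHom hN (ZMod N) a⁻¹ = 1 := by
          rw [← map_mul, ZMod.mul_inv_of_unit a ha, map_one]
        rw [map_mul, map_natCast]
        constructor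
        · intro h
          calc ZMod.castHom hN (ZMod N) a = ZMod.castHom hN (ZMod N) a *
                (ZMod.castHom hN (ZMod N) a⁻¹ * (n : ZMod N)) := by rw [h, mul_one]
            _ = (n : ZMod N) := by rw [← mul_assoc, h3, one_mul]
        · intro h
          rw [← h, mul_comm, h3]
      simp only [h2]
    · have hnu : ¬ IsUnit (n : ZMod q) := fun h => hn ((ZMod.isUnit_iff_coprime n q).mp h)
      rw [if_neg, Finset.sum_eq_zero]
      · intro ψ _
        rw [MulChar.map_nonunit _ hnu, mul_zero]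
      · intro h
        apply hn
        apply hrad
        rw [← ZMod.isUnit_iff_coprime, ← h]
        exact ha.map _
  rw [hsplit, hlow] at hall
  rw [← hall]
  ring

end Pool.Agent.H22
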