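import Mathlib

/-!
# (copy of a file of helper90) The Wiener-Ikehara theorem and the prime number theorem (also in arithmetic progressions)

Main results:
* `Pool.Agent.H22.P90.wienerIkehara`
* `Pool.Agent.H22.P90.tendsto_residueClass_sum_div` : for a unit `a` mod `q`, the sum of `Λ n` over
  `n ≤ x`, `n ≡ a`, divided by `x`, tends to `1/φ(q)`.
* `Pool.Agent.H22.P90.tendsto_psi_div`, `tendsto_theta_div`, `tendsto_primeCounting` : PNT.
* `Pool.Agent.H22.P90.tendsto_theta_residue_div`, `tendsto_primeCounting_residue` : PNT in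
  arithmetic progressions.
-/

open MeasureTheory Set Filter Topology Complex
open scoped Real FourierTransform

namespace Pool.Agent.H22.P90

/-- Fejer kernel -/
noncomputable def fejer (w : ℝ) : ℝ := ∫ t in (-1:ℝ)..1, (1 - |t|) * Real.cos (t * w)

lemma fejer_eq_two_mul (w : ℝ) : fejer w = 2 * ∫ t in (0:ℝ)..1, (1 - t) * Real.cos (t * w) := by
  have hcont : Continuous fun t : ℝ => (1 - |t|) * Real.cos (t * w) := by fun_prop
  unfold fejer
  rw [← intervalIntegral.integral_add_adjacent_intervals (a := -1) (b := 0) (c := 1)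
    (hcont.intervalIntegrable _ _) (hcont.intervalIntegrable _ _)]
  have h1 : ∫ t in (-1:ℝ)..0, (1 - |t|) * Real.cos (t * w) =
      ∫ t in (0:ℝ)..1, (1 - |t|) * Real.cos (t * w) := by
    have := intervalIntegral.integral_comp_neg (a := 0) (b := 1)
      (fun t : ℝ => (1 - |t|) * Real.cos (t * w))
    simp only [neg_zero, abs_neg, neg_mul, Real.cos_neg] at this
    exact this.symm
  have h2 : ∫ t in (0:ℝ)..1, (1 - |t|) * Real.cos (t * w) =
      ∫ t in (0:ℝ)..1, (1 - t) * Real.cos (t * w) := by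
    apply intervalIntegral.integral_congr
    intro t ht
    rw [uIcc_of_le zero_le_one] at ht
    simp only [abs_of_nonneg ht.1]
  rw [h1, h2]; ring

lemma fejer_mul_sq (w : ℝ) : fejer w * w ^ 2 = 2 * (1 - Real.cos w) := by
  by_cases hw : w = 0
  · simp [hw]
  have h : ∫ t in (0:ℝ)..1, (1 - t) * Real.cos (t * w) = (1 - Real.cos w) / w ^ 2 := by
    have hderiv : ∀ t ∈ uIcc (0:ℝ) 1, HasDerivAt
        (fun t : ℝ => (1 - t) * Real.sin (t * w) / w - Real.cos (t * w) / w ^ 2)
        ((1 - t) * Real.cos (t * w)) t := by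
      intro t _
      have h1 : HasDerivAt (fun t : ℝ => t * w) w t := by
        simpa using (hasDerivAt_id t).mul_const w
      have h2 := h1.sin
      have h3 := h1.cos
      have h4 : HasDerivAt (fun t : ℝ => 1 - t) (-1) t := by
        simpa using (hasDerivAt_id t).const_sub 1
      have h5 := ((h4.mul h2).div_const w).sub (h3.div_const (w ^ 2))
      refine h5.congr_deriv ?_
      field_simp
      ring
    rw [intervalIntegral.integral_eq_sub_of_hasDerivAt hderiv]
    · simp only [sub_self, zero_mul, zero_div, one_mul, Real.sin_zero, Real.cos_zero, mul_zero]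
      ring
    · apply Continuous.intervalIntegrable
      fun_prop
  rw [fejer_eq_two_mul, h]
  field_simp

lemma fejer_neg (w : ℝ) : fejer (-w) = fejer w := by
  unfold fejer
  simp

lemma fejer_continuous : Continuous fejer := by
  unfold fejer
  apply intervalIntegral.continuous_parametric_intervalIntegral_of_continuous'
  fun_prop

lemma fejer_nonneg (w : ℝ) : 0 ≤ fejer w := by
  by_cases hw : w = 0
  · rw [hw, fejer_eq_two_mul]
    apply mul_nonneg zero_le_two
    apply intervalIntegral.integral_nonneg zero_le_one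
    intro t ht
    simp only [mul_zero, Real.cos_zero, mul_one]
    linarith [ht.2]
  · have h := fejer_mul_sq w
    have h2 : 0 < w ^ 2 := by positivity
    have h3 : 0 ≤ 2 * (1 - Real.cos w) := by linarith [Real.cos_le_one w]
    rw [← h] at h3
    exact nonneg_of_mul_nonneg_left h3 h2

lemma integral_one_sub : ∫ t in (0:ℝ)..1, (1 - t) = 1 / 2 := by
  rw [intervalIntegral.integral_sub (by simp) (by simp)]
  simp
  norm_num

lemma fejer_le_one (w : ℝ) : fejer w ≤ 1 := by
  rw [fejer_eq_two_mul]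
  have h1 : ∫ t in (0:ℝ)..1, (1 - t) * Real.cos (t * w) ≤ ∫ t in (0:ℝ)..1, (1 - t) := by
    apply intervalIntegral.integral_mono_on zero_le_one
    · apply Continuous.intervalIntegrable; fun_prop
    · apply Continuous.intervalIntegrable; fun_prop
    · intro t ht
      have := Real.cos_le_one (t * w)
      nlinarith [ht.2]
  rw [integral_one_sub] at h1
  linarith

lemma fejer_le_div (w : ℝ) (hw : w ≠ 0) : fejer w ≤ 4 / w ^ 2 := by
  have h := fejer_mul_sq w
  have h2 : 0 < w ^ 2 := by positivity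
  rw [le_div_iff₀ h2, h]
  linarith [Real.neg_one_le_cos w]

lemma fejer_ge (w : ℝ) (hw : |w| ≤ 1) : 1 / 4 ≤ fejer w := by
  by_cases hw0 : w = 0
  · subst hw0
    rw [fejer_eq_two_mul]
    have : ∫ t in (0:ℝ)..1, (1 - t) * Real.cos (t * 0) = 1 / 2 := by
      simp only [mul_zero, Real.cos_zero, mul_one, integral_one_sub]
    rw [this]; norm_num
  · have h := fejer_mul_sq w
    have h2 : 0 < w ^ 2 := by positivity
    have hpi : |w| ≤ π := hw.trans (by linarith [Real.pi_gt_three])
    have h3 := Real.cos_le_one_sub_mul_cos_sq hpi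
    have h4 : Real.cos w ≤ 1 - w ^ 2 / 8 := by
      have h5 : (1:ℝ) / 8 ≤ 2 / π ^ 2 := by
        rw [div_le_div_iff₀ (by norm_num) (by positivity)]
        nlinarith [Real.pi_lt_four, Real.pi_pos]
      nlinarith
    by_contra hlt
    push Not at hlt
    nlinarith

lemma fejer_le_inv (w : ℝ) : fejer w ≤ 5 * (1 + w ^ 2)⁻¹ := by
  have h := fejer_mul_sq w
  have h1 := fejer_le_one w
  have h2 := Real.neg_one_le_cos w
  rw [← div_eq_mul_inv, le_div_iff₀ (by positivity)]
  nlinarith

lemma fejer_integrable : Integrable fejer := by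
  refine Integrable.mono' (integrable_inv_one_add_sq.const_mul 5)
    fejer_continuous.aestronglyMeasurable (ae_of_all _ fun w => ?_)
  rw [Real.norm_of_nonneg (fejer_nonneg w)]
  exact fejer_le_inv w

lemma fejer_complex (w : ℝ) :
    ∫ t in (-1:ℝ)..1, ((1 - |t| : ℝ) : ℂ) * cexp (I * (t * w)) = (fejer w : ℂ) := by
  have hc : Continuous fun t : ℝ => ((1 - |t| : ℝ) : ℂ) * cexp (I * (t * w)) := by fun_prop
  have hc' : Continuous fun t : ℝ => ((1 - |t| : ℝ) : ℂ) * cexp (-(I * (t * w))) := by fun_prop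
  set J := ∫ t in (-1:ℝ)..1, ((1 - |t| : ℝ) : ℂ) * cexp (I * (t * w)) with hJ
  have h1 : J = ∫ t in (-1:ℝ)..1, ((1 - |t| : ℝ) : ℂ) * cexp (-(I * (t * w))) := by
    have := intervalIntegral.integral_comp_neg (a := -1) (b := 1)
      (fun t : ℝ => ((1 - |t| : ℝ) : ℂ) * cexp (I * (t * w)))
    rw [hJ]
    rw [neg_neg] at this
    rw [← this]
    apply intervalIntegral.integral_congr
    intro t _
    simp
  have h2 : J + J = 2 * (fejer w : ℂ) := by
    nth_rewrite 2 [h1]
    rw [hJ, ← intervalIntegral.integral_add (hc.intervalIntegrable _ _)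
      (hc'.intervalIntegrable _ _)]
    unfold fejer
    rw [← intervalIntegral.integral_ofReal, ← intervalIntegral.integral_const_mul]
    apply intervalIntegral.integral_congr
    intro t _
    simp only [ofReal_mul, ofReal_cos, Complex.cos]
    have e1 : I * ((t:ℂ) * w) = (t:ℂ) * w * I := by ring
    have e2 : -((t:ℂ) * w) * I = -((t:ℂ) * w * I) := by ring
    rw [e1, e2]
    ring
  have h3 : (2:ℂ) * J = 2 * (fejer w : ℂ) := by rw [← h2]; ring
  exact mul_left_cancel₀ two_ne_zero h3

lemma fejer_shift_integrable (l : ℝ) (hl : 0 < l) (y : ℝ) :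
    Integrable (fun u : ℝ => fejer (l * (y - u))) := by
  have h1 : Integrable (fun u : ℝ => fejer (l * u)) := fejer_integrable.comp_mul_left' hl.ne'
  exact h1.comp_sub_left y

/-- Step A -/
lemma stepA (h : ℝ → ℝ) (hm : Measurable h) (C : ℝ) (hb : ∀ u, |h u| ≤ C)
    (g : ℂ → ℂ)
    (hlap : ∀ z : ℂ, 0 < z.re → ∫ u in Ioi (0:ℝ), (h u : ℂ) * cexp (-(z * u)) = g z)
    (l y σ : ℝ) (hσ : 0 < σ) :
    ∫ u in Ioi (0:ℝ), ((h u : ℂ) * cexp (-(σ * u))) * (fejer (l * (y - u)) : ℂ) =
      ∫ t in (-1:ℝ)..1, (((1 - |t| : ℝ) : ℂ) * cexp (I * (t * (l * y)))) * g (σ + I * (l * t)) := by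
  have hC : 0 ≤ C := (abs_nonneg _).trans (hb 0)
  have e1 : ∀ u : ℝ, ((h u : ℂ) * cexp (-(σ * u))) * (fejer (l * (y - u)) : ℂ) =
      ∫ t in Ioc (-1:ℝ) 1, ((h u : ℂ) * cexp (-(σ * u))) *
        (((1 - |t| : ℝ) : ℂ) * cexp (I * (t * (l * (y - u))))) := by
    intro u
    rw [← fejer_complex, ← intervalIntegral.integral_of_le (by norm_num : (-1:ℝ) ≤ 1),
      intervalIntegral.integral_const_mul]
    congr 1
    apply intervalIntegral.integral_congr
    intro t _
    simp only [ofReal_mul, ofReal_sub]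
  simp_rw [e1]
  rw [integral_integral_swap]
  · rw [intervalIntegral.integral_of_le (by norm_num : (-1:ℝ) ≤ 1)]
    apply integral_congr_ae
    apply ae_of_all
    intro t
    simp only
    have hz : 0 < (((σ:ℂ) + I * (l * t))).re := by
      simp [hσ]
    rw [← hlap _ hz, ← integral_const_mul]
    apply integral_congr_ae
    apply ae_of_all
    intro u
    simp only
    have e2 : cexp (I * (t * (l * (y - u)))) = cexp (I * (t * (l * y))) * cexp (-(I * (l * t) * u)) := by
      rw [← Complex.exp_add]; congr 1; ring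
    have e3 : cexp (-((σ + I * (l * t)) * u)) = cexp (-(σ * u)) * cexp (-(I * (l * t) * u)) := by
      rw [← Complex.exp_add]; congr 1; ring
    rw [e2, e3]; ring
  · have hint : Integrable (fun p : ℝ × ℝ => C * Real.exp (-(σ * p.1)))
        ((volume.restrict (Ioi (0:ℝ))).prod (volume.restrict (Ioc (-1:ℝ) 1))) := by
      have h0 : Integrable (fun u : ℝ => C * Real.exp (-(σ * u))) (volume.restrict (Ioi (0:ℝ))) := by
        apply Integrable.const_mul
        have := integrableOn_exp_mul_Ioi (a := -σ) (by linarith) 0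
        simp only [neg_mul] at this
        exact this
      exact h0.comp_fst _
    refine hint.mono' ?_ ?_
    · apply Measurable.aestronglyMeasurable
      fun_prop
    · rw [Measure.prod_restrict]
      apply ae_restrict_of_forall_mem (measurableSet_Ioi.prod measurableSet_Ioc)
      rintro ⟨u, t⟩ ⟨_, ht⟩
      have ht' : |t| ≤ 1 := abs_le.mpr ⟨ht.1.le, ht.2⟩
      have n1 : ‖cexp (-((σ:ℂ) * u))‖ = Real.exp (-(σ * u)) := by
        rw [Complex.norm_exp]; simp
      have n2 : ‖cexp (I * ((t:ℂ) * (l * (y - u))))‖ = 1 := by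
        have : I * ((t:ℂ) * (l * (y - u))) = ((t * (l * (y - u)) : ℝ) : ℂ) * I := by
          push_cast; ring
        rw [this, Complex.norm_exp_ofReal_mul_I]
      have n3 : ‖((1 - |t| : ℝ) : ℂ)‖ ≤ 1 := by
        rw [Complex.norm_real, Real.norm_eq_abs, abs_le]
        constructor <;> linarith [abs_nonneg t]
      have n4 : ‖((h u : ℝ) : ℂ)‖ ≤ C := by
        rw [Complex.norm_real]; exact hb u
      simp only [Function.uncurry_apply_pair]
      rw [norm_mul, norm_mul, norm_mul, n1, n2, mul_one]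
      calc ‖(h u : ℂ)‖ * Real.exp (-(σ * u)) * ‖((1 - |t| : ℝ) : ℂ)‖
          ≤ C * Real.exp (-(σ * u)) * 1 := by gcongr
        _ = C * Real.exp (-(σ * u)) := mul_one _

/-- Step B -/
lemma stepB (h : ℝ → ℝ) (hm : Measurable h) (C : ℝ) (hb : ∀ u, |h u| ≤ C)
    (g : ℂ → ℂ) (hg : ContinuousOn g {z | 0 ≤ z.re})
    (hlap : ∀ z : ℂ, 0 < z.re → ∫ u in Ioi (0:ℝ), (h u : ℂ) * cexp (-(z * u)) = g z)
    (l y : ℝ) (hl : 0 < l) :
    ∫ u in Ioi (0:ℝ), (h u : ℂ) * (fejer (l * (y - u)) : ℂ) =
      ∫ t in (-1:ℝ)..1, (((1 - |t| : ℝ) : ℂ) * cexp (I * (t * (l * y)))) * g (I * (l * t)) := by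
  have hC : 0 ≤ C := (abs_nonneg _).trans (hb 0)
  set σ : ℕ → ℝ := fun n => 1 / ((n:ℝ) + 1) with hσ
  have hσpos : ∀ n, 0 < σ n := fun n => Nat.one_div_pos_of_nat
  have hσle : ∀ n, σ n ≤ 1 := fun n => by
    rw [hσ]; simp only
    rw [div_le_one (by positivity)]
    linarith [Nat.cast_nonneg (α := ℝ) n]
  have hσlim : Tendsto σ atTop (𝓝 0) := tendsto_one_div_add_atTop_nhds_zero_nat
  have hL : Tendsto (fun n => ∫ u in Ioi (0:ℝ), ((h u : ℂ) * cexp (-((σ n : ℝ) * u))) *
      (fejer (l * (y - u)) : ℂ)) atTop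
      (𝓝 (∫ u in Ioi (0:ℝ), (h u : ℂ) * (fejer (l * (y - u)) : ℂ))) := by
    apply tendsto_integral_of_dominated_convergence (fun u => C * fejer (l * (y - u)))
    · intro n
      apply Measurable.aestronglyMeasurable
      have := fejer_continuous.measurable
      fun_prop
    · exact ((fejer_shift_integrable l hl y).const_mul C).restrict
    · intro n
      apply ae_restrict_of_forall_mem measurableSet_Ioi
      intro u hu
      have hu' : (0:ℝ) < u := hu
      have n1 : ‖cexp (-(((σ n : ℝ) : ℂ) * u))‖ ≤ 1 := by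
        rw [Complex.norm_exp]
        simp only [neg_re, mul_re, ofReal_re, ofReal_im, mul_zero, sub_zero]
        rw [Real.exp_le_one_iff]
        have := mul_pos (hσpos n) hu'
        linarith
      have n4 : ‖((h u : ℝ) : ℂ)‖ ≤ C := by
        rw [Complex.norm_real]; exact hb u
      have n5 : ‖((fejer (l * (y - u)) : ℝ) : ℂ)‖ = fejer (l * (y - u)) := by
        rw [Complex.norm_real, Real.norm_of_nonneg (fejer_nonneg _)]
      rw [norm_mul, norm_mul, n5]
      have hf := fejer_nonneg (l * (y - u))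
      calc ‖(h u : ℂ)‖ * ‖cexp (-(((σ n : ℝ) : ℂ) * u))‖ * fejer (l * (y - u))
          ≤ C * 1 * fejer (l * (y - u)) := by gcongr
        _ = C * fejer (l * (y - u)) := by ring
    · apply ae_of_all
      intro u
      have h1 : Tendsto (fun n => cexp (-(((σ n : ℝ) : ℂ) * u))) atTop (𝓝 1) := by
        have h2 : Tendsto (fun n => -(((σ n : ℝ) : ℂ) * u)) atTop (𝓝 (-(((0:ℝ):ℂ) * u))) :=
          ((((continuous_ofReal.tendsto 0).comp hσlim)).mul_const _).neg
        have h3 := (Complex.continuous_exp.tendsto _).comp h2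
        simpa [Function.comp_def] using h3
      have h2 : Tendsto (fun n => ((h u : ℂ) * cexp (-((σ n : ℝ) * u))) *
          (fejer (l * (y - u)) : ℂ)) atTop (𝓝 (((h u : ℂ) * 1) * (fejer (l * (y - u)) : ℂ))) :=
        (h1.const_mul _).mul_const _
      simpa using h2
  have hcompact : IsCompact ((fun p : ℝ × ℝ => ((p.1 : ℝ) : ℂ) + I * (l * (p.2 : ℝ))) ''
      (Icc (0:ℝ) 1 ×ˢ Icc (-1:ℝ) 1)) := by
    apply (isCompact_Icc.prod isCompact_Icc).image
    fun_prop
  have hsub : ((fun p : ℝ × ℝ => ((p.1 : ℝ) : ℂ) + I * (l * (p.2 : ℝ))) ''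
      (Icc (0:ℝ) 1 ×ˢ Icc (-1:ℝ) 1)) ⊆ {z : ℂ | 0 ≤ z.re} := by
    rintro _ ⟨⟨a, b⟩, ⟨ha, _⟩, rfl⟩
    have ha' : (0:ℝ) ≤ a := ha.1
    simpa using ha'
  obtain ⟨M, hM⟩ := hcompact.exists_bound_of_continuousOn (hg.mono hsub)
  have hR : Tendsto (fun n => ∫ t in (-1:ℝ)..1, (((1 - |t| : ℝ) : ℂ) * cexp (I * (t * (l * y)))) *
      g ((σ n : ℝ) + I * (l * t))) atTop
      (𝓝 (∫ t in (-1:ℝ)..1, (((1 - |t| : ℝ) : ℂ) * cexp (I * (t * (l * y)))) * g (I * (l * t)))) := by
    apply intervalIntegral.tendsto_integral_filter_of_dominated_convergence (fun _ => M)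
    · apply Eventually.of_forall
      intro n
      apply ContinuousOn.aestronglyMeasurable _ measurableSet_uIoc
      apply ContinuousOn.mul
      · fun_prop
      · apply hg.comp (by fun_prop)
        intro t _
        simp [(hσpos n).le]
    · apply Eventually.of_forall
      intro n
      apply ae_of_all
      intro t ht
      rw [uIoc_of_le (by norm_num : (-1:ℝ) ≤ 1)] at ht
      have ht' : |t| ≤ 1 := abs_le.mpr ⟨ht.1.le, ht.2⟩
      have n2 : ‖cexp (I * ((t:ℂ) * (l * y)))‖ = 1 := by
        have : I * ((t:ℂ) * (l * y)) = ((t * (l * y) : ℝ) : ℂ) * I := by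
          push_cast; ring
        rw [this, Complex.norm_exp_ofReal_mul_I]
      have n3 : ‖((1 - |t| : ℝ) : ℂ)‖ ≤ 1 := by
        rw [Complex.norm_real, Real.norm_eq_abs, abs_le]
        constructor <;> linarith [abs_nonneg t]
      have n6 : ‖g ((σ n : ℝ) + I * (l * t))‖ ≤ M := by
        apply hM
        exact ⟨(σ n, t), ⟨⟨(hσpos n).le, hσle n⟩, ⟨ht.1.le, ht.2⟩⟩, rfl⟩
      rw [norm_mul, norm_mul, n2, mul_one]
      calc ‖((1 - |t| : ℝ) : ℂ)‖ * ‖g ((σ n : ℝ) + I * (l * t))‖ ≤ 1 * M := by gcongr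
        _ = M := one_mul _
    · exact intervalIntegrable_const
    · apply ae_of_all
      intro t _
      apply Tendsto.const_mul
      have h1 : ContinuousWithinAt g {z | 0 ≤ z.re} (I * (l * t)) := by
        apply hg
        simp
      have h2 : Tendsto (fun n => (((σ n : ℝ) : ℂ) + I * (l * t))) atTop
          (𝓝[{z | 0 ≤ z.re}] (I * (l * t))) := by
        rw [tendsto_nhdsWithin_iff]
        constructor
        · have h3 : Tendsto (fun n => (((σ n : ℝ) : ℂ) + I * (l * t))) atTop
              (𝓝 (((0:ℝ):ℂ) + I * (l * t))) :=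
            ((continuous_ofReal.tendsto 0).comp hσlim).add_const _
          simpa using h3
        · apply Eventually.of_forall
          intro n
          simp [(hσpos n).le]
      exact h1.tendsto.comp h2
  have heq : ∀ n, ∫ u in Ioi (0:ℝ), ((h u : ℂ) * cexp (-((σ n : ℝ) * u))) *
      (fejer (l * (y - u)) : ℂ) = ∫ t in (-1:ℝ)..1, (((1 - |t| : ℝ) : ℂ) *
        cexp (I * (t * (l * y)))) * g ((σ n : ℝ) + I * (l * t)) :=
    fun n => stepA h hm C hb g hlap l y (σ n) (hσpos n)
  simp_rw [heq] at hL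
  exact tendsto_nhds_unique hL hR

/-- Step C -/
lemma stepC (h : ℝ → ℝ) (hm : Measurable h) (C : ℝ) (hb : ∀ u, |h u| ≤ C)
    (g : ℂ → ℂ) (hg : ContinuousOn g {z | 0 ≤ z.re})
    (hlap : ∀ z : ℂ, 0 < z.re → ∫ u in Ioi (0:ℝ), (h u : ℂ) * cexp (-(z * u)) = g z)
    (l : ℝ) (hl : 0 < l) :
    Tendsto (fun y : ℝ => ∫ u in Ioi (0:ℝ), h u * fejer (l * (y - u))) atTop (𝓝 0) := by
  set f : ℝ → ℂ := (Ioc (-1:ℝ) 1).indicator (fun t => ((1 - |t| : ℝ) : ℂ) * g (I * (l * t))) with hf
  have hRL := Real.tendsto_integral_exp_smul_cocompact f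
  have hw : Tendsto (fun y : ℝ => -(l * y / (2 * π))) atTop (cocompact ℝ) := by
    have h1 : Tendsto (fun y : ℝ => -(l * y / (2 * π))) atTop atBot := by
      apply tendsto_neg_atTop_atBot.comp
      apply Tendsto.atTop_div_const (by positivity)
      exact tendsto_id.const_mul_atTop hl
    rw [cocompact_eq_atBot_atTop]
    exact h1.mono_right le_sup_left
  have h2 := hRL.comp hw
  have h3 : ∀ y : ℝ, ((∫ u in Ioi (0:ℝ), h u * fejer (l * (y - u)) : ℝ) : ℂ) =
      ∫ v : ℝ, 𝐞 (-(v * (-(l * y / (2 * π))))) • f v := by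
    intro y
    rw [← integral_complex_ofReal]
    have h4 := stepB h hm C hb g hg hlap l y hl
    have h5 : ∫ u in Ioi (0:ℝ), ((h u * fejer (l * (y - u)) : ℝ) : ℂ) =
        ∫ u in Ioi (0:ℝ), (h u : ℂ) * (fejer (l * (y - u)) : ℂ) := by
      simp only [ofReal_mul]
    have h6 : ∫ v : ℝ, 𝐞 (-(v * (-(l * y / (2 * π))))) • f v =
        ∫ t in (-1:ℝ)..1, (((1 - |t| : ℝ) : ℂ) * cexp (I * (t * (l * y)))) * g (I * (l * t)) := by
      rw [intervalIntegral.integral_of_le (by norm_num : (-1:ℝ) ≤ 1),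
        ← integral_indicator measurableSet_Ioc]
      apply integral_congr_ae
      apply ae_of_all
      intro v
      simp only [hf]
      by_cases hv : v ∈ Ioc (-1:ℝ) 1
      · rw [indicator_of_mem hv, indicator_of_mem hv]
        have e1 : (𝐞 (-(v * (-(l * y / (2 * π))))) : ℂ) = cexp (I * (v * (l * y))) := by
          rw [Real.fourierChar_apply]
          congr 1
          push_cast
          field_simp
        rw [Circle.smul_def, e1, smul_eq_mul]
        ring
      · rw [indicator_of_notMem hv, indicator_of_notMem hv, smul_zero]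
    rw [h6, ← h4, ← h5]
  have h7 : Tendsto (fun y : ℝ => ((∫ u in Ioi (0:ℝ), h u * fejer (l * (y - u)) : ℝ) : ℂ))
      atTop (𝓝 0) := by
    refine h2.congr ?_
    intro y
    exact (h3 y).symm
  have h8 := (Complex.continuous_re.tendsto 0).comp h7
  simpa [Function.comp_def] using h8

/-- lower bound for the smoothed integral of a function which is at least `η` on an interval -/
lemma bump (φ : ℝ → ℝ) (hφm : Measurable φ) (C η r c l : ℝ) (hφ : ∀ u, |φ u| ≤ C)
    (hη : 0 ≤ η) (hr : 0 < r) (hc : r < c) (hl : 1 ≤ l * r)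
    (hge : ∀ u, c - r ≤ u → u ≤ c + r → η ≤ φ u) :
    η / (2 * l) - 4 * C * π * ((1 + r ^ 2) / r ^ 2) / l ^ 2 ≤
      ∫ u in Ioi (0:ℝ), φ u * fejer (l * (c - u)) := by
  have hlpos : 0 < l := by
    by_contra hneg
    push Not at hneg
    nlinarith
  have hC : 0 ≤ C := (abs_nonneg _).trans (hφ 0)
  have hlr : 1 / l ≤ r := by
    rw [div_le_iff₀ hlpos]; linarith
  set D : ℝ := 4 * C * ((1 + r ^ 2) / r ^ 2) / l ^ 2 with hD
  have hDnn : 0 ≤ D := by positivity
  have hi1 : IntegrableOn (fun u : ℝ => (Icc (c - 1 / l) (c + 1 / l)).indicator (fun _ => η / 4) u)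
      (Ioi (0:ℝ)) := by
    apply Integrable.integrableOn
    apply IntegrableOn.integrable_indicator _ measurableSet_Icc
    exact integrableOn_const (by simp)
  have hi2' : Integrable (fun u : ℝ => D * (1 + (c - u) ^ 2)⁻¹) :=
    (integrable_inv_one_add_sq.comp_sub_left c).const_mul D
  have hi2 : IntegrableOn (fun u : ℝ => D * (1 + (c - u) ^ 2)⁻¹) (Ioi (0:ℝ)) := hi2'.integrableOn
  have hi3 : IntegrableOn (fun u : ℝ => φ u * fejer (l * (c - u))) (Ioi (0:ℝ)) := by
    apply Integrable.integrableOn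
    refine Integrable.mono' ((fejer_shift_integrable l hlpos c).const_mul C) ?_ ?_
    · apply Measurable.aestronglyMeasurable
      have := fejer_continuous.measurable
      fun_prop
    · apply ae_of_all
      intro u
      rw [norm_mul, Real.norm_of_nonneg (fejer_nonneg _)]
      exact mul_le_mul_of_nonneg_right (hφ u) (fejer_nonneg _)
  have hpt : ∀ u : ℝ, (Icc (c - 1 / l) (c + 1 / l)).indicator (fun _ => η / 4) u -
      D * (1 + (c - u) ^ 2)⁻¹ ≤ φ u * fejer (l * (c - u)) := by
    intro u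
    have hf0 := fejer_nonneg (l * (c - u))
    have hinv : 0 ≤ D * (1 + (c - u) ^ 2)⁻¹ := by positivity
    by_cases h1 : u ∈ Icc (c - 1 / l) (c + 1 / l)
    · rw [indicator_of_mem h1]
      have h2 : |l * (c - u)| ≤ 1 := by
        rw [abs_mul, abs_of_pos hlpos]
        have h3 : |c - u| ≤ 1 / l := by
          rw [abs_le]; constructor <;> linarith [h1.1, h1.2]
        calc l * |c - u| ≤ l * (1 / l) := by gcongr
          _ = 1 := by field_simp
      have h4 := fejer_ge _ h2
      have h5 : η ≤ φ u := hge u (by linarith [h1.1]) (by linarith [h1.2])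
      nlinarith
    · rw [indicator_of_notMem h1]
      by_cases h2 : |c - u| ≤ r
      · rw [abs_le] at h2
        have h5 : η ≤ φ u := hge u (by linarith [h2.2]) (by linarith [h2.1])
        have : 0 ≤ φ u * fejer (l * (c - u)) := mul_nonneg (hη.trans h5) hf0
        linarith
      · push Not at h2
        have h3 : -C ≤ φ u := (abs_le.mp (hφ u)).1
        have h4 := fejer_mul_sq (l * (c - u))
        have h5 := Real.neg_one_le_cos (l * (c - u))
        have hsq : r ^ 2 < (c - u) ^ 2 := by
          rw [← sq_abs (c - u)]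
          gcongr
        have hcu : 0 < (c - u) ^ 2 := lt_trans (by positivity) hsq
        have h6 : fejer (l * (c - u)) ≤ 4 / (l ^ 2 * (c - u) ^ 2) := by
          rw [le_div_iff₀ (by positivity)]
          rw [mul_pow] at h4
          linarith
        have h7 : 4 / (l ^ 2 * (c - u) ^ 2) ≤
            4 * ((1 + r ^ 2) / r ^ 2) / l ^ 2 * (1 + (c - u) ^ 2)⁻¹ := by
          rw [← div_eq_mul_inv, div_div, mul_div_assoc', div_div,
            div_le_div_iff₀ (by positivity) (by positivity)]
          nlinarith [mul_pos (pow_pos hlpos 2) hcu, mul_le_mul_of_nonneg_left hsq.le (pow_pos hlpos 2).le]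
        have h8 : C * fejer (l * (c - u)) ≤ D * (1 + (c - u) ^ 2)⁻¹ := by
          calc C * fejer (l * (c - u)) ≤ C * (4 * ((1 + r ^ 2) / r ^ 2) / l ^ 2 * (1 + (c - u) ^ 2)⁻¹) := by
                gcongr
                exact h6.trans h7
            _ = D * (1 + (c - u) ^ 2)⁻¹ := by rw [hD]; ring
        nlinarith
  have hmono : ∫ u in Ioi (0:ℝ), ((Icc (c - 1 / l) (c + 1 / l)).indicator (fun _ => η / 4) u -
      D * (1 + (c - u) ^ 2)⁻¹) ≤ ∫ u in Ioi (0:ℝ), φ u * fejer (l * (c - u)) :=
    integral_mono (hi1.sub hi2) hi3 hpt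
  rw [integral_sub hi1 hi2] at hmono
  have e1 : ∫ u in Ioi (0:ℝ), (Icc (c - 1 / l) (c + 1 / l)).indicator (fun _ => η / 4) u =
      η / (2 * l) := by
    rw [integral_indicator measurableSet_Icc, Measure.restrict_restrict measurableSet_Icc]
    have : Icc (c - 1 / l) (c + 1 / l) ∩ Ioi (0:ℝ) = Icc (c - 1 / l) (c + 1 / l) := by
      apply inter_eq_left.mpr
      intro u hu
      have := hu.1
      show (0:ℝ) < u
      linarith
    rw [this, setIntegral_const, Real.volume_real_Icc_of_le (by
      have : 0 < 1 / l := by positivity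
      linarith), smul_eq_mul]
    field_simp
    ring
  have e2 : ∫ u in Ioi (0:ℝ), D * (1 + (c - u) ^ 2)⁻¹ ≤ D * π := by
    calc ∫ u in Ioi (0:ℝ), D * (1 + (c - u) ^ 2)⁻¹ ≤ ∫ u : ℝ, D * (1 + (c - u) ^ 2)⁻¹ := by
          apply setIntegral_le_integral hi2'
          apply ae_of_all
          intro u
          show 0 ≤ D * (1 + (c - u) ^ 2)⁻¹
          positivity
      _ = D * π := by
          rw [integral_const_mul, integral_sub_left_eq_self (fun x : ℝ => (1 + x ^ 2)⁻¹) volume c,
            integral_univ_inv_one_add_sq]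
  have e3 : 4 * C * π * ((1 + r ^ 2) / r ^ 2) / l ^ 2 = D * π := by rw [hD]; ring
  rw [e3]
  linarith

/-- if all smoothed integrals tend to zero, there is no far interval on which `φ ≥ η` -/
lemma no_bump (φ : ℝ → ℝ) (hφm : Measurable φ) (C η r : ℝ) (hφ : ∀ u, |φ u| ≤ C)
    (hη : 0 < η) (hr : 0 < r)
    (hlim : ∀ l : ℝ, 0 < l →
      Tendsto (fun y : ℝ => ∫ u in Ioi (0:ℝ), φ u * fejer (l * (y - u))) atTop (𝓝 0)) :
    ∀ᶠ c in atTop, ¬ (∀ u, c - r ≤ u → u ≤ c + r → η ≤ φ u) := by
  have hC : 0 ≤ C := (abs_nonneg _).trans (hφ 0)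
  set K : ℝ := 4 * C * π * ((1 + r ^ 2) / r ^ 2) with hK
  have hKnn : 0 ≤ K := by positivity
  set l : ℝ := 1 / r + 4 * K / η with hl
  have hlpos : 0 < l := by positivity
  have hl1 : 1 ≤ l * r := by
    have h1 : 0 ≤ 4 * K / η * r := by positivity
    have h2 : l * r = 1 + 4 * K / η * r := by rw [hl]; field_simp
    linarith
  have hl2 : 4 * K ≤ η * l := by
    have h2 : η * l = η / r + 4 * K := by rw [hl]; field_simp
    have : 0 ≤ η / r := by positivity
    linarith
  have hpos : 0 < η / (4 * l) := by positivity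
  have h1 := (hlim l hlpos).eventually (gt_mem_nhds hpos)
  filter_upwards [h1, eventually_gt_atTop r] with c hc hcr hge
  have h2 := bump φ hφm C η r c l hφ hη.le hr hcr hl1 hge
  rw [← hK] at h2
  have h3 : K / l ^ 2 ≤ η / (4 * l) := by
    rw [div_le_div_iff₀ (by positivity) (by positivity)]
    nlinarith
  have h4 : η / (2 * l) = η / (4 * l) + η / (4 * l) := by
    field_simp
    ring
  linarith

/-- Tauberian step -/
lemma tauberian (H : ℝ → ℝ) (hHm : Measurable H) (A C : ℝ) (hA : 0 ≤ A) (hH0 : ∀ u, 0 ≤ H u)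
    (hHC : ∀ u, H u ≤ C)
    (hmono : ∀ u v, 0 ≤ u → u ≤ v → H u * Real.exp (-(v - u)) ≤ H v)
    (hlim : ∀ l : ℝ, 0 < l →
      Tendsto (fun y : ℝ => ∫ u in Ioi (0:ℝ), (H u - A) * fejer (l * (y - u))) atTop (𝓝 0)) :
    Tendsto H atTop (𝓝 A) := by
  have hC : 0 ≤ C := (hH0 0).trans (hHC 0)
  rw [Metric.tendsto_atTop']
  intro ε hε
  set η : ℝ := ε / 2 with hη
  have hηpos : 0 < η := by positivity
  set q : ℝ := (A + 2 * η) / (A + η) with hq
  have hq1 : 1 < q := by
    rw [hq, one_lt_div (by positivity)]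
    linarith
  set r : ℝ := Real.log q / 2 with hr
  have hrpos : 0 < r := by
    have := Real.log_pos hq1
    positivity
  have hexp : Real.exp (2 * r) = q := by
    have : 2 * r = Real.log q := by rw [hr]; ring
    rw [this, Real.exp_log (by linarith)]
  have hup := no_bump (fun u => H u - A) (by fun_prop) (C + A) η r (by
    intro u
    rw [abs_le]
    constructor <;> linarith [hH0 u, hHC u]) hηpos hrpos hlim
  have hdown := no_bump (fun u => A - H u) (by fun_prop) (C + A) η r (by
    intro u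
    rw [abs_le]
    constructor <;> linarith [hH0 u, hHC u]) hηpos hrpos (by
      intro l hl
      have h1 := (hlim l hl).neg
      simp only [neg_zero] at h1
      refine h1.congr ?_
      intro y
      rw [← integral_neg]
      congr 1
      ext u
      ring)
  obtain ⟨c1, hc1⟩ := eventually_atTop.mp hup
  obtain ⟨c2, hc2⟩ := eventually_atTop.mp hdown
  refine ⟨max (max c1 (c2 + r)) (2 * r), ?_⟩
  intro y hy
  have hy1 : c1 < y := lt_of_le_of_lt ((le_max_left _ _).trans (le_max_left _ _)) hy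
  have hy2 : c2 + r < y := lt_of_le_of_lt ((le_max_right _ _).trans (le_max_left _ _)) hy
  have hy3 : 2 * r < y := lt_of_le_of_lt (le_max_right _ _) hy
  rw [Real.dist_eq, abs_lt]
  constructor
  · -- lower bound
    by_contra hcon
    push Not at hcon
    have hcon' : H y ≤ A - 2 * η := by rw [hη]; linarith
    apply hc2 (y - r) (by linarith)
    intro u hu1 hu2
    have hu0 : 0 ≤ u := by linarith
    have huy : u ≤ y := by linarith
    have h1 := hmono u y hu0 huy
    have h2 : Real.exp (-(2 * r)) ≤ Real.exp (-(y - u)) := by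
      apply Real.exp_le_exp.mpr; linarith
    have h3 : H u * Real.exp (-(2 * r)) ≤ A - 2 * η :=
      (mul_le_mul_of_nonneg_left h2 (hH0 u)).trans (h1.trans hcon')
    have h4 : H u ≤ (A - 2 * η) * q := by
      have h5 : H u * Real.exp (-(2 * r)) * Real.exp (2 * r) ≤ (A - 2 * η) * Real.exp (2 * r) :=
        mul_le_mul_of_nonneg_right h3 (Real.exp_pos _).le
      rw [mul_assoc, ← Real.exp_add, neg_add_cancel, Real.exp_zero, mul_one, hexp] at h5
      exact h5
    have h6 : (A - 2 * η) * q ≤ A - η := by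
      rw [hq, mul_div_assoc', div_le_iff₀ (by positivity)]
      nlinarith
    linarith
  · by_contra hcon
    push Not at hcon
    have hcon' : A + 2 * η ≤ H y := by rw [hη]; linarith
    apply hc1 (y + r) (by linarith)
    intro u hu1 hu2
    have hy0 : 0 ≤ y := by linarith
    have huy : y ≤ u := by linarith
    have h1 := hmono y u hy0 huy
    have h2 : Real.exp (-(2 * r)) ≤ Real.exp (-(u - y)) := by
      apply Real.exp_le_exp.mpr; linarith
    have h3 : (A + 2 * η) * Real.exp (-(2 * r)) ≤ H u := by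
      refine le_trans ?_ h1
      apply mul_le_mul hcon' h2 (Real.exp_pos _).le (hH0 y)
    have h4 : (A + 2 * η) * Real.exp (-(2 * r)) = A + η := by
      rw [Real.exp_neg, hexp, hq]
      field_simp
    linarith

/-- The Wiener-Ikehara theorem for non-negative coefficients with partial sums `O(x)`. -/
theorem wienerIkehara (f : ℕ → ℝ) (hf : ∀ n, 0 ≤ f n) (C : ℝ)
    (hC : ∀ x : ℝ, 0 ≤ x → ∑ k ∈ Finset.Icc 1 ⌊x⌋₊, f k ≤ C * x) (A : ℝ) (hA : 0 ≤ A)
    (G : ℂ → ℂ) (hG : ContinuousOn G {s | 1 ≤ s.re})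
    (hGeq : ∀ s : ℂ, 1 < s.re → G s = LSeries (fun n => (f n : ℂ)) s - A / (s - 1)) :
    Tendsto (fun x : ℝ => (∑ k ∈ Finset.Icc 1 ⌊x⌋₊, f k) / x) atTop (𝓝 A) := by
  set S : ℝ → ℝ := fun x => ∑ k ∈ Finset.Icc 1 ⌊x⌋₊, f k with hS
  have hS0 : ∀ x, 0 ≤ S x := fun x => Finset.sum_nonneg fun k _ => hf k
  have hSmono : Monotone S := by
    intro x y hxy
    apply Finset.sum_le_sum_of_subset_of_nonneg
    · exact Finset.Icc_subset_Icc le_rfl (Nat.floor_mono hxy)
    · intro k _ _; exact hf k
  have hSm : Measurable S := hSmono.measurable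
  set H : ℝ → ℝ := fun u => S (Real.exp u) * Real.exp (-u) with hH
  have hHm : Measurable H := by
    apply Measurable.mul
    · exact hSm.comp Real.measurable_exp
    · fun_prop
  have hH0 : ∀ u, 0 ≤ H u := fun u => mul_nonneg (hS0 _) (Real.exp_pos _).le
  have hHC : ∀ u, H u ≤ C := by
    intro u
    have h1 := hC (Real.exp u) (Real.exp_pos u).le
    calc H u ≤ (C * Real.exp u) * Real.exp (-u) :=
          mul_le_mul_of_nonneg_right h1 (Real.exp_pos _).le
      _ = C := by rw [mul_assoc, ← Real.exp_add, add_neg_cancel, Real.exp_zero, mul_one]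
  have hmono : ∀ u v, 0 ≤ u → u ≤ v → H u * Real.exp (-(v - u)) ≤ H v := by
    intro u v _ huv
    have h1 : S (Real.exp u) ≤ S (Real.exp v) := hSmono (Real.exp_le_exp.mpr huv)
    calc H u * Real.exp (-(v - u)) = S (Real.exp u) * Real.exp (-v) := by
          rw [hH]; simp only
          rw [mul_assoc, ← Real.exp_add]
          congr 2; ring
      _ ≤ S (Real.exp v) * Real.exp (-v) := mul_le_mul_of_nonneg_right h1 (Real.exp_pos _).le
  have hbound : ∀ u, |H u - A| ≤ C + A := by
    intro u
    have := hH0 u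
    have := hHC u
    rw [abs_le]
    constructor <;> linarith
  set g : ℂ → ℂ := fun z => (G (1 + z) - A) / (1 + z) with hg
  have hgc : ContinuousOn g {z | 0 ≤ z.re} := by
    apply ContinuousOn.div
    · apply ContinuousOn.sub _ continuousOn_const
      apply hG.comp (by fun_prop)
      intro z hz
      have hz' : 0 ≤ z.re := hz
      show 1 ≤ (1 + z).re
      simp [hz']
    · fun_prop
    · intro z hz h0
      have hz' : 0 ≤ z.re := hz
      have := congrArg Complex.re h0
      simp at this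
      linarith
  have hlap : ∀ z : ℂ, 0 < z.re →
      ∫ u in Ioi (0:ℝ), ((H u - A : ℝ) : ℂ) * cexp (-(z * u)) = g z := by
    intro z hz
    have hs : 1 < (1 + z).re := by simp [hz]
    have hbigO : (fun n : ℕ => ∑ k ∈ Finset.Icc 1 n, f k) =O[atTop] fun n : ℕ => (n : ℝ) ^ (1:ℝ) := by
      apply Asymptotics.IsBigO.of_bound C
      apply Eventually.of_forall
      intro n
      rw [Real.rpow_one, Real.norm_of_nonneg (Finset.sum_nonneg fun k _ => hf k),
        Real.norm_of_nonneg (Nat.cast_nonneg n)]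
      have := hC n (Nat.cast_nonneg n)
      simpa using this
    have hL := LSeries_eq_mul_integral_of_nonneg f zero_le_one hs hbigO hf
    have himg : Real.exp '' (Ioi (0:ℝ)) = Ioi 1 := by
      ext x
      constructor
      · rintro ⟨u, hu, rfl⟩
        have hu' : (0:ℝ) < u := hu
        exact Real.one_lt_exp_iff.mpr hu'
      · intro hx
        have hx' : (1:ℝ) < x := hx
        exact ⟨Real.log x, Real.log_pos hx', Real.exp_log (by linarith)⟩
    have hcv := integral_image_eq_integral_abs_deriv_smul (s := Ioi (0:ℝ)) (f := Real.exp)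
      (f' := Real.exp) measurableSet_Ioi (fun x _ => (Real.hasDerivAt_exp x).hasDerivWithinAt)
      Real.exp_injective.injOn
      (fun t : ℝ => (∑ k ∈ Finset.Icc 1 ⌊t⌋₊, (f k : ℂ)) * (t : ℂ) ^ (-((1 + z) + 1)))
    rw [himg] at hcv
    rw [hcv] at hL
    have h1 : ∫ u in Ioi (0:ℝ), |Real.exp u| • ((∑ k ∈ Finset.Icc 1 ⌊Real.exp u⌋₊, (f k : ℂ)) *
        ((Real.exp u : ℝ) : ℂ) ^ (-((1 + z) + 1))) =
        ∫ u in Ioi (0:ℝ), (H u : ℂ) * cexp (-(z * u)) := by
      apply integral_congr_ae
      apply ae_of_all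
      intro u
      simp only [hH, hS]
      rw [abs_of_pos (Real.exp_pos u), Complex.real_smul]
      have e1 : ((Real.exp u : ℝ) : ℂ) ^ (-((1 + z) + 1)) = cexp (u * (-((1 + z) + 1))) := by
        rw [Complex.cpow_def_of_ne_zero (by exact_mod_cast (Real.exp_pos u).ne')]
        congr 1
        rw [← Complex.ofReal_log (Real.exp_pos u).le, Real.log_exp]
      rw [e1]
      push_cast
      have e2 : cexp u * ((∑ k ∈ Finset.Icc 1 ⌊Real.exp u⌋₊, (f k : ℂ)) * cexp (u * (-((1 + z) + 1)))) =
          (∑ k ∈ Finset.Icc 1 ⌊Real.exp u⌋₊, (f k : ℂ)) * (cexp u * cexp (u * (-((1 + z) + 1)))) := by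
        ring
      rw [e2, ← Complex.exp_add, mul_assoc, ← Complex.exp_add]
      congr 2
      ring
    rw [h1] at hL
    have hint1 : IntegrableOn (fun u : ℝ => (H u : ℂ) * cexp (-(z * u))) (Ioi (0:ℝ)) := by
      have h0 : IntegrableOn (fun u : ℝ => C * Real.exp (-z.re * u)) (Ioi (0:ℝ)) :=
        (integrableOn_exp_mul_Ioi (a := -z.re) (by linarith) 0).const_mul C
      apply Integrable.mono' h0
      · apply Measurable.aestronglyMeasurable
        fun_prop
      · apply ae_of_all
        intro u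
        rw [norm_mul, Complex.norm_real, Real.norm_of_nonneg (hH0 u), Complex.norm_exp]
        have : (-(z * (u:ℂ))).re = -z.re * u := by simp
        rw [this]
        exact mul_le_mul_of_nonneg_right (hHC u) (Real.exp_pos _).le
    have hint2 : IntegrableOn (fun u : ℝ => (A : ℂ) * cexp (-z * u)) (Ioi (0:ℝ)) := by
      apply Integrable.const_mul
      exact integrableOn_exp_mul_complex_Ioi (by simpa using hz) 0
    have h2 : ∫ u in Ioi (0:ℝ), ((H u - A : ℝ) : ℂ) * cexp (-(z * u)) =
        (∫ u in Ioi (0:ℝ), (H u : ℂ) * cexp (-(z * u))) -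
        ∫ u in Ioi (0:ℝ), (A : ℂ) * cexp (-z * u) := by
      rw [← integral_sub hint1 hint2]
      congr 1
      ext u
      push_cast
      rw [neg_mul]
      ring
    have h3 : ∫ u in Ioi (0:ℝ), (A : ℂ) * cexp (-z * u) = A / z := by
      rw [integral_const_mul, integral_exp_mul_complex_Ioi (by simpa using hz) 0]
      simp
      ring
    have hz0 : z ≠ 0 := by
      intro h0; rw [h0] at hz; simp at hz
    have hs0 : (1 + z) ≠ 0 := by
      intro h0
      have := congrArg Complex.re h0
      simp at this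
      linarith
    rw [h2, h3, hg]
    simp only
    rw [hGeq _ hs, hL]
    have e3 : (1 + z - 1) = z := by ring
    rw [e3]
    field_simp
    ring
  have hlim : ∀ l : ℝ, 0 < l →
      Tendsto (fun y : ℝ => ∫ u in Ioi (0:ℝ), (H u - A) * fejer (l * (y - u))) atTop (𝓝 0) :=
    fun l hl => stepC (fun u => H u - A) (hHm.sub_const A) (C + A) hbound g hgc hlap l hl
  have hmain := tauberian H hHm A C hA hH0 hHC hmono hlim
  have h1 := hmain.comp Real.tendsto_log_atTop
  refine h1.congr' ?_
  filter_upwards [eventually_gt_atTop 0] with x hx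
  simp only [Function.comp, hH]
  rw [Real.exp_neg, Real.exp_log hx, div_eq_mul_inv]

/-- The prime number theorem in arithmetic progressions, for the von Mangoldt function. -/
theorem tendsto_residueClass_sum_div (q : ℕ) [NeZero q] (a : ZMod q) (ha : IsUnit a) :
    Tendsto (fun x : ℝ => (∑ k ∈ Finset.Icc 1 ⌊x⌋₊,
      ArithmeticFunction.vonMangoldt.residueClass a k) / x) atTop (𝓝 ((q.totient : ℝ)⁻¹)) := by
  apply wienerIkehara (ArithmeticFunction.vonMangoldt.residueClass a)
    (ArithmeticFunction.vonMangoldt.residueClass_nonneg a) (Real.log 4 + 4) ?_ _ (by positivity)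
    (ArithmeticFunction.vonMangoldt.LFunctionResidueClassAux a)
    (ArithmeticFunction.vonMangoldt.continuousOn_LFunctionResidueClassAux a)
  · intro s hs
    have h1 := ArithmeticFunction.vonMangoldt.eqOn_LFunctionResidueClassAux ha
      (show s ∈ {s : ℂ | 1 < s.re} from hs)
    rw [h1]
    push_cast
    rfl
  · intro x hx
    refine le_trans ?_ (Chebyshev.psi_le_const_mul_self hx)
    unfold Chebyshev.psi
    have : Finset.Icc 1 ⌊x⌋₊ = Finset.Ioc 0 ⌊x⌋₊ := by
      ext k; simp [Nat.succ_le_iff]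
    rw [this]
    exact Finset.sum_le_sum fun k _ => ArithmeticFunction.vonMangoldt.residueClass_le a k

/-- The prime number theorem for `ψ`. -/
theorem tendsto_psi_div : Tendsto (fun x : ℝ => Chebyshev.psi x / x) atTop (𝓝 1) := by
  have h := tendsto_residueClass_sum_div 1 1 isUnit_one
  simp only [Nat.totient_one, Nat.cast_one, inv_one] at h
  refine h.congr ?_
  intro x
  congr 1
  unfold Chebyshev.psi
  have : Finset.Icc 1 ⌊x⌋₊ = Finset.Ioc 0 ⌊x⌋₊ := by
    ext k; simp [Nat.succ_le_iff]
  rw [this]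
  apply Finset.sum_congr rfl
  intro k _
  unfold ArithmeticFunction.vonMangoldt.residueClass
  rw [indicator_of_mem]
  exact Subsingleton.elim _ _

lemma tendsto_sqrt_mul_log_div :
    Tendsto (fun x : ℝ => 2 * √x * Real.log x / x) atTop (𝓝 0) := by
  have h1 : Tendsto (fun x : ℝ => Real.log x / x ^ (1/2 : ℝ)) atTop (𝓝 0) :=
    (isLittleO_log_rpow_atTop (by norm_num : (0:ℝ) < 1/2)).tendsto_div_nhds_zero
  have h2 := h1.const_mul 2
  rw [mul_zero] at h2
  refine h2.congr' ?_
  filter_upwards [eventually_gt_atTop 0] with x hx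
  rw [← Real.sqrt_eq_rpow]
  have h3 : √x * √x = x := Real.mul_self_sqrt hx.le
  have h4 : 0 < √x := Real.sqrt_pos.mpr hx
  have h5 : √x ^ 2 = x := Real.sq_sqrt hx.le
  field_simp
  rw [h5]

/-- The prime number theorem for `θ`. -/
theorem tendsto_theta_div : Tendsto (fun x : ℝ => Chebyshev.theta x / x) atTop (𝓝 1) := by
  have h1 : Tendsto (fun x : ℝ => Chebyshev.psi x / x - 2 * √x * Real.log x / x) atTop (𝓝 1) := by
    simpa using tendsto_psi_div.sub tendsto_sqrt_mul_log_div
  apply tendsto_of_tendsto_of_tendsto_of_le_of_le' h1 tendsto_psi_div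
  · filter_upwards [eventually_ge_atTop 1] with x hx
    rw [← sub_div]
    have := Chebyshev.psi_sub_theta_le hx
    gcongr
    linarith
  · filter_upwards [eventually_ge_atTop 1] with x hx
    have := Chebyshev.theta_le_psi x
    gcongr

/-- The prime number theorem for the prime counting function. -/
theorem tendsto_primeCounting :
    Tendsto (fun x : ℝ => (Nat.primeCounting ⌊x⌋₊ : ℝ) / (x / Real.log x)) atTop (𝓝 1) := by
  have h1 : Tendsto (fun x : ℝ => ((Nat.primeCounting ⌊x⌋₊ : ℝ) - Chebyshev.theta x / Real.log x) /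
      (x / Real.log x)) atTop (𝓝 0) := by
    have h2 := Chebyshev.primeCounting_sub_theta_div_log_isBigO
    have h3 : (fun x : ℝ => x / Real.log x ^ 2) =o[atTop] (fun x : ℝ => x / Real.log x) := by
      rw [Asymptotics.isLittleO_iff_tendsto']
      · have h4 : Tendsto (fun x : ℝ => (Real.log x)⁻¹) atTop (𝓝 0) :=
          Real.tendsto_log_atTop.inv_tendsto_atTop
        refine h4.congr' ?_
        filter_upwards [eventually_gt_atTop 1] with x hx
        have : 0 < Real.log x := Real.log_pos hx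
        field_simp
      · filter_upwards [eventually_gt_atTop 1] with x hx h0
        have : 0 < Real.log x := Real.log_pos hx
        have h5 : 0 < x / Real.log x := by positivity
        exact absurd h0 h5.ne'
    exact (h2.trans_isLittleO h3).tendsto_div_nhds_zero
  have h2 := h1.add tendsto_theta_div
  rw [zero_add] at h2
  refine h2.congr' ?_
  filter_upwards [eventually_gt_atTop 1] with x hx
  have : 0 < Real.log x := Real.log_pos hx
  field_simp
  ring

/-- Primes up to `n` in the residue class `a` mod `q`. -/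
def primesRes (q : ℕ) (a : ZMod q) (n : ℕ) : Finset ℕ :=
  {p ∈ Finset.Icc 1 n | p.Prime ∧ (p : ZMod q) = a}

/-- The prime number theorem in arithmetic progressions, for `θ`. -/
theorem tendsto_theta_residue_div (q : ℕ) [NeZero q] (a : ZMod q) (ha : IsUnit a) :
    Tendsto (fun x : ℝ => (∑ p ∈ primesRes q a ⌊x⌋₊, Real.log p) / x) atTop
      (𝓝 ((q.totient : ℝ)⁻¹)) := by
  have hmain := tendsto_residueClass_sum_div q a ha
  have h1 : Tendsto (fun x : ℝ => (∑ k ∈ Finset.Icc 1 ⌊x⌋₊,
      ArithmeticFunction.vonMangoldt.residueClass a k) / x - 2 * √x * Real.log x / x) atTop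
      (𝓝 ((q.totient : ℝ)⁻¹)) := by
    simpa using hmain.sub tendsto_sqrt_mul_log_div
  have key : ∀ x : ℝ, ∑ k ∈ Finset.Icc 1 ⌊x⌋₊, ArithmeticFunction.vonMangoldt.residueClass a k =
      (∑ p ∈ primesRes q a ⌊x⌋₊, Real.log p) +
      ∑ k ∈ Finset.Icc 1 ⌊x⌋₊ with ¬ k.Prime,
        ArithmeticFunction.vonMangoldt.residueClass a k := by
    intro x
    rw [← Finset.sum_filter_add_sum_filter_not (Finset.Icc 1 ⌊x⌋₊) Nat.Prime]
    congr 1
    unfold primesRes
    rw [← Finset.filter_filter, Finset.sum_filter (fun p : ℕ => (p : ZMod q) = a)]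
    apply Finset.sum_congr rfl
    intro k hk
    have hkp : k.Prime := (Finset.mem_filter.mp hk).2
    unfold ArithmeticFunction.vonMangoldt.residueClass
    by_cases hka : (k : ZMod q) = a
    · rw [indicator_of_mem (by exact hka), if_pos hka,
        ArithmeticFunction.vonMangoldt_apply_prime hkp]
    · rw [indicator_of_notMem (by exact hka), if_neg hka]
  have hle : ∀ x : ℝ, ∑ k ∈ Finset.Icc 1 ⌊x⌋₊ with ¬ k.Prime,
        ArithmeticFunction.vonMangoldt.residueClass a k ≤ Chebyshev.psi x - Chebyshev.theta x := by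
    intro x
    rw [Chebyshev.psi_sub_theta_eq_sum_not_prime]
    have : Finset.Icc 1 ⌊x⌋₊ = Finset.Ioc 0 ⌊x⌋₊ := by
      ext k; simp [Nat.succ_le_iff]
    rw [this]
    exact Finset.sum_le_sum fun k _ => ArithmeticFunction.vonMangoldt.residueClass_le a k
  have hnn : ∀ x : ℝ, 0 ≤ ∑ k ∈ Finset.Icc 1 ⌊x⌋₊ with ¬ k.Prime,
        ArithmeticFunction.vonMangoldt.residueClass a k := fun x =>
    Finset.sum_nonneg fun k _ => ArithmeticFunction.vonMangoldt.residueClass_nonneg a k
  apply tendsto_of_tendsto_of_tendsto_of_le_of_le' h1 hmain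
  · filter_upwards [eventually_ge_atTop 1] with x hx
    rw [← sub_div]
    have h2 := Chebyshev.psi_sub_theta_le hx
    have h3 := hle x
    rw [key x]
    gcongr
    linarith
  · filter_upwards [eventually_ge_atTop 1] with x hx
    rw [key x]
    have := hnn x
    gcongr
    linarith

/-- The prime number theorem in arithmetic progressions, for the counting function. -/
theorem tendsto_primeCounting_residue (q : ℕ) [NeZero q] (a : ZMod q) (ha : IsUnit a) :
    Tendsto (fun x : ℝ => ((primesRes q a ⌊x⌋₊).card : ℝ) / (x / Real.log x)) atTop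
      (𝓝 ((q.totient : ℝ)⁻¹)) := by
  set c : ℝ := ((q.totient : ℝ)⁻¹) with hc
  have hc0 : 0 ≤ c := by positivity
  have hth := tendsto_theta_residue_div q a ha
  -- lower bound
  have hlow : ∀ᶠ x : ℝ in atTop, (∑ p ∈ primesRes q a ⌊x⌋₊, Real.log p) / x ≤
      ((primesRes q a ⌊x⌋₊).card : ℝ) / (x / Real.log x) := by
    filter_upwards [eventually_gt_atTop 1] with x hx
    have hx0 : 0 < x := by linarith
    have hlog : 0 < Real.log x := Real.log_pos hx
    rw [div_div_eq_mul_div]
    gcongr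
    calc ∑ p ∈ primesRes q a ⌊x⌋₊, Real.log p ≤ ∑ _p ∈ primesRes q a ⌊x⌋₊, Real.log x := by
          apply Finset.sum_le_sum
          intro p hp
          unfold primesRes at hp
          rw [Finset.mem_filter, Finset.mem_Icc] at hp
          apply Real.log_le_log
          · exact_mod_cast hp.1.1
          · exact (Nat.le_floor_iff hx0.le).mp hp.1.2
      _ = ((primesRes q a ⌊x⌋₊).card : ℝ) * Real.log x := by
          rw [Finset.sum_const, nsmul_eq_mul]
  -- upper bound, with a parameter
  have hup : ∀ δ : ℝ, 0 < δ → δ < 1 → ∀ᶠ x : ℝ in atTop,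
      ((primesRes q a ⌊x⌋₊).card : ℝ) / (x / Real.log x) ≤
      (∑ p ∈ primesRes q a ⌊x⌋₊, Real.log p) / x / (1 - δ) + Real.log x / x ^ δ := by
    intro δ hδ0 hδ1
    filter_upwards [eventually_gt_atTop 1] with x hx
    have hx0 : 0 < x := by linarith
    have hlog : 0 < Real.log x := Real.log_pos hx
    have h1δ : 0 < 1 - δ := by linarith
    have hcard : ((primesRes q a ⌊x⌋₊).card : ℝ) * ((1 - δ) * Real.log x) ≤
        (∑ p ∈ primesRes q a ⌊x⌋₊, Real.log p) + x ^ (1 - δ) * ((1 - δ) * Real.log x) := by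
      have hsplit : ((primesRes q a ⌊x⌋₊).card : ℝ) * ((1 - δ) * Real.log x) =
          ∑ _p ∈ primesRes q a ⌊x⌋₊, ((1 - δ) * Real.log x) := by
        rw [Finset.sum_const, nsmul_eq_mul]
      rw [hsplit, ← Finset.sum_filter_add_sum_filter_not (primesRes q a ⌊x⌋₊)
        (fun p : ℕ => x ^ (1 - δ) < p)]
      apply add_le_add
      · calc ∑ _p ∈ (primesRes q a ⌊x⌋₊).filter (fun p : ℕ => x ^ (1 - δ) < (p : ℝ)),
              ((1 - δ) * Real.log x)
            ≤ ∑ p ∈ (primesRes q a ⌊x⌋₊).filter (fun p : ℕ => x ^ (1 - δ) < (p : ℝ)),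
              Real.log p := by
              apply Finset.sum_le_sum
              intro p hp
              rw [Finset.mem_filter] at hp
              rw [← Real.log_rpow hx0]
              exact Real.log_le_log (by positivity) hp.2.le
          _ ≤ ∑ p ∈ primesRes q a ⌊x⌋₊, Real.log p := by
              apply Finset.sum_le_sum_of_subset_of_nonneg (Finset.filter_subset _ _)
              intro p _ _
              exact Real.log_natCast_nonneg p
      · rw [Finset.sum_const, nsmul_eq_mul]
        gcongr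
        have hsub : (primesRes q a ⌊x⌋₊).filter (fun p : ℕ => ¬ x ^ (1 - δ) < (p : ℝ)) ⊆
            Finset.Icc 1 ⌊x ^ (1 - δ)⌋₊ := by
          intro p hp
          unfold primesRes at hp
          rw [Finset.mem_filter, Finset.mem_filter, Finset.mem_Icc] at hp
          rw [Finset.mem_Icc]
          refine ⟨hp.1.1.1, ?_⟩
          apply Nat.le_floor
          exact not_lt.mp hp.2
        calc (((primesRes q a ⌊x⌋₊).filter (fun p : ℕ => ¬ x ^ (1 - δ) < (p : ℝ))).card : ℝ)
            ≤ ((Finset.Icc 1 ⌊x ^ (1 - δ)⌋₊).card : ℝ) := by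
              exact_mod_cast Finset.card_le_card hsub
          _ = (⌊x ^ (1 - δ)⌋₊ : ℝ) := by rw [Nat.card_Icc]; simp
          _ ≤ x ^ (1 - δ) := Nat.floor_le (by positivity)
    have hsplit2 : x ^ (1 - δ) = x / x ^ δ := by
      rw [Real.rpow_sub hx0, Real.rpow_one]
    rw [div_div_eq_mul_div, div_div]
    have hxδ : 0 < x ^ δ := by positivity
    have h5 : ((primesRes q a ⌊x⌋₊).card : ℝ) * Real.log x ≤
        (∑ p ∈ primesRes q a ⌊x⌋₊, Real.log p) / (1 - δ) + x ^ (1 - δ) * Real.log x := by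
      rw [← sub_le_iff_le_add, le_div_iff₀ h1δ]
      nlinarith
    calc ((primesRes q a ⌊x⌋₊).card : ℝ) * Real.log x / x
        ≤ ((∑ p ∈ primesRes q a ⌊x⌋₊, Real.log p) / (1 - δ) + x ^ (1 - δ) * Real.log x) / x := by
          gcongr
      _ = (∑ p ∈ primesRes q a ⌊x⌋₊, Real.log p) / (x * (1 - δ)) + Real.log x / x ^ δ := by
          rw [hsplit2]
          field_simp
  rw [Metric.tendsto_atTop]
  intro ε hε
  -- choose δ
  obtain ⟨δ, hδ0, hδ1, hδ⟩ : ∃ δ : ℝ, 0 < δ ∧ δ < 1 ∧ (c + ε / 4) / (1 - δ) < c + ε / 2 := by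
    refine ⟨ε / 8 / (c + ε + 1), by positivity, ?_, ?_⟩
    · rw [div_lt_one (by positivity)]; linarith
    · have h1 : ε / 8 / (c + ε + 1) < 1 := by
        rw [div_lt_one (by positivity)]; linarith
      rw [div_lt_iff₀ (by linarith)]
      have h2 : (c + ε / 2) * (ε / 8 / (c + ε + 1)) ≤ ε / 8 := by
        rw [mul_div_assoc', div_le_iff₀ (by positivity)]
        nlinarith
      nlinarith
  have hlogδ : Tendsto (fun x : ℝ => Real.log x / x ^ δ) atTop (𝓝 0) :=
    (isLittleO_log_rpow_atTop hδ0).tendsto_div_nhds_zero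
  have e1 := hth.eventually (lt_mem_nhds (show c - ε < c by linarith))
  have e2 := hth.eventually (gt_mem_nhds (show c < c + ε / 4 by linarith))
  have e3 := hlogδ.eventually (gt_mem_nhds (show (0:ℝ) < ε / 2 by linarith))
  obtain ⟨N, hN⟩ := eventually_atTop.mp (e1.and (e2.and (e3.and (hlow.and (hup δ hδ0 hδ1)))))
  refine ⟨N, fun x hx => ?_⟩
  obtain ⟨h1, h2, h3, h4, h5⟩ := hN x hx
  rw [Real.dist_eq, abs_lt]
  constructor
  · linarith
  · have h6 : (∑ p ∈ primesRes q a ⌊x⌋₊, Real.log p) / x / (1 - δ) ≤ (c + ε / 4) / (1 - δ) := by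
      have : 0 < 1 - δ := by linarith
      gcongr
    linarith

end Pool.Agent.H22.P90
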