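import Pool.Agent.H22.High

/-!
Smoothed sums of functions with small partial sums.
-/

set_option autoImplicit false

open Finset Real MeasureTheory

namespace Pool.Agent.H22

open Pool.Agent.H16

theorem abel_gen (v g : ℕ → ℂ) (N : ℕ) :
    ∑ k ∈ Finset.Icc 1 (N + 1), v k * g k =
      v (N + 1) * ∑ k ∈ Finset.Icc 1 (N + 1), g k -
      ∑ m ∈ Finset.Icc 1 N, (v (m + 1) - v m) * ∑ k ∈ Finset.Icc 1 m, g k := by
  induction N with
  | zero => simp
  | succ N ih =>
    rw [Finset.sum_Icc_succ_top (by omega : 1 ≤ N + 1 + 1), ih,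
      Finset.sum_Icc_succ_top (by omega : 1 ≤ N + 1 + 1) (fun k => g k),
      Finset.sum_Icc_succ_top (by omega : 1 ≤ N + 1)
        (fun m => (v (m + 1) - v m) * ∑ k ∈ Finset.Icc 1 m, g k)]
    generalize ∑ m ∈ Finset.Icc 1 N, (v (m + 1) - v m) * ∑ k ∈ Finset.Icc 1 m, g k = T
    generalize ∑ k ∈ Finset.Icc 1 (N + 1), g k = S
    ring

/-- smooth weight -/
noncomputable def vw (κ y t : ℝ) : ℝ :=
  Real.exp (-((1 + κ) * Real.log t) - (Real.log t - Real.log y) ^ 2 / 2)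

theorem vw_le (κ y t : ℝ) (hκ : 0 ≤ κ) (ht : 1 ≤ t) :
    vw κ y t ≤ t⁻¹ * Real.exp (-((Real.log t - Real.log y) ^ 2 / 2)) := by
  unfold vw
  have h1 : t⁻¹ = Real.exp (-Real.log t) := by
    rw [Real.exp_neg, Real.exp_log (by linarith)]
  rw [h1, ← Real.exp_add]
  apply Real.exp_le_exp.mpr
  have := Real.log_nonneg ht
  nlinarith

theorem aux_exp (x : ℝ) (_hx : 0 ≤ x) : (2 + x) * Real.exp (-(x ^ 2 / 2)) ≤ 7 * Real.exp (-x) := by
  have h1 : 2 + x ≤ 2 * Real.exp (x / 2) := by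
    have := Real.add_one_le_exp (x / 2)
    linarith
  have h2 : Real.exp (x / 2) * Real.exp (-(x ^ 2 / 2)) ≤ Real.exp (9 / 8) * Real.exp (-x) := by
    rw [← Real.exp_add, ← Real.exp_add]
    apply Real.exp_le_exp.mpr
    nlinarith [sq_nonneg (x - 3 / 2)]
  have h3 : Real.exp (9 / 8) ≤ 3.5 := by
    have h4 : Real.exp (9 / 8) ^ 8 = Real.exp 9 := by
      rw [← Real.exp_nat_mul]; norm_num
    have h5 : Real.exp 9 = (Real.exp 1) ^ 9 := by
      rw [← Real.exp_nat_mul]; norm_num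
    have h6 := Real.exp_one_lt_d9
    have h7 : Real.exp (9 / 8) ^ 8 ≤ (3.5 : ℝ) ^ 8 := by
      rw [h4, h5]
      calc (Real.exp 1) ^ 9 ≤ (2.7182818286 : ℝ) ^ 9 := by gcongr
        _ ≤ (3.5 : ℝ) ^ 8 := by norm_num
    exact le_of_pow_le_pow_left₀ (by norm_num) (by norm_num) h7
  have h8 := Real.exp_pos (-x)
  calc (2 + x) * Real.exp (-(x ^ 2 / 2)) ≤ (2 * Real.exp (x / 2)) * Real.exp (-(x ^ 2 / 2)) := by
        gcongr
    _ = 2 * (Real.exp (x / 2) * Real.exp (-(x ^ 2 / 2))) := by ring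
    _ ≤ 2 * (Real.exp (9 / 8) * Real.exp (-x)) := by gcongr
    _ ≤ 2 * (3.5 * Real.exp (-x)) := by gcongr
    _ = 7 * Real.exp (-x) := by ring

theorem vw_diff (κ y : ℝ) (hκ : 0 ≤ κ) (hκ1 : κ ≤ 1) (m : ℕ) (hm : 1 ≤ m) :
    |vw κ y (m + 1 : ℕ) - vw κ y m| ≤ 21 / (m : ℝ) ^ 2 * Real.exp (-|Real.log m - Real.log y|) := by
  have hm1 : (1 : ℝ) ≤ m := by exact_mod_cast hm
  have hderiv : ∀ t ∈ Set.Icc (m : ℝ) ((m + 1 : ℕ) : ℝ), HasDerivWithinAt (vw κ y)
      (vw κ y t * (-((1 + κ) * t⁻¹) - (Real.log t - Real.log y) * t⁻¹))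
      (Set.Icc (m : ℝ) ((m + 1 : ℕ) : ℝ)) t := by
    intro t ht
    have ht0 : t ≠ 0 := by have := ht.1; intro h; rw [h] at this; linarith
    have hl := Real.hasDerivAt_log ht0
    have h1 := ((hl.const_mul (1 + κ)).neg.sub (((hl.sub_const (Real.log y)).pow 2).div_const 2)).exp
    have h2 : HasDerivAt (vw κ y) (vw κ y t * (-((1 + κ) * t⁻¹) - (Real.log t - Real.log y) * t⁻¹)) t := by
      have h3 : HasDerivAt (vw κ y) (vw κ y t *
          (-((1 + κ) * t⁻¹) - ((2 : ℕ) : ℝ) * (Real.log t - Real.log y) ^ (2 - 1) * t⁻¹ / 2)) t := h1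
      apply h3.congr_deriv
      push_cast
      ring
    exact h2.hasDerivWithinAt
  have hbound : ∀ t ∈ Set.Ico (m : ℝ) ((m + 1 : ℕ) : ℝ),
      ‖vw κ y t * (-((1 + κ) * t⁻¹) - (Real.log t - Real.log y) * t⁻¹)‖ ≤
      21 / (m : ℝ) ^ 2 * Real.exp (-|Real.log m - Real.log y|) := by
    intro t ht
    have htm : (m : ℝ) ≤ t := ht.1
    have ht1 : 1 ≤ t := by linarith
    have ht0 : 0 < t := by linarith
    have htm1 : t ≤ (m : ℝ) + 1 := by have := ht.2.le; push_cast at this; exact this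
    set u := Real.log t - Real.log y with hu
    have hv0 : 0 < vw κ y t := Real.exp_pos _
    have h1 : |-((1 + κ) * t⁻¹) - u * t⁻¹| ≤ (2 + |u|) * t⁻¹ := by
      have : -((1 + κ) * t⁻¹) - u * t⁻¹ = -((1 + κ) + u) * t⁻¹ := by ring
      rw [this, abs_mul, abs_neg, abs_of_pos (inv_pos.mpr ht0)]
      apply mul_le_mul_of_nonneg_right _ (inv_pos.mpr ht0).le
      calc |(1 + κ) + u| ≤ |1 + κ| + |u| := abs_add_le _ _
        _ ≤ 2 + |u| := by
            rw [abs_of_nonneg (by linarith)]; linarith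
    rw [Real.norm_eq_abs, abs_mul, abs_of_pos hv0]
    have h2 := vw_le κ y t hκ ht1
    rw [← hu] at h2
    have h3 := aux_exp |u| (abs_nonneg u)
    rw [sq_abs] at h3
    have h4 : Real.exp (-|u|) ≤ 3 * Real.exp (-|Real.log m - Real.log y|) := by
      have h5 : |Real.log m - Real.log y| ≤ |u| + 1 := by
        have h6 : Real.log m - Real.log y = u - (Real.log t - Real.log m) := by rw [hu]; ring
        have h7 : 0 ≤ Real.log t - Real.log m := by
          have := Real.log_le_log (by linarith) htm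
          linarith
        have h8 : Real.log t - Real.log m ≤ 1 := by
          rw [← Real.log_div (by linarith) (by linarith)]
          have h9 := Real.log_le_sub_one_of_pos (by positivity : 0 < t / m)
          have h10 : t / m ≤ 2 := by rw [div_le_iff₀ (by linarith)]; linarith
          linarith
        rw [h6]
        calc |u - (Real.log t - Real.log m)| ≤ |u| + |Real.log t - Real.log m| := abs_sub _ _
          _ ≤ |u| + 1 := by rw [abs_of_nonneg h7]; linarith
      have h11 : Real.exp (-|u|) ≤ Real.exp 1 * Real.exp (-|Real.log m - Real.log y|) := by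
        rw [← Real.exp_add]
        apply Real.exp_le_exp.mpr
        linarith
      have h12 := Real.exp_one_lt_d9
      have h13 := Real.exp_pos (-|Real.log m - Real.log y|)
      nlinarith
    have h14 : t⁻¹ ≤ (m : ℝ)⁻¹ := inv_anti₀ (by linarith) htm
    have hti : 0 < t⁻¹ := inv_pos.mpr ht0
    calc vw κ y t * |-((1 + κ) * t⁻¹) - u * t⁻¹|
        ≤ (t⁻¹ * Real.exp (-(u ^ 2 / 2))) * ((2 + |u|) * t⁻¹) := by gcongr
      _ = t⁻¹ * t⁻¹ * ((2 + |u|) * Real.exp (-(u ^ 2 / 2))) := by ring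
      _ ≤ (m : ℝ)⁻¹ * (m : ℝ)⁻¹ * (7 * (3 * Real.exp (-|Real.log m - Real.log y|))) := by
          apply mul_le_mul (mul_le_mul h14 h14 hti.le (by positivity)) _ (by positivity) (by positivity)
          refine h3.trans ?_
          gcongr
      _ = 21 / (m : ℝ) ^ 2 * Real.exp (-|Real.log m - Real.log y|) := by
          field_simp
          ring
  have h := norm_image_sub_le_of_norm_deriv_le_segment' hderiv hbound ((m + 1 : ℕ) : ℝ)
    ⟨by push_cast; linarith, le_rfl⟩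
  rw [Real.norm_eq_abs] at h
  refine h.trans (le_of_eq ?_)
  push_cast
  ring

theorem sum_window (y : ℝ) (hy : 1 ≤ y) (N : ℕ) :
    ∑ m ∈ Finset.Icc 1 N, 1 / (m : ℝ) * Real.exp (-|Real.log m - Real.log y|) ≤ 3 := by
  set w := ⌊y⌋₊ with hw
  have hw1 : 1 ≤ w := by apply Nat.le_floor; simpa using hy
  have hwy : (w : ℝ) ≤ y := Nat.floor_le (by linarith)
  have hyw : y < w + 1 := Nat.lt_floor_add_one y
  have hw1' : (1 : ℝ) ≤ w := by exact_mod_cast hw1
  have hpt : ∀ m ∈ Finset.Icc 1 N, 1 / (m : ℝ) * Real.exp (-|Real.log m - Real.log y|) ≤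
      (if m ≤ w then 1 / (w : ℝ) else 0) + (if w < m then y * (1 / (m : ℝ) ^ 2) else 0) := by
    intro m hm
    rw [Finset.mem_Icc] at hm
    have hm0 : (0 : ℝ) < m := by exact_mod_cast hm.1
    by_cases h : m ≤ w
    · rw [if_pos h, if_neg (by omega), add_zero]
      have hmy : (m : ℝ) ≤ y := le_trans (by exact_mod_cast h) hwy
      have h1 : Real.log m - Real.log y ≤ 0 := by
        have := Real.log_le_log hm0 hmy; linarith
      rw [abs_of_nonpos h1, neg_neg, Real.exp_sub, Real.exp_log hm0, Real.exp_log (by linarith)]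
      have h2 : 1 / (m : ℝ) * (m / y) = 1 / y := by field_simp
      rw [h2]
      exact one_div_le_one_div_of_le (by linarith) hwy
    · rw [if_neg h, if_pos (by omega), zero_add]
      have hmy : y ≤ (m : ℝ) := by
        have : (w : ℝ) + 1 ≤ m := by exact_mod_cast (by omega : w + 1 ≤ m)
        linarith
      have h1 : 0 ≤ Real.log m - Real.log y := by
        have := Real.log_le_log (by linarith) hmy; linarith
      rw [abs_of_nonneg h1, neg_sub, Real.exp_sub, Real.exp_log hm0, Real.exp_log (by linarith)]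
      apply le_of_eq
      field_simp
  refine (Finset.sum_le_sum hpt).trans ?_
  rw [Finset.sum_add_distrib, ← Finset.sum_filter, ← Finset.sum_filter]
  have h1 : ∑ m ∈ Finset.Icc 1 N with m ≤ w, 1 / (w : ℝ) ≤ 1 := by
    rw [Finset.sum_const, nsmul_eq_mul]
    have : #{m ∈ Finset.Icc 1 N | m ≤ w} ≤ w := by
      calc #{m ∈ Finset.Icc 1 N | m ≤ w} ≤ #(Finset.Icc 1 w) := by
            apply Finset.card_le_card
            intro m hm
            rw [Finset.mem_filter, Finset.mem_Icc] at hm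
            rw [Finset.mem_Icc]
            exact ⟨hm.1.1, hm.2⟩
        _ = w := by simp
    have h2 : ((#{m ∈ Finset.Icc 1 N | m ≤ w} : ℕ) : ℝ) ≤ w := by exact_mod_cast this
    calc ((#{m ∈ Finset.Icc 1 N | m ≤ w} : ℕ) : ℝ) * (1 / (w : ℝ)) ≤ w * (1 / w) := by gcongr
      _ = 1 := by field_simp
  have h2 : ∑ m ∈ Finset.Icc 1 N with w < m, y * (1 / (m : ℝ) ^ 2) ≤ 2 := by
    rw [← Finset.mul_sum]
    by_cases hwN : w ≤ N
    · have h3 : ∑ m ∈ Finset.Icc 1 N with w < m, 1 / (m : ℝ) ^ 2 ≤ 1 / (w : ℝ) - 1 / (N : ℝ) := by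
        refine le_trans (le_of_eq ?_) (sum_inv_sq w N hw1 hwN)
        apply Finset.sum_congr _ (fun _ _ => rfl)
        ext m
        simp only [Finset.mem_filter, Finset.mem_Icc, Finset.mem_Ioc]
        omega
      have h4 : 0 ≤ 1 / (N : ℝ) := by positivity
      calc y * ∑ m ∈ Finset.Icc 1 N with w < m, 1 / (m : ℝ) ^ 2 ≤ y * (1 / w) := by
            gcongr
            linarith
        _ ≤ 2 := by
            rw [mul_one_div, div_le_iff₀ (by linarith)]; linarith
    · rw [Finset.sum_eq_zero]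
      · simp
      · intro m hm
        rw [Finset.mem_filter, Finset.mem_Icc] at hm
        omega
  linarith

theorem term_wt_eq (g : ℕ → ℂ) (κ y : ℝ) (n : ℕ) (hn : 1 ≤ n) :
    LSeries.term g ((1 + κ : ℝ) : ℂ) n * (wt y n : ℂ) = ((vw κ y n : ℝ) : ℂ) * g n := by
  have hn0 : n ≠ 0 := by omega
  have hnr : (0 : ℝ) < n := by exact_mod_cast hn
  rw [LSeries.term_of_ne_zero hn0]
  have h1 : (n : ℂ) ^ (((1 + κ : ℝ) : ℂ)) = ((Real.exp ((1 + κ) * Real.log n) : ℝ) : ℂ) := by
    rw [Complex.cpow_def_of_ne_zero (by exact_mod_cast hn0), ← Complex.natCast_log, Complex.ofReal_exp]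
    congr 1
    push_cast
    ring
  rw [h1]
  unfold vw wt
  have h2 : Real.exp (-((1 + κ) * Real.log n) - (Real.log n - Real.log y) ^ 2 / 2) =
      (Real.exp ((1 + κ) * Real.log n))⁻¹ * Real.exp (-((Real.log n - Real.log y) ^ 2 / 2)) := by
    rw [← Real.exp_neg, ← Real.exp_add]
    congr 1
  rw [h2]
  push_cast
  ring

theorem SS_D_bound {g : ℕ → ℂ} {D : ℝ} (hD0 : 0 ≤ D)
    (hG : ∀ m : ℕ, 1 ≤ m → ‖∑ k ∈ Finset.Icc 1 m, g k‖ ≤ D * m)
    (habs : LSeries.abscissaOfAbsConv g ≤ 1) (κ y : ℝ)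
    (hκ : 0 < κ) (hκ1 : κ ≤ 1) (hy : 1 ≤ y) :
    ‖SS g κ y‖ ≤ 64 * D := by
  set v : ℕ → ℂ := fun n => ((vw κ y n : ℝ) : ℂ) with hv
  have hterm : ∀ n : ℕ, 1 ≤ n → LSeries.term g ((1 + κ : ℝ) : ℂ) n * (wt y n : ℂ) = v n * g n :=
    fun n hn => term_wt_eq g κ y n hn
  have hpart : ∀ N : ℕ, ‖∑ n ∈ Finset.range (N + 2), LSeries.term g ((1 + κ : ℝ) : ℂ) n * (wt y n : ℂ)‖ ≤ 64 * D := by
    intro N
    have h1 : ∑ n ∈ Finset.range (N + 2), LSeries.term g ((1 + κ : ℝ) : ℂ) n * (wt y n : ℂ) =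
        ∑ n ∈ Finset.Icc 1 (N + 1), v n * g n := by
      rw [Finset.range_eq_Ico, Finset.sum_eq_sum_Ico_succ_bot (by omega), LSeries.term_zero, zero_mul, zero_add]
      have : Finset.Ico (0 + 1) (N + 2) = Finset.Icc 1 (N + 1) := by
        ext n; simp only [Finset.mem_Ico, Finset.mem_Icc]; omega
      rw [this]
      apply Finset.sum_congr rfl
      intro n hn
      exact hterm n (Finset.mem_Icc.mp hn).1
    rw [h1, abel_gen]
    have hb1 : ‖v (N + 1) * ∑ k ∈ Finset.Icc 1 (N + 1), g k‖ ≤ D := by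
      rw [norm_mul]
      have h2 : ‖v (N + 1)‖ ≤ 1 / ((N + 1 : ℕ) : ℝ) := by
        rw [hv]
        simp only
        rw [Complex.norm_real, Real.norm_of_nonneg (show 0 ≤ vw κ y _ from (Real.exp_pos _).le)]
        refine (vw_le κ y _ hκ.le (by push_cast; linarith [Nat.cast_nonneg (α := ℝ) N])).trans ?_
        rw [one_div]
        apply mul_le_of_le_one_right (by positivity)
        rw [Real.exp_le_one_iff]
        have := sq_nonneg (Real.log ((N + 1 : ℕ) : ℝ) - Real.log y)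
        linarith
      have hN0 : (0 : ℝ) < ((N + 1 : ℕ) : ℝ) := by positivity
      calc ‖v (N + 1)‖ * ‖∑ k ∈ Finset.Icc 1 (N + 1), g k‖
          ≤ (1 / ((N + 1 : ℕ) : ℝ)) * (D * ((N + 1 : ℕ) : ℝ)) := by
            gcongr
            exact hG _ (by omega)
        _ = D := by field_simp
    have hb2 : ‖∑ m ∈ Finset.Icc 1 N, (v (m + 1) - v m) * ∑ k ∈ Finset.Icc 1 m, g k‖ ≤ 63 * D := by
      refine (norm_sum_le _ _).trans ?_
      have h3 : ∀ m ∈ Finset.Icc 1 N, ‖(v (m + 1) - v m) * ∑ k ∈ Finset.Icc 1 m, g k‖ ≤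
          21 * D * (1 / (m : ℝ) * Real.exp (-|Real.log m - Real.log y|)) := by
        intro m hm
        rw [Finset.mem_Icc] at hm
        have hm0 : (0 : ℝ) < m := by exact_mod_cast hm.1
        rw [norm_mul]
        have h4 : ‖v (m + 1) - v m‖ ≤ 21 / (m : ℝ) ^ 2 * Real.exp (-|Real.log m - Real.log y|) := by
          rw [hv]
          simp only
          rw [← Complex.ofReal_sub, Complex.norm_real, Real.norm_eq_abs]
          exact vw_diff κ y hκ.le hκ1 m hm.1
        calc ‖v (m + 1) - v m‖ * ‖∑ k ∈ Finset.Icc 1 m, g k‖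
            ≤ (21 / (m : ℝ) ^ 2 * Real.exp (-|Real.log m - Real.log y|)) * (D * m) := by
              gcongr
              exact hG m hm.1
          _ = 21 * D * (1 / (m : ℝ) * Real.exp (-|Real.log m - Real.log y|)) := by
              field_simp
      refine (Finset.sum_le_sum h3).trans ?_
      rw [← Finset.mul_sum]
      have := sum_window y hy N
      nlinarith
    calc _ ≤ D + 63 * D := (norm_sub_le _ _).trans (add_le_add hb1 hb2)
      _ = 64 * D := by ring
  have hlim := (SS_summable habs κ y hκ).hasSum.tendsto_sum_nat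
  have hlim2 := (hlim.comp (Filter.tendsto_add_atTop_nat 2)).norm
  exact le_of_tendsto hlim2 (Filter.Eventually.of_forall hpart)

theorem SS_PB_bound {g : ℕ → ℂ} {M η : ℝ} {j : ℕ} (h : PB g M η j) (hM : 0 ≤ M)
    (hη : 0 < η) (habs : LSeries.abscissaOfAbsConv g ≤ 1) (κ y : ℝ)
    (hκ : 0 < κ) (hκ1 : κ ≤ 1) (hy : 1 ≤ y) :
    ‖SS g κ y‖ ≤ 64 * (M * (j.factorial * (1 / η) ^ j)) := by
  apply SS_D_bound (by positivity) _ habs κ y hκ hκ1 hy
  intro m hm
  have hm1 : (1 : ℝ) ≤ m := by exact_mod_cast hm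
  have h1 := log_pow_le m η hm1 hη j
  calc ‖∑ k ∈ Finset.Icc 1 m, g k‖ ≤ M * (m : ℝ) ^ (1 - η) * (Real.log m) ^ j := h m hm
    _ ≤ M * (m : ℝ) ^ (1 - η) * (j.factorial * (1 / η) ^ j * (m : ℝ) ^ η) := by gcongr
    _ = (M * (j.factorial * (1 / η) ^ j)) * ((m : ℝ) ^ (1 - η) * (m : ℝ) ^ η) := by ring
    _ = (M * (j.factorial * (1 / η) ^ j)) * m := by
        rw [← Real.rpow_add (by linarith)]
        simp

end Pool.Agent.H22
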