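import Pool.Agent.H22.Core
import Pool.Agent.H22.PNTCopy

/-!
The real form of the smoothed sums and the lower bound modulo a fixed modulus.
-/

set_option autoImplicit false

open Finset Real MeasureTheory

namespace Pool.Agent.H22

open Pool.Agent.H16

noncomputable def fr (q z : ℕ) (a : ZMod q) (n : ℕ) : ℝ :=
  if (n : ZMod q) = a ∧ Rg z n then ArithmeticFunction.vonMangoldt n * Real.log n else 0

theorem fr_nonneg (q z : ℕ) (a : ZMod q) (n : ℕ) : 0 ≤ fr q z a n := by
  unfold fr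
  split_ifs
  · exact mul_nonneg ArithmeticFunction.vonMangoldt_nonneg (Real.log_natCast_nonneg n)
  · exact le_rfl

theorem FL_eq_fr (q z : ℕ) (a : ZMod q) (n : ℕ) : FL q z a n = ((fr q z a n : ℝ) : ℂ) := by
  unfold FL fr
  split_ifs
  · push_cast; ring
  · simp

theorem vw_pos (κ y t : ℝ) : 0 < vw κ y t := Real.exp_pos _

/-- real smoothed sums -/
noncomputable def SR (g : ℕ → ℝ) (κ y : ℝ) : ℝ := ∑' n : ℕ, g n * vw κ y n

theorem SR_summable {g : ℕ → ℝ} (hg0 : g 0 = 0)
    (hf : LSeries.abscissaOfAbsConv (fun n => (g n : ℂ)) ≤ 1) (κ y : ℝ) (hκ : 0 < κ) :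
    Summable (fun n : ℕ => g n * vw κ y n) := by
  have h1 := SS_summable hf κ y hκ
  rw [← Complex.summable_ofReal]
  refine h1.congr (fun n => ?_)
  rcases Nat.eq_zero_or_pos n with hn | hn
  · subst hn
    rw [LSeries.term_zero, hg0]; simp
  · rw [term_wt_eq _ κ y n hn]
    push_cast; ring

theorem SS_eq_SR {g : ℕ → ℝ} (hg0 : g 0 = 0) (κ y : ℝ) :
    SS (fun n => (g n : ℂ)) κ y = ((SR g κ y : ℝ) : ℂ) := by
  unfold SS SR
  rw [Complex.ofReal_tsum]
  congr 1
  ext n
  rcases Nat.eq_zero_or_pos n with hn | hn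
  · subst hn
    rw [LSeries.term_zero, hg0]; simp
  · rw [term_wt_eq _ κ y n hn]
    push_cast; ring

theorem fr_zero (q z : ℕ) (a : ZMod q) : fr q z a 0 = 0 := by
  unfold fr
  split_ifs <;> simp

theorem fr_summable (q z : ℕ) (a : ZMod q) (κ y : ℝ) (hκ : 0 < κ) :
    Summable (fun n : ℕ => fr q z a n * vw κ y n) := by
  apply SR_summable (fr_zero q z a) _ κ y hκ
  have : (fun n => ((fr q z a n : ℝ) : ℂ)) = FL q z a := by
    ext n; exact (FL_eq_fr q z a n).symm
  rw [this]
  exact FL_abs q z a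

theorem SS_FL (q z : ℕ) (a : ZMod q) (κ y : ℝ) : SS (FL q z a) κ y = ((SR (fr q z a) κ y : ℝ) : ℂ) := by
  have : (fun n => ((fr q z a n : ℝ) : ℂ)) = FL q z a := by
    ext n; exact (FL_eq_fr q z a n).symm
  rw [← this]
  exact SS_eq_SR (fr_zero q z a) κ y

theorem Rg_prime {z p : ℕ} (hp : p.Prime) (h : z < p) : Rg z p := by
  intro r hr hd
  rw [mem_primesIoc] at hr
  have := (Nat.prime_dvd_prime_iff_eq hr.2.2 hp).mp hd
  omega

/-- lower bound for the smoothed sum modulo a fixed modulus -/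
theorem SR_lower (N : ℕ) (hN : 1 ≤ N) : ∃ y0 : ℝ, ∀ y : ℝ, y0 ≤ y → ∀ z : ℕ, (z : ℝ) ≤ y →
    ∀ b : ZMod N, IsUnit b →
    Real.log y / 50 ≤ (Nat.totient N : ℝ) * SR (fr N z b) (1 / Real.log y) y := by
  have : NeZero N := ⟨by omega⟩
  have hφ : (0 : ℝ) < Nat.totient N := by exact_mod_cast Nat.totient_pos.mpr hN
  -- uniform PNT
  have hP : ∀ b : ZMod N, ∃ x0 : ℝ, ∀ x : ℝ, x0 ≤ x → IsUnit b →
      |(∑ p ∈ Pool.Agent.H22.P90.primesRes N b ⌊x⌋₊, Real.log p) / x - ((N.totient : ℝ)⁻¹)| < (1 / 30) * ((N.totient : ℝ)⁻¹) := by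
    intro b
    by_cases hb : IsUnit b
    · have h1 := Pool.Agent.H22.P90.tendsto_theta_residue_div N b hb
      rw [Metric.tendsto_atTop] at h1
      obtain ⟨x0, hx0⟩ := h1 ((1 / 30) * ((N.totient : ℝ)⁻¹)) (by positivity)
      refine ⟨x0, fun x hx _ => ?_⟩
      have := hx0 x hx
      rwa [Real.dist_eq] at this
    · exact ⟨0, fun x _ h => absurd h hb⟩
  choose x0 hx0 using hP
  set X := ∑ b : ZMod N, |x0 b| with hX
  have hXb : ∀ b, x0 b ≤ X := fun b =>
    (le_abs_self _).trans (Finset.single_le_sum (f := fun b => |x0 b|) (fun _ _ => abs_nonneg _) (Finset.mem_univ b))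
  have hX0 : 0 ≤ X := Finset.sum_nonneg (fun _ _ => abs_nonneg _)
  refine ⟨X + 3, ?_⟩
  intro y hy z hz b hb
  have hy3 : (3 : ℝ) ≤ y := by linarith
  have hy0 : (0 : ℝ) < y := by linarith
  have hl1 : 1 < Real.log y := by
    rw [Real.lt_log_iff_exp_lt hy0]
    have := Real.exp_one_lt_d9
    linarith
  set φ := (N.totient : ℝ) with hφd
  have hA := hx0 b y (by linarith [hXb b]) hb
  have hB := hx0 b (2 * y) (by linarith [hXb b]) hb
  set T1 := ∑ p ∈ Pool.Agent.H22.P90.primesRes N b ⌊y⌋₊, Real.log p with hT1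
  set T2 := ∑ p ∈ Pool.Agent.H22.P90.primesRes N b ⌊2 * y⌋₊, Real.log p with hT2
  rw [abs_lt] at hA hB
  have hT1u : T1 ≤ (31 / 30) * φ⁻¹ * y := by
    have h1 : T1 / y < (31 / 30) * φ⁻¹ := by linarith [hA.2]
    rw [div_lt_iff₀ hy0] at h1
    exact h1.le
  have hT2l : (29 / 30) * φ⁻¹ * (2 * y) ≤ T2 := by
    have h1 : (29 / 30) * φ⁻¹ < T2 / (2 * y) := by linarith [hB.1]
    rw [lt_div_iff₀ (by linarith)] at h1
    exact h1.le
  have hsub : Pool.Agent.H22.P90.primesRes N b ⌊y⌋₊ ⊆ Pool.Agent.H22.P90.primesRes N b ⌊2 * y⌋₊ := by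
    intro p hp
    unfold Pool.Agent.H22.P90.primesRes at hp ⊢
    rw [Finset.mem_filter, Finset.mem_Icc] at hp ⊢
    refine ⟨⟨hp.1.1, hp.1.2.trans (Nat.floor_mono (by linarith))⟩, hp.2⟩
  set P := Pool.Agent.H22.P90.primesRes N b ⌊2 * y⌋₊ \ Pool.Agent.H22.P90.primesRes N b ⌊y⌋₊ with hPdef
  have hPsum : ∑ p ∈ P, Real.log p = T2 - T1 := by
    have h1 := Finset.sum_sdiff (f := fun p : ℕ => Real.log p) hsub
    rw [hPdef, hT2, hT1, ← h1]
    ring
  have hPlow : (9 / 10) * φ⁻¹ * y ≤ ∑ p ∈ P, Real.log p := by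
    rw [hPsum]
    have : (29 / 30) * φ⁻¹ * (2 * y) - (31 / 30) * φ⁻¹ * y = (9 / 10) * φ⁻¹ * y := by ring
    linarith
  have hterm : ∀ p ∈ P, Real.log p * (Real.log y * (1 / (20.1 * (2 * y)))) ≤
      fr N z b p * vw (1 / Real.log y) y p := by
    intro p hp
    rw [hPdef, Finset.mem_sdiff] at hp
    unfold Pool.Agent.H22.P90.primesRes at hp
    rw [Finset.mem_filter, Finset.mem_Icc, Finset.mem_filter, Finset.mem_Icc] at hp
    obtain ⟨⟨⟨hp1, hp2⟩, hpp, hpb⟩, hnot⟩ := hp
    have hpy : y < p := by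
      by_contra hc
      push Not at hc
      exact hnot ⟨⟨hp1, Nat.le_floor hc⟩, hpp, hpb⟩
    have hp2y : (p : ℝ) ≤ 2 * y := by
      have := Nat.floor_le (show (0 : ℝ) ≤ 2 * y by linarith)
      exact le_trans (by exact_mod_cast hp2) this
    have hzp : z < p := by
      have : (z : ℝ) < p := by linarith
      exact_mod_cast this
    have hfr : fr N z b p = Real.log p * Real.log p := by
      unfold fr
      rw [if_pos ⟨hpb, Rg_prime hpp hzp⟩, ArithmeticFunction.vonMangoldt_apply_prime hpp]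
    rw [hfr]
    have hlp : Real.log y ≤ Real.log p := Real.log_le_log hy0 hpy.le
    have hp0 : (0 : ℝ) < p := by linarith
    have hlp2 : Real.log p ≤ Real.log y + Real.log 2 := by
      rw [← Real.log_mul hy0.ne' (by norm_num)]
      exact Real.log_le_log hp0 (by linarith)
    have hln2 : Real.log 2 < 1 := by have := Real.log_two_lt_d9; linarith
    have hln20 : 0 < Real.log 2 := Real.log_pos (by norm_num)
    have hvw : 1 / (20.1 * (2 * y)) ≤ vw (1 / Real.log y) y p := by
      have h1 : vw (1 / Real.log y) y p = (p : ℝ)⁻¹ * Real.exp (-(1 / Real.log y * Real.log p) -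
          (Real.log p - Real.log y) ^ 2 / 2) := by
        unfold vw
        have h0 : (p : ℝ)⁻¹ = Real.exp (-Real.log p) := by
          rw [Real.exp_neg, Real.exp_log hp0]
        rw [h0, ← Real.exp_add]
        congr 1
        ring
      rw [h1]
      have h2 : 1 / Real.log y * Real.log p ≤ 2 := by
        rw [one_div, inv_mul_le_iff₀ (by linarith)]
        linarith
      have h3 : (Real.log p - Real.log y) ^ 2 / 2 ≤ 1 := by
        have : (Real.log p - Real.log y) ^ 2 ≤ 1 := by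
          have h4 : 0 ≤ Real.log p - Real.log y := by linarith
          nlinarith
        linarith
      have h5 : Real.exp (-3) ≤ Real.exp (-(1 / Real.log y * Real.log p) - (Real.log p - Real.log y) ^ 2 / 2) := by
        apply Real.exp_le_exp.mpr
        linarith
      have h6 : (20.1 : ℝ)⁻¹ ≤ Real.exp (-3) := by
        rw [Real.exp_neg]
        apply inv_anti₀ (Real.exp_pos _)
        have h7 : Real.exp 3 = Real.exp 1 ^ 3 := by
          rw [← Real.exp_nat_mul]; norm_num
        rw [h7]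
        have h8 := Real.exp_one_lt_d9
        have h9 := Real.exp_pos 1
        calc Real.exp 1 ^ 3 ≤ (2.7182818286 : ℝ) ^ 3 := by gcongr
          _ ≤ 20.1 := by norm_num
      calc 1 / (20.1 * (2 * y)) = (2 * y)⁻¹ * (20.1)⁻¹ := by
            rw [one_div, mul_inv, mul_comm]
        _ ≤ (p : ℝ)⁻¹ * Real.exp (-(1 / Real.log y * Real.log p) - (Real.log p - Real.log y) ^ 2 / 2) := by
            gcongr
            exact h6.trans h5
    have hlp0 : 0 ≤ Real.log p := by linarith
    calc Real.log p * (Real.log y * (1 / (20.1 * (2 * y))))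
        ≤ Real.log p * (Real.log p * vw (1 / Real.log y) y p) := by
          gcongr
      _ = _ := by ring
  have hsum : ∑ p ∈ P, Real.log p * (Real.log y * (1 / (20.1 * (2 * y)))) ≤ SR (fr N z b) (1 / Real.log y) y := by
    refine (Finset.sum_le_sum hterm).trans ?_
    unfold SR
    exact Summable.sum_le_tsum P (fun n _ => mul_nonneg (fr_nonneg _ _ _ _) (vw_pos _ _ _).le)
      (fr_summable N z b _ y (by positivity))
  rw [← Finset.sum_mul] at hsum
  have hfin : (9 / 10) * φ⁻¹ * y * (Real.log y * (1 / (20.1 * (2 * y)))) ≤ SR (fr N z b) (1 / Real.log y) y := by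
    refine le_trans ?_ hsum
    gcongr
  calc Real.log y / 50 ≤ φ * ((9 / 10) * φ⁻¹ * y * (Real.log y * (1 / (20.1 * (2 * y))))) := by
        have : φ * ((9 / 10) * φ⁻¹ * y * (Real.log y * (1 / (20.1 * (2 * y))))) = Real.log y * (9 / 402) := by
          field_simp
          ring
        rw [this]
        linarith
    _ ≤ _ := by gcongr

end Pool.Agent.H22
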