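import Pool.Agent.H22.Equid2

/-!
Romanov's sum: the mean value of `(2^d-1)/φ(2^d-1)` is bounded.
-/

set_option autoImplicit false

open Finset Real

namespace Pool.Agent.H22

open Pool.Agent.H16

/-- `(2^d-1)/φ(2^d-1)` as a product over primes -/
noncomputable def FF (d : ℕ) : ℝ := ∏ p ∈ (2 ^ d - 1 : ℕ).primeFactors, (1 - 1 / (p : ℝ))⁻¹

/-- the primes for which `2` has order `e` -/
noncomputable def TT (e : ℕ) : Finset ℕ := (2 ^ e - 1).primeFactors.filter (fun p => orderOf (2 : ZMod p) = e)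

noncomputable def tt (e : ℕ) : ℝ := ∏ p ∈ TT e, (1 - 1 / (p : ℝ))⁻¹

theorem mem_pf_iff (d p : ℕ) (hd : 1 ≤ d) :
    p ∈ (2 ^ d - 1).primeFactors ↔ p.Prime ∧ orderOf (2 : ZMod p) ∣ d := by
  have h1 : 1 ≤ 2 ^ d := Nat.one_le_two_pow
  have h2 : 2 ^ d - 1 ≠ 0 := by
    have : 2 ^ 1 ≤ 2 ^ d := Nat.pow_le_pow_right (by norm_num) hd
    omega
  rw [Nat.mem_primeFactors]
  constructor
  · rintro ⟨hp, hdvd, -⟩
    refine ⟨hp, ?_⟩
    rw [orderOf_dvd_iff_pow_eq_one]
    rw [← ZMod.natCast_eq_zero_iff, Nat.cast_sub h1] at hdvd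
    push_cast at hdvd
    exact sub_eq_zero.mp hdvd
  · rintro ⟨hp, hord⟩
    refine ⟨hp, ?_, h2⟩
    rw [orderOf_dvd_iff_pow_eq_one] at hord
    rw [← ZMod.natCast_eq_zero_iff, Nat.cast_sub h1]
    push_cast
    rw [hord]; ring

theorem mem_TT (e p : ℕ) (he : 1 ≤ e) : p ∈ TT e ↔ p.Prime ∧ orderOf (2 : ZMod p) = e := by
  unfold TT
  rw [Finset.mem_filter, mem_pf_iff e p he]
  constructor
  · rintro ⟨⟨h1, -⟩, h2⟩; exact ⟨h1, h2⟩
  · rintro ⟨h1, h2⟩; exact ⟨⟨h1, h2 ▸ dvd_rfl⟩, h2⟩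

theorem TT_disj {e f : ℕ} (h : e ≠ f) : Disjoint (TT e) (TT f) := by
  rw [Finset.disjoint_left]
  intro p h1 h2
  unfold TT at h1 h2
  rw [Finset.mem_filter] at h1 h2
  exact h (h1.2.symm.trans h2.2)

theorem FF_eq (d : ℕ) (hd : 1 ≤ d) : FF d = ∏ e ∈ d.divisors, tt e := by
  have h1 : (2 ^ d - 1).primeFactors = d.divisors.biUnion TT := by
    ext p
    rw [mem_pf_iff d p hd, Finset.mem_biUnion]
    constructor
    · rintro ⟨hp, hord⟩
      have hpos : 1 ≤ orderOf (2 : ZMod p) := Nat.pos_of_dvd_of_pos hord hd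
      exact ⟨orderOf (2 : ZMod p), Nat.mem_divisors.mpr ⟨hord, by omega⟩, (mem_TT _ p hpos).mpr ⟨hp, rfl⟩⟩
    · rintro ⟨e, he, hpe⟩
      have he1 := Nat.mem_divisors.mp he
      have hpos : 1 ≤ e := Nat.pos_of_dvd_of_pos he1.1 hd
      rw [mem_TT e p hpos] at hpe
      exact ⟨hpe.1, hpe.2 ▸ he1.1⟩
  unfold FF
  rw [h1, Finset.prod_biUnion]
  · rfl
  · intro e _ f _ hef
    exact TT_disj hef

theorem factor_ge_one {p : ℕ} (hp : p.Prime) : 1 ≤ (1 - 1 / (p : ℝ))⁻¹ := by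
  have h2 : (2 : ℝ) ≤ p := by exact_mod_cast hp.two_le
  have h3 : 1 / (p : ℝ) ≤ 1 / 2 := by
    apply one_div_le_one_div_of_le (by norm_num) h2
  have h4 : 0 < 1 / (p : ℝ) := by positivity
  rw [one_le_inv₀ (by linarith)]
  linarith

theorem tt_ge_one (e : ℕ) : 1 ≤ tt e := by
  unfold tt
  calc (1 : ℝ) = ∏ _p ∈ TT e, (1 : ℝ) := by simp
    _ ≤ _ := by
      apply Finset.prod_le_prod
      · intro _ _; norm_num
      · intro p hp
        unfold TT at hp
        rw [Finset.mem_filter, Nat.mem_primeFactors] at hp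
        exact factor_ge_one hp.1.1

theorem factor_eq {p : ℕ} (hp : 2 ≤ p) : (1 - 1 / (p : ℝ))⁻¹ = 1 + 1 / ((p : ℝ) - 1) := by
  have h2 : (2 : ℝ) ≤ p := by exact_mod_cast hp
  have h3 : (p : ℝ) - 1 ≠ 0 := by linarith
  have h4 : (p : ℝ) ≠ 0 := by linarith
  have h5 : 1 - 1 / (p : ℝ) = ((p : ℝ) - 1) / p := by field_simp
  rw [h5, inv_div]
  field_simp
  ring

theorem prod_subset_le (S T : Finset ℕ) (hST : S ⊆ T) (hT : ∀ p ∈ T, p.Prime) :
    ∏ p ∈ S, (1 - 1 / (p : ℝ))⁻¹ ≤ ∏ p ∈ T, (1 - 1 / (p : ℝ))⁻¹ := by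
  rw [← Finset.prod_sdiff hST]
  have h1 : 1 ≤ ∏ p ∈ T \ S, (1 - 1 / (p : ℝ))⁻¹ := by
    calc (1 : ℝ) = ∏ _p ∈ T \ S, (1 : ℝ) := by simp
      _ ≤ _ := by
        apply Finset.prod_le_prod
        · intro _ _; norm_num
        · intro p hp
          exact factor_ge_one (hT p (Finset.mem_sdiff.mp hp).1)
  have h2 : 0 ≤ ∏ p ∈ S, (1 - 1 / (p : ℝ))⁻¹ := by
    apply Finset.prod_nonneg
    intro p hp
    have := factor_ge_one (hT p (hST hp))
    linarith
  exact le_mul_of_one_le_left h2 h1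

theorem card_pf_le (e : ℕ) (he : 1 ≤ e) : (2 ^ e - 1).primeFactors.card ≤ e := by
  have h2 : 2 ^ e - 1 ≠ 0 := by
    have : 2 ^ 1 ≤ 2 ^ e := Nat.pow_le_pow_right (by norm_num) he
    omega
  have h3 : ∏ p ∈ (2 ^ e - 1).primeFactors, p ∣ 2 ^ e - 1 := Nat.prod_primeFactors_dvd _
  have h4 : 2 ^ (2 ^ e - 1).primeFactors.card ≤ ∏ p ∈ (2 ^ e - 1).primeFactors, p := by
    rw [← Finset.prod_const]
    apply Finset.prod_le_prod'
    intro p hp
    exact (Nat.mem_primeFactors.mp hp).1.two_le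
  have h5 := Nat.le_of_dvd (by omega) h3
  have h6 : 2 ^ (2 ^ e - 1).primeFactors.card < 2 ^ e := by omega
  exact ((Nat.pow_lt_pow_iff_right (by norm_num)).mp h6).le

theorem card_TT_le (e : ℕ) (he : 1 ≤ e) : (TT e).card ≤ e :=
  (Finset.card_filter_le _ _).trans (card_pf_le e he)

/-- products over few primes -/
theorem prod_few_primes (S : Finset ℕ) (hS : ∀ p ∈ S, p.Prime) (N : ℕ) (hN : 2 ≤ N) (hc : S.card ≤ N) :
    ∏ p ∈ S, (1 - 1 / (p : ℝ))⁻¹ ≤ 8 * Real.exp 11 * Real.log N := by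
  have hNr : (2 : ℝ) ≤ N := by exact_mod_cast hN
  have hlogN : 0 < Real.log N := Real.log_pos (by linarith)
  rw [← Finset.prod_filter_mul_prod_filter_not S (fun p => p ≤ N)]
  have h1 : ∏ p ∈ S.filter (fun p => p ≤ N), (1 - 1 / (p : ℝ))⁻¹ ≤ Real.exp 11 * Real.log N := by
    have h2 : ∏ p ∈ S.filter (fun p => p ≤ N), (1 - 1 / (p : ℝ))⁻¹ ≤
        ∏ p ∈ primesIoc 0 N, (1 - 1 / (p : ℝ))⁻¹ := by
      apply prod_subset_le
      · intro p hp
        rw [Finset.mem_filter] at hp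
        rw [mem_primesIoc]
        exact ⟨(hS p hp.1).pos, hp.2, hS p hp.1⟩
      · intro p hp
        rw [mem_primesIoc] at hp
        exact hp.2.2
    refine h2.trans ?_
    have h3 : ∏ p ∈ primesIoc 0 N, (1 - 1 / (p : ℝ))⁻¹ = (mp N)⁻¹ := by
      unfold mp
      rw [Finset.prod_inv_distrib]
    rw [h3]
    have h4 := mp_ge N hN
    have h5 : 0 < Real.exp (-11) / Real.log N := by positivity
    calc (mp N)⁻¹ ≤ (Real.exp (-11) / Real.log N)⁻¹ := inv_anti₀ h5 h4
      _ = Real.exp 11 * Real.log N := by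
        rw [inv_div, Real.exp_neg]
        field_simp
  have h2 : ∏ p ∈ S.filter (fun p => ¬ p ≤ N), (1 - 1 / (p : ℝ))⁻¹ ≤ 8 := by
    have h3 : ∏ p ∈ S.filter (fun p => ¬ p ≤ N), (1 - 1 / (p : ℝ))⁻¹ ≤
        ∏ _p ∈ S.filter (fun p => ¬ p ≤ N), Real.exp (1 / ((N : ℝ) - 1)) := by
      apply Finset.prod_le_prod
      · intro p hp
        rw [Finset.mem_filter] at hp
        have := factor_ge_one (hS p hp.1)
        linarith
      · intro p hp
        rw [Finset.mem_filter, not_le] at hp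
        have hpN : (N : ℝ) < p := by exact_mod_cast hp.2
        have hp1 : (0 : ℝ) < p - 1 := by linarith
        rw [factor_eq (hS p hp.1).two_le]
        have h5 : 1 / ((p : ℝ) - 1) ≤ 1 / ((N : ℝ) - 1) :=
          one_div_le_one_div_of_le (by linarith) (by linarith)
        have h6 := Real.add_one_le_exp (1 / ((N : ℝ) - 1))
        linarith
    refine h3.trans ?_
    rw [Finset.prod_const, ← Real.exp_nat_mul]
    have hcard : ((S.filter (fun p => ¬ p ≤ N)).card : ℝ) ≤ N := by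
      exact_mod_cast (Finset.card_filter_le _ _).trans hc
    have hN1 : (0 : ℝ) < (N : ℝ) - 1 := by linarith
    have h4 : ((S.filter (fun p => ¬ p ≤ N)).card : ℝ) * (1 / ((N : ℝ) - 1)) ≤ 2 := by
      rw [mul_one_div, div_le_iff₀ hN1]
      linarith
    calc Real.exp (((S.filter (fun p => ¬ p ≤ N)).card : ℝ) * (1 / ((N : ℝ) - 1))) ≤ Real.exp 2 :=
          Real.exp_le_exp.mpr h4
      _ ≤ 8 := by
        have h2 : Real.exp 2 = Real.exp 1 ^ 2 := by rw [← Real.exp_nat_mul]; norm_num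
        rw [h2]
        have h3 := Real.exp_one_lt_d9
        have h4 := Real.exp_pos 1
        calc Real.exp 1 ^ 2 ≤ (2.7182818286 : ℝ) ^ 2 := by gcongr
          _ ≤ 8 := by norm_num
  have h3 : 0 ≤ ∏ p ∈ S.filter (fun p => ¬ p ≤ N), (1 - 1 / (p : ℝ))⁻¹ := by
    apply Finset.prod_nonneg
    intro p hp
    rw [Finset.mem_filter] at hp
    have := factor_ge_one (hS p hp.1)
    linarith
  calc _ ≤ (Real.exp 11 * Real.log N) * 8 := by gcongr
    _ = _ := by ring

theorem prod_tt_le (M : ℕ) : ∏ e ∈ Finset.Icc 1 M, tt e ≤ 8 * Real.exp 11 * Real.log ((M ^ 2 + 2 : ℕ) : ℝ) := by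
  have h1 : ∏ e ∈ Finset.Icc 1 M, tt e = ∏ p ∈ (Finset.Icc 1 M).biUnion TT, (1 - 1 / (p : ℝ))⁻¹ := by
    rw [Finset.prod_biUnion]
    · rfl
    · intro e _ f _ hef
      exact TT_disj hef
  rw [h1]
  apply prod_few_primes _ _ _ (by omega)
  · refine Finset.card_biUnion_le.trans ?_
    calc ∑ e ∈ Finset.Icc 1 M, (TT e).card ≤ ∑ _e ∈ Finset.Icc 1 M, M := by
          apply Finset.sum_le_sum
          intro e he
          rw [Finset.mem_Icc] at he
          exact (card_TT_le e he.1).trans he.2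
      _ = M * M := by rw [Finset.sum_const, Nat.card_Icc, smul_eq_mul]; simp
      _ ≤ M ^ 2 + 2 := by nlinarith
  · intro p hp
    rw [Finset.mem_biUnion] at hp
    obtain ⟨e, he, hpe⟩ := hp
    unfold TT at hpe
    rw [Finset.mem_filter, Nat.mem_primeFactors] at hpe
    exact hpe.1.1

/-- sum of reciprocals of few distinct positive integers -/
theorem sum_inv_few (K : Finset ℕ) (hK : ∀ k ∈ K, 1 ≤ k) (N : ℕ) (hN : 1 ≤ N) (hc : K.card ≤ N) :
    ∑ k ∈ K, 1 / (k : ℝ) ≤ 2 + Real.log N := by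
  have hNr : (1 : ℝ) ≤ N := by exact_mod_cast hN
  rw [← Finset.sum_filter_add_sum_filter_not K (fun k => k ≤ N)]
  have h1 : ∑ k ∈ K.filter (fun k => k ≤ N), 1 / (k : ℝ) ≤ 1 + Real.log N := by
    have h2 : ∑ k ∈ K.filter (fun k => k ≤ N), 1 / (k : ℝ) ≤ ∑ k ∈ Finset.Icc 1 N, 1 / (k : ℝ) := by
      apply Finset.sum_le_sum_of_subset_of_nonneg
      · intro k hk
        rw [Finset.mem_filter] at hk
        rw [Finset.mem_Icc]
        exact ⟨hK k hk.1, hk.2⟩
      · intro k _ _; positivity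
    refine h2.trans ?_
    have h3 := harmonic_le_one_add_log N
    rw [harmonic_eq_sum_Icc] at h3
    push_cast at h3
    simpa [one_div] using h3
  have h2 : ∑ k ∈ K.filter (fun k => ¬ k ≤ N), 1 / (k : ℝ) ≤ 1 := by
    calc ∑ k ∈ K.filter (fun k => ¬ k ≤ N), 1 / (k : ℝ) ≤ ∑ _k ∈ K.filter (fun k => ¬ k ≤ N), 1 / (N : ℝ) := by
          apply Finset.sum_le_sum
          intro k hk
          rw [Finset.mem_filter, not_le] at hk
          have : (N : ℝ) ≤ k := by exact_mod_cast hk.2.le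
          exact one_div_le_one_div_of_le (by linarith) this
      _ = ((K.filter (fun k => ¬ k ≤ N)).card : ℝ) * (1 / N) := by rw [Finset.sum_const, nsmul_eq_mul]
      _ ≤ (N : ℝ) * (1 / N) := by
          gcongr
          exact (Finset.card_filter_le _ _).trans hc
      _ = 1 := by field_simp
  linarith

theorem tt_le (e : ℕ) (he : 1 ≤ e) : tt e ≤ 1 + 8 * ((2 + Real.log e) / e) := by
  have her : (1 : ℝ) ≤ e := by exact_mod_cast he
  have he0 : (0 : ℝ) < e := by linarith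
  have hdata : ∀ p ∈ TT e, p.Prime ∧ e ∣ p - 1 ∧ 3 ≤ p := by
    intro p hp
    have hp' := (mem_TT e p he).mp hp
    have hfact : Fact p.Prime := ⟨hp'.1⟩
    have hp2 : p ≠ 2 := by
      rintro rfl
      unfold TT at hp
      rw [Finset.mem_filter, Nat.mem_primeFactors] at hp
      have h1 := hp.1.2.1
      have h2 : 2 ∣ 2 ^ e := dvd_pow_self 2 (by omega)
      have h3 : 1 ≤ 2 ^ e := Nat.one_le_two_pow
      omega
    have h3 : 3 ≤ p := by
      have := hp'.1.two_le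
      omega
    refine ⟨hp'.1, ?_, h3⟩
    rw [← hp'.2]
    apply ZMod.orderOf_dvd_card_sub_one
    intro h0
    have h4 : ((2 : ℕ) : ZMod p) = 0 := by exact_mod_cast h0
    rw [ZMod.natCast_eq_zero_iff] at h4
    have := Nat.le_of_dvd (by norm_num) h4
    omega
  have h1 : tt e ≤ Real.exp (∑ p ∈ TT e, 1 / ((p : ℝ) - 1)) := by
    unfold tt
    rw [Real.exp_sum]
    apply Finset.prod_le_prod
    · intro p hp
      have := factor_ge_one (hdata p hp).1
      linarith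
    · intro p hp
      have hp3 : (3 : ℝ) ≤ p := by exact_mod_cast (hdata p hp).2.2
      have hp1 : (0 : ℝ) < p - 1 := by linarith
      rw [factor_eq (hdata p hp).1.two_le]
      have := Real.add_one_le_exp (1 / ((p : ℝ) - 1))
      linarith
  have h2 : ∑ p ∈ TT e, 1 / ((p : ℝ) - 1) ≤ (2 + Real.log e) / e := by
    set K := (TT e).image (fun p => (p - 1) / e) with hK
    have hinj : Set.InjOn (fun p => (p - 1) / e) (TT e) := by
      intro p hp p' hp' h
      simp only at h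
      have h5 := hdata p hp
      have h6 := hdata p' hp'
      have h7 : p - 1 = p' - 1 := by
        rw [← Nat.div_mul_cancel h5.2.1, ← Nat.div_mul_cancel h6.2.1, h]
      omega
    have h3 : ∑ p ∈ TT e, 1 / ((p : ℝ) - 1) = (1 / e) * ∑ k ∈ K, 1 / (k : ℝ) := by
      rw [hK, Finset.sum_image hinj, Finset.mul_sum]
      apply Finset.sum_congr rfl
      intro p hp
      have h5 := hdata p hp
      have h6 : ((p : ℝ) - 1) = ((p - 1) / e : ℕ) * (e : ℝ) := by
        have : p - 1 = (p - 1) / e * e := (Nat.div_mul_cancel h5.2.1).symm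
        have h7 : ((p - 1 : ℕ) : ℝ) = (p : ℝ) - 1 := by
          rw [Nat.cast_sub (by omega)]; simp
        rw [← h7]
        exact_mod_cast this
      rw [h6, one_div_mul_one_div_rev]
    rw [h3]
    have h4 := sum_inv_few K (by
      intro k hk
      rw [hK, Finset.mem_image] at hk
      obtain ⟨p, hp, rfl⟩ := hk
      have h5 := hdata p hp
      exact (Nat.one_le_div_iff (by omega)).mpr (Nat.le_of_dvd (by omega) h5.2.1)) e he
      (Finset.card_image_le.trans (card_TT_le e he))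
    calc (1 / (e : ℝ)) * ∑ k ∈ K, 1 / (k : ℝ) ≤ (1 / e) * (2 + Real.log e) := by gcongr
      _ = _ := by ring
  set x := (2 + Real.log e) / (e : ℝ) with hx
  have hlog0 : 0 ≤ Real.log e := Real.log_nonneg her
  have hx0 : 0 ≤ x := by positivity
  have hx2 : x ≤ 2 := by
    rw [hx, div_le_iff₀ he0]
    have := Real.log_le_sub_one_of_pos he0
    linarith
  have h3 : Real.exp x ≤ 1 + 8 * x := by
    -- convexity: exp x ≤ 1 + x * exp x
    have h4 : 1 - x ≤ Real.exp (-x) := by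
      have := Real.add_one_le_exp (-x)
      linarith
    have h5 : Real.exp x * Real.exp (-x) = 1 := by rw [← Real.exp_add]; simp
    have h6 : Real.exp x ≤ 8 := by
      calc Real.exp x ≤ Real.exp 2 := Real.exp_le_exp.mpr hx2
        _ ≤ 8 := by
          have h2 : Real.exp 2 = Real.exp 1 ^ 2 := by rw [← Real.exp_nat_mul]; norm_num
          rw [h2]
          have h3 := Real.exp_one_lt_d9
          have h4 := Real.exp_pos 1
          calc Real.exp 1 ^ 2 ≤ (2.7182818286 : ℝ) ^ 2 := by gcongr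
            _ ≤ 8 := by norm_num
    have h7 := Real.exp_pos x
    nlinarith
  calc tt e ≤ Real.exp (∑ p ∈ TT e, 1 / ((p : ℝ) - 1)) := h1
    _ ≤ Real.exp x := Real.exp_le_exp.mpr h2
    _ ≤ _ := h3

/-- partial products -/
noncomputable def uu (d e : ℕ) : ℝ := if e ∣ d then tt e else 1

theorem uu_ge_one (d e : ℕ) : 1 ≤ uu d e := by
  unfold uu; split_ifs
  · exact tt_ge_one e
  · exact le_rfl

theorem uu_le (d e : ℕ) : uu d e ≤ tt e := by
  unfold uu; split_ifs
  · exact le_rfl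
  · exact tt_ge_one e

theorem FF_eq_uu (d D : ℕ) (hd : 1 ≤ d) (hD : d ≤ D) : FF d = ∏ e ∈ Finset.Icc 1 D, uu d e := by
  rw [FF_eq d hd]
  unfold uu
  rw [← Finset.prod_filter]
  apply Finset.prod_congr _ (fun _ _ => rfl)
  ext e
  rw [Nat.mem_divisors, Finset.mem_filter, Finset.mem_Icc]
  constructor
  · rintro ⟨h1, h2⟩
    exact ⟨⟨Nat.pos_of_dvd_of_pos h1 hd, (Nat.le_of_dvd hd h1).trans hD⟩, h1⟩
  · rintro ⟨_, h⟩; exact ⟨h, by omega⟩

theorem romanov_ind (D m : ℕ) :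
    ∑ d ∈ Finset.Icc 1 D, ∏ e ∈ Finset.Icc 1 m, uu d e ≤
      (D : ℝ) * (1 + ∑ n ∈ Finset.Icc 1 m, (8 * Real.exp 11 * (9 * (n : ℝ) ^ (1 / 4 : ℝ))) *
        (8 * (6 * (n : ℝ) ^ (1 / 4 : ℝ) / n)) * (1 / n)) := by
  induction m with
  | zero => simp
  | succ m ih =>
    have hn0 : (0 : ℝ) < ((m + 1 : ℕ) : ℝ) := by positivity
    have hn1 : (1 : ℝ) ≤ ((m + 1 : ℕ) : ℝ) := by push_cast; linarith [Nat.cast_nonneg (α := ℝ) m]
    set n : ℝ := ((m + 1 : ℕ) : ℝ) with hn
    have hlogn : Real.log n ≤ 4 * n ^ (1 / 4 : ℝ) := by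
      have := Real.log_le_rpow_div hn0.le (show (0 : ℝ) < 1 / 4 by norm_num)
      linarith
    have hpow1 : 1 ≤ n ^ (1 / 4 : ℝ) := Real.one_le_rpow hn1 (by norm_num)
    have hlogn0 : 0 ≤ Real.log n := Real.log_nonneg hn1
    have hstep : ∀ d ∈ Finset.Icc 1 D, ∏ e ∈ Finset.Icc 1 (m + 1), uu d e ≤
        ∏ e ∈ Finset.Icc 1 m, uu d e + (if (m + 1) ∣ d then (8 * Real.exp 11 * (9 * n ^ (1 / 4 : ℝ))) *
          (8 * (6 * n ^ (1 / 4 : ℝ) / n)) else 0) := by
      intro d _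
      rw [← Finset.insert_Icc_right_eq_Icc_add_one (by omega), Finset.prod_insert (by simp)]
      have hP0 : 0 ≤ ∏ e ∈ Finset.Icc 1 m, uu d e :=
        Finset.prod_nonneg (fun e _ => by linarith [uu_ge_one d e])
      by_cases h : (m + 1) ∣ d
      · rw [if_pos h]
        have h1 : uu d (m + 1) = tt (m + 1) := by unfold uu; rw [if_pos h]
        rw [h1]
        have h2 : ∏ e ∈ Finset.Icc 1 m, uu d e ≤ 8 * Real.exp 11 * (9 * n ^ (1 / 4 : ℝ)) := by
          calc ∏ e ∈ Finset.Icc 1 m, uu d e ≤ ∏ e ∈ Finset.Icc 1 m, tt e := by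
                apply Finset.prod_le_prod
                · intro e _; linarith [uu_ge_one d e]
                · intro e _; exact uu_le d e
            _ ≤ 8 * Real.exp 11 * Real.log ((m ^ 2 + 2 : ℕ) : ℝ) := prod_tt_le m
            _ ≤ 8 * Real.exp 11 * (9 * n ^ (1 / 4 : ℝ)) := by
                gcongr
                have h3 : Real.log ((m ^ 2 + 2 : ℕ) : ℝ) ≤ Real.log (2 * n ^ 2) := by
                  apply Real.log_le_log (by positivity)
                  rw [hn]; push_cast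
                  nlinarith [Nat.cast_nonneg (α := ℝ) m]
                rw [Real.log_mul (by norm_num) (by positivity), Real.log_pow] at h3
                have h4 := Real.log_two_lt_d9
                push_cast at h3 ⊢
                linarith
        have h3 : tt (m + 1) - 1 ≤ 8 * (6 * n ^ (1 / 4 : ℝ) / n) := by
          have h4 := tt_le (m + 1) (by omega)
          rw [← hn] at h4
          have h5 : (2 + Real.log n) / n ≤ 6 * n ^ (1 / 4 : ℝ) / n := by
            gcongr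
            linarith
          linarith
        have h4 := tt_ge_one (m + 1)
        have h5 : 0 ≤ 8 * Real.exp 11 * (9 * n ^ (1 / 4 : ℝ)) := by positivity
        calc tt (m + 1) * ∏ e ∈ Finset.Icc 1 m, uu d e
            = ∏ e ∈ Finset.Icc 1 m, uu d e + (∏ e ∈ Finset.Icc 1 m, uu d e) * (tt (m + 1) - 1) := by ring
          _ ≤ _ := by
            have h6 : 0 ≤ tt (m + 1) - 1 := by linarith
            gcongr
      · rw [if_neg h]
        have h1 : uu d (m + 1) = 1 := by unfold uu; rw [if_neg h]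
        rw [h1]; linarith
    refine (Finset.sum_le_sum hstep).trans ?_
    rw [Finset.sum_add_distrib]
    have hcount : ∑ d ∈ Finset.Icc 1 D, (if (m + 1) ∣ d then (8 * Real.exp 11 * (9 * n ^ (1 / 4 : ℝ))) *
          (8 * (6 * n ^ (1 / 4 : ℝ) / n)) else 0) ≤
        (D : ℝ) * ((8 * Real.exp 11 * (9 * n ^ (1 / 4 : ℝ))) * (8 * (6 * n ^ (1 / 4 : ℝ) / n)) * (1 / n)) := by
      rw [← Finset.sum_filter, Finset.sum_const, nsmul_eq_mul]
      have h1 : (Finset.filter (fun d => (m + 1) ∣ d) (Finset.Icc 1 D)).card = D / (m + 1) := by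
        have : Finset.Icc 1 D = Finset.Ioc 0 D := by ext; simp; omega
        rw [this]
        exact Nat.Ioc_filter_dvd_card_eq_div D (m + 1)
      rw [h1]
      have h2 : ((D / (m + 1) : ℕ) : ℝ) ≤ D / n := Nat.cast_div_le
      calc ((D / (m + 1) : ℕ) : ℝ) * ((8 * Real.exp 11 * (9 * n ^ (1 / 4 : ℝ))) * (8 * (6 * n ^ (1 / 4 : ℝ) / n)))
          ≤ (D / n) * ((8 * Real.exp 11 * (9 * n ^ (1 / 4 : ℝ))) * (8 * (6 * n ^ (1 / 4 : ℝ) / n))) := by
            gcongr
        _ = _ := by ring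
    rw [← Finset.insert_Icc_right_eq_Icc_add_one (by omega), Finset.sum_insert (by simp)]
    rw [← hn]
    linarith

/-- **Romanov's sum** -/
theorem romanov : ∃ C : ℝ, 0 < C ∧ ∀ D : ℕ, ∑ d ∈ Finset.Icc 1 D, FF d ≤ C * D := by
  have hsum : Summable (fun n : ℕ => 1 / (n : ℝ) ^ (3 / 2 : ℝ)) :=
    Real.summable_one_div_nat_rpow.mpr (by norm_num)
  set Z := ∑' n : ℕ, 1 / (n : ℝ) ^ (3 / 2 : ℝ) with hZ
  have hZ0 : 0 ≤ Z := tsum_nonneg (fun n => by positivity)
  refine ⟨1 + 3456 * Real.exp 11 * Z, by positivity, ?_⟩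
  intro D
  have h1 : ∑ d ∈ Finset.Icc 1 D, FF d = ∑ d ∈ Finset.Icc 1 D, ∏ e ∈ Finset.Icc 1 D, uu d e := by
    apply Finset.sum_congr rfl
    intro d hd
    rw [Finset.mem_Icc] at hd
    exact FF_eq_uu d D hd.1 hd.2
  rw [h1]
  refine (romanov_ind D D).trans ?_
  rw [mul_comm]
  gcongr
  calc ∑ n ∈ Finset.Icc 1 D, (8 * Real.exp 11 * (9 * (n : ℝ) ^ (1 / 4 : ℝ))) *
        (8 * (6 * (n : ℝ) ^ (1 / 4 : ℝ) / n)) * (1 / n)
      = ∑ n ∈ Finset.Icc 1 D, 3456 * Real.exp 11 * (1 / (n : ℝ) ^ (3 / 2 : ℝ)) := by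
        apply Finset.sum_congr rfl
        intro n hn
        rw [Finset.mem_Icc] at hn
        have hn0 : (0 : ℝ) < n := by exact_mod_cast hn.1
        have h2 : (n : ℝ) ^ (1 / 4 : ℝ) * (n : ℝ) ^ (1 / 4 : ℝ) * (n : ℝ) ^ (3 / 2 : ℝ) = n * n := by
          rw [← Real.rpow_add hn0, ← Real.rpow_add hn0]
          norm_num
          exact sq (n : ℝ)
        have h3 : (0 : ℝ) < (n : ℝ) ^ (3 / 2 : ℝ) := Real.rpow_pos_of_pos hn0 _
        field_simp
        nlinarith
    _ = 3456 * Real.exp 11 * ∑ n ∈ Finset.Icc 1 D, (1 / (n : ℝ) ^ (3 / 2 : ℝ)) := by rw [Finset.mul_sum]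
    _ ≤ 3456 * Real.exp 11 * Z := by
        gcongr
        exact hsum.sum_le_tsum _ (fun n _ => by positivity)

end Pool.Agent.H22
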