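import Pool.Agent.H22.FirstM

/-!
Second moment and the final theorem.
-/

set_option autoImplicit false

open Finset Real

namespace Pool.Agent.H22

open Pool.Agent.H16

/-- numbers `W` with `W/φ(W)` large -/
theorem exists_W (R : ℝ) : ∃ W : ℕ, W % 2 = 1 ∧ R ≤ EW W := by
  obtain ⟨w, hw⟩ : ∃ w : ℕ, 3 ≤ w ∧ 2 * R ≤ Real.log w := by
    refine ⟨⌈Real.exp (2 * R)⌉₊ + 3, by omega, ?_⟩
    have h1 : Real.exp (2 * R) ≤ ((⌈Real.exp (2 * R)⌉₊ + 3 : ℕ) : ℝ) := by
      have := Nat.le_ceil (Real.exp (2 * R))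
      push_cast; linarith
    have h2 := Real.log_le_log (Real.exp_pos _) h1
    rwa [Real.log_exp] at h2
  set W := ∏ p ∈ primesIoc 2 w, p with hW
  have hW0 : W ≠ 0 := by
    rw [hW, Finset.prod_ne_zero_iff]
    intro p hp
    rw [mem_primesIoc] at hp
    exact hp.2.2.ne_zero
  have hpf : ∀ p, p.Prime → (p ∣ W ↔ p ∈ primesIoc 2 w) := by
    intro p hp
    rw [hW, Prime.dvd_finsetProd_iff (Nat.prime_iff.mp hp)]
    constructor
    · rintro ⟨r, hr, hpr⟩
      have hr' := mem_primesIoc.mp hr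
      rw [(Nat.prime_dvd_prime_iff_eq hp hr'.2.2).mp hpr]
      exact hr
    · intro h; exact ⟨p, h, dvd_rfl⟩
  have hodd : W % 2 = 1 := by
    by_contra hc
    have h2 : 2 ∣ W := by omega
    have := (hpf 2 Nat.prime_two).mp h2
    rw [mem_primesIoc] at this
    omega
  refine ⟨W, hodd, ?_⟩
  have h1 := EW_two_mul W hodd
  have h2 : (mp w)⁻¹ ≤ EW (2 * W) := by
    have h3 : (mp w)⁻¹ = ∏ p ∈ primesIoc 0 w, (1 - 1 / (p : ℝ))⁻¹ := by
      unfold mp
      rw [Finset.prod_inv_distrib]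
    rw [h3]
    unfold EW
    apply prod_subset_le
    · intro p hp
      rw [mem_primesIoc] at hp
      rw [Nat.mem_primeFactors]
      refine ⟨hp.2.2, ?_, by omega⟩
      by_cases hp2 : p = 2
      · rw [hp2]; exact dvd_mul_right 2 W
      · apply Dvd.dvd.mul_left
        rw [hpf p hp.2.2, mem_primesIoc]
        have := hp.2.2.two_le
        exact ⟨by omega, hp.2.1, hp.2.2⟩
    · intro p hp
      exact (Nat.mem_primeFactors.mp hp).1
  have h4 := mp_le w (by omega)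
  have hlw : 0 < Real.log w := by
    apply Real.log_pos
    exact_mod_cast (by omega : 1 < w)
  have h5 : 0 < mp w := lt_of_lt_of_le (by positivity) (mp_ge w (by omega))
  have h6 : Real.log w ≤ (mp w)⁻¹ := by
    rw [le_inv_comm₀ hlw h5]
    rw [one_div] at h4
    exact h4
  linarith

/-- squares of cardinalities through ordered pairs -/
theorem card_sq_le (S : Finset ℕ) (n : ℕ) (hS : S ⊆ Finset.Icc 2 n) :
    S.card ^ 2 ≤ S.card + 2 * #{x ∈ Finset.Icc 2 n ×ˢ Finset.Icc 1 n | x.1 ∈ S ∧ x.1 + x.2 ∈ S} := by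
  have h1 : S.card ^ 2 = (S ×ˢ S).card := by rw [Finset.card_product, sq]
  have h2 : S ×ˢ S = (S.image (fun i => (i, i)) ∪ (S ×ˢ S).filter (fun x => x.1 < x.2)) ∪
      (S ×ˢ S).filter (fun x => x.2 < x.1) := by
    ext ⟨a, b⟩
    simp only [Finset.mem_product, Finset.mem_union, Finset.mem_image, Finset.mem_filter, Prod.mk.injEq]
    constructor
    · rintro ⟨ha, hb⟩
      rcases lt_trichotomy a b with h | h | h
      · left; right; exact ⟨⟨ha, hb⟩, h⟩
      · left; left; exact ⟨a, ha, rfl, h⟩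
      · right; exact ⟨⟨ha, hb⟩, h⟩
    · rintro ((⟨i, hi, rfl, rfl⟩ | ⟨h, -⟩) | ⟨h, -⟩)
      · exact ⟨hi, hi⟩
      · exact h
      · exact h
  have h3 : ((S ×ˢ S).filter (fun x => x.2 < x.1)).card ≤ ((S ×ˢ S).filter (fun x => x.1 < x.2)).card := by
    apply Finset.card_le_card_of_injOn Prod.swap
    · intro x hx
      simp only [Finset.coe_filter, Finset.mem_product, Set.mem_ofPred_eq, Prod.fst_swap, Prod.snd_swap] at hx ⊢
      exact ⟨⟨hx.1.2, hx.1.1⟩, hx.2⟩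
    · intro x _ y _ h
      exact Prod.swap_injective h
  have h4 : ((S ×ˢ S).filter (fun x => x.1 < x.2)).card ≤
      #{x ∈ Finset.Icc 2 n ×ˢ Finset.Icc 1 n | x.1 ∈ S ∧ x.1 + x.2 ∈ S} := by
    apply Finset.card_le_card_of_injOn (fun x => (x.1, x.2 - x.1))
    · intro x hx
      simp only [Finset.coe_filter, Finset.mem_product, Set.mem_ofPred_eq] at hx ⊢
      obtain ⟨⟨hx1, hx2⟩, hlt⟩ := hx
      have e1 := Finset.mem_Icc.mp (hS hx1)
      have e2 := Finset.mem_Icc.mp (hS hx2)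
      refine ⟨⟨hS hx1, ?_⟩, hx1, ?_⟩
      · rw [Finset.mem_Icc]; omega
      · rw [Nat.add_sub_cancel' hlt.le]; exact hx2
    · intro x hx y hy h
      simp only [Finset.coe_filter, Finset.mem_product, Set.mem_ofPred_eq] at hx hy
      simp only [Prod.mk.injEq] at h
      have := hx.2
      have := hy.2
      ext
      · exact h.1
      · have h5 := h.1; have h6 := h.2; omega
  have h5 : (S.image (fun i => (i, i))).card ≤ S.card := Finset.card_image_le
  rw [h1, h2]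
  have h6 := Finset.card_union_le (S.image (fun i => (i, i)) ∪ (S ×ˢ S).filter (fun x => x.1 < x.2))
    ((S ×ˢ S).filter (fun x => x.2 < x.1))
  have h7 := Finset.card_union_le (S.image (fun i => (i, i))) ((S ×ˢ S).filter (fun x => x.1 < x.2))
  omega

/-- the number of exponents `2 ≤ i ≤ n` for which `2^i W m - s` is prime -/
noncomputable def cnt (s : ℤ) (W n m : ℕ) : ℕ := #{i ∈ Finset.Icc 2 n | (Lf s i (W * m)).Prime}

theorem second_moment : ∃ (C : ℝ) (M0 : ℕ), 0 < C ∧ 3 ≤ M0 ∧ ∀ M : ℕ, M0 ≤ M → ∀ W : ℕ, W % 2 = 1 →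
    ∀ s : ℤ, s = 1 ∨ s = -1 → ∀ n : ℕ,
    ∑ m ∈ Finset.Icc 1 M with m % 2 = 1, (cnt s W n m : ℝ) ^ 2 ≤
      M * (1 + C * ((EW W) * (n / Real.log M)) ^ 2) := by
  obtain ⟨C2, M2, hC2, hM2, hpair⟩ := pair_sieve
  obtain ⟨C3, hC3, hrom⟩ := romanov
  refine ⟨4 * (C2 * C3), M2, by positivity, hM2, ?_⟩
  intro M hM W hW s hs n
  set Ω := (Finset.Icc 1 M).filter (fun m => m % 2 = 1) with hΩ
  have hMr : (3 : ℝ) ≤ M := by exact_mod_cast (by omega : 3 ≤ M)
  have hlogM : 0 < Real.log M := Real.log_pos (by linarith)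
  -- pointwise
  set P : ℕ → ℕ := fun m => #{x ∈ Finset.Icc 2 n ×ˢ Finset.Icc 1 n |
    (Lf s x.1 (W * m)).Prime ∧ (Lf s (x.1 + x.2) (W * m)).Prime} with hP
  have hpt : ∀ m, (cnt s W n m : ℝ) ^ 2 ≤ 1 + 4 * (P m : ℝ) := by
    intro m
    have h1 := card_sq_le (Finset.filter (fun i => (Lf s i (W * m)).Prime) (Finset.Icc 2 n)) n
      (Finset.filter_subset _ _)
    have h2 : #{x ∈ Finset.Icc 2 n ×ˢ Finset.Icc 1 n |
        x.1 ∈ Finset.filter (fun i => (Lf s i (W * m)).Prime) (Finset.Icc 2 n) ∧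
        x.1 + x.2 ∈ Finset.filter (fun i => (Lf s i (W * m)).Prime) (Finset.Icc 2 n)} ≤ P m := by
      rw [hP]
      simp only
      apply Finset.card_le_card
      intro x hx
      rw [Finset.mem_filter] at hx ⊢
      exact ⟨hx.1, (Finset.mem_filter.mp hx.2.1).2, (Finset.mem_filter.mp hx.2.2).2⟩
    have h3 : (cnt s W n m) ^ 2 ≤ cnt s W n m + 2 * P m := by
      unfold cnt
      omega
    have h4 : (cnt s W n m : ℝ) ^ 2 ≤ cnt s W n m + 2 * P m := by exact_mod_cast h3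
    nlinarith [sq_nonneg ((cnt s W n m : ℝ) - 1)]
  have hΩcard : (Ω.card : ℝ) ≤ M := by
    have : Ω.card ≤ M := by
      refine (Finset.card_filter_le _ _).trans ?_
      rw [Nat.card_Icc]; simp
    exact_mod_cast this
  have hPsum : ∑ m ∈ Ω, (P m : ℝ) ≤ (n : ℝ) * ((C2 * (M * (EW W) ^ 2 / (Real.log M) ^ 2)) * (C3 * n)) := by
    have h1 : ∀ m, (P m : ℝ) = ∑ x ∈ Finset.Icc 2 n ×ˢ Finset.Icc 1 n,
        (if (Lf s x.1 (W * m)).Prime ∧ (Lf s (x.1 + x.2) (W * m)).Prime then (1 : ℝ) else 0) := by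
      intro m
      rw [hP]
      simp only
      rw [Finset.sum_boole]
    rw [Finset.sum_congr rfl (fun m _ => h1 m), Finset.sum_comm]
    have h2 : ∀ x ∈ Finset.Icc 2 n ×ˢ Finset.Icc 1 n,
        ∑ m ∈ Ω, (if (Lf s x.1 (W * m)).Prime ∧ (Lf s (x.1 + x.2) (W * m)).Prime then (1 : ℝ) else 0) ≤
        C2 * (M * (EW W) ^ 2 / (Real.log M) ^ 2) * FF x.2 := by
      intro x hx
      rw [Finset.mem_product, Finset.mem_Icc, Finset.mem_Icc] at hx
      rw [Finset.sum_boole]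
      have h3 := hpair M hM W hW s hs x.1 x.2 (by omega) hx.2.1
      have h4 : ((#{m ∈ Ω | (Lf s x.1 (W * m)).Prime ∧ (Lf s (x.1 + x.2) (W * m)).Prime} : ℕ) : ℝ) ≤
          ((#{m ∈ Finset.Icc 1 M | (Lf s x.1 (W * m)).Prime ∧ (Lf s (x.1 + x.2) (W * m)).Prime} : ℕ) : ℝ) := by
        have : #{m ∈ Ω | (Lf s x.1 (W * m)).Prime ∧ (Lf s (x.1 + x.2) (W * m)).Prime} ≤
          #{m ∈ Finset.Icc 1 M | (Lf s x.1 (W * m)).Prime ∧ (Lf s (x.1 + x.2) (W * m)).Prime} := by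
          apply Finset.card_le_card
          apply Finset.filter_subset_filter
          exact Finset.filter_subset _ _
        exact_mod_cast this
      calc _ ≤ _ := h4
        _ ≤ _ := h3
        _ = _ := by ring
    refine (Finset.sum_le_sum h2).trans ?_
    rw [Finset.sum_product]
    simp only
    rw [Finset.sum_const, nsmul_eq_mul, ← Finset.mul_sum]
    have h5 := hrom n
    have h6 : ((Finset.Icc 2 n).card : ℝ) ≤ n := by
      have : (Finset.Icc 2 n).card ≤ n := by rw [Nat.card_Icc]; omega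
      exact_mod_cast this
    have h7 : 0 ≤ ∑ d ∈ Finset.Icc 1 n, FF d := Finset.sum_nonneg (fun d _ => EW_nonneg (2 ^ d - 1))
    gcongr
  calc ∑ m ∈ Ω, (cnt s W n m : ℝ) ^ 2 ≤ ∑ m ∈ Ω, (1 + 4 * (P m : ℝ)) := Finset.sum_le_sum (fun m _ => hpt m)
    _ = Ω.card + 4 * ∑ m ∈ Ω, (P m : ℝ) := by
        rw [Finset.sum_add_distrib, ← Finset.mul_sum, Finset.sum_const, nsmul_eq_mul, mul_one]
    _ ≤ M + 4 * ((n : ℝ) * ((C2 * (M * (EW W) ^ 2 / (Real.log M) ^ 2)) * (C3 * n))) := by gcongr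
    _ = M * (1 + 4 * (C2 * C3) * ((EW W) * (n / Real.log M)) ^ 2) := by ring

open Classical in
/-- Many primes with the same odd part, relative to the multiples of `W`. -/
theorem tone_gen : ∃ δ0 : ℝ, 0 < δ0 ∧ ∀ s : ℤ, s = 1 ∨ s = -1 → ∀ (ε : ℝ), 0 < ε →
    ∃ c R : ℝ, 0 < c ∧ ∀ W : ℕ, W % 2 = 1 → R ≤ EW W → ∃ M2 : ℕ, ∀ M : ℕ, M2 ≤ M →
      δ0 * M ≤ ((#{m ∈ Finset.Icc 1 M | m % 2 = 1 ∧
        c * EW W ≤ ((#{i ∈ Finset.Icc 1 ⌊ε * Real.log ((W * m : ℕ) : ℝ)⌋₊ | (Lf s i (W * m)).Prime} : ℕ) : ℝ)} :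
          ℕ) : ℝ) := by
  obtain ⟨A, c1, hc1, hA, hfirst⟩ := first_moment
  obtain ⟨C, M0, hC, hM0, hsecond⟩ := second_moment
  have hAr : (2 : ℝ) ≤ A := by exact_mod_cast hA
  set G := 1 + C * (4 / c1 ^ 2) with hG
  have hG1 : 1 ≤ G := by
    rw [hG]
    have : 0 ≤ C * (4 / c1 ^ 2) := by positivity
    linarith
  have hG0 : 0 < G := by linarith
  refine ⟨1 / (8 * G), by positivity, ?_⟩
  intro s hs ε hε
  set β := min (1 / (2 * A : ℝ)) (ε / 2) with hβ
  have hβ0 : 0 < β := by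
    rw [hβ]; exact lt_min (by positivity) (by positivity)
  have hβ1 : β ≤ 1 / (2 * A) := min_le_left _ _
  have hβ2 : β ≤ ε / 2 := min_le_right _ _
  refine ⟨c1 * β / 4, 2 / (c1 * β), by positivity, ?_⟩
  intro W hW hWR
  have hW1 : 1 ≤ W := by omega
  set E := EW W with hE
  set lam := c1 * β / 2 * E with hlam
  have hlam1 : 1 ≤ lam := by
    rw [hlam]
    calc (1 : ℝ) = c1 * β / 2 * (2 / (c1 * β)) := by field_simp
      _ ≤ _ := by gcongr
  have hE0 : 0 ≤ E := EW_nonneg W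
  obtain ⟨M1, hM1, hM1'⟩ := hfirst W hW
  have hWr : (1 : ℝ) ≤ W := by exact_mod_cast hW1
  refine ⟨M0 + M1 + ⌈Real.exp (4 / β)⌉₊ + ⌈(16 * G) ^ 2⌉₊ + 2, ?_⟩
  intro M hMge
  have hMr : (3 : ℝ) ≤ M := by exact_mod_cast (by omega : 3 ≤ M)
  have hM0r : (0 : ℝ) < M := by linarith
  set L := Real.log M with hL
  have hL4 : 4 ≤ β * L := by
    have h1 : Real.exp (4 / β) ≤ M := by
      refine (Nat.le_ceil _).trans ?_
      exact_mod_cast (by omega : ⌈Real.exp (4 / β)⌉₊ ≤ M)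
    have h2 : 4 / β ≤ L := by
      rw [hL, Real.le_log_iff_exp_le hM0r]; exact h1
    rw [div_le_iff₀ hβ0] at h2
    linarith
  have hL0 : 0 < L := Real.log_pos (by linarith)
  have hM8 : (16 * G) ^ 2 ≤ M := by
    refine (Nat.le_ceil _).trans ?_
    exact_mod_cast (by omega : ⌈(16 * G) ^ 2⌉₊ ≤ M)
  set n := ⌊β * L⌋₊ with hn
  have hnle : (n : ℝ) ≤ β * L := Nat.floor_le (by linarith)
  have hnge : β * L - 1 < n := by
    have := Nat.lt_floor_add_one (β * L)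
    linarith
  set Ω := (Finset.Icc 1 M).filter (fun m => m % 2 = 1) with hΩ
  -- first moment
  have hS1 : lam * M ≤ ∑ m ∈ Ω, (cnt s W n m : ℝ) := by
    have h1 : ∑ m ∈ Ω, (cnt s W n m : ℝ) = ∑ i ∈ Finset.Icc 2 n,
        ((#{m ∈ Finset.Icc 1 M | m % 2 = 1 ∧ (Lf s i (W * m)).Prime} : ℕ) : ℝ) := by
      have h2 : ∀ m, (cnt s W n m : ℝ) = ∑ i ∈ Finset.Icc 2 n, (if (Lf s i (W * m)).Prime then (1 : ℝ) else 0) := by
        intro m
        unfold cnt
        rw [Finset.sum_boole]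
      rw [Finset.sum_congr rfl (fun m _ => h2 m), Finset.sum_comm]
      apply Finset.sum_congr rfl
      intro i _
      rw [Finset.sum_boole, hΩ, Finset.filter_filter]
    rw [h1]
    have h2 : ∀ i ∈ Finset.Icc 2 n, c1 * (E * (M / L)) ≤
        ((#{m ∈ Finset.Icc 1 M | m % 2 = 1 ∧ (Lf s i (W * m)).Prime} : ℕ) : ℝ) := by
      intro i hi
      rw [Finset.mem_Icc] at hi
      apply hM1' M (by omega) s hs i hi.1
      -- 2^i ≤ M^(1/(2A))
      have h3 : (2 : ℝ) ^ i ≤ Real.exp (n : ℝ) := by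
        calc (2 : ℝ) ^ i ≤ 2 ^ n := pow_le_pow_right₀ (by norm_num) hi.2
          _ ≤ (Real.exp 1) ^ n := by
            gcongr
            have := Real.add_one_le_exp 1
            linarith
          _ = Real.exp (n : ℝ) := by rw [← Real.exp_nat_mul]; simp
      refine h3.trans ?_
      rw [Real.rpow_def_of_pos hM0r, ← hL]
      apply Real.exp_le_exp.mpr
      calc (n : ℝ) ≤ β * L := hnle
        _ ≤ (1 / (2 * A)) * L := by gcongr
        _ = _ := by ring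
    have h3 := Finset.sum_le_sum h2
    rw [Finset.sum_const, nsmul_eq_mul, Nat.card_Icc] at h3
    refine le_trans ?_ h3
    have h4 : ((n + 1 - 2 : ℕ) : ℝ) = (n : ℝ) - 1 := by
      have hn2 : 2 ≤ n := by
        have : (2 : ℝ) < n := by linarith
        exact_mod_cast this.le
      rw [Nat.cast_sub (by omega)]; push_cast; ring
    rw [h4]
    calc lam * M = (β * L / 2) * (c1 * (E * (M / L))) := by
          rw [hlam]; field_simp
      _ ≤ ((n : ℝ) - 1) * (c1 * (E * (M / L))) := by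
          gcongr
          linarith
  -- second moment
  have hS2 : ∑ m ∈ Ω, (cnt s W n m : ℝ) ^ 2 ≤ M * (lam ^ 2 * G) := by
    have h1 := hsecond M (by omega) W hW s hs n
    refine h1.trans ?_
    gcongr
    rw [← hE, ← hL]
    have h2 : E * (n / L) ≤ E * β := by
      gcongr
      rw [div_le_iff₀ hL0]; exact hnle
    have h3 : 0 ≤ E * (n / L) := by positivity
    have h4 : (E * (n / L)) ^ 2 ≤ (E * β) ^ 2 := by gcongr
    have h5 : (E * β) ^ 2 = lam ^ 2 * (4 / c1 ^ 2) := by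
      rw [hlam]; field_simp; ring
    have h6 : 1 ≤ lam ^ 2 := by nlinarith only [hlam1]
    calc 1 + C * (E * (n / L)) ^ 2 ≤ lam ^ 2 + C * (lam ^ 2 * (4 / c1 ^ 2)) := by
          rw [← h5]
          gcongr
      _ = lam ^ 2 * G := by rw [hG]; ring
  -- large values
  set T := Ω.filter (fun m => lam / 2 ≤ (cnt s W n m : ℝ)) with hT
  have hTsum : lam * M / 2 ≤ ∑ m ∈ T, (cnt s W n m : ℝ) := by
    have h1 := Finset.sum_filter_add_sum_filter_not Ω (fun m => lam / 2 ≤ (cnt s W n m : ℝ))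
      (fun m => (cnt s W n m : ℝ))
    have h2 : ∑ m ∈ Ω.filter (fun m => ¬ lam / 2 ≤ (cnt s W n m : ℝ)), (cnt s W n m : ℝ) ≤ lam * M / 2 := by
      calc ∑ m ∈ Ω.filter (fun m => ¬ lam / 2 ≤ (cnt s W n m : ℝ)), (cnt s W n m : ℝ)
          ≤ ∑ _m ∈ Ω.filter (fun m => ¬ lam / 2 ≤ (cnt s W n m : ℝ)), lam / 2 := by
            apply Finset.sum_le_sum
            intro m hm
            rw [Finset.mem_filter, not_le] at hm
            exact hm.2.le
        _ = ((Ω.filter (fun m => ¬ lam / 2 ≤ (cnt s W n m : ℝ))).card : ℝ) * (lam / 2) := by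
            rw [Finset.sum_const, nsmul_eq_mul]
        _ ≤ (M : ℝ) * (lam / 2) := by
            gcongr
            refine (Finset.card_filter_le _ _).trans ((Finset.card_filter_le _ _).trans ?_)
            rw [Nat.card_Icc]; simp
        _ = lam * M / 2 := by ring
    rw [← hT] at h1
    linarith
  have hCS : (lam * M / 2) ^ 2 ≤ (T.card : ℝ) * (M * (lam ^ 2 * G)) := by
    have h1 : (∑ m ∈ T, (cnt s W n m : ℝ)) ^ 2 ≤ (T.card : ℝ) * ∑ m ∈ T, (cnt s W n m : ℝ) ^ 2 :=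
      sq_sum_le_card_mul_sum_sq
    have h2 : ∑ m ∈ T, (cnt s W n m : ℝ) ^ 2 ≤ ∑ m ∈ Ω, (cnt s W n m : ℝ) ^ 2 := by
      apply Finset.sum_le_sum_of_subset_of_nonneg (Finset.filter_subset _ _)
      intro m _ _; positivity
    calc (lam * M / 2) ^ 2 ≤ (∑ m ∈ T, (cnt s W n m : ℝ)) ^ 2 := by gcongr
      _ ≤ (T.card : ℝ) * ∑ m ∈ T, (cnt s W n m : ℝ) ^ 2 := h1
      _ ≤ (T.card : ℝ) * (M * (lam ^ 2 * G)) := by gcongr; exact h2.trans hS2
  have hTcard : (M : ℝ) / (4 * G) ≤ T.card := by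
    rw [div_le_iff₀ (by positivity)]
    have h1 : (lam * M / 2) ^ 2 = (lam ^ 2 * M) * (M / 4) := by ring
    have h2 : (T.card : ℝ) * (M * (lam ^ 2 * G)) = (lam ^ 2 * M) * (T.card * G) := by ring
    rw [h1, h2] at hCS
    have h3 : 0 < lam ^ 2 * M := by positivity
    have h4 := le_of_mul_le_mul_left hCS h3
    linarith
  -- remove small m
  set T' := T.filter (fun m => M ≤ m ^ 2) with hT'
  have hT'card : (M : ℝ) / (8 * G) ≤ T'.card := by
    have h1 : T.card ≤ T'.card + (Finset.range (Nat.sqrt M + 1)).card := by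
      rw [← Finset.card_filter_add_card_filter_not (s := T) (fun m => M ≤ m ^ 2)]
      gcongr
      intro m hm
      rw [Finset.mem_filter, not_le] at hm
      rw [Finset.mem_range]
      have : m ≤ Nat.sqrt M := by
        rw [Nat.le_sqrt']
        exact hm.2.le
      omega
    rw [Finset.card_range] at h1
    have h2 : (T.card : ℝ) ≤ T'.card + ((Nat.sqrt M : ℝ) + 1) := by exact_mod_cast h1
    have h3 : ((Nat.sqrt M : ℕ) : ℝ) ≤ Real.sqrt M := Real.nat_sqrt_le_real_sqrt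
    have h4 : 16 * G ≤ Real.sqrt M := Real.le_sqrt_of_sq_le hM8
    have h5 : Real.sqrt M * Real.sqrt M = M := Real.mul_self_sqrt hM0r.le
    have h6 : Real.sqrt M ≤ M / (16 * G) := by
      rw [le_div_iff₀ (by positivity)]
      calc Real.sqrt M * (16 * G) ≤ Real.sqrt M * Real.sqrt M := by gcongr
        _ = M := h5
    have h7 : (M : ℝ) / (4 * G) = M / (8 * G) + (M / (16 * G) + M / (16 * G)) := by field_simp; ring
    linarith
  -- transfer
  have hsub : T'.card ≤ #{m ∈ Finset.Icc 1 M | m % 2 = 1 ∧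
        c1 * β / 4 * E ≤ ((#{i ∈ Finset.Icc 1 ⌊ε * Real.log ((W * m : ℕ) : ℝ)⌋₊ | (Lf s i (W * m)).Prime} : ℕ) : ℝ)} := by
    apply Finset.card_le_card
    intro m hm
    simp only [hT', hT, hΩ, Finset.mem_filter, Finset.mem_Icc] at hm
    obtain ⟨⟨⟨⟨hm1, hmM⟩, hmodd⟩, hk⟩, hmsq⟩ := hm
    rw [Finset.mem_filter, Finset.mem_Icc]
    have hlk : c1 * β / 4 * E = lam / 2 := by rw [hlam]; ring
    refine ⟨⟨hm1, hmM⟩, hmodd, (hlk ▸ hk).trans ?_⟩
    apply Nat.cast_le.mpr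
    unfold cnt
    apply Finset.card_le_card
    intro i hi
    rw [Finset.mem_filter, Finset.mem_Icc] at hi ⊢
    refine ⟨⟨by omega, ?_⟩, hi.2⟩
    refine hi.1.2.trans ?_
    apply Nat.floor_mono
    have hm0 : (0 : ℝ) < m := by exact_mod_cast hm1
    have h1 : L ≤ 2 * Real.log m := by
      have : Real.log M ≤ Real.log ((m : ℝ) ^ 2) := by
        apply Real.log_le_log hM0r
        exact_mod_cast hmsq
      rw [Real.log_pow] at this
      push_cast at this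
      exact this
    have h2 : Real.log m ≤ Real.log ((W * m : ℕ) : ℝ) := by
      apply Real.log_le_log hm0
      push_cast
      nlinarith
    have h3 : 0 ≤ Real.log m := Real.log_natCast_nonneg m
    calc β * L ≤ (ε / 2) * (2 * Real.log m) := by gcongr
      _ = ε * Real.log m := by ring
      _ ≤ _ := by gcongr
  have hfin := (Nat.cast_le (α := ℝ)).mpr hsub
  refine le_trans (le_of_eq ?_) (hT'card.trans hfin)
  ring

/-- the main theorem -/
theorem tone (s : ℤ) (hs : s = 1 ∨ s = -1) (k : ℕ) (ε : ℝ) (hε : 0 < ε) :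
    ∃ δ : ℝ, 0 < δ ∧ ∃ Y0 : ℕ, ∀ Y : ℕ, Y0 ≤ Y →
      δ * Y ≤ ((#{y ∈ Finset.Icc 1 Y | y % 2 = 1 ∧
        k ≤ #{i ∈ Finset.Icc 1 ⌊ε * Real.log y⌋₊ | (Lf s i y).Prime}} : ℕ) : ℝ) := by
  obtain ⟨δ0, hδ0, h⟩ := tone_gen
  obtain ⟨c, R, hc, hR⟩ := h s hs ε hε
  obtain ⟨W, hW, hWR⟩ := exists_W (max R (k / c))
  obtain ⟨M2, hM2⟩ := hR W hW ((le_max_left _ _).trans hWR)
  have hkc : (k : ℝ) ≤ c * EW W := by
    have h1 := (le_max_right R (k / c)).trans hWR
    rw [div_le_iff₀ hc] at h1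
    linarith
  have hW1 : 1 ≤ W := by omega
  have hWr : (1 : ℝ) ≤ W := by exact_mod_cast hW1
  refine ⟨δ0 / (2 * W), by positivity, W * (M2 + 1), ?_⟩
  intro Y hY
  set M := Y / W with hM
  have hMge : M2 + 1 ≤ M := by
    rw [hM, Nat.le_div_iff_mul_le (by omega), mul_comm]
    exact hY
  have h1 := hM2 M (by omega)
  have hinj : #{m ∈ Finset.Icc 1 M | m % 2 = 1 ∧
        c * EW W ≤ ((#{i ∈ Finset.Icc 1 ⌊ε * Real.log ((W * m : ℕ) : ℝ)⌋₊ | (Lf s i (W * m)).Prime} : ℕ) : ℝ)} ≤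
      #{y ∈ Finset.Icc 1 Y | y % 2 = 1 ∧
        k ≤ #{i ∈ Finset.Icc 1 ⌊ε * Real.log y⌋₊ | (Lf s i y).Prime}} := by
    apply Finset.card_le_card_of_injOn (fun m => W * m)
    · intro m hm
      simp only [Finset.coe_filter, Finset.mem_Icc, Set.mem_ofPred_eq] at hm ⊢
      obtain ⟨⟨hm1, hmM⟩, hmodd, hk⟩ := hm
      have hk' : k ≤ #{i ∈ Finset.Icc 1 ⌊ε * Real.log ((W * m : ℕ) : ℝ)⌋₊ | (Lf s i (W * m)).Prime} := by
        exact_mod_cast hkc.trans hk
      refine ⟨⟨Nat.one_le_iff_ne_zero.mpr (Nat.mul_ne_zero (by omega) (by omega)), ?_⟩, ?_, hk'⟩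
      · calc W * m ≤ W * M := Nat.mul_le_mul_left W hmM
          _ ≤ Y := by rw [hM]; exact Nat.mul_div_le Y W
      · rw [Nat.mul_mod, hW, hmodd]
    · intro m _ m' _ h
      exact Nat.eq_of_mul_eq_mul_left (by omega) h
  have hinj' := (Nat.cast_le (α := ℝ)).mpr hinj
  refine le_trans ?_ (h1.trans hinj')
  -- Y/W ≤ 2 M
  have hYM : (Y : ℝ) ≤ 2 * (W * M) := by
    have h1 : Y < W * (M + 1) := by
      rw [hM]
      exact Nat.lt_mul_div_succ Y (show 0 < W by omega)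
    have h2 : (Y : ℝ) ≤ W * (M + 1) := by exact_mod_cast h1.le
    have h3 : (1 : ℝ) ≤ M := by exact_mod_cast (by omega : 1 ≤ M)
    nlinarith
  calc δ0 / (2 * W) * Y ≤ δ0 / (2 * W) * (2 * (W * M)) := by gcongr
    _ = δ0 * M := by field_simp

end Pool.Agent.H22
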