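import Pool.Agent.H22.Low

/-!
Second logarithmic derivative, and Gaussian transforms of Dirichlet series.
-/

set_option autoImplicit false

open Finset Real MeasureTheory

namespace Pool.Agent.H22

open Pool.Agent.H16

/-- `χ(n) Λ(n)` on rough numbers -/
noncomputable def chL {q : ℕ} (z : ℕ) (χ : DirichletCharacter ℂ q) (n : ℕ) : ℂ :=
  lft z χ (n : ZMod (q * primorial z)) * (ArithmeticFunction.vonMangoldt n : ℂ)

theorem chL_abs {q : ℕ} (z : ℕ) (χ : DirichletCharacter ℂ q) :
    LSeries.abscissaOfAbsConv (chL z χ) ≤ 1 := by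
  apply LSeries.abscissaOfAbsConv_le_of_forall_lt_LSeriesSummable'
  intro y hy
  have hy1 : 1 < (y : ℂ).re := by
    rw [Complex.ofReal_re]; exact_mod_cast hy
  exact DirichletCharacter.LSeriesSummable_twist_vonMangoldt (lft z χ) hy1

theorem X1_eq {q : ℕ} {z : ℕ} (hz : 2 ≤ z) (χ : DirichletCharacter ℂ q) (s : ℂ) (hs : 1 < s.re) :
    LSeries (LSeries.logMul (chL z χ)) s =
      LSeries (LSeries.logMul^[2] (bfun z χ)) s /
        LSeries (fun n : ℕ => lft z χ (n : ZMod (q * primorial z))) s -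
      (LSeries (LSeries.logMul^[1] (bfun z χ)) s /
        LSeries (fun n : ℕ => lft z χ (n : ZMod (q * primorial z))) s) ^ 2 := by
  set f : ℕ → ℂ := fun n : ℕ => lft z χ (n : ZMod (q * primorial z)) with hf
  have hlt : ∀ w : ℂ, 1 < w.re → ∀ g : ℕ → ℂ, LSeries.abscissaOfAbsConv g ≤ 1 →
      LSeries.abscissaOfAbsConv g < w.re := by
    intro w hw g hg
    refine lt_of_le_of_lt hg ?_
    exact_mod_cast hw
  have hfabs : LSeries.abscissaOfAbsConv f ≤ 1 := lft_abs z χ
  have hAne : LSeries f s ≠ 0 := DirichletCharacter.LSeries_ne_zero_of_one_lt_re (lft z χ) hs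
  have hA : HasDerivAt (LSeries f) (-LSeries (LSeries.logMul f) s) s :=
    LSeries_hasDerivAt (hlt s hs f hfabs)
  have hlabs : LSeries.abscissaOfAbsConv (LSeries.logMul f) ≤ 1 := by
    rw [LSeries.abscissaOfAbsConv_logMul]; exact hfabs
  have hA1 : HasDerivAt (LSeries (LSeries.logMul f)) (-LSeries (LSeries.logMul (LSeries.logMul f)) s) s :=
    LSeries_hasDerivAt (hlt s hs _ hlabs)
  have hF : HasDerivAt (LSeries (chL z χ)) (-LSeries (LSeries.logMul (chL z χ)) s) s :=
    LSeries_hasDerivAt (hlt s hs _ (chL_abs z χ))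
  have heq : LSeries (chL z χ) =ᶠ[nhds s] fun w => LSeries (LSeries.logMul f) w / LSeries f w := by
    have hopen : IsOpen {w : ℂ | 1 < w.re} := isOpen_lt continuous_const Complex.continuous_re
    filter_upwards [hopen.mem_nhds hs] with w hw
    have h1 := DirichletCharacter.LSeries_twist_vonMangoldt_eq (lft z χ) hw
    have h2 : deriv (LSeries f) w = -LSeries (LSeries.logMul f) w := LSeries_deriv (hlt w hw f hfabs)
    have h3 : LSeries (chL z χ) w = -deriv (LSeries f) w / LSeries f w := h1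
    rw [h3, h2, neg_neg]
  have hQ := (hA1.div hA hAne).congr_of_eventuallyEq heq
  have huniq := hF.unique hQ
  have e1 : LSeries.logMul f = LSeries.logMul^[1] (bfun z χ) := by
    have := logMul_lft hz χ 1 le_rfl
    simpa using this
  have e2 : LSeries.logMul (LSeries.logMul f) = LSeries.logMul^[2] (bfun z χ) := by
    have := logMul_lft hz χ 2 (by norm_num)
    simpa using this
  rw [e2, e1] at huniq
  have h4 : LSeries (LSeries.logMul (chL z χ)) s =
      -((-LSeries (LSeries.logMul^[2] (bfun z χ)) s * LSeries f s -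
        LSeries (LSeries.logMul^[1] (bfun z χ)) s * -LSeries (LSeries.logMul^[1] (bfun z χ)) s) /
        LSeries f s ^ 2) := by
    rw [← huniq, neg_neg]
  rw [h4]
  field_simp
  ring

/-- Gaussian weight in the logarithmic scale -/
noncomputable def wt (y : ℝ) (n : ℕ) : ℝ := Real.exp (-((Real.log n - Real.log y) ^ 2 / 2))

theorem wt_nonneg (y : ℝ) (n : ℕ) : 0 ≤ wt y n := (Real.exp_pos _).le

theorem wt_le_one (y : ℝ) (n : ℕ) : wt y n ≤ 1 := by
  unfold wt
  rw [Real.exp_le_one_iff]
  have := sq_nonneg (Real.log n - Real.log y)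
  linarith

/-- the smoothed sum -/
noncomputable def SS (f : ℕ → ℂ) (κ y : ℝ) : ℂ :=
  ∑' n, LSeries.term f ((1 + κ : ℝ) : ℂ) n * (wt y n : ℂ)

theorem SS_summable {f : ℕ → ℂ} (hf : LSeries.abscissaOfAbsConv f ≤ 1) (κ y : ℝ) (hκ : 0 < κ) :
    Summable (fun n => LSeries.term f ((1 + κ : ℝ) : ℂ) n * (wt y n : ℂ)) := by
  have h1 : LSeriesSummable f ((1 + κ : ℝ) : ℂ) := summable_of_abs hf (by simp [hκ])
  apply Summable.of_norm_bounded h1.norm
  intro n
  rw [norm_mul, Complex.norm_real, Real.norm_of_nonneg (wt_nonneg y n)]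
  exact mul_le_of_le_one_right (norm_nonneg _) (wt_le_one y n)

theorem gauss_transform {f : ℕ → ℂ} (hf : LSeries.abscissaOfAbsConv f ≤ 1) (κ y : ℝ) (hκ : 0 < κ) :
    ∫ t : ℝ, ((Real.exp (-((1 / 2) * t ^ 2)) : ℝ) : ℂ) * (Complex.exp (Complex.I * t * Real.log y) *
      LSeries f ((1 + κ : ℝ) + t * Complex.I)) = (Real.sqrt (2 * π) : ℂ) * SS f κ y := by
  set F : ℕ → ℝ → ℂ := fun n t => ((Real.exp (-((1 / 2) * t ^ 2)) : ℝ) : ℂ) *
    (LSeries.term f ((1 + κ : ℝ) : ℂ) n * Complex.exp (-(Complex.I * t * (Real.log n - Real.log y : ℝ)))) with hF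
  have h1 : LSeriesSummable f ((1 + κ : ℝ) : ℂ) := summable_of_abs hf (by simp [hκ])
  have hphase : ∀ t u : ℝ, ‖Complex.exp (-(Complex.I * t * u))‖ = 1 := by
    intro t u
    rw [Complex.norm_exp]
    simp
  have hg : Integrable (fun t : ℝ => Real.exp (-((1 / 2) * t ^ 2))) := gauss_integrable (1 / 2) (by norm_num)
  have hFint : ∀ n, Integrable (F n) := by
    intro n
    have h2 : Integrable (fun t : ℝ => ‖LSeries.term f ((1 + κ : ℝ) : ℂ) n‖ * Real.exp (-((1 / 2) * t ^ 2))) :=
      hg.const_mul _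
    apply h2.mono' (by rw [hF]; fun_prop)
    refine Filter.Eventually.of_forall fun t => ?_
    simp only [hF]
    rw [norm_mul, norm_mul, hphase, Complex.norm_real, Real.norm_of_nonneg (Real.exp_pos _).le, mul_one, mul_comm]
  have hnorm : ∀ n, ∫ t, ‖F n t‖ = ‖LSeries.term f ((1 + κ : ℝ) : ℂ) n‖ * Real.sqrt (π / (1 / 2)) := by
    intro n
    rw [← gauss_int (1 / 2), ← integral_const_mul]
    congr 1
    ext t
    simp only [hF]
    rw [norm_mul, norm_mul, hphase, Complex.norm_real, Real.norm_of_nonneg (Real.exp_pos _).le, mul_one, mul_comm]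
  have hsum : Summable fun n => ∫ t, ‖F n t‖ := by
    simp_rw [hnorm]
    exact h1.norm.mul_right _
  have hkey := (hasSum_integral_of_summable_integral_norm hFint hsum).tsum_eq
  have hleft : ∀ n, ∫ t, F n t = LSeries.term f ((1 + κ : ℝ) : ℂ) n *
      ((Real.sqrt (2 * π) : ℂ) * (wt y n : ℂ)) := by
    intro n
    have h3 := gauss_ft (1 / 2) (Real.log n - Real.log y) (by norm_num)
    have h4 : ∫ t, F n t = LSeries.term f ((1 + κ : ℝ) : ℂ) n * ∫ t : ℝ, ((Real.exp (-((1 / 2) * t ^ 2)) : ℝ) : ℂ) *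
        Complex.exp (-(Complex.I * t * (Real.log n - Real.log y : ℝ))) := by
      rw [← integral_const_mul]
      congr 1
      ext t
      simp only [hF]
      ring
    rw [h4, h3]
    congr 1
    rw [← Complex.ofReal_mul]
    congr 1
    unfold wt
    congr 2
    · ring
    · ring
  have hright : ∀ t : ℝ, ∑' n, F n t = ((Real.exp (-((1 / 2) * t ^ 2)) : ℝ) : ℂ) *
      (Complex.exp (Complex.I * t * Real.log y) * LSeries f ((1 + κ : ℝ) + t * Complex.I)) := by
    intro t
    unfold LSeries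
    rw [← tsum_mul_left, ← tsum_mul_left]
    congr 1
    ext n
    simp only [hF]
    congr 1
    rcases Nat.eq_zero_or_pos n with rfl | hn
    · simp
    · have hn0 : n ≠ 0 := by omega
      have hnc : (n : ℂ) ≠ 0 := by exact_mod_cast hn0
      rw [LSeries.term_of_ne_zero hn0, LSeries.term_of_ne_zero hn0, Complex.cpow_add _ _ hnc]
      have h5 : (n : ℂ) ^ ((t : ℂ) * Complex.I) = Complex.exp (Complex.I * t * Real.log n) := by
        rw [Complex.cpow_def_of_ne_zero hnc, Complex.natCast_log]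
        congr 1; ring
      rw [h5]
      have h6 : Complex.exp (-(Complex.I * t * (Real.log n - Real.log y : ℝ))) =
          Complex.exp (Complex.I * t * Real.log y) / Complex.exp (Complex.I * t * Real.log n) := by
        rw [← Complex.exp_sub]; congr 1; push_cast; ring
      rw [h6]
      have h7 : Complex.exp (Complex.I * t * Real.log n) ≠ 0 := Complex.exp_ne_zero _
      have h8 : (n : ℂ) ^ (((1 + κ : ℝ) : ℂ)) ≠ 0 := by
        rw [Complex.cpow_ne_zero_iff]; left; exact hnc
      field_simp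
  simp_rw [hright] at hkey
  rw [← hkey]
  simp_rw [hleft]
  unfold SS
  rw [← tsum_mul_left]
  congr 1
  ext n
  ring

end Pool.Agent.H22
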